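import Pool.Agent.H90.STV.Tni
import Pool.Agent.H6.ASM.V0a

/-!
# The parts of the sheet with a thin third place and a static target whose slope is no integer

`partV_v`, `partB_v`: parts from class theorems of void kinds. `tni_V`, `tni_B`: the parts for the slopes
which are no integers and less than the slope of the third place plus one.
-/

set_option autoImplicit false

namespace Pool.PKG

open Pool.GEN

theorem VoidG.z {ι Λ : Type} [Nonempty ι] [Nonempty Λ] {n : ℕ} {h : ℝ} {Sl : ℕ → ℝ} {κ : ℕ → Kg}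
    (H : VoidG n h Sl κ) (Q : PropG n ι) (Z : Λ → PropW n) : VoidZ n h Sl κ Q Z := by
  intro al hal K₀ hK₀ S₀ hS₀
  obtain ⟨K, N, A, V, h1, h2, H⟩ := H al hal K₀ hK₀ S₀ hS₀
  refine ⟨K, N, A, V, h1, h2, fun S₂ hS₂ => ?_⟩
  obtain ⟨K', N', V', h3, h4, ε, hε, H⟩ := H S₂ hS₂
  refine ⟨Classical.arbitrary Λ, K', N', V', h3, h4, ε, hε,
    fun S g₀ P θ P₂ θ₂ Eb e₂ c Pt r L T G g _ _ _ _ => ⟨fun _ =>
    Classical.arbitrary ι, 0, fun _ => 0, fun _ => 1, fun j hj => absurd hj (Nat.not_lt_zero j),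
    fun _ _ => ?_⟩⟩
  obtain ⟨q₁, hq₁, H⟩ := H S g₀ P θ P₂ θ₂ Eb e₂ c Pt r L T G g
  exact ⟨q₁, hq₁, fun q t _ hq _ hR => H q t hq hR⟩

end Pool.PKG

namespace Pool.ASM

open Pool.GEN Pool.PKG Pool.ALT Pool.LA91

variable {κ : ℕ → Kg} {Φ Φ' Ψ : (ℕ → ℝ) → Prop} {Adm : (ℕ → ℝ) → AltJ → PropW 4}
  {β : (ℕ → ℝ) → ℝ}

/-- The part of full rate from a class theorem of a void kind. -/
theorem partV_v (H : ∀ h : ℝ, 0 < h → h ≤ 1 → ∀ Sl : ℕ → ℝ, Φ Sl → VoidG 4 h Sl κ) :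
    PartV κ Φ Adm β :=
  ⟨ℕ × ℕ × ℚ × ℚ, inferInstance, FaQ, aePG_fa 4, her_fa 4, fun h h0 h1 Sl hS =>
    haveI : Nonempty (PosR × ℕ) := ⟨(⟨1, one_pos⟩, 0)⟩
    (H h h0 h1 Sl hS).z _ _⟩

/-- The part of small rate from a class theorem of a void kind. -/
theorem partB_v (H : ∀ h : ℝ, 0 < h → h ≤ 1 → ∀ Sl : ℕ → ℝ, Φ Sl → VoidG 4 h Sl κ) :
    PartB κ Φ Adm β :=
  ⟨ℕ × ℕ × ℚ × ℚ, inferInstance, FaQ, aePG_fa 4, her_fa 4, fun h h0 h1 Sl hS _ _ =>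
    haveI : Nonempty PosR := ⟨⟨1, one_pos⟩⟩
    (H h h0 h1 Sl hS).z _ _⟩

/-- **Two ranges of the slopes**, full rate. -/
theorem PartV.num (H : PartV κ Φ Adm β) (H' : PartV κ Φ' Adm β)
    (h : ∀ Sl, Ψ Sl → Φ Sl ∨ Φ' Sl) : PartV κ Ψ Adm β := by
  obtain ⟨ι, hc, Q, hQ, hh, H⟩ := H
  obtain ⟨ι', hc', Q', hQ', hh', H'⟩ := H'
  refine ⟨ι ⊕ ι', inferInstance, sumQ Q Q', aePG_sum hQ hh hQ', her_sum hh hh',
    fun h₁ h0 h1 Sl hS => ?_⟩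
  rcases h Sl hS with hS | hS
  · exact (H h₁ h0 h1 Sl hS).inl
  · exact (H' h₁ h0 h1 Sl hS).inr

/-- **Two ranges of the slopes**, small rate. -/
theorem PartB.num (H : PartB κ Φ Adm β) (H' : PartB κ Φ' Adm β)
    (h : ∀ Sl, Ψ Sl → Φ Sl ∨ Φ' Sl) : PartB κ Ψ Adm β := by
  obtain ⟨ι, hc, Q, hQ, hh, H⟩ := H
  obtain ⟨ι', hc', Q', hQ', hh', H'⟩ := H'
  refine ⟨ι ⊕ ι', inferInstance, sumQ Q Q', aePG_sum hQ hh hQ', her_sum hh hh',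
    fun h₁ h0 h1 Sl hS b D => ?_⟩
  rcases h Sl hS with hS | hS
  · exact (H h₁ h0 h1 Sl hS b D).inl
  · exact (H' h₁ h0 h1 Sl hS b D).inr

/-- The slopes of `tni_void`. -/
def Nni (Sl : ℕ → ℝ) : Prop := Sl 1 = 1 ∧ (∀ b : ℕ, Sl 3 ≠ b) ∧ Sl 3 < Sl 2 + 1

/-- **`u` thin, slope no integer, `b < a + 1`: full rate.** -/
theorem tni_V : PartV (kg4 .one .one .thin .sta) Nni Adm β :=
  partV_v fun _ _ _ _ hS => Pool.STV90.tni_void (by norm_num) hS.1 rfl rfl hS.2.1 hS.2.2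

/-- **`u` thin, slope no integer, `b < a + 1`: small rate.** -/
theorem tni_B : PartB (kg4 .one .one .thin .sta) Nni Adm β :=
  partB_v fun _ _ _ _ hS => Pool.STV90.tni_void (by norm_num) hS.1 rfl rfl hS.2.1 hS.2.2

end Pool.ASM
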