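import Pool.Agent.H65.STB.Ncl
import Pool.Agent.H99.D2.Bla

/-!
# The mixed derivative of the static label, from a row chain

`BlR`: the labels of a family whose derivative in the direction `c r` is near the one of the closed
label of a row chain (radius `a`, window `v`). `mxs_row`: then `MxS`.
-/

set_option autoImplicit false

namespace Pool.STV90

open Finset Real MvPolynomial
open Pool.Agent.H49.Ent Pool.Agent.H32.Dense Pool.STK Pool.KA Pool.KSAT Pool.K2S Pool.PB Pool.S6C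
open Pool.GEN Pool.CHT Pool.NVX
open Pool.SHR (dir dir_sub)
open Pool.GRD (LbP)
open Pool.ALT (Fml BlB)
open Pool.STB77 (Tgt Nls NodW tgt_of lab_two last_dir)
open Pool.STB65 (MxS)

variable {m : ℕ}

/-- **A row chain** on `A` with a label of the target `c (r + 1)`: radius `a`, window `v`, level of
`c r` at most `gu`, precision at least `p`; the label `G` (window `w`) is near its closed label in the
direction `c r`, up to `x`. -/
def RwE (c : ℕ → Fin m) (r D : ℕ) (a v e gu p x w : ℝ) (J : ℕ) (F : Fam m J) (A : F.Ω → Prop)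
    (V : Type) (z' : LnT F → V) (G : V → MvPolynomial (Option (Fin m)) ℝ) : Prop :=
  ∃ (g : ℕ → ℕ) (T : PtT F → ℕ → MvPolynomial (Option (Fin m)) ℝ)
    (TH : LnT F → ℕ → MvPolynomial (Option (Fin m)) ℝ)
    (Gt : PtT F → MvPolynomial (Option (Fin m)) ℝ)
    (Ht : LnT F → MvPolynomial (Option (Fin m)) ℝ) (P : ℕ),
    ChOK F c (r + 1) (fun _ => D) ⌊a * J⌋₊ ⌊v * J⌋₊ ⌊e * J⌋₊ g A T TH ∧
    Tgt F c (r + 1) D ⌊a * J⌋₊ ⌊v * J⌋₊ P g A T (fun ω => F.x ω (c (r + 1))) Gt Ht ∧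
    p * J ≤ P ∧ (g r : ℝ) ≤ gu * J ∧
    ∀ ω, A ω → |eval (bt F ω) (pderiv (some (c r)) (Ht (slam F ⌊v * J⌋₊ ω) -
      G (z' (slam F ⌊w * J⌋₊ ω))))| ≤ 2 ^ (x * J)

/-- Smaller events. -/
theorem RwE.sub {c : ℕ → Fin m} {r D : ℕ} {a v e gu p x w : ℝ} {J : ℕ} {F : Fam m J}
    {A B : F.Ω → Prop} {V : Type} {z' : LnT F → V} {G : V → MvPolynomial (Option (Fin m)) ℝ}
    (h : RwE c r D a v e gu p x w J F A V z' G) (hB : Sub B A) :
    RwE c r D a v e gu p x w J F B V z' G := by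
  obtain ⟨g, T, TH, Gt, Ht, P, h1, h2, h3, h4, h5⟩ := h
  exact ⟨g, T, TH, Gt, Ht, P, h1.sub hB, h2.sub hB, h3, h4, fun ω hω => h5 ω (hB ω hω)⟩

/-- **The labels of the family `Ψ` which are near the closed label of a row chain** in the direction
`c r`. -/
def BlR (c : ℕ → Fin m) (r D : ℕ) (a v e gu p x w : ℝ) (Ψ : Fml m) : Fml m :=
  fun J F A V z z' G => Ψ J F A V z z' G ∧ RwE c r D a v e gu p x w J F A V z' G

/-- Larger degrees. -/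
theorem tgt_up {J : ℕ} {F : Fam m J} {c : ℕ → Fin m} {i K K' a w q : ℕ} {g : ℕ → ℕ}
    {A : F.Ω → Prop} {G : PtT F → ℕ → MvPolynomial (Option (Fin m)) ℝ} {y : F.Ω → ℝ}
    {P : PtT F → MvPolynomial (Option (Fin m)) ℝ} {R : LnT F → MvPolynomial (Option (Fin m)) ℝ}
    (h : Tgt F c i K a w q g A G y P R) (hK : K ≤ K') : Tgt F c i K' a w q g A G y P R :=
  ⟨fun y => (h.degP y).trans hK, fun s => (h.degR s).trans hK, h.depP, h.depR, h.pos, h.agr⟩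

/-- **The mixed derivative of the static label, from a row chain**, on one event: the row chain is at
the pair of a node `k` finer than `j`. -/
theorem mx_row (D : ℕ) (hD : 1 ≤ D) : ∃ C : ℕ, ∀ {m J : ℕ} {F : Fam m J} {c : ℕ → Fin m}
    {Dr M s e e' E h j k P : ℕ} {κ X : ℝ} {Rl : ℕ → ℕ → Prop} {a w : ℕ → ℕ}
    {g : ℕ → ℕ → ℕ} {g' : ℕ → ℕ} {B : F.Ω → Prop}
    {G : ℕ → PtT F → ℕ → MvPolynomial (Option (Fin m)) ℝ}
    {H : ℕ → LnT F → ℕ → MvPolynomial (Option (Fin m)) ℝ}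
    {T : PtT F → ℕ → MvPolynomial (Option (Fin m)) ℝ}
    {TH : LnT F → ℕ → MvPolynomial (Option (Fin m)) ℝ}
    {Gt : PtT F → MvPolynomial (Option (Fin m)) ℝ} {Ht : LnT F → MvPolynomial (Option (Fin m)) ℝ}
    {Gl : F.Ω → MvPolynomial (Option (Fin m)) ℝ},
    Set.InjOn c (Set.Iio 3) → 0 ≤ κ → κ * 2 ^ 4 ≤ 1 → D ≤ Dr →
    Nls F c 3 D Dr M s Rl a w e E g h κ B G H → j < M → k < M → Rl j k →
    ChOK F c 3 (fun _ => D) (a k) (w k) e' g' B T TH →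
    Tgt F c 3 D (a k) (w k) P g' B T (fun ω => F.x ω (c 3)) Gt Ht →
    (∀ ω, B ω → |eval (bt F ω) (pderiv (some (c 2)) (Ht (slam F (w k) ω) - Gl ω))| ≤ X) →
    ∃ B' : F.Ω → Prop, Sub B' B ∧ Pe F.p B ≤ 16 * Pe F.p B' ∧ ∀ ω, B' ω →
      |eval (bt F ω) (pderiv (some (c 2)) (H j (slam F (w j) ω) 3 - Gl ω))| ≤
        2 ^ (C * (h + s + 1) + g k 2) * (1 / 2 ^ g j 3 + 1 / 2 ^ g k 3 + 1 / 2 ^ P) +
          2 ^ (C + g' 2) / 2 ^ P + X := by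
  obtain ⟨C₁, htwo⟩ := lab_two D 4 hD
  obtain ⟨C₂, hla⟩ := last_dir D 4
  refine ⟨C₁ + C₂ + 1, ?_⟩
  intro m J F c Dr M s e e' E h j k P κ X Rl a w g g' B G H T TH Gt Ht Gl hc hκ hκ4 hDr L hj hk
    hjk hT hR hX
  have pw : ∀ {x y : ℕ}, x ≤ y → (2 : ℝ) ^ x ≤ 2 ^ y := fun h => pow_le_pow_right₀ (by norm_num) h
  have nd := L.nod k hk
  have nj := L.nod j hj
  have ht := tgt_of nd.top
  obtain ⟨B', k1, k2, k3⟩ := htwo (F := F) (c := c) (i := 3) (a := a k) (w := w k) (e' := e')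
    (h := h) (q := g k 3) (q' := P) (g := g k) (g' := g') (κ := κ) (κ' := 1) (B₀ := B) (B' := B)
    (G := G k) (G' := T) (H' := TH) (y := fun ω => F.x ω (c 3)) (P := fun y => G k y 3) (P' := Gt)
    (R := fun S => H k S 3) (R' := Ht) (by norm_num) hc (nd.rlF.mono hDr le_rfl) (fun _ h => h)
    (by rw [one_mul]) hκ4 hκ hT ht hR
  refine ⟨B', k1, ?_, fun ω hω => ?_⟩
  · rw [div_le_iff₀ (by positivity)] at k2
    norm_num at k2
    linarith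
  have hω' := k1 ω hω
  have hbt : NBx c (G k (ptr F J ω)) (g k) (a k) (F.t ω) 3 (bt F ω) :=
    ⟨by show |F.t ω - F.t ω| ≤ _; rw [sub_self, abs_zero]; positivity,
      fun l hl => nd.lst.pos ω hω' l hl⟩
  have hbT : NBx c (T (ptr F J ω)) g' (a k) (F.t ω) 3 (bt F ω) :=
    ⟨by show |F.t ω - F.t ω| ≤ _; rw [sub_self, abs_zero]; positivity,
      fun l hl => hT.pos ω hω' l hl⟩
  -- the three differences
  have h1 := hla (c := c) (i := 2) (a := a k) (g := g k) (t := F.t ω) (M := 2 ^ s / 2 ^ g j 3)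
    (G := G k (ptr F J ω)) (P := G k (ptr F J ω) 3 - H j (slam F (w j) ω) 3)
    (b := bt F ω) (by norm_num) hc (nd.lst.degG _) (nd.lst.depG _)
    (fun x y hn hb => by
      rw [map_sub, map_sub, nd.top.depG _ 3 x y hn hb, nj.top.depH _ 3 x y hn hb])
    ((totalDegree_sub _ _).trans (max_le (nd.top.degG _ _) (nj.top.degH _ _)))
    (by positivity) hbt (fun b hb => by
      rw [map_sub, abs_sub_comm]
      exact L.two j hj k hk hjk ω hω' 3 le_rfl b hb)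
  have h2 := hla (c := c) (i := 2) (a := a k) (g := g k) (t := F.t ω)
    (M := 2 ^ (C₁ * (h + 1)) * (1 / 2 ^ g k 3 + 1 / 2 ^ P))
    (G := G k (ptr F J ω)) (P := G k (ptr F J ω) 3 - Gt (ptr F J ω))
    (b := bt F ω) (by norm_num) hc (nd.lst.degG _) (nd.lst.depG _)
    (fun x y hn hb => by rw [map_sub, map_sub, nd.top.depG _ 3 x y hn hb, hR.depP _ x y hn hb])
    ((totalDegree_sub _ _).trans (max_le (nd.top.degG _ _) (hR.degP _)))
    (by positivity) hbt (fun b hb => by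
      rw [map_sub]
      exact k3 ω hω b hb)
  have h3 := hla (c := c) (i := 2) (a := a k) (g := g') (t := F.t ω) (M := 1 / 2 ^ P)
    (G := T (ptr F J ω)) (P := Gt (ptr F J ω) - Ht (slam F (w k) ω))
    (b := bt F ω) (by norm_num) hc (hT.degG _) (hT.depG _)
    (fun x y hn hb => by rw [map_sub, map_sub, hR.depP _ x y hn hb, hR.depR _ x y hn hb])
    ((totalDegree_sub _ _).trans (max_le (hR.degP _) (hR.degR _)))
    (by positivity) hbT (fun b hb => by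
      rw [map_sub]
      exact hR.agr ω hω' b hb)
  have h4 := hX ω hω'
  rw [dir_ek] at h1 h2 h3
  have e1 : eval (bt F ω) (pderiv (some (c 2)) (H j (slam F (w j) ω) 3 - Gl ω)) =
      -eval (bt F ω) (pderiv (some (c 2)) (G k (ptr F J ω) 3 - H j (slam F (w j) ω) 3)) +
      eval (bt F ω) (pderiv (some (c 2)) (G k (ptr F J ω) 3 - Gt (ptr F J ω))) +
      eval (bt F ω) (pderiv (some (c 2)) (Gt (ptr F J ω) - Ht (slam F (w k) ω))) +
      eval (bt F ω) (pderiv (some (c 2)) (Ht (slam F (w k) ω) - Gl ω)) := by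
    simp only [map_sub]
    ring
  obtain ⟨Y, hY⟩ : ∃ Y : ℝ, Y = 1 / 2 ^ g j 3 + 1 / 2 ^ g k 3 + 1 / 2 ^ P := ⟨_, rfl⟩
  have p1 : (0 : ℝ) < 1 / 2 ^ g j 3 := by positivity
  have p2 : (0 : ℝ) < 1 / 2 ^ g k 3 := by positivity
  have p3 : (0 : ℝ) < 1 / 2 ^ P := by positivity
  have hY0 : 0 < Y := by rw [hY]; positivity
  have h5 : (2 : ℝ) ^ C₂ * (2 ^ s / 2 ^ g j 3 * 2 ^ g k 2) +
      2 ^ C₂ * (2 ^ (C₁ * (h + 1)) * (1 / 2 ^ g k 3 + 1 / 2 ^ P) * 2 ^ g k 2) ≤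
      2 ^ ((C₁ + C₂ + 1) * (h + s + 1) + g k 2) * Y := by
    have e2 : (2 : ℝ) ^ C₂ * (2 ^ (C₁ * (h + 1)) * (1 / 2 ^ g k 3 + 1 / 2 ^ P) * 2 ^ g k 2) ≤
        2 ^ (C₂ + C₁ * (h + 1) + s + g k 2) * Y := by
      calc (2 : ℝ) ^ C₂ * (2 ^ (C₁ * (h + 1)) * (1 / 2 ^ g k 3 + 1 / 2 ^ P) * 2 ^ g k 2) =
            2 ^ (C₂ + C₁ * (h + 1) + g k 2) * (1 / 2 ^ g k 3 + 1 / 2 ^ P) := by
            rw [pow_add, pow_add]
            ring
        _ ≤ _ := mul_le_mul (pw (by omega)) (by rw [hY]; linarith) (by positivity)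
            (by positivity)
    have e3 : (2 : ℝ) ^ C₂ * (2 ^ s / 2 ^ g j 3 * 2 ^ g k 2) ≤
        2 ^ (C₂ + C₁ * (h + 1) + s + g k 2) * Y := by
      calc (2 : ℝ) ^ C₂ * (2 ^ s / 2 ^ g j 3 * 2 ^ g k 2) =
            2 ^ (C₂ + s + g k 2) * (1 / 2 ^ g j 3) := by
            rw [pow_add, pow_add]; ring
        _ ≤ _ := mul_le_mul (pw (by omega)) (by rw [hY]; linarith) (by positivity)
            (by positivity)
    have e5 : (2 : ℝ) ^ (C₂ + C₁ * (h + 1) + s + g k 2 + 1) * Y ≤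
        2 ^ ((C₁ + C₂ + 1) * (h + s + 1) + g k 2) * Y :=
      mul_le_mul_of_nonneg_right (pw (by nlinarith [Nat.zero_le (C₁ * s), Nat.zero_le (C₂ * (h + s))]))
        hY0.le
    rw [pow_succ] at e5
    linarith
  have h6 : (2 : ℝ) ^ C₂ * (1 / 2 ^ P * 2 ^ g' 2) ≤ 2 ^ (C₁ + C₂ + 1 + g' 2) / 2 ^ P := by
    rw [le_div_iff₀ (by positivity)]
    calc (2 : ℝ) ^ C₂ * (1 / 2 ^ P * 2 ^ g' 2) * 2 ^ P = 2 ^ (C₂ + g' 2) := by
          rw [pow_add]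
          field_simp
      _ ≤ _ := pw (by omega)
  rw [e1, ← hY]
  refine (abs_add_le _ _).trans (add_le_add ((abs_add_le _ _).trans (add_le_add
    ((abs_add_le _ _).trans ?_) (h3.trans h6))) h4)
  rw [abs_neg]
  linarith

/-- A power with a smaller exponent. -/
theorem rp_of {y : ℝ} {a b : ℕ} (h : (a : ℝ) - b ≤ y) : (2 : ℝ) ^ a * (1 / 2 ^ b) ≤ 2 ^ y := by
  have h2 : (0 : ℝ) < 2 := by norm_num
  have e1 : (2 : ℝ) ^ a * (1 / 2 ^ b) = (2 : ℝ) ^ ((a : ℝ) - b) := by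
    rw [Real.rpow_sub h2, Real.rpow_natCast, Real.rpow_natCast]
    ring
  rw [e1]
  exact Real.rpow_le_rpow_of_exponent_le (by norm_num) h

/-- **The mixed derivative at the samples, from a row chain**, in a class. -/
theorem mxs_row (D D₀ : ℕ) (hD : 1 ≤ D) : ∃ C : ℕ, ∀ {m : ℕ} {S : PCl m} {c : ℕ → Fin m}
    {Dr M : ℕ} {β : ℕ → ℝ → ℝ → ℝ} {e E s s₀ w γ y a v e₁ gu p x : ℝ} {AA WW : ℕ → ℝ}
    {i j k : ℕ} {Ψ : Fml m}, Set.InjOn c (Set.Iio 3) → D ≤ Dr → D₀ ≤ Dr → 0 ≤ s → j < M →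
    k < M → AA k = a → WW k = v → AA j ≤ a → WW j ≤ v → AA j ≤ AA i → WW j ≤ WW i →
    γ ≤ β 3 (AA j) (WW j) + s₀ → y + γ ≤ β 2 (AA i) (WW i) + s₀ →
    0 ≤ β 2 a v → β 2 a v - β 3 (AA j) (WW j) + (C + 1) * s < y →
    β 2 a v - β 3 a v + (C + 1) * s < y → β 2 a v - p + C * s < y → gu - p < y →
    x < y → MxS S c D Dr M β e E s s₀ w AA WW i γ (BlR c 2 D₀ a v e₁ gu p x w Ψ) := by
  obtain ⟨C₀, hrow⟩ := mx_row (max D D₀) (hD.trans (le_max_left _ _))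
  obtain ⟨C, hC⟩ : ∃ C, C = 2 * C₀ := ⟨_, rfl⟩
  refine ⟨C, ?_⟩
  intro m S c Dr M β e E s s₀ w γ y a v e₁ gu p x AA WW i j k Ψ hc hDr hDr₀ hs hj hk hka hkv hja
    hjv hai hvi hγ hy hβ n1 n1' n2 n3 n4
  subst hka
  subst hkv
  refine ⟨j, y, hj, hai, hvi, hγ, hy, fun K₁ d ψ hK₁ hψ hd => ⟨16, by norm_num, ?_⟩⟩
  obtain ⟨δ, hδ⟩ : ∃ δ : ℝ, δ = min (min (min
      (y - (β 2 (AA k) (WW k) - β 3 (AA j) (WW j) + (C + 1) * s))
      (y - (β 2 (AA k) (WW k) - β 3 (AA k) (WW k) + (C + 1) * s)))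
      (y - (β 2 (AA k) (WW k) - p + C * s))) (min (y - (gu - p)) (y - x)) := ⟨_, rfl⟩
  have hδ0 : 0 < δ := by
    rw [hδ]
    exact lt_min (lt_min (lt_min (by linarith) (by linarith)) (by linarith))
      (lt_min (by linarith) (by linarith))
  have d1 : δ ≤ y - (β 2 (AA k) (WW k) - β 3 (AA j) (WW j) + (C + 1) * s) := by
    rw [hδ]; exact (min_le_left _ _).trans ((min_le_left _ _).trans (min_le_left _ _))
  have d1' : δ ≤ y - (β 2 (AA k) (WW k) - β 3 (AA k) (WW k) + (C + 1) * s) := by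
    rw [hδ]; exact (min_le_left _ _).trans ((min_le_left _ _).trans (min_le_right _ _))
  have d2 : δ ≤ y - (β 2 (AA k) (WW k) - p + C * s) := by
    rw [hδ]; exact (min_le_left _ _).trans (min_le_right _ _)
  have d3 : δ ≤ y - (gu - p) := by rw [hδ]; exact (min_le_right _ _).trans (min_le_left _ _)
  have d4 : δ ≤ y - x := by rw [hδ]; exact (min_le_right _ _).trans (min_le_right _ _)
  obtain ⟨J₁, hJ₁⟩ := exists_nat_ge (((C : ℝ) + 6) / δ)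
  obtain ⟨J₂, hJ₂⟩ := exists_nat_ge (4 * Real.log 2 / ψ)
  refine ⟨1, one_pos, max J₁ J₂, fun J hJ F A _ V z z' G hG B Gn Hn hBA hPe L => ?_⟩
  obtain ⟨-, g, T, TH, Gt, Ht, P, hT, hR, hpP, hgu, hX⟩ := hG
  have hJ0 : (0 : ℝ) ≤ J := Nat.cast_nonneg J
  have j1 : (C : ℝ) + 6 ≤ δ * J := by
    have h1 : (J₁ : ℝ) ≤ J := by exact_mod_cast (le_max_left _ _).trans hJ
    have h2 := hJ₁.trans h1
    rw [div_le_iff₀ hδ0] at h2
    linarith
  have j2 : Real.exp (-(ψ * J)) * 2 ^ 4 ≤ 1 := by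
    have h1 : (J₂ : ℝ) ≤ J := by exact_mod_cast (le_max_right _ _).trans hJ
    have h2 := hJ₂.trans h1
    rw [div_le_iff₀ hψ] at h2
    have h3 : (2 : ℝ) ^ 4 = Real.exp (4 * Real.log 2) := by
      rw [show (4 : ℝ) * Real.log 2 = Real.log 2 * (4 : ℕ) by push_cast; ring, Real.exp_mul,
        Real.exp_log (by norm_num), Real.rpow_natCast]
    rw [h3, ← Real.exp_add]
    exact Real.exp_le_one_iff.2 (by linarith)
  obtain ⟨B', k1, k2, k3⟩ := hrow (F := F) (c := c) (j := j) (k := k) (X := 2 ^ (x * J))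
    (Gl := fun ω => G (z' (slam F ⌊w * J⌋₊ ω))) hc (Real.exp_pos _).le j2 (max_le hDr hDr₀)
    (Pool.STB65.nls_up L (le_max_left D D₀)) hj hk ⟨hja, hjv⟩
    ((hT.sub hBA).mono le_rfl (fun _ => le_max_right D D₀) le_rfl le_rfl)
    (tgt_up (hR.sub hBA) (le_max_right D D₀)) (fun ω hω => hX ω (hBA ω hω))
  refine ⟨B', k1, k2, fun ω hω => (k3 ω hω).trans ?_⟩
  -- the numbers
  have hd2 := hd k hk 2 (by norm_num)
  have hd3 := hd j hj 3 le_rfl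
  have hd3' := hd k hk 3 le_rfl
  have g2 : ((⌊(β 2 (AA k) (WW k) - d k 2) * J⌋₊ : ℕ) : ℝ) ≤ β 2 (AA k) (WW k) * J := by
    have h1 : (0 : ℝ) ≤ β 2 (AA k) (WW k) * J := mul_nonneg hβ hJ0
    rcases le_or_gt 0 ((β 2 (AA k) (WW k) - d k 2) * (J : ℝ)) with h2 | h2
    · exact (Nat.floor_le h2).trans (mul_le_mul_of_nonneg_right (by linarith [hd2.1]) hJ0)
    · rw [Nat.floor_of_nonpos h2.le, Nat.cast_zero]
      exact h1
  have g3 : β 3 (AA j) (WW j) * J - s * J - 1 ≤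
      ((⌊(β 3 (AA j) (WW j) - d j 3) * J⌋₊ : ℕ) : ℝ) := by
    have h1 := Nat.lt_floor_add_one ((β 3 (AA j) (WW j) - d j 3) * (J : ℝ))
    have h2 : (β 3 (AA j) (WW j) - s) * (J : ℝ) ≤ (β 3 (AA j) (WW j) - d j 3) * J :=
      mul_le_mul_of_nonneg_right (by linarith [hd3.2.1]) hJ0
    linarith
  have g3' : β 3 (AA k) (WW k) * J - s * J - 1 ≤
      ((⌊(β 3 (AA k) (WW k) - d k 3) * J⌋₊ : ℕ) : ℝ) := by
    have h1 := Nat.lt_floor_add_one ((β 3 (AA k) (WW k) - d k 3) * (J : ℝ))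
    have h2 : (β 3 (AA k) (WW k) - s) * (J : ℝ) ≤ (β 3 (AA k) (WW k) - d k 3) * J :=
      mul_le_mul_of_nonneg_right (by linarith [hd3'.2.1]) hJ0
    linarith
  have hh : ((⌊s * J⌋₊ : ℕ) : ℝ) ≤ s * J := Nat.floor_le (mul_nonneg hs hJ0)
  have hC0 : (0 : ℝ) ≤ C₀ := Nat.cast_nonneg C₀
  have hCr : (C : ℝ) = 2 * C₀ := by rw [hC]; push_cast; ring
  have hCh : (C₀ : ℝ) * (⌊s * J⌋₊ + ⌊s * J⌋₊ + 1) ≤ C * (s * J) + C := by
    have h1 : (C₀ : ℝ) * (⌊s * J⌋₊ + ⌊s * J⌋₊ + 1) ≤ C₀ * (2 * (s * J) + 1) :=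
      mul_le_mul_of_nonneg_left (by linarith) hC0
    rw [hCr]
    linarith
  have hC0C : (C₀ : ℝ) ≤ C := by rw [hCr]; linarith
  have m1 := mul_le_mul_of_nonneg_right d1 hJ0
  have m1' := mul_le_mul_of_nonneg_right d1' hJ0
  have m2 := mul_le_mul_of_nonneg_right d2 hJ0
  have m3 := mul_le_mul_of_nonneg_right d3 hJ0
  have m4 := mul_le_mul_of_nonneg_right d4 hJ0
  have t1 : (2 : ℝ) ^ (C₀ * (⌊s * J⌋₊ + ⌊s * J⌋₊ + 1) + ⌊(β 2 (AA k) (WW k) - d k 2) * J⌋₊) *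
      (1 / 2 ^ ⌊(β 3 (AA j) (WW j) - d j 3) * J⌋₊) ≤ 2 ^ (y * J - 3) := rp_of (by
    push_cast
    linarith)
  have t1' : (2 : ℝ) ^ (C₀ * (⌊s * J⌋₊ + ⌊s * J⌋₊ + 1) + ⌊(β 2 (AA k) (WW k) - d k 2) * J⌋₊) *
      (1 / 2 ^ ⌊(β 3 (AA k) (WW k) - d k 3) * J⌋₊) ≤ 2 ^ (y * J - 3) := rp_of (by
    push_cast
    linarith)
  have t2 : (2 : ℝ) ^ (C₀ * (⌊s * J⌋₊ + ⌊s * J⌋₊ + 1) + ⌊(β 2 (AA k) (WW k) - d k 2) * J⌋₊) *
      (1 / 2 ^ P) ≤ 2 ^ (y * J - 3) := rp_of (by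
    push_cast
    linarith)
  have t3 : (2 : ℝ) ^ (C₀ + g 2) * (1 / 2 ^ P) ≤ 2 ^ (y * J - 3) := rp_of (by
    push_cast
    linarith)
  have t4 : (2 : ℝ) ^ (x * J) ≤ 2 ^ (y * J - 3) :=
    Real.rpow_le_rpow_of_exponent_le (by norm_num) (by linarith)
  have e1 : (2 : ℝ) ^ (y * J) = 2 ^ (y * J - 3) * 8 := by
    rw [Real.rpow_sub (by norm_num)]
    norm_num
  have e2 : (2 : ℝ) ^ (C₀ + g 2) / 2 ^ P = 2 ^ (C₀ + g 2) * (1 / 2 ^ P) := div_eq_mul_one_div _ _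
  have e3 : (0 : ℝ) < 2 ^ (y * J - 3) := by positivity
  rw [e1, mul_add, mul_add, e2]
  linarith

end Pool.STV90
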