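import Pool.Agent.H82.STB.Nrc

/-!
# Lower precision of the target

`L3m`: the levels with a lower level of one place. `nodF_low`: weak nodes for a lower level of the target.
-/

set_option autoImplicit false

namespace Pool.STV90

open Finset Real MvPolynomial
open Pool.Agent.H49.Ent Pool.Agent.H32.Dense Pool.STK Pool.KA Pool.KSAT Pool.K2S Pool.PB Pool.S6C
open Pool.GEN Pool.CHT
open Pool.STB77 (NodW NodF)

variable {m : ℕ}

/-- The levels, the one of the place `3` lower by `x`. -/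
noncomputable def L3m (L : ℕ → ℝ → ℝ → ℝ) (x : ℝ) : ℕ → ℝ → ℝ → ℝ := fun l a w =>
  if l = 3 then L l a w - x else L l a w

theorem l3m_three (L : ℕ → ℝ → ℝ → ℝ) (x a w : ℝ) : L3m L x 3 a w = L 3 a w - x := if_pos rfl

theorem l3m_ne (L : ℕ → ℝ → ℝ → ℝ) (x : ℝ) {l : ℕ} (hl : l ≠ 3) (a w : ℝ) :
    L3m L x l a w = L l a w := if_neg hl

/-- **A lower level of the target** of a node. -/
theorem nodF_last {S : PCl m} {c : ℕ → Fin m} {r D : ℕ} {β β' : ℕ → ℝ → ℝ → ℝ} {e E a w : ℝ}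
    (h : NodF S c r D β e E a w) (hβ : ∀ l < r, β' l a w = β l a w)
    (hr : β' r a w ≤ β r a w) : NodF S c r D β' e E a w := by
  refine ⟨h.1, fun Dr η σ hη hσ => ?_⟩
  obtain ⟨K₁, d, ψ, k1, k2, k3, k4⟩ := h.2 Dr η σ hη hσ
  refine ⟨K₁, d, ψ, k1, k2, k3, Bas.mono 0 k4 ?_⟩
  rintro J - F A ⟨B, T, TH, l1, l2, l3⟩
  have hJ0 : (0 : ℝ) ≤ J := Nat.cast_nonneg J
  have hg : ∀ l < r, ⌊(β' l a w - d l) * (J : ℝ)⌋₊ = ⌊(β l a w - d l) * (J : ℝ)⌋₊ :=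
    fun l hl => by rw [hβ l hl]
  have hgr : ⌊(β' r a w - d r) * (J : ℝ)⌋₊ ≤ ⌊(β r a w - d r) * (J : ℝ)⌋₊ :=
    Nat.floor_le_floor (mul_le_mul_of_nonneg_right (by linarith) hJ0)
  have hnb : ∀ {y : PtT F} {t : ℝ} {x : ℕ} {b : Option (Fin m) → ℝ},
      NBx c (T y) (fun l => ⌊(β' l a w - d l) * (J : ℝ)⌋₊) x t r b →
      NBx c (T y) (fun l => ⌊(β l a w - d l) * (J : ℝ)⌋₊) x t r b := fun hb =>
    ⟨hb.1, fun l hl => (hb.2 l hl).trans (by
      simp only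
      rw [hg l hl])⟩
  have hnb' : ∀ {y : PtT F} {t : ℝ} {x : ℕ} {b : Option (Fin m) → ℝ},
      NBx c (T y) (fun l => ⌊(β l a w - d l) * (J : ℝ)⌋₊) x t r b →
      NBx c (T y) (fun l => ⌊(β' l a w - d l) * (J : ℝ)⌋₊) x t r b := fun hb =>
    ⟨hb.1, fun l hl => (hb.2 l hl).trans (by
      simp only
      rw [hg l hl])⟩
  refine ⟨B, T, TH, l1, l2, Pool.STAT.CLO.chok_congr l3.lst fun l hl => (hg l hl).symm,
    l3.top.last (fun l hl => hg l (by omega)) (fun l hl => by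
      have : l = r := by omega
      rw [this]
      exact hgr), ?_⟩
  intro B' hB hP Dx Dl M h1 h2 h3 h4 hM h5 h6
  obtain ⟨B'', k1, k2, k3⟩ := l3.rlF B' hB hP Dx Dl M h1 h2 h3 h4 hM h5 fun ω hω b hb =>
    h6 ω hω b (hnb' hb)
  exact ⟨B'', k1, k2, fun ω hω b hb => k3 ω hω b (hnb hb)⟩

/-- Weak nodes with a lower level of the place `3`. -/
theorem nodF_low {S : PCl m} {c : ℕ → Fin m} {D : ℕ} {L : ℕ → ℝ → ℝ → ℝ} {e E a w x : ℝ}
    (h : NodF S c 3 D L e E a w) (hx : 0 ≤ x) : NodF S c 3 D (L3m L x) e E a w :=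
  nodF_last h (fun l hl => l3m_ne L x (by omega) a w) (by rw [l3m_three]; linarith)

end Pool.STV90
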