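import Pool.Agent.H65.STB.Ncl
import Pool.Agent.H99.D2.Bla
import Pool.Agent.H90.STV.Low
import Pool.Agent.H90.STV.Mxr

/-!
# The blind labels at a window, from a weak node

`NrF`: the labels near a closed label of a window `v₁`, in the direction `c r`. `blB_nod`: `BlB` at a
window `v ≥ v₁` with a weak node.
-/

set_option autoImplicit false

namespace Pool.STV90

open Finset Real MvPolynomial
open Pool.Agent.H49.Ent Pool.Agent.H32.Dense Pool.STK Pool.KA Pool.KSAT Pool.K2S Pool.PB Pool.S6C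
open Pool.GEN Pool.CHT Pool.NVX
open Pool.SHR (dir dir_sub)
open Pool.GRD (LbP)
open Pool.ALT (Fml BlB)
open Pool.BFL (Pb)
open Pool.LA91 (Pb_cond)
open Pool.D2R (co co_slam)
open Pool.STB77 (Tgt NodW NodF lab_two last_dir)

variable {m : ℕ}

/-- **The labels near a closed label** of the window `v₁`, in the direction `c r`. -/
def NrF (c : ℕ → Fin m) (r K₁ : ℕ) (v₁ w p₁ x₀ : ℝ) : Fml m := fun J F A _ _ z' G =>
  ∃ (V₁ : Type) (z₁ : PtT F → V₁) (z₁' : LnT F → V₁)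
    (G₁ : V₁ → MvPolynomial (Option (Fin m)) ℝ) (P₁ : ℕ),
    LbP F ((range (r + 1)).image c) (c (r + 1)) K₁ J ⌊v₁ * J⌋₊ P₁ A z₁ z₁' G₁ ∧
    p₁ * J ≤ P₁ ∧
    ∀ ω, A ω → |eval (bt F ω) (pderiv (some (c r)) (G₁ (z₁' (slam F ⌊v₁ * J⌋₊ ω)) -
      G (z' (slam F ⌊w * J⌋₊ ω))))| ≤ 2 ^ (x₀ * J)

/-- A closed label as a target over a chain of the same window. -/
theorem tgt_lbp {J : ℕ} {F : Fam m J} {c : ℕ → Fin m} {r K D w v P : ℕ} {g : ℕ → ℕ}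
    {A B : F.Ω → Prop} {T : PtT F → ℕ → MvPolynomial (Option (Fin m)) ℝ} {V : Type}
    {z : PtT F → V} {z' : LnT F → V} {G : V → MvPolynomial (Option (Fin m)) ℝ}
    (h : LbP F ((range (r + 1)).image c) (c (r + 1)) K J w P A z z' G) (hB : Sub B A)
    (hK : K ≤ D) (hwv : w ≤ v) (hv : v ≤ J) (a : ℕ) :
    Tgt F c (r + 1) D a v P g B T (fun ω => F.x ω (c (r + 1))) (fun y => G (z y))
      (fun s => G (z' (co (v - w) s))) := by
  have hdp : ∀ x, DepC c (r + 1) (G x) := fun x b b' hn hb => h.dep x b b' hn fun i hi => by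
    obtain ⟨l, hl, rfl⟩ := Finset.mem_image.1 hi
    exact hb l (Finset.mem_range.1 hl)
  refine ⟨fun y => (h.deg _).trans hK, fun s => (h.deg _).trans hK, fun y => hdp _, fun s => hdp _,
    fun ω hω => ?_, fun ω hω b _ => ?_⟩
  · beta_reduce
    rw [h.cls ω (hB ω hω)]
    exact h.pos ω (hB ω hω)
  · beta_reduce
    rw [co_slam F hwv hv, h.cls ω (hB ω hω), sub_self, abs_zero]
    positivity

/-- **The blind labels at a window with a weak node.** -/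
theorem blB_nod {S : PCl m} (hS : TmH S) {c : ℕ → Fin m} {r D K₁ K₂ Ku : ℕ} (hD : 1 ≤ D)
    (hc : Set.InjOn c (Set.Iio (r + 1))) {β : ℕ → ℝ → ℝ → ℝ} {e E v v₁ w p₁ p p₂ x₀ x : ℝ}
    {Ψ : Fml m} (hn : NodF S c (r + 1) D β e E v v) (hK₁ : K₁ ≤ D) (hK₂ : K₂ ≤ D) (hv : v₁ ≤ v)
    (hv1 : v < 1) (hΨ : ∀ (J : ℕ) (F : Fam m J) (A : F.Ω → Prop) (V : Type) (z : PtT F → V)
      (z' : LnT F → V) (G : V → MvPolynomial (Option (Fin m)) ℝ), Ψ J F A V z z' G →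
      NrF c r K₁ v₁ w p₁ x₀ J F A V z z' G) (hβ : 0 ≤ β r v v) (h0 : x₀ < x)
    (h1 : β r v v - p₁ < x) (h2 : β r v v - p < x) :
    BlB S c r (c (r + 1)) w v K₂ Ku p p₂ x Ψ := by
  classical
  obtain ⟨C₁, htwo⟩ := lab_two D (r + 2) hD
  obtain ⟨C₂, hla⟩ := last_dir D (r + 2)
  intro η χ hη hχ
  obtain ⟨δ, hδ⟩ : ∃ δ : ℝ, δ = min (x - x₀) (min (x - (β r v v - p₁)) (x - (β r v v - p))) :=
    ⟨_, rfl⟩
  have hδ0 : 0 < δ := by
    rw [hδ]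
    exact lt_min (by linarith) (lt_min (by linarith) (by linarith))
  have d0 : δ ≤ x - x₀ := by rw [hδ]; exact min_le_left _ _
  have d1 : δ ≤ x - (β r v v - p₁) := by
    rw [hδ]; exact (min_le_right _ _).trans (min_le_left _ _)
  have d2 : δ ≤ x - (β r v v - p) := by
    rw [hδ]; exact (min_le_right _ _).trans (min_le_right _ _)
  obtain ⟨ηh, hηh⟩ : ∃ ηh : ℝ, ηh = δ / (4 * (C₁ + 1)) := ⟨_, rfl⟩
  have hηh0 : 0 < ηh := by rw [hηh]; positivity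
  have hηh1 : C₁ * ηh ≤ δ / 4 := by
    have e1 : ((C₁ : ℝ) + 1) * ηh = δ / 4 := by
      rw [hηh]
      field_simp
    linarith
  obtain ⟨K₀, d, ψ, hK₀, hψ, hd, hbas⟩ := hn.2 D ηh 1 hηh0 one_pos
  have hη' : 0 < 1 / η := by positivity
  obtain ⟨J₁, hJ₁⟩ := exists_nat_ge (((C₁ : ℝ) + C₂ + 4) / (δ / 2))
  obtain ⟨J₂, hJ₂⟩ := exists_nat_ge (((r : ℝ) + 2) * Real.log 2 / ψ)
  refine Bas.mono (max J₁ J₂) ((Pool.GRW.bas_part hbas hη').and (show Bas S (fun _ F A =>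
    0 < Pe F.p A) from ⟨1, one_pos, 0, fun J _ F A hA => hS.1 1 J F A hA⟩)) ?_
  rintro J hJ F A ⟨hpart, hA⟩ V z z' G hG P₁ V₁ z₁ z₁' G₁ hG₁ hP₁ - - - - - - -
  have hJ0 : (0 : ℝ) ≤ J := Nat.cast_nonneg J
  obtain ⟨V₃, z₃, z₃', G₃, P₃, hG₃, hP₃, hnear⟩ := hΨ J F A V z z' G hG
  have j1 : (C₁ : ℝ) + C₂ + 4 ≤ δ / 2 * J := by
    have e1 : (J₁ : ℝ) ≤ J := by exact_mod_cast (le_max_left _ _).trans hJ
    have e2 := hJ₁.trans e1
    rw [div_le_iff₀ (by linarith)] at e2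
    linarith
  have j2 : Real.exp (-(ψ * J)) * 2 ^ (r + 2) ≤ 1 := by
    have e1 : (J₂ : ℝ) ≤ J := by exact_mod_cast (le_max_right _ _).trans hJ
    have e2 := hJ₂.trans e1
    rw [div_le_iff₀ hψ] at e2
    have h3 : (2 : ℝ) ^ (r + 2) = Real.exp (((r : ℝ) + 2) * Real.log 2) := by
      rw [show ((r : ℝ) + 2) * Real.log 2 = Real.log 2 * ((r + 2 : ℕ) : ℝ) by push_cast; ring,
        Real.exp_mul, Real.exp_log (by norm_num), Real.rpow_natCast]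
    rw [h3, ← Real.exp_add]
    exact Real.exp_le_one_iff.2 (by linarith)
  by_contra hcon
  rw [not_le, Pb_cond hA, lt_div_iff₀ hA] at hcon
  obtain ⟨Bd, hBd⟩ : ∃ Bd : F.Ω → Prop, Bd = fun ω => A ω ∧ (2 : ℝ) ^ (x * J) <
    |eval (bt F ω) (pderiv (some (c r)) (G₁ (z₁' (slam F ⌊v * J⌋₊ ω)) -
      G (z' (slam F ⌊w * J⌋₊ ω))))| := ⟨_, rfl⟩
  have hBdA : Sub Bd A := fun ω hω => by
    rw [hBd] at hω
    exact hω.1
  obtain ⟨B, T, TH, b1, b2, W⟩ := hpart Bd hBdA (by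
    rw [hBd]
    rw [one_div, inv_mul_eq_div, le_div_iff₀ hη]
    linarith)
  have hBd0 : 0 < Pe F.p Bd := by
    rw [hBd]
    exact lt_of_le_of_lt (by positivity) hcon
  have hB0 : 0 < Pe F.p B := by
    by_contra hc0
    have : Pe F.p B = 0 := le_antisymm (not_lt.1 hc0) (Pe_nonneg F.isLaw B)
    rw [this, mul_zero] at b2
    linarith
  have hBA : Sub B A := fun ω hω => hBdA ω (b1 ω hω)
  have hvJ : ⌊v * J⌋₊ ≤ J := Nat.floor_le_of_le (by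
    have := mul_le_mul_of_nonneg_right hv1.le hJ0
    linarith)
  have hvv : ⌊v₁ * J⌋₊ ≤ ⌊v * J⌋₊ := Nat.floor_le_floor (mul_le_mul_of_nonneg_right hv hJ0)
  have hT₁ := tgt_lbp (g := fun l => ⌊(β l v v - d l) * (J : ℝ)⌋₊) (T := T) hG₁ hBA hK₂ le_rfl hvJ
    ⌊v * J⌋₊
  have hT₃ := tgt_lbp (g := fun l => ⌊(β l v v - d l) * (J : ℝ)⌋₊) (T := T) hG₃ hBA hK₁ hvv hvJ
    ⌊v * J⌋₊
  obtain ⟨B', k1, k2, k3⟩ := htwo (F := F) (c := c) (i := r + 1) (κ' := 1) (by omega) hc W.rlF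
    (fun _ h => h) (by rw [one_mul]) j2 (Real.exp_pos _).le W.lst hT₁ hT₃
  have hB'0 : 0 < Pe F.p B' := lt_of_lt_of_le (by positivity) k2
  obtain ⟨ω, hω⟩ : ∃ ω, B' ω := by
    by_contra hne
    push Not at hne
    have : Pe F.p B' = 0 := by
      rw [Pe_eq]
      exact Finset.sum_eq_zero fun ω _ => if_neg (hne ω)
    linarith
  have hωB := k1 ω hω
  have hbt : NBx c (T (ptr F J ω)) (fun l => ⌊(β l v v - d l) * (J : ℝ)⌋₊) ⌊v * J⌋₊ (F.t ω) (r + 1)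
      (bt F ω) := ⟨by show |F.t ω - F.t ω| ≤ _; rw [sub_self, abs_zero]; positivity,
      fun l hl => W.lst.pos ω hωB l hl⟩
  obtain ⟨M, hM⟩ : ∃ M : ℝ, M = 2 ^ (C₁ * (⌊ηh * J⌋₊ + 1)) * (1 / 2 ^ P₁ + 1 / 2 ^ P₃) :=
    ⟨_, rfl⟩
  have hM0 : 0 ≤ M := by rw [hM]; positivity
  have hdir := hla (c := c) (i := r) (a := ⌊v * J⌋₊)
    (g := fun l => ⌊(β l v v - d l) * (J : ℝ)⌋₊) (t := F.t ω) (M := M)
    (G := T (ptr F J ω)) (P := G₁ (z₁ (ptr F J ω)) - G₃ (z₃ (ptr F J ω)))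
    (b := bt F ω) (by omega) hc (W.lst.degG _) (W.lst.depG _)
    (fun y y' hn hb => by
      have e1 := hT₁.depP (ptr F J ω) y y' hn hb
      have e3 := hT₃.depP (ptr F J ω) y y' hn hb
      beta_reduce at e1 e3
      rw [map_sub, map_sub, e1, e3])
    ((totalDegree_sub _ _).trans (max_le (hT₁.degP _) (hT₃.degP _)))
    hM0 hbt (fun b hb => by
      rw [map_sub, hM]
      exact k3 ω hω b hb)
  rw [dir_ek] at hdir
  beta_reduce at hdir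
  have hAω := hBA ω hωB
  have hb := b1 ω hωB
  rw [hBd] at hb
  have hnr := hnear ω hAω
  -- the numbers
  have g1 : ((⌊(β r v v - d r) * J⌋₊ : ℕ) : ℝ) ≤ β r v v * J := by
    have hdr := hd r (by omega)
    have h3 : (0 : ℝ) ≤ β r v v * J := mul_nonneg hβ hJ0
    rcases le_or_gt 0 ((β r v v - d r) * (J : ℝ)) with h4 | h4
    · exact (Nat.floor_le h4).trans (mul_le_mul_of_nonneg_right (by linarith [hdr.1]) hJ0)
    · rw [Nat.floor_of_nonpos h4.le, Nat.cast_zero]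
      exact h3
  have g2 : ((⌊ηh * J⌋₊ : ℕ) : ℝ) ≤ ηh * J := Nat.floor_le (mul_nonneg hηh0.le hJ0)
  have g3 : (C₁ : ℝ) * ⌊ηh * J⌋₊ ≤ δ / 4 * J := by
    have e1 : (C₁ : ℝ) * ⌊ηh * J⌋₊ ≤ C₁ * (ηh * J) :=
      mul_le_mul_of_nonneg_left g2 (Nat.cast_nonneg _)
    have e2 : (C₁ : ℝ) * (ηh * J) = C₁ * ηh * J := by ring
    have e3 := mul_le_mul_of_nonneg_right hηh1 hJ0
    linarith
  have m0 := mul_le_mul_of_nonneg_right d0 hJ0
  have m1 := mul_le_mul_of_nonneg_right d1 hJ0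
  have m2 := mul_le_mul_of_nonneg_right d2 hJ0
  have hP₁' : p * J ≤ P₁ := by
    have : p * J ≤ (p + χ) * J := mul_le_mul_of_nonneg_right (by linarith) hJ0
    linarith
  have hδJ : 0 ≤ δ * J := mul_nonneg hδ0.le hJ0
  have t1 : (2 : ℝ) ^ (C₂ + C₁ * (⌊ηh * J⌋₊ + 1) + ⌊(β r v v - d r) * J⌋₊) * (1 / 2 ^ P₁) ≤
      2 ^ (x * J - 3) := rp_of (by
    push_cast
    linarith)
  have t3 : (2 : ℝ) ^ (C₂ + C₁ * (⌊ηh * J⌋₊ + 1) + ⌊(β r v v - d r) * J⌋₊) * (1 / 2 ^ P₃) ≤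
      2 ^ (x * J - 3) := rp_of (by
    push_cast
    linarith)
  have t0 : (2 : ℝ) ^ (x₀ * J) ≤ 2 ^ (x * J - 1) :=
    Real.rpow_le_rpow_of_exponent_le (by norm_num) (by linarith)
  have e8 : (2 : ℝ) ^ (x * J) = 2 ^ (x * J - 3) * 8 := by
    rw [Real.rpow_sub (by norm_num)]
    norm_num
  have e9 : (2 : ℝ) ^ (x * J) = 2 ^ (x * J - 1) * 2 := by
    rw [Real.rpow_sub (by norm_num)]
    norm_num
  have e10 : (0 : ℝ) < 2 ^ (x * J - 3) := by positivity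
  have hMM : (2 : ℝ) ^ C₂ * (M * 2 ^ ⌊(β r v v - d r) * J⌋₊) =
      2 ^ (C₂ + C₁ * (⌊ηh * J⌋₊ + 1) + ⌊(β r v v - d r) * J⌋₊) * (1 / 2 ^ P₁) +
      2 ^ (C₂ + C₁ * (⌊ηh * J⌋₊ + 1) + ⌊(β r v v - d r) * J⌋₊) * (1 / 2 ^ P₃) := by
    rw [hM, pow_add, pow_add]
    ring
  rw [hMM] at hdir
  have hcl₁ := hG₁.cls ω hAω
  have hcl₃ := hG₃.cls ω hAω
  rw [hcl₁, hcl₃] at hdir
  have hsum : |eval (bt F ω) (pderiv (some (c r)) (G₁ (z₁' (slam F ⌊v * J⌋₊ ω)) -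
      G (z' (slam F ⌊w * J⌋₊ ω))))| ≤ 2 ^ (x * J) := by
    have e1 : G₁ (z₁' (slam F ⌊v * J⌋₊ ω)) - G (z' (slam F ⌊w * J⌋₊ ω)) =
        (G₁ (z₁' (slam F ⌊v * J⌋₊ ω)) - G₃ (z₃' (slam F ⌊v₁ * J⌋₊ ω))) +
        (G₃ (z₃' (slam F ⌊v₁ * J⌋₊ ω)) - G (z' (slam F ⌊w * J⌋₊ ω))) := by ring
    rw [e1, map_add, map_add]
    refine (abs_add_le _ _).trans ?_
    linarith
  exact absurd hb.2 (not_lt.2 hsum)

end Pool.STV90
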