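import Pool.Agent.H90.STV.Bxr

/-!
# The closed slope at the windows of a record by scaling, with the row label, static target

`blx_sta`: as `blx_uni`, for a static coordinate `c (r + 1)`: the row label of the long window is near the
closed label in the direction `c r`, with the gain of the scaling.
-/

set_option autoImplicit false

namespace Pool.STV90

open Finset Real MvPolynomial
open Pool.Agent.H49.Ent Pool.Agent.H32.Dense Pool.STK Pool.KA Pool.KSAT Pool.K2S Pool.PB Pool.S6C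
open Pool.GEN Pool.CHT Pool.CHX Pool.ISO Pool.D2R Pool.D2G30 Pool.V1E Pool.PKG Pool.CR99
open Pool.LBT (ThrOf)
open Pool.LEV (Law)
open Pool.STB77 (Tgt)

/-- Weaker numbers. -/
theorem RwE.mono {m : ℕ} {c : ℕ → Fin m} {r D : ℕ} {a v e e' gu gu' p p' x x' w : ℝ} {J : ℕ}
    {F : Fam m J} {A : F.Ω → Prop} {V : Type} {z' : LnT F → V}
    {G : V → MvPolynomial (Option (Fin m)) ℝ}
    (h : RwE c r D a v e gu p x w J F A V z' G) (he : e ≤ e') (hg : gu ≤ gu') (hp : p' ≤ p)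
    (hx : x ≤ x') : RwE c r D a v e' gu' p' x' w J F A V z' G := by
  obtain ⟨g, T, TH, Gt, Ht, P, h1, h2, h3, h4, h5⟩ := h
  have hJ0 : (0 : ℝ) ≤ J := Nat.cast_nonneg J
  exact ⟨g, T, TH, Gt, Ht, P, h1.mono le_rfl (fun _ => le_rfl) le_rfl
    (Nat.floor_le_floor (mul_le_mul_of_nonneg_right he hJ0)), h2,
    (mul_le_mul_of_nonneg_right hp hJ0).trans h3,
    h4.trans (mul_le_mul_of_nonneg_right hg hJ0), fun ω hω => (h5 ω hω).trans
    (Real.rpow_le_rpow_of_exponent_le (by norm_num) (mul_le_mul_of_nonneg_right hx hJ0))⟩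

/-- Weaker numbers. -/
theorem BlXr.mono {m : ℕ} {S : PCl m} {c : ℕ → Fin m} {r K K₁ : ℕ} {w P P' : ℝ} {n n' : ℕ}
    {v v' p₁ p₁' x₀ x₀' : ℕ → ℝ} {D : ℕ} {a vr e e' gu gu' p p' x x' κ κ' : ℝ}
    (h : BlXr S c r K K₁ w P n v p₁ x₀ D a vr e gu p x κ) (hP : P' ≤ P)
    (hn : n' ≤ n) (hv : ∀ k < n', v' k = v k) (hp : ∀ k < n', p₁' k ≤ p₁ k)
    (hx : ∀ k < n', x₀ k ≤ x₀' k) (he : e ≤ e') (hg : gu ≤ gu') (hpp : p' ≤ p) (hxx : x ≤ x')
    (hκ : κ ≤ κ') : BlXr S c r K K₁ w P' n' v' p₁' x₀' D a vr e' gu' p' x' κ' := by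
  refine Bas.mono 0 h ?_
  rintro J - F A ⟨B, b1, b2, V, z, z', G, Q, l1, l2, l3, l4⟩
  have hJ0 : (0 : ℝ) ≤ J := Nat.cast_nonneg J
  refine ⟨B, b1, b2.trans (mul_le_mul_of_nonneg_right hκ (Pe_nonneg F.isLaw B)), V, z, z', G, Q,
    l1, (mul_le_mul_of_nonneg_right hP hJ0).trans l2, fun k hk => ?_, l4.mono he hg hpp hxx⟩
  obtain ⟨V₁, z₁, z₁', G₁, P₁, h1, h2, h3⟩ := l3 k (hk.trans_le hn)
  rw [hv k hk]
  refine ⟨V₁, z₁, z₁', G₁, P₁, h1, (mul_le_mul_of_nonneg_right (hp k hk) hJ0).trans h2,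
    fun ω hω => (h3 ω hω).trans ?_⟩
  exact Real.rpow_le_rpow_of_exponent_le (by norm_num) (mul_le_mul_of_nonneg_right (hx k hk) hJ0)

/-- **The closed slope at the windows of a record**, by scaling, with the row label: static target. -/
theorem blx_sta (m r S₂ : ℕ) (hS₂ : 1 ≤ S₂) : ∃ D : ℕ, 1 ≤ D ∧
    ∀ {α b ρ a Ve V₀ Vm μ : ℝ}, 0 < ρ → ρ ≤ 1 → Ve ≤ V₀ → V₀ ≤ Vm → Vm + 1 ≤ a →
    (b - α) * (Vm - Ve) ≤ μ → 0 ≤ μ → μ < V₀ - Ve →
    ∃ ε₀ : ℝ, 0 < ε₀ ∧
    ∀ {S : PCl m} {al : ℝ} {g₀ : ℝ → ℝ}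
    {P : List (Fin m) × Fin m → ℝ → ℝ → ℝ} {ϑ : ℝ}
    {P₂ : ℕ → List (Fin m) × Fin m → ℝ → ℝ → ℝ} {θ₂ Eb e₂ : ℕ → ℝ} {c : ℕ → Fin m}
    {Pt : ℝ → ℝ → ℝ} {rr : ℝ → ℝ} {h K₀ g : ℝ} {L T : ℕ → ℝ → ℝ → ℝ} {Sl : ℕ → ℝ}
    {κ : ℕ → Kg} {G : Set ℝ} {S₀ N : ℕ} {A V : ℕ → ℝ} {N' : ℕ} {V' : ℕ → ℝ} {K ε q t : ℝ},
    RecG S al g₀ P ϑ P₂ θ₂ Eb e₂ c Pt rr h K₀ g L T Sl κ G S₀ N A V S₂ N' V' K ε q t →
    r + 1 < m → 0 ≤ ε → ε ≤ ε₀ → Sl r = α → Sl (r + 1) = b → κ r = .one ∨ κ r = .thin →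
    κ (r + 1) = .sta → -K + 1 ≤ Ve → a ≤ K → 1 ≤ K →
    ∀ {W : ℕ → ℝ} {n : ℕ}, W 0 = V₀ → (∀ k ≤ n, Ve ≤ W k ∧ W k ≤ Vm) →
    (∀ k ≤ n, ∃ j < N, A j = a ∧ V j = W k) → (∃ j < N, A j = a ∧ V j = Ve) →
    ∃ κ' : ℝ, 0 < κ' ∧ BlXr S c r (bmd D) D (t + V₀ * q)
      (L (r + 1) (t + V₀ * q) (t + V₀ * q) - ρ * q) (n + 1) (fun k => t + W k * q)
      (fun k => L (r + 1) (t + W k * q) (t + W k * q) - ρ * q)
      (fun k => L r (t + W k * q) (t + W k * q) - L (r + 1) (t + W k * q) (t + W k * q) + ρ * q)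
      D (t + a * q) (t + Ve * q) (Eb (r + 1) + ρ * q)
      (L r (t + Ve * q) (t + Ve * q) + (a * q - Ve * q) + ρ * q)
      (L (r + 1) (t + a * q) (t + a * q) - ρ * q)
      (L r (t + Ve * q) (t + Ve * q) - L (r + 1) (t + Ve * q) (t + Ve * q) - μ * q + ρ * q)
      κ' := by
  obtain ⟨D, hD, hw⟩ := wgs_rec m r S₂ hS₂
  obtain ⟨C, hC, hw⟩ := hw D le_rfl
  obtain ⟨C₁, hC₁, hbx⟩ := blx_unr m D r hD
  refine ⟨D, hD, ?_⟩
  intro α b ρ a Ve V₀ Vm μ hρ hρ1 hVe0 hV0m hVma hμ hμ0 hμ1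
  have c1 : (1 : ℝ) ≤ C₁ := by exact_mod_cast hC₁
  obtain ⟨γ, hγ⟩ : ∃ γ : ℝ, γ = min ρ (V₀ - Ve - μ) := ⟨_, rfl⟩
  have hγ0 : 0 < γ := by
    rw [hγ]
    exact lt_min hρ (by linarith)
  have hγρ : γ ≤ ρ := by rw [hγ]; exact min_le_left _ _
  have hγg : γ ≤ V₀ - Ve - μ := by rw [hγ]; exact min_le_right _ _
  obtain ⟨η, hη⟩ : ∃ η : ℝ, η = γ / (64 * C₁ * C) := ⟨_, rfl⟩
  have hCp : 0 < C := by linarith
  have hη0 : 0 < η := by rw [hη]; positivity
  have hη1 : 64 * C₁ * (C * η) = γ := by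
    rw [hη]
    field_simp
  have hCη0 : 0 < C * η := by positivity
  have x1 : C * η ≤ C₁ * (C * η) := le_mul_of_one_le_left hCη0.le c1
  refine ⟨min (η / (6 * C)) (γ / (64 * C₁)), by positivity, ?_⟩
  intro S al g₀ P ϑ P₂ θ₂ Eb e₂ c Pt rr h K₀ g L T Sl κ G S₀ N A V N' V' K ε q t Rc hr hε hε₀ hα
    hb hκu hκN hKV haK hK1 W n hW0 hWV hWj hej
  have hq := Rc.q0
  have ht0 := Rc.t0
  have ht1 := Rc.t1
  have Tg := Rc.tg (r + 1) (by omega) hr
  have hkN := Rc.kd (r + 1) hr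
  rw [hκN, hb] at hkN
  have hb2 : 2 ≤ b := hkN.1
  have hε1 := hε₀.trans (min_le_left _ _)
  have hε2 := hε₀.trans (min_le_right _ _)
  rw [le_div_iff₀ (by positivity)] at hε1 hε2
  have hεC : 3 * C * ε < η := by
    have : 0 < η / 2 := by positivity
    linarith
  have y1 : ε ≤ C₁ * ε := le_mul_of_one_le_left hε c1
  -- the windows
  obtain ⟨W', hW'⟩ : ∃ W' : ℕ → ℝ, W' = fun k => if k ≤ n then W k else Ve := ⟨_, rfl⟩
  have hW'1 : ∀ k ≤ n, W' k = W k := fun k hk => by rw [hW']; exact if_pos hk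
  have hW'2 : W' (n + 1) = Ve := by rw [hW']; exact if_neg (by omega)
  have hW'0 : W' 0 = V₀ := by rw [hW'1 0 (by omega), hW0]
  have hWb : ∀ k ≤ n + 1, Ve ≤ W' k ∧ W' k ≤ Vm := fun k hk => by
    rcases Nat.lt_or_ge n k with h1 | h1
    · have : k = n + 1 := by omega
      rw [this, hW'2]
      constructor <;> linarith
    · rw [hW'1 k h1]
      exact hWV k h1
  have hWj' : ∀ k ≤ n + 1, ∃ j < N, A j = a ∧ V j = W' k := fun k hk => by
    rcases Nat.lt_or_ge n k with h1 | h1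
    · have : k = n + 1 := by omega
      rw [this, hW'2]
      exact hej
    · rw [hW'1 k h1]
      exact hWj k h1
  obtain ⟨K₁, bb, hK₁, hwg⟩ := hw Rc hr hε (a := a) (η := η) (W := W') (n := n + 1) hWj'
    (fun k hk => by
      obtain ⟨h1, h2⟩ := hWb k hk
      constructor <;> linarith) haK hη0 hεC (by linarith)
  have hlv : ∀ l ≤ r + 1, ∀ x y : ℝ, lvN P c (r + 1) (L (r + 1)) l x y = L l x y :=
    fun l hl x y => by rw [← Rc.lv_at hr hl]
  -- products
  have hηq : 0 < η * q := by positivity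
  have e0 : 0 < C * (η * q) := by positivity
  have q1 : 64 * (C₁ * (C * (η * q))) = γ * q := by
    rw [← hη1]
    ring
  have q4 : C * (η * q) ≤ C₁ * (C * (η * q)) := le_mul_of_one_le_left e0.le c1
  have q6 : 64 * (C₁ * (ε * q)) ≤ γ * q := by
    have := mul_le_mul_of_nonneg_right hε2 hq.le
    linarith
  have hεq : 0 ≤ ε * q := mul_nonneg hε hq.le
  have q7 : ε * q ≤ C₁ * (ε * q) := le_mul_of_one_le_left hεq c1
  have hγq : 0 < γ * q := by positivity
  have hγρq : γ * q ≤ ρ * q := mul_le_mul_of_nonneg_right hγρ hq.le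
  have hρq1 : ρ * q ≤ q := by
    have := mul_le_mul_of_nonneg_right hρ1 hq.le
    linarith
  have hKq : q ≤ K * q := by
    have := mul_le_mul_of_nonneg_right hK1 hq.le
    linarith
  have haKq : a * q ≤ K * q := mul_le_mul_of_nonneg_right haK hq.le
  have hVKq : -(K * q) + q ≤ Ve * q := by
    have := mul_le_mul_of_nonneg_right hKV hq.le
    linarith
  have hWq : ∀ k ≤ n + 1, Ve * q ≤ W' k * q ∧ W' k * q ≤ Vm * q := fun k hk =>
    ⟨mul_le_mul_of_nonneg_right (hWb k hk).1 hq.le, mul_le_mul_of_nonneg_right (hWb k hk).2 hq.le⟩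
  have hmaq : Vm * q + q ≤ a * q := by
    have := mul_le_mul_of_nonneg_right hVma hq.le
    linarith
  have h0mq : V₀ * q ≤ Vm * q := mul_le_mul_of_nonneg_right hV0m hq.le
  have he0q : Ve * q ≤ V₀ * q := mul_le_mul_of_nonneg_right hVe0 hq.le
  have hμq0 : 0 ≤ μ * q := mul_nonneg hμ0 hq.le
  have hgq : μ * q + γ * q ≤ V₀ * q - Ve * q := by
    have := mul_le_mul_of_nonneg_right hγg hq.le
    linarith
  have hbx' : ∀ k ≤ n + 1, |t + W' k * q - t| ≤ K * q := fun k hk => by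
    obtain ⟨h1, h2⟩ := hWq k hk
    rw [abs_le]
    constructor <;> linarith
  have hlow : ∀ l ≤ r + 1, ∀ k ≤ n + 1, t + W' k * q ≤ L l (t + W' k * q) (t + W' k * q) :=
    fun l hl k hk => by
    obtain ⟨h1, h2⟩ := hWq k hk
    exact Rc.low_at (i := l) (by omega) (by linarith) le_rfl (by linarith)
  have hdN : ∀ k ≤ n + 1, |L (r + 1) (t + W' k * q) (t + W' k * q) - L (r + 1) t t -
      b * (W' k * q)| ≤ ε * q := fun k hk => by
    have := Rc.dL (r + 1) hr _ (hbx' k hk)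
    rw [hb] at this
    rwa [show t + W' k * q - t = W' k * q by ring] at this
  have hdU : ∀ k ≤ n + 1, |L r (t + W' k * q) (t + W' k * q) - L r t t -
      α * (W' k * q)| ≤ ε * q := fun k hk => by
    have := Rc.dL r (by omega) _ (hbx' k hk)
    rw [hα] at this
    rwa [show t + W' k * q - t = W' k * q by ring] at this
  have hVea : Ve ≤ a := by linarith
  have dA := abs_le.1 (Rc.dL (r + 1) hr (t + a * q) (by
    rw [abs_le]
    constructor <;> linarith))
  rw [hb, show t + a * q - t = a * q by ring] at dA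
  have hVeaq : Ve * q ≤ a * q := mul_le_mul_of_nonneg_right hVea hq.le
  have hsta := hkN.2 (t + a * q) (t + Ve * q) (by linarith) (by linarith) (by linarith)
  have hrow' : ∀ k ≤ n + 1, L (r + 1) (t + W' k * q) (t + W' k * q) +
      (t + a * q - (t + W' k * q)) ≤ L (r + 1) (t + a * q) (t + Ve * q) + 4 * ε * q := by
    intro k hk
    obtain ⟨h1, h2⟩ := hWq k hk
    have h3 := abs_le.1 (hdN k hk)
    have h4 : a * q - W' k * q ≤ b * (a * q - W' k * q) :=
      le_mul_of_one_le_left (by linarith) (by linarith)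
    have h5 : b * (a * q - W' k * q) = b * (a * q) - b * (W' k * q) := by ring
    linarith [h3.2, dA.1]
  have d0N := abs_le.1 (hdN 0 (by omega))
  have d0U := abs_le.1 (hdU 0 (by omega))
  have deN := abs_le.1 (hdN (n + 1) le_rfl)
  have deU := abs_le.1 (hdU (n + 1) le_rfl)
  rw [hW'0] at d0N d0U
  rw [hW'2] at deN deU
  have hμV : ∀ y : ℝ, Ve ≤ y → y ≤ Vm → b * (y * q) - b * (Ve * q) - (α * (y * q) -
      α * (Ve * q)) ≤ μ * q := by
    intro y hy1 hy2
    have h1 : (b - α) * (y - Ve) ≤ μ := by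
      rcases le_total α b with h2 | h2
      · exact (mul_le_mul_of_nonneg_left (by linarith) (by linarith)).trans hμ
      · have : (b - α) * (y - Ve) ≤ 0 :=
          mul_nonpos_of_nonpos_of_nonneg (by linarith) (by linarith)
        linarith
    have h2 := mul_le_mul_of_nonneg_right h1 hq.le
    linarith
  have hinj : Set.InjOn c (Set.Iio (r + 2)) := Rc.inj.mono fun x hx => by
    rw [Set.mem_Iio] at hx ⊢
    omega
  -- the precision of the row
  have hprec : L (r + 1) (t + Ve * q) (t + Ve * q) + 2 * (a * q - Ve * q) ≤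
      L (r + 1) (t + a * q) (t + Ve * q) + 6 * ε * q := by
    have h4 : 2 * (a * q - Ve * q) ≤ b * (a * q - Ve * q) :=
      mul_le_mul_of_nonneg_right hb2 (by linarith)
    have h5 : b * (a * q - Ve * q) = b * (a * q) - b * (Ve * q) := by ring
    linarith [deN.2, dA.1]
  -- the room
  have hroom : ∀ l ≤ r, L l (t + a * q) (t + a * q) + Eb (r + 1) + 3 * K * q < 1 := fun l hl =>
    Tg.room l (by omega) _ (by
      rw [abs_le]
      constructor <;> linarith)
  have hμ2 : μ * q ≤ 2 * (K * q) - 2 * q := by linarith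
  obtain ⟨q8, hq8⟩ : ∃ y : ℝ, y = C₁ * (4 * ε * q + C * (η * q)) := ⟨_, rfl⟩
  have q9 : q8 = 4 * (C₁ * (ε * q)) + C₁ * (C * (η * q)) := by rw [hq8]; ring
  have q10 : 8 * q8 ≤ γ * q := by linarith
  have q11 : ε * q ≤ γ * q / 64 := by linarith
  have hBX := hbx (S := S) (c := c) Rc.tmc hinj (R := fun l => κ l = .one ∨ κ l = .thin)
    hκu le_rfl hK₁ hηq hC (by linarith) hwg (n + 1) (i := n + 1) (w := 0) (ζ := 4 * ε * q)
    (M₁ := μ * q) (P := L (r + 1) (t + V₀ * q) (t + V₀ * q) - ρ * q)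
    (x₀ := fun k => L r (t + W' k * q) (t + W' k * q) - L (r + 1) (t + W' k * q) (t + W' k * q) +
      ρ * q) (by positivity) hμq0 (by
      have := hlow (r + 1) le_rfl 0 (by omega)
      rw [hW'0] at this
      linarith) le_rfl (by omega) (by simp only [hW'0, hW'2]; linarith)
    (by simp only [hW'0]; linarith) (fun k hk => ⟨by omega, by
      obtain ⟨h1, h2⟩ := hWq k hk.le
      simp only [hW'2]
      linarith⟩) (fun k hk _ => by
      simp only [hlv _ le_rfl, hW'2]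
      exact hrow' k hk) (fun k hk => by
      simp only [hlv _ le_rfl]
      obtain ⟨h1, h2⟩ := hWq k hk
      have := hlow (r + 1) le_rfl k hk
      linarith) (by
      simp only [hlv r (by omega)]
      have := hlow r (by omega) (n + 1) le_rfl
      rw [hW'2] at this ⊢
      linarith) (by
      simp only [hW'0, hW'2]
      rw [← hq8]
      linarith) (by
      simp only [hlv _ le_rfl, hW'2]
      rw [← hq8]
      linarith) (fun l hl hRl => by
      simp only [hlv l (show l ≤ r + 1 by omega), hW'2]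
      rw [← hq8]
      have h1 := hroom l hl
      have h2 : 1 ≤ Sl l := by
        have hk := Rc.kd l (by omega)
        rcases hRl with h3 | h3
        · rw [h3] at hk
          exact (show Sl l = 1 from hk).ge
        · rw [h3] at hk
          exact hk.1.le
      have h3 := abs_le.1 (Rc.dL l (by omega) (t + a * q) (by
        rw [abs_le]
        constructor <;> linarith))
      have h4 := abs_le.1 (Rc.dL l (by omega) (t + Ve * q) (by
        rw [abs_le]
        constructor <;> linarith))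
      rw [show t + a * q - t = a * q by ring] at h3
      rw [show t + Ve * q - t = Ve * q by ring] at h4
      have h5 : a * q - Ve * q ≤ Sl l * (a * q) - Sl l * (Ve * q) := by
        have : a * q - Ve * q ≤ Sl l * (a * q - Ve * q) :=
          le_mul_of_one_le_left (by linarith) h2
        linarith
      linarith [h3.1, h3.2, h4.1, h4.2]) (fun l hl hRl => by
      simp only [hW'2]
      rw [← hq8]
      have h1 := hroom l hl
      rw [Rc.lv_lt (l := l) (by omega)] at h1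
      have h4 : bet P c l (t + a * q) (t + Ve * q) ≤ bet P c l (t + a * q) (t + a * q) :=
        (Rc.thr.law _).mono_w _ _ _ (by linarith) (by linarith) le_rfl (by linarith)
      linarith) (fun k hk => by
      simp only [hlv r (by omega), hlv _ le_rfl]
      linarith) (fun k hk => by
      simp only [hlv r (by omega), hlv _ le_rfl, hW'2]
      obtain ⟨h1, h2⟩ := hWb k hk.le
      have k1 := abs_le.1 (hdN k hk.le)
      have k2 := abs_le.1 (hdU k hk.le)
      have k3 := hμV (W' k) h1 h2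
      linarith [deN.1, deN.2, deU.1, deU.2, k1.1, k1.2, k2.1, k2.2]) (by
      simp only [hlv _ le_rfl, hW'0]
      linarith) (by
      simp only [hlv r (by omega), hlv _ le_rfl, hW'0, hW'2]
      have k3 := hμV V₀ hVe0 hV0m
      linarith [deN.1, deN.2, deU.1, deU.2, d0N.1, d0N.2, d0U.1, d0U.2])
    Tg.Eb0.le le_rfl
  simp only [hW'0, hW'2] at hBX
  have hηC : η * q ≤ C * (η * q) := le_mul_of_one_le_left hηq.le hC
  refine ⟨_, ?_, hBX.mono le_rfl le_rfl (fun k hk => by rw [hW'1 k (by omega)]) (fun k hk => ?_)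
    (fun k hk => ?_) ?_ ?_ ?_ ?_ le_rfl⟩
  · positivity
  · simp only [hlv _ le_rfl, hW'1 k (show k ≤ n by omega)]
    linarith
  · simp only [hW'1 k (show k ≤ n by omega)]
    exact le_rfl
  · linarith
  · simp only [hlv r (show r ≤ r + 1 by omega)]
    linarith
  · linarith
  · simp only [hlv r (show r ≤ r + 1 by omega), hlv (r + 1) le_rfl]
    linarith

end Pool.STV90
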