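import Pool.Agent.H77.STB.Vbl

/-!
# The event of the class theorem, with an additional hereditary condition

`vb_eventX`: `vb_eventL` of helper77, with an abstract hereditary condition on the event and on the
labels of the positions (the far data).
-/

set_option autoImplicit false

namespace Pool.STV90

open Finset Real MvPolynomial
open Pool.Agent.H49.Ent Pool.Agent.H32.Dense Pool.STK Pool.KA Pool.KSAT Pool.K2S Pool.PB Pool.S6C
open Pool.GEN Pool.CHT Pool.CHX Pool.NVX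
open Pool.STB (V3 Po Bx VbT VbE FrN vbt InpL N1L)
open Pool.STB82 (yv yp hgP)
open Pool.STB65
open Pool.STB77
open Pool.PB.Trl (rt)
open Pool.FLF (Fam.sub)
open Pool.ALT (Fml)

variable {m : ℕ}

/-- **The event of `vb_void`, from the labels with a loss**, with an abstract hereditary condition
`X` on the event and on the labels of the positions. -/
theorem vb_eventX (D' K₀ b : ℕ) {E : ℕ} (hcut : CutS m (D' + K₀ + b + 1) b E) :
    ∃ C₁ K₂ : ℕ, D' ≤ K₂ ∧ ∀ {K n N N₁ : ℕ} (_ : K₂ ≤ K) (_ : N₁ ≤ N)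
    {S : PCl m} (_ : TmH S) (_ : S.Ne) {c : ℕ → Fin m} {Ψ : Fml m} {wn w ε K₁ : ℝ} (_ : 0 < ε)
    (_ : w < 1) (_ : 0 < K₁)
    (_ : ∀ (J : ℕ) (F : Fam m J) (A B : F.Ω → Prop) (V : Type) (z : PtT F → V)
      (z' : LnT F → V) (G : V → MvPolynomial (Option (Fin m)) ℝ), Sub B A →
      Ψ J F A V z z' G → Ψ J F B V z z' G)
    (_ : ∀ (J : ℕ) (F : Fam m J) (A : F.Ω → Prop) (V : Type) (z : PtT F → V) (z' : LnT F → V)
      (G : V → MvPolynomial (Option (Fin m)) ℝ), Ψ J F A V z z' G →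
      (∀ v, (G v).totalDegree ≤ K) ∧ (∀ v, DepC c 3 (G v)) ∧
      ∀ ω, A ω → z (ptr F J ω) = z' (slam F ⌊wn * J⌋₊ ω))
    (_ : Bas S (fun J F A => ∃ (V : Type) (z : PtT F → V) (z' : LnT F → V)
      (G : V → MvPolynomial (Option (Fin m)) ℝ), Ψ J F A V z z' G))
    {W k y x g₃ e₁' e₁ e₂ st lz s v y₀ e X Lx : ℕ → ℕ} {A ee : ℕ → ℕ → ℕ} {g : ℕ → ℕ → ℕ → ℕ}
    {jb ji : ℕ → ℕ → ℕ} {X' : ∀ (J : ℕ) (F : Fam m J), (F.Ω → Prop) →
      (LnT F → ℕ → MvPolynomial (Option (Fin m)) ℝ) → Prop}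
    (_ : ∀ (J : ℕ) (F : Fam m J) (A B : F.Ω → Prop)
      (pH : LnT F → ℕ → MvPolynomial (Option (Fin m)) ℝ), Sub B A → X' J F A pH → X' J F B pH)
    (_ : Bas S (fun J F A' => ∀ (V : Type) (z : PtT F → V) (z' : LnT F → V)
        (G : V → MvPolynomial (Option (Fin m)) ℝ), Ψ J F A' V z z' G →
        ∃ (B : F.Ω → Prop) (Gn : ℕ → PtT F → ℕ → MvPolynomial (Option (Fin m)) ℝ)
          (Hn : ℕ → LnT F → ℕ → MvPolynomial (Option (Fin m)) ℝ)
          (pP : PtT F → ℕ → MvPolynomial (Option (Fin m)) ℝ)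
          (pH : LnT F → ℕ → MvPolynomial (Option (Fin m)) ℝ) (xP : PtT F → ℝ) (xH : LnT F → ℝ)
          (zP : PtT F → MvPolynomial (Option (Fin m)) ℝ)
          (zH : LnT F → MvPolynomial (Option (Fin m)) ℝ) (f : ℕ → PtT F → Po)
          (f' : ℕ → LnT F → Po) (kf : LnT F → Po) (gS : ℕ), Sub B A' ∧
          Pe F.p A' ≤ K₁ * Pe F.p B ∧ X' J F B pH ∧
          N1L F c D' K₀ b N (W J) (s J) (v J) (y₀ J) (e J) (X J) (g₃ J) gS (Lx J) (A J) (ee J)
            (g J) B Gn Hn pP pH xP xH (fun y => G (z y)) zP zH f f' kf))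
    {J₀ : ℕ} (_ : ∀ J ≥ J₀, FrN J n N₁ C₁ b (W J) (k J) (y J) (x J) (g₃ J) (e₁' J) (e₁ J) (st J)
      (lz J) (s J) (v J) (y₀ J) (e J) (X J) (A J) (ee J) (g J) (jb J) (ji J) w ε)
    (_ : ∀ J ≥ J₀, A J N₁ + Lx J ≤ A J N)
    (_ : ∀ J ≥ J₀, (((E + 1) * (s J + y₀ J + 3) : ℕ) : ℝ) * Real.log 2 + ε * J ≤
      y J * Real.log 2),
    Bas S (fun J F A' => ∃ (V : Type) (z : PtT F → V) (z' : LnT F → V)
        (G : V → MvPolynomial (Option (Fin m)) ℝ), Ψ J F A' V z z' G ∧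
        ∃ B : F.Ω → Prop, Sub B A' ∧ 1 / (8 * K₁) * Pe F.p A' ≤ Pe F.p B ∧ ∃ t : VbT F,
          VbE F c B K n N₁ b ⌊wn * J⌋₊ z z' G t ∧
          ∃ Gn Hn pP pH zP zH f f' kf, t = vbt F c (W J) (k J) (y J) (x J) (g₃ J) (e₁' J) (e₁ J)
            (e₂ J) (st J) (lz J) (A J) (g J) (jb J) (ji J) Gn Hn pP pH zP zH f f' kf ∧ X' J F B pH) := by
  classical
  obtain ⟨Kc, hKc⟩ : ∃ Kc, Kc = D' + K₀ + b + 1 := ⟨_, rfl⟩
  rw [← hKc] at hcut
  obtain ⟨C₁, hpos⟩ := vbe_pos' D'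
  refine ⟨C₁, D' + Kc * (Kc * Kc), Nat.le_add_right _ _, ?_⟩
  intro K n N N₁ hK₂ hN₁ S hS hne c Ψ wn w ε K₁ hε hw hK₁ Ψs Ψc hex W k y x g₃ e₁' e₁ e₂ st lz s v
    y₀ e X Lx A ee g jb ji X' hX' hN1 J₀ hfr hLx hEy
  obtain ⟨C, hC, hcut⟩ := hcut N
  have hDK : D' ≤ K := (Nat.le_add_right _ _).trans hK₂
  have hKcK : Kc * (Kc * Kc) ≤ K := (Nat.le_add_left _ _).trans hK₂
  -- the constants
  obtain ⟨ε₁, hε₁⟩ : ∃ ε₁ : ℝ, ε₁ = ε / (E + 1) := ⟨_, rfl⟩
  have hE1 : (0 : ℝ) < (E : ℝ) + 1 := by positivity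
  have hε₁0 : 0 < ε₁ := by rw [hε₁]; positivity
  have hε₁E : ((E : ℝ) + 1) * ε₁ = ε := by rw [hε₁]; field_simp
  have hC0 : 0 < C := by linarith
  obtain ⟨τ, hτ⟩ : ∃ τ : ℝ, τ = min (ε₁ / (4 * C)) ((1 - w) / (4 * C)) := ⟨_, rfl⟩
  have hw1 : 0 < 1 - w := by linarith
  have hτ0 : 0 < τ := by rw [hτ]; exact lt_min (by positivity) (by positivity)
  have hτ1 : C * τ ≤ ε₁ / 4 := by
    have h1 : τ ≤ ε₁ / (4 * C) := by rw [hτ]; exact min_le_left _ _
    calc C * τ ≤ C * (ε₁ / (4 * C)) := mul_le_mul_of_nonneg_left h1 hC0.le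
      _ = ε₁ / 4 := by field_simp
  have hτ2 : C * τ ≤ (1 - w) / 4 := by
    have h1 : τ ≤ (1 - w) / (4 * C) := by rw [hτ]; exact min_le_right _ _
    calc C * τ ≤ C * ((1 - w) / (4 * C)) := mul_le_mul_of_nonneg_left h1 hC0.le
      _ = (1 - w) / 4 := by field_simp
  have hTm := Pool.V1E.bas_big (hS.2 τ hτ0) (4 * K₁)
  obtain ⟨J₁, hJ₁⟩ := exists_nat_ge (C / (ε₁ / 4))
  obtain ⟨J₂, hJ₂⟩ := exists_nat_ge (C / ((1 - w) / 4))
  have hl2 : 0 < Real.log 2 := Real.log_pos one_lt_two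
  have hl2' : Real.log 2 < 1 := by linarith [Real.log_two_lt_d9]
  have hl2'' : 1 / 2 < Real.log 2 := by linarith [Real.log_two_gt_d9]
  refine Bas.mono (max J₀ (max J₁ J₂)) (((hex.and hN1).and (hpos hS K hDK K₁ (ε := ε₁ / 2)
    (by positivity) hw)).and hTm) ?_
  rintro J hJ F A' ⟨⟨⟨⟨V, z, z', G, hΨ⟩, hN⟩, hP⟩, hTm⟩
  have hJ0 : J₀ ≤ J := (le_max_left _ _).trans hJ
  have hJr : (0 : ℝ) ≤ J := Nat.cast_nonneg J
  have hJ1 : C ≤ ε₁ / 4 * J := by
    have h1 : (J₁ : ℝ) ≤ J := by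
      exact_mod_cast (le_max_left _ _).trans ((le_max_right _ _).trans hJ)
    have h2 := hJ₁.trans h1
    rw [div_le_iff₀ (by positivity)] at h2
    linarith
  have hJ2 : C ≤ (1 - w) / 4 * J := by
    have h1 : (J₂ : ℝ) ≤ J := by
      exact_mod_cast (le_max_right _ _).trans ((le_max_right _ _).trans hJ)
    have h2 := hJ₂.trans h1
    rw [div_le_iff₀ (by positivity)] at h2
    linarith
  have H := hfr J hJ0
  obtain ⟨B, Gn, Hn, pP, pH, xP, xH, zP, zH, f, f', kf, gS, hBA, hPB, hXB, O⟩ := hN V z z' G hΨ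
  obtain ⟨yc, hyc⟩ : ∃ yc : ℕ, yc = s J + y₀ J + 2 + ⌊ε₁ * J⌋₊ := ⟨_, rfl⟩
  have hyc1 : ((s J : ℝ) + y₀ J + 1) + ε₁ * J ≤ yc := by
    have := (Nat.lt_floor_add_one (ε₁ * J)).le
    rw [hyc]
    push_cast
    linarith
  have hycE : (E + 1) * yc ≤ y J := by
    have h1 := Nat.floor_le (show 0 ≤ ε₁ * J by positivity)
    have h5 := hEy J hJ0
    push_cast at h5
    have h7 : ((E : ℝ) + 1) * yc ≤ (E + 1) * (s J + y₀ J + 3) + ε * J := by
      have h8 : (yc : ℝ) ≤ (s J + y₀ J + 3) + ε₁ * J := by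
        rw [hyc]
        push_cast
        linarith
      calc ((E : ℝ) + 1) * yc ≤ (E + 1) * ((s J + y₀ J + 3) + ε₁ * J) :=
            mul_le_mul_of_nonneg_left h8 hE1.le
        _ = (E + 1) * (s J + y₀ J + 3) + ((E : ℝ) + 1) * ε₁ * J := by ring
        _ = _ := by rw [hε₁E]
    have h6 : ((E : ℝ) + 1) * yc * Real.log 2 ≤ y J * Real.log 2 := by
      have h9 : ε * J * Real.log 2 ≤ ε * J := by
        have : 0 ≤ ε * J := by positivity
        nlinarith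
      have h10 := mul_le_mul_of_nonneg_right h7 hl2.le
      linarith
    have h12 := le_of_mul_le_mul_right h6 hl2
    exact_mod_cast h12
  have hycy : yc ≤ y J := (Nat.le_mul_of_pos_left _ (Nat.succ_pos _)).trans hycE
  have hEyc : yc * E ≤ y J := by
    rw [mul_comm]
    exact (Nat.mul_le_mul_right _ (Nat.le_succ _)).trans hycE
  have hy0c : y₀ J ≤ yc := by rw [hyc]; omega
  have pw : ∀ {x y : ℕ}, x ≤ y → (2 : ℝ) ^ x ≤ 2 ^ y := fun h => pow_le_pow_right₀ (by norm_num) h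
  obtain ⟨kf', hkf'⟩ : ∃ kf' : LnT F → Po, kf' = fun S => ka (Kc * Kc) (b - 1)
    (hgP c (W J) (g J 0 1) (fun S => pH S 1) S) (kf S) := ⟨_, rfl⟩
  obtain ⟨t, ht⟩ : ∃ t, t = vbt F c (W J) (k J) (y J) (x J) (g₃ J) (e₁' J) (e₁ J)
            (e₂ J) (st J) (lz J) (A J) (g J) (jb J) (ji J) Gn Hn pP pH zP zH f f' kf' := ⟨_, rfl⟩
  have hI := inc_cut O.inc hN₁
  -- the positions
  obtain ⟨B₁, hB₁, hPB₁, hP0, VP⟩ := hP B c N₁ (W J) (s J) (v J) n (A J) (ee J) (g J) Gn Hn pP pH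
    (jb J) (vbt F c (W J) (k J) yc (x J) (g₃ J) (e₁' J) (e₁ J) (e₂ J) (st J) (lz J) (A J) (g J) (jb J) (ji J)
      Gn Hn pP pH zP zH f f' kf) hBA hPB hI (hN₁.trans O.Ns) H.Ww (fun ω hω b hb1 hb2 =>
      (O.pg ω hω b hb1 hb2).trans (pow_le_pow_right₀ one_le_two H.es))
    rfl rfl rfl rfl rfl H.jb0 (fun i hi => ⟨rfl, rfl, rfl⟩) H.Cs (by
      show ((s J : ℝ) + 1) * Real.log 2 + ε₁ / 2 * J ≤ yc * Real.log 2
      have h1 := mul_le_mul_of_nonneg_right hyc1 hl2.le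
      have h2 : 0 ≤ (y₀ J : ℝ) * Real.log 2 := by positivity
      have h3 : 0 ≤ ε₁ * J := by positivity
      have h4 : ε₁ / 2 * J ≤ ε₁ * J * Real.log 2 := by nlinarith
      nlinarith) H.J1 H.J2
  have hPB₁0 : 0 < Pe F.p B₁ := by linarith
  have hAB₁ : Pe F.p A' ≤ 4 * K₁ * Pe F.p B₁ := by
    have := mul_le_mul_of_nonneg_left (show Pe F.p B ≤ 4 * Pe F.p B₁ by linarith) hK₁.le
    linarith
  have hB₁A : Sub B₁ A' := fun ω hω => hBA ω (hB₁ ω hω)
  have hWw := H.Ww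
  have hkey1 : C * (τ * J + 1) ≤ yc * Real.log 2 := by
    have h1 : C * (τ * J) ≤ ε₁ / 4 * J := by
      calc C * (τ * J) = C * τ * J := by ring
        _ ≤ _ := mul_le_mul_of_nonneg_right hτ1 hJr
    have h2 : ε₁ * J ≤ yc := by
      have : (0 : ℝ) ≤ (s J : ℝ) + y₀ J + 1 := by positivity
      linarith
    have h3 : 0 ≤ ε₁ * J := by positivity
    have h4 := mul_le_mul_of_nonneg_right h2 hl2.le
    nlinarith
  have hexp : Real.exp (C * (τ * J + 1)) ≤ 2 ^ yc := by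
    have h1 : (2 : ℝ) ^ yc = Real.exp (yc * Real.log 2) := by
      rw [mul_comm, Real.exp_mul, Real.exp_log (by norm_num), Real.rpow_natCast]
    rw [h1]
    exact Real.exp_le_exp.2 hkey1
  have hCY : C ≤ 2 ^ yc := by
    refine le_trans ?_ hexp
    have h1 := Real.add_one_le_exp (C * (τ * J + 1))
    have h2 : 0 ≤ C * (τ * J) := by positivity
    linarith
  obtain ⟨B₂, hB₂, hPB₂, hIF⟩ := hcut F B₁ hPB₁0 (W J) N₁ (Lx J) (2 ^ yc) (τ * J)
    (yv F c (W J) (g J 0 1) (fun S => pH S 1)) (hgP c (W J) (g J 0 1) (fun S => pH S 1))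
    (fun k => A J k - W J) f f' kf (inpL_up (O.inp.sub hB₁) (by omega) (pw hy0c)) hN₁ (by
      have h1 := hLx J hJ0
      have h2 := hI.AW N₁ le_rfl
      show A J N₁ - W J + Lx J ≤ A J N - W J
      omega) (fun S j => (Pool.STB82.hgP_deg c (W J) (g J 0 1) (K := D')
        (fun S => O.inc.hd S 1) S j).trans (by omega)) (fun S => rfl) VP.iP.yh VP.iP.vel
    (by have := H.J2; omega) hCY (by positivity) (hTm B₁ hB₁A hAB₁ hPB₁0) (by
      have h1 : C * (τ * J) ≤ (1 - w) / 4 * J := by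
        calc C * (τ * J) = C * τ * J := by ring
          _ ≤ _ := mul_le_mul_of_nonneg_right hτ2 hJr
      have h3 : 0 ≤ (1 - w) * J := by positivity
      have h4 : (1 - w) / 2 * J ≤ (J - W J) * Real.log 2 := by
        have h5 : (1 - w) * J ≤ J - W J := by linarith
        have h6 := mul_le_mul_of_nonneg_right h5 hl2.le
        nlinarith
      nlinarith) hexp
  have hB₂B : Sub B₂ B := fun ω hω => hB₁ ω (hB₂ ω hω)
  have hYE : ((2 : ℝ) ^ yc) ^ E ≤ 2 ^ y J := by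
    rw [← pow_mul]
    exact pw hEyc
  have O' : N1O F c D' (Kc * (Kc * Kc)) b N₁ (W J) (s J) (v J) (y J) (e J) (X J) (g₃ J)
      (g₃ J + b * (A J N₁ - W J)) (A J) (ee J) (g J) B₂ Gn Hn pP pH xP xH (fun y => G (z y)) zP zH
      f f' kf' :=
    { inc := inc_less hI hB₂B
      Ns := hN₁.trans O.Ns
      n0' := O.n0'
      hp := O.hp
      xc := fun ω hω => O.xc ω (hB₂B ω hω)
      xn := fun ω hω => O.xn ω (hB₂B ω hω)
      pg := fun ω hω => O.pg ω (hB₂B ω hω)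
      zd := O.zd
      zd' := O.zd'
      ze := O.ze
      ze' := O.ze'
      zc := fun ω hω => O.zc ω (hB₂B ω hω)
      inp := by
        rw [hkf']
        exact inpF_up' hIF le_rfl hYE
      val := fun k hk ω hω => (O.val k (hk.trans hN₁) ω (hB₂B ω hω)).trans
        (mul_le_mul_of_nonneg_right (pw (hy0c.trans hycy)) (by positivity))
      gT := fun k hk ω hω => O.gT k (hk.trans hN₁) ω (hB₂B ω hω)
      gz := fun ω hω => O.gz ω (hB₂B ω hω)
      near := fun ω hω r hr => by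
        have h1 := hIF.nr ω hω r hr
        have e1 : (1 / 2 ^ (A J N₁ - W J) : ℝ) ^ b = 1 / 2 ^ (b * (A J N₁ - W J)) := by
          rw [one_div_pow, ← pow_mul, mul_comm]
        rw [e1] at h1
        rw [hkf']
        refine h1.trans ((mul_le_mul_of_nonneg_right hYE (by positivity)).trans (le_of_eq ?_))
        rw [pow_add]
        field_simp }
  have hO : N1O F c D' (Kc * (Kc * Kc)) b N₁ t.W₀ (s J) (v J) (y J) (e J) (X J) t.g₃
      (g₃ J + b * (A J N₁ - W J)) (A J) (ee J) (g J) B₂ Gn Hn pP pH xP xH (fun y => G (z y)) t.zP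
      t.zH t.f t.f' t.kf := by
    rw [ht]
    exact O'
  have VX : VbX F c B₂ K n N₁ b ⌊wn * J⌋₊ z z' G t := by
    refine vbe_tgt hO (by rw [ht]; rfl) (by rw [ht]; rfl) (by rw [ht]; rfl)
      (by rw [ht]; exact le_rfl) (hKcK.trans (Nat.le_succ _)) hDK
      (fun ω _ => (Ψc J F A' V z z' G hΨ).1 _)
      (fun ω _ => (Ψc J F A' V z z' G hΨ).2.1 _)
      (fun ω hω => (Ψc J F A' V z z' G hΨ).2.2 ω (hBA ω (hB₂B ω hω))) (jb J) (fun i hi => ?_)
      (by rw [ht]; exact H.ji0) (by rw [ht]; exact H.lz0) (fun i hi l hl => ?_)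
    · rw [ht]
      obtain ⟨h1, h2, -⟩ := H.jb0 i hi
      exact ⟨h1, h2, rfl, rfl⟩
    · rw [ht]
      exact H.nl i hi l hl
  refine ⟨V, z, z', G, hΨ, B₂, fun ω hω => hBA ω (hB₂B ω hω), ?_, t, ?_, Gn, Hn, pP, pH, zP, zH, f,
    f', kf', ht, hX' J F B B₂ pH hB₂B hXB⟩
  · rw [div_mul_eq_mul_div, one_mul, div_le_iff₀ (by positivity)]
    have := mul_le_mul_of_nonneg_left (show Pe F.p B₁ ≤ 2 * Pe F.p B₂ by linarith) hK₁.le
    nlinarith
  · exact
      { iP := by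
          rw [ht]
          exact (inpP_up VP.iP (pw hycy)).sub hB₂
        iF := VX.iF
        hji := VX.hji
        zc := VX.zc
        Gd := VX.Gd
        Gp := VX.Gp
        zd := VX.zd
        zp := VX.zp
        zcl := VX.zcl
        val := VX.val
        Pd := by rw [ht]; exact VP.Pd
        Pp := by rw [ht]; exact VP.Pp
        Pc := by rw [ht]; exact fun ω hω => VP.Pc ω (hB₂ ω hω)
        Pg := by rw [ht]; exact fun ω hω => VP.Pg ω (hB₂ ω hω)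
        lz := VX.lz
        ch := by rw [ht]; exact fun i hi => (VP.ch i hi).sub hB₂
        hx0 := by rw [ht]; exact fun i hi ω hω => VP.hx0 i hi ω (hB₂ ω hω)
        hx1 := by rw [ht]; exact fun i hi ω hω => VP.hx1 i hi ω (hB₂ ω hω)
        hlT := VX.hlT }

end Pool.STV90
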