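import Pool.Agent.H90.STV.Evn
import Pool.Agent.H90.STV.Evx
import Pool.Agent.H37.STA.Evf
import Pool.Agent.H65.STL.Nll

/-!
# The far data on the event of a virtual target

`far_cls`: for the labels of a family, near data `N1L` and far data `FaE` on one part of each event,
from the labels at a list of nodes which contains the far balls.
-/

set_option autoImplicit false

namespace Pool.STV90

open Finset Real MvPolynomial
open Pool.Agent.H49.Ent Pool.Agent.H32.Dense Pool.STK Pool.KA Pool.KSAT Pool.K2S Pool.PB Pool.S6C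
open Pool.GEN Pool.CHT Pool.CHX Pool.NVX
open Pool.STB (V3 Po Bx VbT VbE InpL N1L)
open Pool.STB65 Pool.STB65.Ls
open Pool.STB77
open Pool.STA37 (nls_up FrL FrF fae_ev FaE FaT fat)
open Pool.ALT (Fml)

/-- **Near and far data on one part of each event**, for the labels of a family. -/
theorem far_cls (D D' : ℕ) : ∃ C₂ Cf D₂ : ℕ, D' ≤ D₂ ∧ 1 ≤ Cf ∧
    ∀ {K K₀ N b M Dr : ℕ} (_ : D₂ ≤ K) {m : ℕ} {S : PCl m} (_ : TmH S)
    {c : ℕ → Fin m} (_ : Set.InjOn c (Set.Iio 4)) {Ψ : Fml m} {w ε K₁ : ℝ} (_ : 0 < ε) (_ : w < 1)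
    (_ : 0 < K₁) {R : ℕ → ℕ → Prop} {ι ιf : ℕ → ℕ} {Nf : ℕ} {s₀ s₁ eJ EJ hJ : ℕ → ℕ}
    {κJ : ℕ → ℝ} {a w' : ℕ → ℕ → ℕ} {g g' : ℕ → ℕ → ℕ → ℕ} {W k y e₁' s v y₀ X g₃ Lx kf vf : ℕ → ℕ}
    {A ee : ℕ → ℕ → ℕ}
    (_ : Bas S (fun J F A' => ∀ (V : Type) (z : PtT F → V) (z' : LnT F → V)
        (G : V → MvPolynomial (Option (Fin m)) ℝ), Ψ J F A' V z z' G →
        ∃ (B : F.Ω → Prop) (Gn : ℕ → PtT F → ℕ → MvPolynomial (Option (Fin m)) ℝ)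
          (Hn : ℕ → LnT F → ℕ → MvPolynomial (Option (Fin m)) ℝ)
          (pP : PtT F → ℕ → MvPolynomial (Option (Fin m)) ℝ)
          (pH : LnT F → ℕ → MvPolynomial (Option (Fin m)) ℝ) (xP : PtT F → ℝ) (xH : LnT F → ℝ)
          (zP : PtT F → MvPolynomial (Option (Fin m)) ℝ)
          (zH : LnT F → MvPolynomial (Option (Fin m)) ℝ) (f : ℕ → PtT F → Po)
          (f' : ℕ → LnT F → Po) (kf : LnT F → Po) (gS : ℕ), Sub B A' ∧
          Pe F.p A' ≤ K₁ * Pe F.p B ∧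
          Nls F c 3 D Dr M (s₀ J) R (a J) (w' J) (eJ J) (EJ J) (g J) (hJ J) (κJ J) B Gn Hn ∧
          N1L F c D' K₀ b N (W J) (s J) (v J) (y₀ J) (eJ J) (X J) (g₃ J) gS (Lx J) (A J) (ee J)
            (g' J) B (fun k => Gn (ι k)) (fun k => Hn (ι k)) pP pH xP xH (fun y => G (z y)) zP zH
            f f' kf))
    (_ : ιf Nf = ι 0) (_ : ∀ k ≤ Nf, ιf k < M) (_ : ∀ k < Nf, R (ιf k) (ιf (k + 1))) {J₀ : ℕ}
    (_ : ∀ J ≥ J₀, s₀ J ≤ s₁ J ∧ FrL J Nf (s₁ J) (vf J) (a J) (w' J) (g J) ιf)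
    (_ : ∀ J ≥ J₀, FrF J Nf C₂ (W J) (k J) (y J) (e₁' J) (s J) (v J) (a J (ιf 0)) (kf J)
      (g' J 0 1) (Cf * (s₁ J + 1)) (vf J) (eJ J) (fun k => a J (ιf k))
      (fun k => g J (ιf k)) w ε),
    Bas S (fun J F A' => ∀ (V : Type) (z : PtT F → V) (z' : LnT F → V)
        (G : V → MvPolynomial (Option (Fin m)) ℝ), Ψ J F A' V z z' G →
        ∃ (B : F.Ω → Prop) (Gn : ℕ → PtT F → ℕ → MvPolynomial (Option (Fin m)) ℝ)
          (Hn : ℕ → LnT F → ℕ → MvPolynomial (Option (Fin m)) ℝ)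
          (pP : PtT F → ℕ → MvPolynomial (Option (Fin m)) ℝ)
          (pH : LnT F → ℕ → MvPolynomial (Option (Fin m)) ℝ) (xP : PtT F → ℝ) (xH : LnT F → ℝ)
          (zP : PtT F → MvPolynomial (Option (Fin m)) ℝ)
          (zH : LnT F → MvPolynomial (Option (Fin m)) ℝ) (f : ℕ → PtT F → Po)
          (f' : ℕ → LnT F → Po) (kp : LnT F → Po) (gS : ℕ), Sub B A' ∧
          Pe F.p A' ≤ 8 * K₁ * Pe F.p B ∧
          (∃ pPf pHf xPf xHf, FaE F c B K (y J) (e₁' J) (W J) (g' J 0 1) (fun S => pH S 1)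
            (fat F c (W J) (k J) (a J (ιf 0)) (kf J) (fun k => g J (ιf k)) pPf pHf xPf xHf)) ∧
          N1L F c D' K₀ b N (W J) (s J) (v J) (y₀ J) (eJ J) (X J) (g₃ J) gS (Lx J) (A J) (ee J)
            (g' J) B Gn Hn pP pH xP xH (fun y => G (z y)) zP zH f f' kp) := by
  obtain ⟨Cf, D'', hCf, hDD'', hinc⟩ := inc_nls D
  obtain ⟨C₂, hfar⟩ := fae_ev (max D' D'')
  refine ⟨C₂, Cf, max D' D'', le_max_left _ _, hCf, ?_⟩
  intro K K₀ N b M Dr hDK m S hS c hc Ψ w ε K₁ hε hw hK₁ R ι ιf Nf s₀ s₁ eJ EJ hJ κJ a w' g g' W k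
    y e₁' s v y₀ X g₃ Lx kf vf A ee hcls hιf hιM hιR J₀ hL hFF
  refine Bas.mono J₀ (hcls.and (hfar hS K hDK (2 * K₁) hε hw)) ?_
  rintro J hJ F A' ⟨hP, hQ⟩ V z z' G hG
  obtain ⟨B, Gn, Hn, pP, pH, xP, xH, zP, zH, f, f', kp, gS, hBA, hPB, hN, O⟩ := hP V z z' G hG
  obtain ⟨hs₀, L⟩ := hL J hJ
  have FF := hFF J hJ
  have hN' := nls_up hN hs₀
  obtain ⟨B₁, xPf, xHf, pPf, pHf, hB₁, hPB₁, If, -, hxc, hxn, hgr⟩ := hinc (ι := ιf) (N := Nf)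
    (v := vf J) (by norm_num) (by simpa using hc) hN' hιM L.wa hιR L.aJ L.am L.av L.n0 L.n0' L.n1g
    L.n1 L.n1'
  have hBA₁ : Sub B₁ A' := fun ω hω => hBA ω (hB₁ ω hω)
  have hPA₁ : Pe F.p A' ≤ 2 * K₁ * Pe F.p B₁ := by
    have := mul_le_mul_of_nonneg_left hPB₁ hK₁.le
    linarith
  obtain ⟨B₂, hB₂, hPB₂, -, FE⟩ := hQ B₁ c N Nf (W J) (k J) (y J) (e₁' J) (s J) (v J)
    (a J (ιf 0)) (kf J) (Cf * (s₁ J + 1)) (vf J) (eJ J) (A J) (ee J)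
    (fun k => a J (ιf k)) (fun _ => EJ J) (g' J)
    (fun k => g J (ιf k)) (fun k => Gn (ι k)) (fun k => Gn (ιf k)) (fun k => Hn (ι k))
    (fun k => Hn (ιf k)) pP pPf pH pHf xPf xHf hBA₁ hPA₁
    (inc_mono (inc_less O.inc hB₁) (le_max_left _ _) le_rfl) O.Ns
    (inc_mono If (le_max_right _ _) le_rfl) (by show Gn _ = Gn _; rw [hιf])
    hxc hxn hgr FF
  have hB₂B : Sub B₂ B := fun ω hω => hB₁ ω (hB₂ ω hω)
  refine ⟨B₂, fun k => Gn (ι k), fun k => Hn (ι k), pP, pH, xP, xH, zP, zH, f, f', kp, gS,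
    fun ω hω => hBA ω (hB₂B ω hω), ?_, ⟨pPf, pHf, xPf, xHf, FE⟩, n1l_sub O hB₂B⟩
  have h1 : Pe F.p B₁ ≤ 4 * Pe F.p B₂ := by linarith
  have := mul_le_mul_of_nonneg_left h1 (show 0 ≤ 2 * K₁ by positivity)
  linarith

end Pool.STV90
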