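import Pool.Agent.H6.STB.Evl

/-!
# The input of the jets for a static target at a record, with the labels at all nodes

`n1_recN`: `n1_recL` of helper6, the labels at the list of nodes are kept.
-/

set_option autoImplicit false

namespace Pool.STV90

open Finset Real MvPolynomial
open Pool.Agent.H49.Ent Pool.Agent.H32.Dense Pool.STK Pool.KA Pool.KSAT Pool.K2S Pool.PB Pool.S6C
open Pool.GEN Pool.RCD Pool.LA91 Pool.PKG Pool.CHT Pool.CHX Pool.NVX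
open Pool.GRD (LbP)
open Pool.ALT (Fml BlB)
open Pool.STB77 (NodF Inc Nls)
open Pool.STB (N1L InpL LsN GrN nAA nWW nι nσ ball_at ball_zero pair_at ball_mono box_in lv_lin
  lv_mono lv_sta nod_box nι_le Po)
open Pool.STB65 (NsR NsQ MxS)
open Pool.STB6 (n1l_s nsq_C)

/-- **`n1_clsL` at a record**, for a family `Ψ` of labels closed at the window `t + oV q`, of
precision `pN`, blind closed labels at the balls, and labels at the balls; with the labels at all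
nodes. -/
theorem n1_recN (D b : ℕ) (hD : 1 ≤ D) : ∃ C₀ C D' K₀ : ℕ, 1 ≤ C₀ ∧ D ≤ D' ∧ ∀ {S : PCl 4} {al : ℝ}
    {g₀ : ℝ → ℝ} {P₀ : List (Fin 4) × Fin 4 → ℝ → ℝ → ℝ} {θ : ℝ}
    {P₂ : ℕ → List (Fin 4) × Fin 4 → ℝ → ℝ → ℝ} {θ₂ Eb e₂ : ℕ → ℝ}
    {c : ℕ → Fin 4} {Pt : ℝ → ℝ → ℝ} {r : ℝ → ℝ} {h Kn g : ℝ} {L T : ℕ → ℝ → ℝ → ℝ}
    {Sl : ℕ → ℝ} {κ : ℕ → Kg} {G : Set ℝ} {S₀ N₀ : ℕ} {A V : ℕ → ℝ} {S₂ N' : ℕ} {V' : ℕ → ℝ}
    {K ε q t : ℝ}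
    (_ : RecG S al g₀ P₀ θ P₂ θ₂ Eb e₂ c Pt r h Kn g L T Sl κ G S₀ N₀ A V S₂ N' V' K ε q t)
    (_ : Sl 1 = 1) (_ : Sl 3 = b) (_ : κ 3 = .sta) (_ : 0 ≤ ε)
    {oW y ρ : ℝ} {Ng P pc N M' Nx : ℕ} {Ax Vx : ℕ → ℝ}
    (_ : LsN oW y ρ Ng P Nx Ax Vx N₀ A V N' V' K) (_ : GrN y ρ Ng P pc N M')
    (_ : ∀ k < Ng + P + 2 + Nx, NodF S c 3 D L (Eb 3) (Eb 3) (nAA t q oW y ρ Ng P Ax k)
      (nWW t q oW ρ Ng P Vx k))
    {Db : ℕ} {oV : ℝ} {Ψ : Fml 4} {pN : ℝ} {p p₂ z : ℕ → ℝ} (_ : Db ≤ D) (_ : oV ≤ oW)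
    (_ : ∀ (J : ℕ) (F : Fam 4 J) (A : F.Ω → Prop) (V : Type) (z : PtT F → V) (z' : LnT F → V)
      (G : V → MvPolynomial (Option (Fin 4)) ℝ), Ψ J F A V z z' G →
      LbP F ((range 3).image c) (c 3) D J ⌊(t + oV * q) * J⌋₊ ⌊pN * J⌋₊ A z z' G)
    (_ : ∀ k ≤ N + (P - pc), BlB S c 2 (c 3) (t + oV * q) (nAA t q oW y ρ Ng P Ax (nι N M' k))
      Db Db (p k) (p₂ k) (z k) Ψ)
    (_ : ∀ k ≤ N + (P - pc), ∃ χ : ℝ, 0 < χ ∧ Bas S (fun J F A => ∃ (P₁ : ℕ) (V₁ : Type)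
      (z₁ : PtT F → V₁) (z₁' : LnT F → V₁) (G₁ : V₁ → MvPolynomial (Option (Fin 4)) ℝ),
      LbP F ((range 3).image c) (c 3) Db J ⌊nAA t q oW y ρ Ng P Ax (nι N M' k) * J⌋₊ P₁ A z₁ z₁'
        G₁ ∧ (p k + χ) * J ≤ P₁))
    (_ : ∀ k ≤ N + (P - pc), ∃ χ : ℝ, 0 < χ ∧ Bas S (fun J F A => ∃ (P₁ : ℕ) (V₁ : Type)
      (z₁ : PtT F → V₁) (z₁' : LnT F → V₁) (G₁ : V₁ → MvPolynomial (Option (Fin 4)) ℝ),
      LbP F ((range 2).image c) (c 2) Db J ⌊nAA t q oW y ρ Ng P Ax (nι N M' k) * J⌋₊ P₁ A z₁ z₁'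
        G₁ ∧ (p₂ k + χ) * J ≤ P₁))
    {xx s₀ s : ℝ} (_ : 0 ≤ xx)
    (_ : L 3 (t + oW * q) (t + oW * q) ≤ pN + xx)
    (_ : ∀ k ≤ N, L 3 (t + oW * q) (t + oW * q) +
      b * (nAA t q oW y ρ Ng P Ax (nι N M' k) - (t + oW * q)) ≤ p k + s₀)
    (_ : ∀ k ≤ N, z k + (L 3 (t + oW * q) (t + oW * q) +
      b * (nAA t q oW y ρ Ng P Ax (nι N M' k) - (t + oW * q))) ≤
      L 2 (nAA t q oW y ρ Ng P Ax (nι N M' k)) (nAA t q oW y ρ Ng P Ax (nι N M' k)) + s₀)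
    (_ : 4 * (ε * q) ≤ s₀) {v : ℝ} (_ : ρ * q ≤ v)
    {Dr : ℕ} (_ : D' ≤ Dr)
    (_ : 0 < s) (_ : C₀ * (s₀ + 4 * s) ≤ 3 * K * q) {Lm : ℝ} (_ : 0 ≤ Lm) (_ : Lm ≤ t - K * q)
    (_ : NsQ C₀ N (N + (P - pc)) (L 3 (nAA t q oW y ρ Ng P Ax (nι N M' 0))
          (nWW t q oW ρ Ng P Vx (nι N M' 0)) +
        b * (nAA t q oW y ρ Ng P Ax (nι N M' N) - nAA t q oW y ρ Ng P Ax (nι N M' 0)) - Lm)
      L (nAA t q oW y ρ Ng P Ax) (nWW t q oW ρ Ng P Vx) (nι N M') (nσ Ng pc N) p z s₀ s ∨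
      MxS S c D Dr (Ng + P + 2 + Nx) L (Eb 3) (Eb 3) s s₀ (t + oV * q)
        (nAA t q oW y ρ Ng P Ax) (nWW t q oW ρ Ng P Vx) (nσ Ng pc N N)
        (L 3 (nAA t q oW y ρ Ng P Ax (nι N M' 0)) (nWW t q oW ρ Ng P Vx (nι N M' 0)) +
          b * (nAA t q oW y ρ Ng P Ax (nι N M' N) - nAA t q oW y ρ Ng P Ax (nι N M' 0)) - Lm) Ψ),
    ∃ (K₁ : ℝ) (d : ℕ → ℕ → ℝ) (ψ : ℝ), 0 < K₁ ∧ 0 < ψ ∧
      (∀ k < Ng + P + 2 + Nx, ∀ l ≤ 3, 0 < d k l ∧ d k l ≤ s ∧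
        d k l < nAA t q oW y ρ Ng P Ax k) ∧
      Bas S (fun J F A => ∀ (V : Type) (z : PtT F → V) (z' : LnT F → V)
        (G : V → MvPolynomial (Option (Fin 4)) ℝ), Ψ J F A V z z' G →
        ∃ (B : F.Ω → Prop) (Gn : ℕ → PtT F → ℕ → MvPolynomial (Option (Fin 4)) ℝ)
          (Hn : ℕ → LnT F → ℕ → MvPolynomial (Option (Fin 4)) ℝ)
          (pP : PtT F → ℕ → MvPolynomial (Option (Fin 4)) ℝ)
          (pH : LnT F → ℕ → MvPolynomial (Option (Fin 4)) ℝ) (xP : PtT F → ℝ) (xH : LnT F → ℝ)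
          (zP : PtT F → MvPolynomial (Option (Fin 4)) ℝ)
          (zH : LnT F → MvPolynomial (Option (Fin 4)) ℝ) (f : ℕ → PtT F → Po)
          (f' : ℕ → LnT F → Po) (kf : LnT F → Po) (gS : ℕ), Sub B A ∧
          Pe F.p A ≤ K₁ * Pe F.p B ∧
          Nls F c 3 D Dr (Ng + P + 2 + Nx) ⌊s * J⌋₊
            (fun j k => nAA t q oW y ρ Ng P Ax j ≤ nAA t q oW y ρ Ng P Ax k ∧
              nWW t q oW ρ Ng P Vx j ≤ nWW t q oW ρ Ng P Vx k)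
            (fun k => ⌊nAA t q oW y ρ Ng P Ax k * J⌋₊) (fun k => ⌊nWW t q oW ρ Ng P Vx k * J⌋₊)
            ⌊Eb 3 * J⌋₊ ⌊(Eb 3 + s) * J⌋₊
            (fun k l => ⌊(L l (nAA t q oW y ρ Ng P Ax k) (nWW t q oW ρ Ng P Vx k) - d k l) * J⌋₊)
            ⌊s * J⌋₊ (Real.exp (-(ψ * J))) B Gn Hn ∧
          N1L F c D' K₀ b N ⌊(t + oW * q) * J⌋₊ (C₀ * (⌊(s₀ + 3 * s) * J⌋₊ + 1))
            (⌊v * J⌋₊ + 1) (C * (⌊(s₀ + 3 * s) * J⌋₊ + ⌊v * J⌋₊ + 1)) ⌊Eb 3 * J⌋₊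
            (C * (⌊(s₀ + 3 * s) * J⌋₊ + ⌊v * J⌋₊ + 1) + ⌊(Eb 3 + s) * J⌋₊ + ⌊xx * J⌋₊)
            ⌊(L 3 (t + oW * q) (t + oW * q) - d 0 3) * J⌋₊ gS (⌊Lm * J⌋₊ + 1)
            (fun k => ⌊nAA t q oW y ρ Ng P Ax (nι N M' k) * J⌋₊) (fun _ => ⌊(Eb 3 + s) * J⌋₊)
            (fun k l => ⌊(L l (nAA t q oW y ρ Ng P Ax (nι N M' k))
              (nWW t q oW ρ Ng P Vx (nι N M' k)) - d (nι N M' k) l) * J⌋₊) B
            (fun k => Gn (nι N M' k)) (fun k => Hn (nι N M' k)) pP pH xP xH (fun y => G (z y)) zP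
            zH f f' kf) := by
  obtain ⟨C₀, C, D', K₀, hDD', hn1⟩ := Pool.STB65.Ls.n1_clsL D b hD
  refine ⟨C₀ + 1, C, D', K₀, by omega, hDD', ?_⟩
  intro S al g₀ P₀ θ P₂ θ₂ Eb e₂ c Pt r h Kn g L T Sl κ G S₀ N₀ A V S₂ N' V' K ε q t R S1 S3 hκ hε
    oW y ρ Ng P pc N M' Nx Ax Vx H gr hnd Db oV Ψ pN p p₂ zz hDb hio hΨ hbl hl3 hl2 xx s₀ s hxx hx
    hlq hlb hs₀ v hv Dr hDr hs hC' Lm hLm0 hLm hmx
  have hq := R.q0
  have hεq : 0 ≤ ε * q := by positivity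
  have hs₀0 : 0 ≤ s₀ := by linarith
  have hC : C₀ * (s₀ + 4 * s) ≤ 3 * K * q := by
    refine le_trans (mul_le_mul_of_nonneg_right ?_ (by positivity)) hC'
    push_cast
    linarith
  have hr := gr.r0
  have hy := gr.y0
  obtain ⟨z1, z2, z3, z4⟩ := ball_zero R H gr
  obtain ⟨w1, w2, w3⟩ := box_in R z3 z4
  have h34 : (3 : ℕ) < 4 := by norm_num
  have hNN : N ≤ N + (P - pc) := Nat.le_add_right _ _
  have hT := R.tg 3 (by norm_num) h34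
  have hEb := hT.Eb0
  have hb0 : (0 : ℝ) ≤ b := Nat.cast_nonneg b
  have hww : ∀ k ≤ N + (P - pc), nWW t q oW ρ Ng P Vx (nι N M' k) =
      nAA t q oW y ρ Ng P Ax (nι N M' k) := fun k hk => by
    obtain ⟨h1, h2, -, -⟩ := ball_at R H gr hk
    rw [h1, h2]
  have hMx : ∀ k ≤ N + (P - pc), nι N M' k < Ng + P + 2 + Nx := fun k hk => by
    have := gr.ι_le hk
    omega
  have hnsr0 := Pool.STB.nsr_rec R H gr h34 S3 hκ (X := 0) (η := 0) le_rfl le_rfl hε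
    (s₀ := s₀) (by linarith)
  have hnsr : NsR b N (L 3 (nAA t q oW y ρ Ng P Ax (nι N M' 0))
        (nWW t q oW ρ Ng P Vx (nι N M' 0)) +
        b * (nAA t q oW y ρ Ng P Ax (nι N M' N) - nAA t q oW y ρ Ng P Ax (nι N M' 0)))
      L (nAA t q oW y ρ Ng P Ax) (nWW t q oW ρ Ng P Vx) (nι N M') (nσ Ng pc N) p zz s₀ :=
    { hnsr0 with
      lq := fun k hk => by
        rw [z1, z2]
        exact hlq k hk
      bl := fun k hk => by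
        rw [z1, z2, hww k (hk.trans hNN)]
        exact hlb k hk }
  have hγ : Lm ≤ L 3 (nAA t q oW y ρ Ng P Ax (nι N M' 0)) (nWW t q oW ρ Ng P Vx (nι N M' 0)) +
      b * (nAA t q oW y ρ Ng P Ax (nι N M' N) - nAA t q oW y ρ Ng P Ax (nι N M' 0)) := by
    have h1 := R.low_at h34 w2.le le_rfl w3.le
    have h2 := ball_mono R H gr (Nat.zero_le N) hNN
    have h3 : 0 ≤ (b : ℝ) * (nAA t q oW y ρ Ng P Ax (nι N M' N) -
      nAA t q oW y ρ Ng P Ax (nι N M' 0)) := mul_nonneg hb0 (by linarith)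
    have h4 := (abs_le.1 w1).1
    rw [z1, z2] at *
    linarith
  have hres := hn1 (S := S) (c := c) (β := L) (e := Eb 3) (E := Eb 3) (Db := Db) R.tmh
    (R.inj.mono fun x hx => hx) hEb.le (Ng + P + 2 + Nx) (nAA t q oW y ρ Ng P Ax)
    (nWW t q oW ρ Ng P Vx) (fun k hk => (nod_box R H gr hk).1) (fun k hk => (nod_box R H gr hk).2.1)
    (fun k hk => (nod_box R H gr hk).2.2) (fun j hj k hk h1 h2 => lv_mono R h34
      (nod_box R H gr hj).1 h2 h1 (nod_box R H gr hj).2.1 (nod_box R H gr hk).2.1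
      (nod_box R H gr hk).2.2.le) hnd N (N + (P - pc)) hNN (nι N M') (nσ Ng pc N)
    (fun k hk => ⟨hMx k hk, hww k hk⟩)
    (fun k hk => ball_mono R H gr (Nat.le_succ k) hk) (fun k hk1 hk2 => by
      obtain ⟨i', rfl⟩ : ∃ i', k = N + i' := ⟨k - N, by omega⟩
      obtain ⟨s1, s2, s3, -⟩ := pair_at R H gr (i := i') (by have := gr.pP; omega)
      exact ⟨s3, s1, by rw [s2, z1]⟩) v s₀ (fun k hk => by
      rw [(ball_at R H gr (hk.le.trans hNN)).1, (ball_at R H gr (Nat.le_trans hk hNN)).1,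
        nι_le hk.le, nι_le hk]
      push_cast
      nlinarith) hs₀0 (fun k hk => by
      obtain ⟨h1, -, h3, h4⟩ := ball_at R H gr (hk.trans hNN)
      rw [hww k (hk.trans hNN), h1]
      have := (abs_le.1 (R.l0 _ (box_in R h3 h4).1)).2
      linarith) (by
      rw [z1, z2]
      have := (abs_le.1 (R.l0 _ w1)).1
      linarith) (by
      rw [z1, z2]
      exact R.low_at (by norm_num) w2.le le_rfl w3.le) (fun k hk => by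
      obtain ⟨h1, -, h3, h4⟩ := ball_at R H gr (hk.trans hNN)
      rw [hww k (hk.trans hNN), h1, z1, z2]
      have := abs_le.1 (lv_lin R (l := 1) (by norm_num) w1 (box_in R h3 h4).1)
      rw [S1, one_mul] at this
      linarith [this.2]) (fun k hk => by
      obtain ⟨h1, -, h3, h4⟩ := ball_at R H gr (hk.trans hNN)
      rw [hww k (hk.trans hNN), h1, z1, z2]
      have := abs_le.1 (lv_lin R (l := 1) (by norm_num) w1 (box_in R h3 h4).1)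
      rw [S1, one_mul] at this
      linarith [this.1]) (t + oV * q) pN xx _ p p₂ zz Ψ hnsr Lm hLm0 hγ (by
      rw [z1]
      nlinarith) hxx (by
      rw [z1, z2]
      exact hx) hΨ hDb hbl hl3 hl2 Dr hDr s hs (by
      rw [z1, z2]
      have h1 := hT.room 1 (by norm_num) _ w1
      linarith) (hmx.imp_left fun h => nsq_C h (Nat.le_succ _) hs₀0 hs.le)
  obtain ⟨K₁, d, ψ, hK₁, hψ, hd, hbas⟩ := hres
  refine ⟨K₁, d, ψ, hK₁, hψ, hd, Bas.mono 0 hbas ?_⟩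
  intro J _ F A hA V z z' G hG
  obtain ⟨B, Gn, Hn, pP, pH, xP, xH, zP, zH, f, f', kf, h1, h2, h3, h4⟩ := hA V z z' G hG
  have e0 : nι N M' 0 = 0 := nι_le (Nat.zero_le _)
  have hmax : max ⌊Eb 3 * (J : ℝ)⌋₊ ⌊(Eb 3 + s) * (J : ℝ)⌋₊ = ⌊(Eb 3 + s) * (J : ℝ)⌋₊ :=
    max_eq_right (Nat.floor_le_floor (mul_le_mul_of_nonneg_right (by linarith)
      (Nat.cast_nonneg J)))
  rw [hmax, e0] at h4
  have z1' : nAA t q oW y ρ Ng P Ax 0 = t + oW * q := by rw [← e0]; exact z1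
  have z2' : nWW t q oW ρ Ng P Vx 0 = t + oW * q := by rw [← e0]; exact z2
  rw [z1', z2'] at h4
  exact ⟨B, Gn, Hn, pP, pH, xP, xH, zP, zH, f, f', kf, _, h1, h2, h3,
    n1l_s h4 (Nat.mul_le_mul_right _ (Nat.le_succ _))⟩

end Pool.STV90
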