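import Pool.Agent.H90.STV.Blb
import Pool.Agent.H90.STV.Bxs
import Pool.Agent.H92.V0F.Rsb
import Pool.Agent.H92.V0F.Hex

/-!
# The family of the closed slopes, with a row chain, and the labels at the windows of a record

`BlP`: closed labels whose slope is near the ones of labels of some windows. `lbp_bal`: closed labels at
the windows of a record, of a degree which depends only on the place and on the growth.
-/

set_option autoImplicit false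

namespace Pool.STV90

open Finset Real MvPolynomial
open Pool.Agent.H49.Ent Pool.Agent.H32.Dense Pool.STK Pool.KA Pool.KSAT Pool.K2S Pool.PB Pool.S6C
open Pool.GEN Pool.CHT Pool.CHX Pool.ISO Pool.D2R Pool.PKG Pool.NVX
open Pool.GRD (LbP)
open Pool.ALT (Fml BlB)

variable {m : ℕ}

/-- **The family of the closed slopes**: closed labels of the window `w` near closed labels of the
windows `v k`, in the direction `c r`. -/
def BlP (c : ℕ → Fin m) (r K K₁ : ℕ) (w P : ℝ) (n : ℕ) (v p₁ x₀ : ℕ → ℝ) : Fml m :=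
  fun J F A V z z' G =>
    LbP F ((range (r + 1)).image c) (c (r + 1)) K J ⌊w * J⌋₊ ⌊P * J⌋₊ A z z' G ∧
    ∀ k < n, NrF c r K₁ (v k) w (p₁ k) (x₀ k) J F A V z z' G

theorem NrF.hs {c : ℕ → Fin m} {r K₁ : ℕ} {v₁ w p₁ x₀ : ℝ} {J : ℕ} {F : Fam m J}
    {A B : F.Ω → Prop} {V : Type} {z : PtT F → V} {z' : LnT F → V}
    {G : V → MvPolynomial (Option (Fin m)) ℝ} (hB : Sub B A)
    (h : NrF c r K₁ v₁ w p₁ x₀ J F A V z z' G) : NrF c r K₁ v₁ w p₁ x₀ J F B V z z' G := by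
  obtain ⟨V₁, z₁, z₁', G₁, P₁, h1, h2, h3⟩ := h
  exact ⟨V₁, z₁, z₁', G₁, P₁, h1.sub hB, h2, fun ω hω => h3 ω (hB ω hω)⟩

theorem BlP.hs {c : ℕ → Fin m} {r K K₁ : ℕ} {w P : ℝ} {n : ℕ} {v p₁ x₀ : ℕ → ℝ} {J : ℕ}
    {F : Fam m J} {A B : F.Ω → Prop} {V : Type} {z : PtT F → V} {z' : LnT F → V}
    {G : V → MvPolynomial (Option (Fin m)) ℝ} (hB : Sub B A)
    (h : BlP c r K K₁ w P n v p₁ x₀ J F A V z z' G) :
    BlP c r K K₁ w P n v p₁ x₀ J F B V z z' G :=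
  ⟨h.1.sub hB, fun k hk => (h.2 k hk).hs hB⟩

theorem BlR.hs {c : ℕ → Fin m} {r D K K₁ : ℕ} {a vr e gu p x w P : ℝ} {n : ℕ} {v p₁ x₀ : ℕ → ℝ}
    {J : ℕ} {F : Fam m J} {A B : F.Ω → Prop} {V : Type} {z : PtT F → V} {z' : LnT F → V}
    {G : V → MvPolynomial (Option (Fin m)) ℝ} (hB : Sub B A)
    (h : BlR c r D a vr e gu p x w (BlP c r K K₁ w P n v p₁ x₀) J F A V z z' G) :
    BlR c r D a vr e gu p x w (BlP c r K K₁ w P n v p₁ x₀) J F B V z z' G :=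
  ⟨h.1.hs hB, h.2.sub hB⟩

/-- **The family exists on a part of every event.** -/
theorem blR_of {S : PCl m} {c : ℕ → Fin m} {r K K₁ : ℕ} {w P : ℝ} {n : ℕ} {v p₁ x₀ : ℕ → ℝ}
    {D : ℕ} {a vr e gu p x κ : ℝ}
    (h : BlXr S c r K K₁ w P n v p₁ x₀ D a vr e gu p x κ) :
    Bas S (fun J F A => ∃ B : F.Ω → Prop, Sub B A ∧ Pe F.p A ≤ κ * Pe F.p B ∧
      ∃ (V : Type) (z : PtT F → V) (z' : LnT F → V) (G : V → MvPolynomial (Option (Fin m)) ℝ),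
        BlR c r D a vr e gu p x w (BlP c r K K₁ w P n v p₁ x₀) J F B V z z' G) := by
  refine Bas.mono 0 h ?_
  rintro J - F A ⟨B, b1, b2, V, z, z', G, P', l1, l2, l3, l4⟩
  refine ⟨B, b1, b2, V, z, z', G, ⟨?_, l3⟩, l4⟩
  exact l1.mono (Finset.Subset.refl _) le_rfl (Nat.floor_le_of_le l2)

/-- The labels of closed charts. -/
theorem lbp_cls {J : ℕ} {F : Fam m J} {c : ℕ → Fin m} {n D a w e : ℕ} {g : ℕ → ℕ}
    {B : F.Ω → Prop} {G : PtT F → ℕ → MvPolynomial (Option (Fin m)) ℝ}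
    {H : LnT F → ℕ → MvPolynomial (Option (Fin m)) ℝ}
    (hch : ChOK F c n (fun _ => D) a w e g B G H) (hcl : Clsd F n w B G H) {l : ℕ} (hl : l < n) :
    ∃ (V₁ : Type) (z₁ : PtT F → V₁) (z₁' : LnT F → V₁)
      (G₁ : V₁ → MvPolynomial (Option (Fin m)) ℝ),
      LbP F ((range l).image c) (c l) D J w (g l) B z₁ z₁' G₁ := by
  refine ⟨{v : MvPolynomial (Option (Fin m)) ℝ // v.totalDegree ≤ D ∧ DepC c l v},
    fun y => ⟨G y l, hch.degG y _, hch.depG y _⟩,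
    fun s => ⟨H s l, hch.degH s _, hch.depH s _⟩, Subtype.val,
    ⟨fun v => v.2.1, fun v b b' hn hb => v.2.2 b b' hn fun j hj =>
      hb _ (Finset.mem_image_of_mem _ (Finset.mem_range.2 hj)),
      fun ω hω => Subtype.ext (hcl ω hω _ hl), fun ω hω => ?_⟩⟩
  have h1 := hch.pos ω hω l hl
  rw [hcl ω hω l hl] at h1
  exact h1

/-- **Closed labels at the windows of a record**, on a part of every event. -/
theorem lbp_bal (n r S₀ : ℕ) (hr : 1 ≤ r) (hS₀ : 1 ≤ S₀) : ∃ D : ℕ, 1 ≤ D ∧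
    ∀ {S : PCl n} {al : ℝ} {g₀ : ℝ → ℝ} {P : List (Fin n) × Fin n → ℝ → ℝ → ℝ}
    {θ : ℝ} {P₂ : ℕ → List (Fin n) × Fin n → ℝ → ℝ → ℝ} {θ₂ Eb e₂ : ℕ → ℝ}
    {c : ℕ → Fin n} {Pt : ℝ → ℝ → ℝ} {rt : ℝ → ℝ} {h K₀ g : ℝ} {L T : ℕ → ℝ → ℝ → ℝ}
    {Sl : ℕ → ℝ} {κ : ℕ → Kg} {G : Set ℝ} {N : ℕ} {A V : ℕ → ℝ} {S₂ N' : ℕ} {V' : ℕ → ℝ}
    {K ε q t : ℝ}, RecG S al g₀ P θ P₂ θ₂ Eb e₂ c Pt rt h K₀ g L T Sl κ G S₀ N A V S₂ N' V' K ε
      q t → r < n → 0 < K → ∀ k < N', |V' k| ≤ K → ∀ e : ℝ, 0 < e → ∃ K₁ : ℝ, 0 < K₁ ∧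
      Bas S (fun J F A => ∃ B : F.Ω → Prop, Sub B A ∧ Pe F.p A ≤ K₁ * Pe F.p B ∧
        ∀ l ≤ r, ∃ (V₁ : Type) (z₁ : PtT F → V₁) (z₁' : LnT F → V₁)
          (G₁ : V₁ → MvPolynomial (Option (Fin n)) ℝ) (P₁ : ℕ),
          LbP F ((range l).image c) (c l) D J ⌊(t + V' k * q) * J⌋₊ P₁ B z₁ z₁' G₁ ∧
          (L l (t + V' k * q) (t + V' k * q) - e) * J ≤ P₁) := by
  obtain ⟨D, hD, hball⟩ := ball_win n r S₀ hr hS₀
  refine ⟨D, hD, ?_⟩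
  intro S al g₀ P θ P₂ θ₂ Eb e₂ c Pt rt h K₀ g L T Sl κ G N A V S₂ N' V' K ε q t R hrn hK k hk hVK
    e he
  have hq := R.q0
  have W := R.tg r hr hrn
  obtain ⟨ρ, vs, e₁, e₀, E, sg, Q, k1, k2, -⟩ := W.ptc k hk
  have hKq : 0 < K * q := mul_pos hK hq
  obtain ⟨w, hw⟩ : ∃ w, w = t + V' k * q := ⟨_, rfl⟩
  rw [← hw] at k1 ⊢
  have hwx : |w - t| ≤ K * q := by
    rw [hw, add_sub_cancel_left, abs_mul, abs_of_pos hq]
    exact mul_le_mul_of_nonneg_right hVK hq.le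
  have hlv : ∀ l ≤ r, lvN P c r (L r) l w w = L l w w := fun l hl => by rw [← R.lv_at hrn hl]
  obtain ⟨K₁, μ, b, hK₁, -, -, hB⟩ := hball 0 (a := w + K * q) R.thr R.th0 R.tmh
    (R.inj.mono fun x hx => by
      rw [Set.mem_Iio] at hx ⊢
      omega) (R.lawL r hrn) (by linarith) k1 k2 (fun l hl => by
      have h1 := W.room l hl w hwx
      rw [hlv l hl]
      linarith) 1 e (K * q / 2) 0 one_pos he (by linarith)
  obtain ⟨J₁, hJ₁⟩ := exists_nat_ge (2 / (K * q / 2))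
  refine ⟨K₁, hK₁, Bas.mono J₁ (hB 1 one_pos) ?_⟩
  rintro J hJ F A' hb
  have hJ0 : (0 : ℝ) ≤ J := Nat.cast_nonneg J
  have hJ1 : 2 ≤ K * q / 2 * J := by
    have h1 : (J₁ : ℝ) ≤ J := by exact_mod_cast hJ
    have h2 := hJ₁.trans h1
    rw [div_le_iff₀ (by linarith)] at h2
    linarith
  have f1 : (⌊w * J⌋₊ : ℝ) ≤ w * J := Nat.floor_le (mul_nonneg k1.w0.le hJ0)
  have f2 : (w + K * q) * J - 1 < ⌊(w + K * q) * J⌋₊ := Nat.sub_one_lt_floor _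
  have f3 : ⌊w * J⌋₊ ≤ ⌊(w + K * q) * J⌋₊ :=
    Nat.floor_le_floor (mul_le_mul_of_nonneg_right (by linarith) hJ0)
  obtain ⟨B₀, g₀', G₀, H₀, hB₀, hPB₀, hg₀, hev⟩ := hb
    (fun _ => ⌊(w + K * q) * J⌋₊ - ⌊w * J⌋₊) fun i _ => ⟨by
      rw [Nat.cast_sub f3]
      have e1 : (w + K * q) * (J : ℝ) = w * J + K * q * J := by ring
      rw [e1] at f2 ⊢
      linarith, le_rfl⟩
  refine ⟨B₀, hB₀, hPB₀, fun l hl => ?_⟩
  obtain ⟨V₁, z₁, z₁', G₁, hL⟩ := lbp_cls hev.ball hev.cls (show l < r + 1 by omega)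
  refine ⟨V₁, z₁, z₁', G₁, _, hL, ?_⟩
  have h1 := (hg₀ l hl).1
  rwa [hlv l hl] at h1

end Pool.STV90
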