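import Pool.Agent.H37.STA.Rnx
import Pool.Agent.H37.STA.Lab
import Pool.Agent.H90.STV.Fjq
import Pool.Agent.H60.ALT.Nzf

/-!
# The velocity of a label of a family and a closed polynomial

`few_row`: a relation which holds on each event up to a closed function, on all large parts of an event
with one closed function. `f1_lab`: the velocity over the sum of a label of a family and of a closed
polynomial over the places before `r` is few bits given the jets of these places.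
-/

set_option autoImplicit false

namespace Pool.STV90

open Finset Real MvPolynomial
open Pool.Agent.H49.Ent Pool.Agent.H32.Dense Pool.STK Pool.KA Pool.KSAT Pool.K2S Pool.PB Pool.S6C
open Pool.GEN Pool.RCD Pool.LA91
open Pool.GRD (LbP)
open Pool.ALT (Fml)
open Pool.STA37 (cnt_fl)

variable {m : ℕ}

/-- **Few bits given one closed function on all large parts of an event**, for a relation. -/
theorem few_row {S : PCl m}
    (hpos : ∀ (τ : ℝ) (J : ℕ) (F : Fam m J) (A : F.Ω → Prop), S.St τ J F A → 0 < Pe F.p A)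
    {U U' : Type} {α β γ : ∀ J : ℕ, Fam m J → Type} {f : ∀ (J : ℕ) (F : Fam m J), F.Ω → α J F}
    {g : ∀ (J : ℕ) (F : Fam m J), F.Ω → β J F} {y : ∀ (J : ℕ) (F : Fam m J), F.Ω → γ J F}
    {X : ∀ (J : ℕ) (F : Fam m J), (F.Ω → Prop) → (F.Ω → U) → (F.Ω → U') → Prop} {η ρ : ℝ}
    (h1 : Bas S (fun J F A => ∀ u u', X J F A u u' →
      ∃ (V : Type) (z : F.Ω → V), Cl2 (f J F) (g J F) A z ∧
        CH (Pool.Agent.H49.Ent.cond F.p A True) u' (fun ω => (u ω, (z ω, y J F ω))) ≤ η * J))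
    (hρ : RNum S f g ρ) {h c₀ : ℝ} (hh : 0 < h) (hc : 0 < c₀) :
    Bas S (fun J F A => ∃ (V : Type) (z : F.Ω → V), Cl2 (f J F) (g J F) A z ∧
      ∀ B : F.Ω → Prop, Sub B A → c₀ * Pe F.p A ≤ Pe F.p B → ∀ u u', X J F B u u' →
        CH (Pool.Agent.H49.Ent.cond F.p B True) u'
          (fun ω => (u ω, (z ω, y J F ω))) ≤ (η + h) * J) := by
  obtain ⟨κ, hκ, hmax⟩ := hρ.max hpos h hh
  have hc' : 0 < 1 / c₀ := by positivity
  obtain ⟨J₁, hJ₁⟩ := exists_nat_ge (Real.log (1 / c₀) / κ)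
  refine Bas.mono J₁ ((hmax.and (hρ.at' (h / 2) (half_pos hh))).and
    (Pool.GRW.bas_part h1 hc')) ?_
  rintro J hJ F A ⟨⟨h2, V, z, hz, hcell⟩, h3⟩
  refine ⟨V, z, hz, fun B hB hP u u' hu => ?_⟩
  have hP' : Pe F.p A ≤ 1 / c₀ * Pe F.p B := by
    rw [one_div, inv_mul_eq_div, le_div_iff₀ hc, mul_comm]
    exact hP
  have hκP : Real.exp (-(κ * J)) * Pe F.p A ≤ Pe F.p B := by
    refine le_trans (mul_le_mul_of_nonneg_right ?_ (Pe_nonneg F.isLaw A)) hP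
    have h5 : (J₁ : ℝ) ≤ J := by exact_mod_cast hJ
    have h6 := hJ₁.trans h5
    rw [div_le_iff₀ hκ] at h6
    have h7 : -(κ * J) ≤ Real.log c₀ := by
      rw [one_div, Real.log_inv] at h6
      linarith
    calc Real.exp (-(κ * J)) ≤ Real.exp (Real.log c₀) := Real.exp_le_exp.2 h7
      _ = c₀ := Real.exp_log hc
  obtain ⟨hBp, -, h4⟩ := h2 V z hz hcell B hB hκP
  obtain ⟨V', z', hz', h5⟩ := h3 B hB hP' u u' hu
  have h6 := (h4 V' z' hz').2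
  have hq := (isLaw_cond F.isLaw hBp).nonneg
  have h7 := CH_le_add hq u' z' (fun ω => (u ω, (z ω, y J F ω)))
  have h8 : CH (Pool.Agent.H49.Ent.cond F.p B True) z' (fun ω => (u ω, (z ω, y J F ω))) ≤
      CH (Pool.Agent.H49.Ent.cond F.p B True) z' z :=
    CH_mono_cond hq fun ω ω' _ _ h => by
      simp only [Prod.mk.injEq] at h
      exact h.2.1
  have h9 : CH (Pool.Agent.H49.Ent.cond F.p B True) u'
      (fun ω => (z' ω, (u ω, (z ω, y J F ω)))) ≤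
      CH (Pool.Agent.H49.Ent.cond F.p B True) u' (fun ω => (u ω, (z' ω, y J F ω))) :=
    CH_mono_cond hq fun ω ω' _ _ h => by
      simp only [Prod.mk.injEq] at h ⊢
      tauto
  have h10 : (η + h) * J = η * J + h * J := by ring
  linarith

/-- **The numbers** of `f1_lab`. -/
structure FlN (r : ℕ) (t w₁ pN pr e e1 N₁ N₂ σ₀ : ℝ) (s pf : ℕ → ℝ) (Nf : ℕ → ℕ → ℝ)
    (lv : ℕ → ℝ) : Prop where
  t0 : 0 ≤ t
  t1 : t < 1
  wt : w₁ ≤ t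
  σ0 : 0 < σ₀
  e1e : e1 ≤ e
  e1σ : e1 ≤ σ₀ / 8
  N₂1 : N₂ ≤ 1
  lv0 : ∀ i < r, 0 < lv i
  h1 : ∀ i < r, ∀ j' ≤ 1, s i + lv i + σ₀ ≤ Nf i j' + (j' : ℕ) * t
  h2 : ∀ i < r, s i + lv i + σ₀ ≤ min (pf i) (s i) + (1 - t)
  h2' : ∀ i < r, ∀ l < i, s i + lv i + σ₀ ≤ min (pf i) (s i) + lv l
  hN : N₂ ≤ N₁
  h3 : N₂ + t ≤ min pN (pr - e1) + (1 - t)
  h3' : ∀ l < r, N₂ + t ≤ min pN (pr - e1) + lv l

/-- **The velocity of the sum of a label and of a closed polynomial over the places before** `r` is few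
bits given the jets of these places. -/
theorem f1_lab {S : PCl m} {C₀ : ℝ} (htm : TmC S C₀)
    (hpos : ∀ (τ : ℝ) (J : ℕ) (F : Fam m J) (A : F.Ω → Prop), S.St τ J F A → 0 < Pe F.p A)
    {c : ℕ → Fin m} {r : ℕ} {t u₁ : ℝ}
    {s rd : ℕ → ℝ} (hch : Chn S c 0 (r + 1) t t u₁ s rd) {k : Fin m}
    {w₁ pN pr e e1 N₁ N₂ σ₀ δ₁ h₁ : ℝ} {pf : ℕ → ℝ} {Nf : ℕ → ℕ → ℝ} {lv : ℕ → ℝ} {Ψ : Fml m}
    {Kd : ℕ} (H : FlN r t w₁ pN pr e e1 N₁ N₂ σ₀ s pf Nf lv) (hh₁ : 0 < h₁)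
    (hΨ : ∀ (J : ℕ) (F : Fam m J) (A : F.Ω → Prop) (V : Type) (z : PtT F → V) (z' : LnT F → V)
      (G : V → MvPolynomial (Option (Fin m)) ℝ), Ψ J F A V z z' G →
      LbP F ((range (r + 1)).image c) k Kd J ⌊w₁ * J⌋₊ ⌊pN * J⌋₊ A z z' G)
    (HF : ∀ K₀ : ℕ, Bas S (fun J F A => ∀ (V : Type) (z : PtT F → V) (z' : LnT F → V)
      (G : V → MvPolynomial (Option (Fin m)) ℝ), Ψ J F A V z z' G →
      ∀ u₀, (qJets m c 0 r 1 (fun _ _ => t) (fun l _ => pf l) Nf).P K₀ e J F A u₀ →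
      ∃ (V₁ : Type) (z₁ : F.Ω → V₁), Cl2 (ptr F J) (vg t J F) A z₁ ∧
        CH (Pool.Agent.H49.Ent.cond F.p A True)
          (fun ω => ⌊(2 : ℝ) ^ (N₁ * J) * ojet F k 1 (G (z' (slam F ⌊w₁ * J⌋₊ ω))) ω⌋)
          (fun ω => (u₀ ω, (z₁ ω, F.T ω))) ≤ δ₁ * J)) (Kf : ℕ) :
    Bas S (fun J F A => ∀ (u : F.Ω → ℕ → ℕ → ℤ) (u' : F.Ω → ℤ),
      (∃ (V₁ : Type) (z₁ : PtT F → V₁) (z₁' : LnT F → V₁)
        (G₁ : V₁ → MvPolynomial (Option (Fin m)) ℝ), Ψ J F A V₁ z₁ z₁' G₁ ∧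
        ∃ (V₂ : Type) (z₂ : PtT F → V₂) (z₂' : LnT F → V₂)
        (Q : V₂ → MvPolynomial (Option (Fin m)) ℝ), (∀ y, (Q y).totalDegree ≤ Kf) ∧
        (∀ y, DepC c r (Q y)) ∧ (∀ ω, A ω → z₂ (ptr F J ω) = z₂' (slam F ⌊t * J⌋₊ ω)) ∧
        (∀ ω, A ω → |F.x ω k - eval (bt F ω) (G₁ (z₁ (ptr F J ω)) + Q (z₂ (ptr F J ω)))| *
          2 ^ ⌊(pr - e1) * J⌋₊ ≤ 1) ∧
        (∀ ω, A ω → |ojet F k 1 (G₁ (z₁ (ptr F J ω)) + Q (z₂ (ptr F J ω))) ω| *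
          2 ^ ⌊(pr - e1) * J⌋₊ ≤ 2 ^ ⌊t * J⌋₊) ∧
        (qJets m c 0 r 1 (fun _ _ => t) (fun l _ => pf l) Nf).P Kf e1 J F A u ∧
        ∀ ω, A ω → u' ω = ⌊(2 : ℝ) ^ (N₂ * J) *
          ojet F k 1 (G₁ (z₁ (ptr F J ω)) + Q (z₂ (ptr F J ω))) ω⌋) →
      ∃ (V : Type) (z : F.Ω → V), Cl2 (ptr F J) (vg t J F) A z ∧
        CH (Pool.Agent.H49.Ent.cond F.p A True) u' (fun ω => (u ω, (z ω, F.T ω))) ≤
          (δ₁ + h₁ + σ₀) * J) := by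
  obtain ⟨K, hK⟩ : ∃ K, K = max (max Kf Kd) 4 := ⟨_, rfl⟩
  have hK1 : Kf ≤ K := by rw [hK]; exact (le_max_left _ _).trans (le_max_left _ _)
  have hK2 : Kd ≤ K := by rw [hK]; exact (le_max_right _ _).trans (le_max_left _ _)
  have hK3 : 4 ≤ K := by rw [hK]; exact le_max_right _ _
  have ht1 := H.t1
  have hfew := few_jetQ_e (j := 1) htm (Nat.zero_le r) hch (k := k) (wv := fun _ _ => t)
    (pv := fun l _ => pf l) (Nv := Nf) (lv := lv) (w₁ := w₁) (p₁ := pN + σ₀ / 8)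
    (p₂ := pr - e1 + σ₀ / 8) (N₁ := N₁) (N₂ := N₂) (p₀ := 1) (lam := 1) (σ₀ := σ₀) (κ := 0)
    (fun _ _ _ _ _ => le_rfl) H.wt ht1 le_rfl one_pos H.σ0 (by linarith [H.σ0])
    (fun i _ hi => H.lv0 i hi) (fun i _ hi j' hj' => H.h1 i hi j' hj')
    (fun i _ hi j' _ => by
      rw [min_eq_right (by linarith [H.t0] : (1 : ℝ) - t ≤ 1)]
      exact H.h2 i hi)
    (fun i _ hi j' _ l _ hl => H.h2' i hi l hl) H.hN (by
      rw [min_eq_right (by linarith [H.t0] : (1 : ℝ) - t ≤ 1), min_add_add_right]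
      push_cast
      linarith [H.h3, H.σ0]) (fun l _ hl => by
      rw [min_add_add_right]
      push_cast
      linarith [H.h3' l hl, H.σ0])
    (f := fun J F => ptr F J) (y := fun _ F => F.T) (fun J F => ⟨id, fun ω => rfl⟩) (by
      intro J F
      exact ⟨fun x => (x, fun _ => 0, fun _ => 0), fun ω => by simp⟩) hh₁ K
  refine Bas.mono 1 ((hfew.and (HF K)).and (⟨1, one_pos, 0, fun J _ F A hA => hpos 1 J F A hA⟩ :
    Bas S (fun _ F A => 0 < Pe F.p A))) ?_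
  rintro J hJ F A ⟨⟨h1, h2⟩, hA⟩ u u' ⟨V₁, z₁, z₁', G₁, hG₁, V₂, z₂, z₂', Q, q1, q2, q3, q4, q5, hu,
    hu'⟩
  have hJ0 : (0 : ℝ) ≤ J := Nat.cast_nonneg J
  obtain ⟨Vb, zb, hzb, h3⟩ := h2 V₁ z₁ z₁' G₁ hG₁ u
    ((qJets m c 0 r 1 (fun _ _ => t) (fun l _ => pf l) Nf).mono hK1 H.e1e hu)
  obtain ⟨v, hv⟩ : ∃ v : F.Ω → ℤ, v = fun ω => ⌊(2 : ℝ) ^ (N₁ * J) *
    ojet F k 1 (G₁ (z₁' (slam F ⌊w₁ * J⌋₊ ω))) ω⌋ := ⟨_, rfl⟩
  rw [← hv] at h3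
  have hcnt : (cnt F.p u' A : ℝ) ≤ Real.exp (K * J) := by
    refine le_trans ?_ (cnt_fl (p := F.p) (A := A) (n := 1) hJ H.N₂1
      (X := fun ω => ojet F k 1 (G₁ (z₁ (ptr F J ω)) + Q (z₂ (ptr F J ω))) ω) (fun ω hω => ?_)
      hK3)
    · have e1 : cnt F.p u' A = cnt F.p (fun ω => ⌊(2 : ℝ) ^ (N₂ * J) *
          ojet F k 1 (G₁ (z₁ (ptr F J ω)) + Q (z₂ (ptr F J ω))) ω⌋) A := by
        unfold cnt
        congr 1
        ext x
        simp only [Finset.mem_image, Finset.mem_filter]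
        constructor
        · rintro ⟨ω, hω, rfl⟩
          exact ⟨ω, hω, (hu' ω hω.2.2).symm⟩
        · rintro ⟨ω, hω, rfl⟩
          exact ⟨ω, hω, hu' ω hω.2.2⟩
      rw [e1]
    · have h4 := q5 ω hω
      have h5 : (1 : ℝ) ≤ 2 ^ ⌊(pr - e1) * J⌋₊ := one_le_pow₀ (by norm_num)
      have h6 : |ojet F k 1 (G₁ (z₁ (ptr F J ω)) + Q (z₂ (ptr F J ω))) ω| ≤
          |ojet F k 1 (G₁ (z₁ (ptr F J ω)) + Q (z₂ (ptr F J ω))) ω| *
            2 ^ ⌊(pr - e1) * J⌋₊ := le_mul_of_one_le_right (abs_nonneg _) h5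
      refine h6.trans (h4.trans (pow_le_pow_right₀ (by norm_num) ?_))
      rw [one_mul]
      exact floor_le ht1.le J
  obtain ⟨Vc, zc, hzc, h4⟩ := h1 u v u'
    ((qJets m c 0 r 1 (fun _ _ => t) (fun l _ => pf l) Nf).mono hK1 H.e1σ hu) V₁ z₁ z₁' G₁
    (by
      rw [add_sub_cancel_right]
      exact (hΨ J F A V₁ z₁ z₁' G₁ hG₁).mono (Finset.Subset.refl _) hK2 le_rfl)
    (fun ω _ => by rw [hv]) V₂ z₂ z₂' Q (fun y => (q1 y).trans hK1) (fun y => q2 y) q3 (by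
      rw [add_sub_cancel_right]
      exact q4) hcnt hu'
  refine ⟨Vb × Vc, fun ω => (zb ω, zc ω), hzb.join hzc, ?_⟩
  have hq := (isLaw_cond F.isLaw hA).nonneg
  have s1 := CH_le_add hq u' v (fun ω => (u ω, ((zb ω, zc ω), F.T ω)))
  have s2 : CH (Pool.Agent.H49.Ent.cond F.p A True) v (fun ω => (u ω, ((zb ω, zc ω), F.T ω))) ≤
      CH (Pool.Agent.H49.Ent.cond F.p A True) v (fun ω => (u ω, (zb ω, F.T ω))) :=
    CH_mono_cond hq fun ω ω' _ _ h => by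
      simp only [Prod.mk.injEq] at h ⊢
      exact ⟨h.1, h.2.1.1, h.2.2⟩
  have s3 : CH (Pool.Agent.H49.Ent.cond F.p A True) u'
      (fun ω => (v ω, (u ω, ((zb ω, zc ω), F.T ω)))) ≤
      CH (Pool.Agent.H49.Ent.cond F.p A True) u' (fun ω => ((u ω, v ω), (zc ω, F.T ω))) :=
    CH_mono_cond hq fun ω ω' _ _ h => by
      simp only [Prod.mk.injEq] at h ⊢
      exact ⟨⟨h.2.1, h.1⟩, h.2.2.1.2, h.2.2.2⟩
  have e2 : (δ₁ + h₁ + σ₀) * J = δ₁ * J + (h₁ + 0 + σ₀) * J := by ring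
  linarith

end Pool.STV90
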