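import Pool.Agent.H92.V0F.Vsd
import Pool.Agent.H80.DIC.Mono
import Pool.Agent.H91.AB.Mvs

/-!
# Diagonal pairs, and the order of the levels

`RecG.dgl`: the record with the windows of the chain as diagonal pairs of the first list. `SrQ`: the
levels of the chain are sorted at all windows of `G`.
-/

set_option autoImplicit false

namespace Pool.PKG

open Pool.Agent.H49.Ent Pool.Agent.H32.Dense Pool.STK Pool.KA Pool.KSAT Pool.K2S Pool.PB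
open Pool.GEN Pool.S6C Pool.STAT Pool.CHT Pool.GRW Pool.ONE Pool.STA
open Pool.LBT (LSys ThrOf)
open Pool.LEV (Law)
open Pool.ALL (RateOf)
open Pool.ISO

variable {m : ℕ}

/-- **The record of one target**, with diagonal pairs. -/
theorem RecT.dgl {S : PCl m} {P P₂ : List (Fin m) × Fin m → ℝ → ℝ → ℝ} {θ θ₂ : ℝ}
    {c : ℕ → Fin m} {l : ℕ} {L : ℕ → ℝ → ℝ → ℝ} {S₀ N N₁ : ℕ} {A V A₁ V₁ : ℕ → ℝ} {S₂ N' : ℕ}
    {V' : ℕ → ℝ} {Eb e₂ K q t : ℝ}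
    (h : RecT S P P₂ θ θ₂ c l L S₀ N A V S₂ N' V' Eb e₂ K q t) (hS : S₀ ≤ S₂)
    (ht : ∀ k < N', 0 ≤ t + V' k * q ∧ t + V' k * q < 1)
    (hN : ∀ k < N₁, (∃ j < N, A₁ k = A j ∧ V₁ k = V j) ∨
      ∃ j < N', A₁ k = V' j ∧ V₁ k = V' j) :
    RecT S P P₂ θ θ₂ c l L S₀ N₁ A₁ V₁ S₂ N' V' Eb e₂ K q t := by
  refine ⟨h.thr₂, h.th₂0, h.Eb0, h.Ebe, h.eθ, h.room, fun k hk => ?_, fun k hk => ?_, h.ptc,
    h.ratc⟩
  · rcases hN k hk with ⟨j, hj, e1, e2⟩ | ⟨j, hj, e1, e2⟩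
    · rw [e1, e2]
      exact h.pt j hj
    · rw [e1, e2]
      exact ⟨(h.ptc j hj).mono hS, (h.ptc j hj).mono hS⟩
  · rcases hN k hk with ⟨j, hj, e1, e2⟩ | ⟨j, hj, e1, e2⟩
    · rw [e1, e2]
      exact h.rat j hj
    · intro e he
      obtain ⟨d, hd, h1⟩ := h.ratc j hj e he
      obtain ⟨h2, h3⟩ := ht j hj
      refine ⟨min d (1 - (t + V' j * q)), lt_min hd (by linarith), ?_⟩
      rw [e1, e2]
      intro a' w' k1 k2 k3 k4 k5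
      have k2' := k2.trans (add_le_add le_rfl (min_le_left _ _))
      have k4' := k4.trans (add_le_add le_rfl (min_le_left _ _))
      have k6 : a' ≤ 1 := by
        have := k2.trans (add_le_add le_rfl (min_le_right _ _))
        linarith
      refine ⟨?_, h1 w' k3 k4', h1 a' k1 k2'⟩
      refine le_trans ?_ (h1 a' k1 k2' l le_rfl)
      exact (h.thr₂.law _).mono_w a' w' a' (by linarith) k5 le_rfl k6

/-- **The record with diagonal pairs** of the windows of the chain in the first list. -/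
theorem RecG.dgl {S : PCl m} {al : ℝ} {g₀ : ℝ → ℝ} {P : List (Fin m) × Fin m → ℝ → ℝ → ℝ}
    {θ : ℝ} {P₂ : ℕ → List (Fin m) × Fin m → ℝ → ℝ → ℝ} {θ₂ Eb e₂ : ℕ → ℝ}
    {c : ℕ → Fin m} {Pt : ℝ → ℝ → ℝ} {r : ℝ → ℝ} {h K₀ g : ℝ} {L T : ℕ → ℝ → ℝ → ℝ}
    {Sl : ℕ → ℝ} {κ : ℕ → Kg} {G : Set ℝ} {S₀ N N₁ : ℕ} {A V A₁ V₁ : ℕ → ℝ} {S₂ N' : ℕ}
    {V' : ℕ → ℝ} {K ε q t : ℝ}
    (R : RecG S al g₀ P θ P₂ θ₂ Eb e₂ c Pt r h K₀ g L T Sl κ G S₀ N A V S₂ N' V' K ε q t)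
    (hS : S₀ ≤ S₂) (hV : ∀ k < N', |V' k| ≤ K)
    (hN : ∀ k < N₁, (∃ j < N, A₁ k = A j ∧ V₁ k = V j) ∨
      ∃ j < N', A₁ k = V' j ∧ V₁ k = V' j) :
    RecG S al g₀ P θ P₂ θ₂ Eb e₂ c Pt r h K₀ g L T Sl κ G S₀ N₁ A₁ V₁ S₂ N' V' K ε q t := by
  have hq := R.q0
  have ht : ∀ k < N', 0 ≤ t + V' k * q ∧ t + V' k * q < 1 := fun k hk => by
    have h1 := abs_le.1 (hV k hk)
    have h2 := mul_le_mul_of_nonneg_right h1.1 hq.le
    have h3 := mul_le_mul_of_nonneg_right h1.2 hq.le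
    have h4 := R.t0
    have h5 := R.t1
    constructor <;> linarith
  refine { R with
    memG := ⟨fun k hk => ?_, R.memG.2⟩
    TL := fun k hk l hl => ?_
    tg := fun l h1 h2 => (R.tg l h1 h2).dgl hS ht hN }
  · rcases hN k hk with ⟨j, hj, e1, e2⟩ | ⟨j, hj, e1, e2⟩
    · rw [e1, e2]
      exact R.memG.1 j hj
    · rw [e1, e2]
      exact ⟨R.memG.2 j hj, R.memG.2 j hj⟩
  · rcases hN k hk with ⟨j, hj, e1, e2⟩ | ⟨j, hj, e1, e2⟩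
    · rw [e1, e2]
      exact R.TL j hj l hl
    · rw [e1, e2]
      exact ⟨R.TLc j hj l hl, R.TLc j hj l hl⟩

end Pool.PKG

namespace Pool.STV90

open Finset Real MvPolynomial
open Pool.Agent.H49.Ent Pool.Agent.H32.Dense Pool.STK Pool.KA Pool.KSAT Pool.K2S Pool.PB Pool.GEN
open Pool.S6C Pool.RCD Pool.LA91 Pool.OWN68 Pool.PKG
open Pool.ISO (lvN)

/-- **The levels of the chain are sorted** at all windows of `G`. -/
def SrQ {n : ℕ} (_ : Unit) (_ : ℕ) (_ : PCl n) (_ : List (Fin n) × Fin n → ℝ → ℝ → ℝ) (_ : ℝ)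
    (_ : ℕ → Fin n) (_ : ℝ → ℝ → ℝ) (_ : ℝ → ℝ) (L _ : ℕ → ℝ → ℝ → ℝ) (_ : ℕ → Kg)
    (G : Set ℝ) (_ : ℝ) : Prop :=
  ∀ w ∈ G, ∀ i < n - 1, ∀ l < i, L l w w ≤ L i w w

theorem her_sr (n : ℕ) : HerQ (SrQ : PropG n Unit) := by
  intro p k₀ S S' P θ c Pt r L T κ G x _ h w hw
  exact h w hw

/-- **It holds at almost every window.** -/
theorem aePG_sr (n : ℕ) : AePG n (SrQ : PropG n Unit) := by
  intro hn S P r P' Λ PB PQ H hTop hF o G hG hGs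
  refine ⟨S, H.toPk.ne, fun _ _ _ _ h => h, Filter.Eventually.of_forall fun g _ κ _ _ =>
    ⟨0, fun w hw i hi l hl => ?_⟩⟩
  obtain ⟨α, Q, c, F⟩ := H.toPk.fac hTop hF (hGs hw)
  have hw1 := F.g1
  obtain ⟨-, -, hg, -⟩ : w ∈ Wv Λ (Pool.OWN72.epo hn o) := (hGs hw).1.1
  have hmono := hg.mono H.lam hw1.le
  have e1 := gs_lvl H.toPk hTop hF (hGs hw) (l := i) hi
  have e2 := gs_lvl H.toPk hTop hF (hGs hw) (l := l) (by omega)
  show LvL hn P P' o l w w ≤ LvL hn P P' o i w w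
  rw [e1, e2]
  exact hmono (by omega)

end Pool.STV90
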