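import Pool.Agent.H37.STA.Rdc

/-!
# The free velocities at a record, with a margin

`u_frm`: as helper37's `u_free`, the second window at most `t + ν q`.
-/

set_option autoImplicit false

namespace Pool.STV90

open Finset Real MvPolynomial
open Pool.Agent.H49.Ent Pool.Agent.H32.Dense Pool.STK Pool.KA Pool.KSAT Pool.K2S Pool.PB Pool.S6C
open Pool.GEN Pool.CHT Pool.RCD Pool.D2F Pool.CHX Pool.D2Con Pool.D2A Pool.NVX
open Pool.LA91 Pool.PKG Pool.STA37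
open Pool.RCD (vg)
open Pool.STB (V3 Po Bx VbT lv_lin lv_sta box_in)

variable {m : ℕ} {S : PCl m} {al : ℝ} {g₀ : ℝ → ℝ} {P₀ : List (Fin m) × Fin m → ℝ → ℝ → ℝ}
  {θ : ℝ} {P₂ : ℕ → List (Fin m) × Fin m → ℝ → ℝ → ℝ} {θ₂ Eb e₂ : ℕ → ℝ}
  {c : ℕ → Fin m} {Pt : ℝ → ℝ → ℝ} {r : ℝ → ℝ} {h K₀ g : ℝ} {L T : ℕ → ℝ → ℝ → ℝ}
  {Sl : ℕ → ℝ} {κ : ℕ → Kg} {G : Set ℝ} {S₀ N₀ : ℕ} {A V : ℕ → ℝ} {S₂ N' : ℕ} {V' : ℕ → ℝ}
  {K ε q t : ℝ}

/-- **The row of the free velocities at a record**, with a margin. -/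
theorem u_frm (R : RecG S al g₀ P₀ θ P₂ θ₂ Eb e₂ c Pt r h K₀ g L T Sl κ G S₀ N₀ A V S₂ N' V' K ε
    q t) (hm : 2 < m) (hκ1 : κ 1 = .one) (hε : 0 < ε) (hε1 : 280 * ε ≤ 1) {CF k₀ : ℕ}
    {ν ν₁ κF x₀ bb : ℝ} (hfa : ∀ k ≥ k₀, FreeAt S (fun J F => ptr F J) (fun _ F => F.W) c 2
      (fun l w => L l w w) G x₀ CF 1 κF k) (hbG : bb ∈ G) (hν : 0 ≤ ν)
    (hν0 : 0 ≤ ν₁) (hν1 : ν₁ ≤ ν)
    (hx1 : t + -(CF + 13 - ν) * q ≤ x₀) (hx2 : x₀ ≤ t + -(CF / 2 + 28) * q)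
    (hb1 : t + -(CF + 28) * q ≤ bb) (hb2 : bb ≤ t + -(CF + 27) * q) (hνC : 2 * ν + 40 ≤ CF)
    (hK : CF + 30 ≤ K) (hq1 : q < (1 / 2) ^ k₀) :
    ∃ (hF : ℝ) (Pq : Fin 2 → ℝ) (eF : ℝ), q / 2 ≤ hF ∧ hF ≤ q ∧ 0 < eF ∧ (∀ i, Pq i ≤ 1) ∧
      (ν + ε) * q ≤ Pq 0 ∧ ν * q + L 1 t t - t + 21 * (ε * q) ≤ Pq 1 ∧
      ∃ k₂ : ℝ, 0 < k₂ ∧ ∀ Kf : ℕ, Bas S (fun J F A =>
        ∀ (V : Type) (z : F.Ω → V) (V' : Type) (z' : F.Ω → V'),
        Mx (fun J F => ptr F J) (vg t) k₂ F A z →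
        Mx (fun J F => ptr F J) (vg (t + ν₁ * q)) k₂ F A z' →
        ∀ u, (qG m c 2 (fun i x => L i x x - (1 : ℝ) / 20 * hF) bb Pq).P Kf eF J F A u →
        CH (Pool.Agent.H49.Ent.cond F.p A True) u (fun ω => (z ω, F.W ω)) ≤
          CH (Pool.Agent.H49.Ent.cond F.p A True) u (fun ω => (z' ω, F.W ω)) + κF * hF * J) := by
  have hq := R.q0
  obtain ⟨k, hk, hF1, hF2⟩ := u_sc hq hq1
  obtain ⟨H, hH⟩ : ∃ H : ℝ, H = (1 / 2) ^ k := ⟨_, rfl⟩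
  have hH0 : 0 < H := by
    rw [hH]
    positivity
  rw [← hH] at hF1 hF2
  have hCF : (0 : ℝ) ≤ CF := Nat.cast_nonneg _
  have hx0t : |x₀ - t| ≤ K * q := by
    have h1 : (CF + 13 - ν) * q ≤ K * q := mul_le_mul_of_nonneg_right (by linarith) hq.le
    have h2 : 0 ≤ (CF / 2 + 28 : ℝ) * q := by positivity
    rw [abs_le]
    constructor <;> linarith
  have hx00 : 0 < x₀ := by
    have h1 : (CF + 13 - ν) * q ≤ K * q := mul_le_mul_of_nonneg_right (by linarith) hq.le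
    have h2 := R.t0
    linarith
  have hx01 : x₀ ≤ 1 := by
    have h1 := (abs_le.1 hx0t).2
    have h2 := R.t1
    linarith
  have s1 : Sl 1 = 1 := by
    have h1 := R.kd 1 (by omega)
    rw [hκ1] at h1
    exact h1
  have RT := R.tg 2 (by norm_num) hm
  have hroom : ∀ l ≤ 2, L l x₀ x₀ + Eb 2 + 3 * K * q < 1 := fun l hl => RT.room l hl x₀ hx0t
  have hEb := RT.Eb0
  have n0 : 0 ≤ L 0 x₀ x₀ - x₀ := by
    have := R.low_at (i := 0) (by omega) hx00.le le_rfl hx01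
    linarith
  have n1 : L 1 t t - t - ε * q ≤ L 1 x₀ x₀ - x₀ := by
    have h1 := (abs_le.1 (R.dL 1 (by omega) x₀ hx0t)).1
    rw [s1] at h1
    linarith
  -- the precisions
  obtain ⟨p0, hp0, hp0'⟩ := exists_rat_btwn (show L 0 x₀ x₀ - x₀ + (CF - 1 / 4) * H <
    L 0 x₀ x₀ - x₀ + CF * H by linarith)
  obtain ⟨p1, hp1, hp1'⟩ := exists_rat_btwn (show L 1 x₀ x₀ - x₀ + (CF - 3) * H <
    L 1 x₀ x₀ - x₀ + (CF - 5 / 2) * H by linarith)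
  have hCH : CF * H ≤ CF * q := mul_le_mul_of_nonneg_left hF2 hCF
  have hCH' : (CF : ℝ) * (q / 2) ≤ CF * H := mul_le_mul_of_nonneg_left hF1 hCF
  have hCK : (CF : ℝ) * q ≤ K * q := mul_le_mul_of_nonneg_right (by linarith) hq.le
  have hKq : 0 ≤ K * q := le_trans (by positivity) hCK
  have hνq : 0 ≤ ν * q := mul_nonneg hν hq.le
  have hνCq : (2 * ν + 40) * q ≤ CF * q := mul_le_mul_of_nonneg_right hνC hq.le
  have hεq : 280 * ε * q ≤ 1 * q := mul_le_mul_of_nonneg_right hε1 hq.le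
  have hν1q : ν₁ * q ≤ ν * q := mul_le_mul_of_nonneg_right hν1 hq.le
  have hν0q : 0 ≤ ν₁ * q := mul_nonneg hν0 hq.le
  obtain ⟨k₂, hk₂, e₀, he₀, hbas⟩ := hfa k hk ![p0, p1] bb t (t + ν₁ * q)
    ⟨by
      intro i
      fin_cases i
      · show L 0 x₀ x₀ - x₀ ≤ p0
        linarith
      · show L 1 x₀ x₀ - x₀ ≤ p1
        linarith, by
      intro i
      rw [← hH]
      fin_cases i
      · show (p0 : ℝ) ≤ L 0 x₀ x₀ - x₀ + CF * H
        linarith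
      · show (p1 : ℝ) ≤ L 1 x₀ x₀ - x₀ + CF * H
        linarith, by
      intro l i hli
      rw [← hH]
      fin_cases l <;> fin_cases i
      · exact absurd hli (lt_irrefl _)
      · show (p1 : ℝ) - (L 1 x₀ x₀ - x₀) + 2 * ((1 : ℚ) : ℝ) * H ≤ p0 - (L 0 x₀ x₀ - x₀)
        push_cast
        linarith
      · exact absurd hli (by decide)
      · exact absurd hli (lt_irrefl _)⟩ hbG
    (by
      rw [← hH]
      linarith)
    (by
      show bb + (CF + 7 * ((2 : ℕ) : ℝ) + 13) * (1 / 2) ^ k ≤ t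
      rw [← hH]
      push_cast
      linarith)
    (by linarith)
    (by
      show t + ν₁ * q ≤ x₀ + (2 * CF + 7 * ((2 : ℕ) : ℝ) + 12) * (1 / 2) ^ k
      rw [← hH]
      push_cast
      linarith)
  refine ⟨H, fun i => ((![p0, p1] i : ℚ) : ℝ), e₀, hF1, hF2, he₀, ?_, ?_, ?_, k₂, hk₂, ?_⟩
  · intro i
    fin_cases i
    · show (p0 : ℝ) ≤ 1
      have := hroom 0 (by norm_num)
      linarith
    · show (p1 : ℝ) ≤ 1
      have := hroom 1 (by norm_num)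
      linarith
  · show (ν + ε) * q ≤ p0
    linarith
  · show ν * q + L 1 t t - t + 21 * (ε * q) ≤ p1
    linarith
  · intro Kf
    have h1 := hbas Kf
    rw [← hH] at h1
    have e1 : (fun (i : ℕ) (x : ℝ) => (fun l w => L l w w) i x - ((1 : ℚ) : ℝ) / 20 * H) =
        fun i x => L i x x - (1 : ℝ) / 20 * H := by
      funext i x
      push_cast
      rfl
    rw [e1] at h1
    exact h1

end Pool.STV90
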