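import Pool.Agent.H90.STV.Vst
import Pool.Agent.H90.STV.Rdl
import Pool.Agent.H90.STV.Ufr

/-!
# The inputs of the event of a virtual static target, from the row chain

`ta_blb`: the labels of the family are blind at the fine windows. `ta_mx`: the mixed derivative at the
samples.
-/

set_option autoImplicit false

namespace Pool.STV90

open Finset Real MvPolynomial
open Pool.Agent.H49.Ent Pool.Agent.H32.Dense Pool.STK Pool.KA Pool.KSAT Pool.K2S Pool.PB Pool.S6C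
  Pool.GEN Pool.RCD Pool.LA91 Pool.PKG Pool.ALT Pool.STB65
open Pool.CHT Pool.CHX Pool.ISO Pool.D2R
open Pool.GRD (LbP)

/-- **The labels of the family are blind at the fine windows.** -/
theorem ta_blb (S₀ Dw : ℕ) (hS₀ : 1 ≤ S₀) {α σ : ℝ} (hα : 1 ≤ α) (hσ : 0 < σ) (hσ1 : σ ≤ 1 / 8) :
    ∃ ε₀ : ℝ, 0 < ε₀ ∧
    ∀ {S : PCl 4} {al : ℝ} {g₀ : ℝ → ℝ}
    {P : List (Fin 4) × Fin 4 → ℝ → ℝ → ℝ} {θ : ℝ}
    {P₂ : ℕ → List (Fin 4) × Fin 4 → ℝ → ℝ → ℝ} {θ₂ Eb e₂ : ℕ → ℝ}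
    {c : ℕ → Fin 4} {Pt : ℝ → ℝ → ℝ} {rt : ℝ → ℝ} {h K₀ g : ℝ} {L T : ℕ → ℝ → ℝ → ℝ}
    {Sl : ℕ → ℝ} {κ : ℕ → Kg} {G : Set ℝ} {N : ℕ} {A V : ℕ → ℝ} {S₂ N' : ℕ} {V' : ℕ → ℝ}
    {K ε q t : ℝ}
    (_ : RecG S al g₀ P θ P₂ θ₂ Eb e₂ c Pt rt h K₀ g L T Sl κ G S₀ N A V S₂ N' V' K ε q t)
    (_ : κ 0 = .one) (_ : κ 1 = .one) (_ : κ 2 = .thin) (_ : Sl 2 = α) {b : ℝ} (_ : 3 ≤ b)
    (_ : Sl 3 = b) (_ : 0 ≤ ε) (_ : ε ≤ ε₀) {k j : ℕ} (_ : k < N') (_ : j < N')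
    {y a β μ ρ : ℝ} (_ : 0 ≤ V' k) (_ : V' k ≤ y) (_ : V' j = a + 1) (_ : y + 1 ≤ a)
    (_ : 0 ≤ β) (_ : (b - α) * (V' k + β) + 1 ≤ μ) (_ : a + 1 ≤ K) (_ : β ≤ K) (_ : 0 < ρ)
    (_ : ρ ≤ 1 / 8) (_ : ∀ i < 3, ∀ l < i, L l (t + V' k * q) (t + V' k * q) ≤
      L i (t + V' k * q) (t + V' k * q))
    (_ : Pool.TOP.Ful S ((range 3).image c) (t + V' k * q)
      (L 2 (t + V' k * q) (t + V' k * q))) {wn p₂ : ℝ} {Kn Ku : ℕ} {Ψ : Fml 4}
    (_ : ∀ (J : ℕ) (F : Fam 4 J) (A : F.Ω → Prop) (V : Type) (z : PtT F → V)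
      (z' : LnT F → V) (G : V → MvPolynomial (Option (Fin 4)) ℝ), Ψ J F A V z z' G →
      RwE c 2 Dw (t + a * q) (t + -β * q) (Eb 3 + ρ * q)
        (L 2 (t + -β * q) (t + -β * q) + (a * q - -β * q) + ρ * q)
        (L 3 (t + a * q) (t + a * q) - ρ * q)
        (L 2 (t + -β * q) (t + -β * q) - L 3 (t + -β * q) (t + -β * q) - μ * q + ρ * q)
        wn J F A V z' G),
    BlB S c 2 (c 3) wn (t + V' k * q) Kn Ku
      (L 3 (t + V' k * q) (t + V' k * q) - σ * q) p₂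
      (L 2 (t + V' k * q) (t + V' k * q) - L 3 (t + V' k * q) (t + V' k * q) + 2 * σ * q) Ψ := by
  obtain ⟨ε₀, hε₀, H⟩ := rwe_rec relvUS 2 S₀ (by norm_num) hS₀ Dw hα hσ (by linarith)
  refine ⟨min ε₀ (σ / 8), lt_min hε₀ (by positivity), ?_⟩
  intro S al g₀ P θ P₂ θ₂ Eb e₂ c Pt rt h K₀ g L T Sl κ G N A V S₂ N' V' K ε q t R κ0 κ1 κ2 hSα b
    hb S3 hε hε1 k j hk hj y a β μ ρ hk0 hky hja hya hβ hμ haK hβK hρ hρ1 hsr hfu wn p₂ Kn Ku Ψ hΨ
  have hε2 := hε1.trans (min_le_left _ _)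
  have hε3 := hε1.trans (min_le_right _ _)
  have hq := R.q0
  have hεq : 0 ≤ ε * q := mul_nonneg hε hq.le
  have hεσ : ε * q ≤ σ / 8 * q := mul_le_mul_of_nonneg_right hε3 hq.le
  have hσq : 0 < σ * q := mul_pos hσ hq
  have hσq1 : σ * q ≤ 1 / 8 * q := mul_le_mul_of_nonneg_right hσ1 hq.le
  have hρq : ρ * q ≤ 1 / 8 * q := mul_le_mul_of_nonneg_right hρ1 hq.le
  have s1 : Sl 1 = 1 := by
    have h1 := R.kd 1 (by norm_num)
    rw [κ1] at h1
    exact h1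
  have ak : 1 ≤ a - V' k := by linarith
  have hbx : ∀ x : ℝ, -K ≤ x → x ≤ K → |t + x * q - t| ≤ K * q := fun x h1 h2 => by
    rw [add_sub_cancel_left, abs_mul, abs_of_pos hq]
    exact mul_le_mul_of_nonneg_right (abs_le.2 ⟨h1, h2⟩) hq.le
  have bk := hbx (V' k) (by linarith) (by linarith)
  have ba := hbx a (by linarith) (by linarith)
  have bb := hbx (-β) (by linarith) (by linarith)
  have k2 := abs_le.1 (R.dL 2 (by norm_num) _ bk)
  have k3 := abs_le.1 (R.dL 3 (by norm_num) _ bk)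
  have a3 := abs_le.1 (R.dL 3 (by norm_num) _ ba)
  have b2 := abs_le.1 (R.dL 2 (by norm_num) _ bb)
  have b3 := abs_le.1 (R.dL 3 (by norm_num) _ bb)
  rw [hSα] at k2 b2
  rw [S3] at k3 a3 b3
  have ek : t + V' k * q - t = V' k * q := by ring
  have ea : t + a * q - t = a * q := by ring
  have eb : t + -β * q - t = -β * q := by ring
  rw [ek] at k2 k3
  rw [ea] at a3
  rw [eb] at b2 b3
  have w0 : 0 < t + V' k * q := by
    have := (abs_le.1 bk).1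
    linarith [R.t0]
  have w1 : t + V' k * q < 1 := by
    have := (abs_le.1 bk).2
    linarith [R.t1]
  have hl3 : t + V' k * q ≤ L 3 (t + V' k * q) (t + V' k * q) :=
    R.low_at (by norm_num) w0.le le_rfl w1.le
  have tKq : K * q < t := by linarith [R.t0]
  have hKq : (a + 1) * q ≤ K * q := mul_le_mul_of_nonneg_right haK hq.le
  have haq : 0 ≤ a * q := mul_nonneg (by linarith) hq.le
  have hkq : 0 ≤ V' k * q := mul_nonneg hk0 hq.le
  have hba : 2 * ((a - V' k) * q) ≤ (b - 1) * ((a - V' k) * q) :=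
    mul_le_mul_of_nonneg_right (by linarith) (mul_nonneg (by linarith) hq.le)
  have hakq : 1 * q ≤ (a - V' k) * q := mul_le_mul_of_nonneg_right ak hq.le
  have hαβ : 0 ≤ (α - 1) * ((V' k + β) * q) :=
    mul_nonneg (by linarith) (mul_nonneg (by linarith) hq.le)
  have hμq : ((b - α) * (V' k + β) + 1) * q ≤ μ * q := mul_le_mul_of_nonneg_right hμ hq.le
  refine H R (fun l hl => ?_) hε hε2 (k := k) (j := j) (Ar := a) hk hj ?_ ?_ (by linarith) haK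
    (by rw [hja]; linarith) (fun i hi l hl => ?_) hfu (wr := t + -β * q) ?_ ?_ ?_ ?_ ?_ ?_ ?_ hΨ
  · interval_cases l
    · exact ⟨Or.inl κ0, by rw [R.s0]; exact hα⟩
    · exact ⟨Or.inl κ1, by rw [s1]; exact hα⟩
    · exact ⟨Or.inr κ2, hSα.le⟩
  · rw [abs_of_nonneg hk0]
    linarith
  · rw [hja, abs_of_nonneg (by linarith)]
    exact haK
  · have := hsr i (by omega) l hl
    linarith
  · have : 0 ≤ (V' k + β) * q := mul_nonneg (by linarith) hq.le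
    linarith
  · show 0 ≤ L 3 (t + V' k * q) (t + V' k * q) - σ * q
    linarith
  · show L 2 (t + V' k * q) (t + V' k * q) - (L 3 (t + V' k * q) (t + V' k * q) - σ * q) < _
    linarith
  · show L 2 (t + V' k * q) (t + V' k * q) - L 3 (t + V' k * q) (t + V' k * q) + σ * q < _
    linarith
  · linarith
  · linarith
  · linarith

/-- The mixed derivative at the samples, for a smaller family. -/
theorem mxS_anti {m : ℕ} {S : PCl m} {c : ℕ → Fin m} {D Dr M : ℕ} {β : ℕ → ℝ → ℝ → ℝ}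
    {e E s s₀ w : ℝ} {AA WW : ℕ → ℝ} {i : ℕ} {γ : ℝ} {Ψ Ψ' : Fml m}
    (h : MxS S c D Dr M β e E s s₀ w AA WW i γ Ψ)
    (hΨ : ∀ (J : ℕ) (F : Fam m J) (A : F.Ω → Prop) (V : Type) (z : PtT F → V)
      (z' : LnT F → V) (G : V → MvPolynomial (Option (Fin m)) ℝ), Ψ' J F A V z z' G →
      Ψ J F A V z z' G) : MxS S c D Dr M β e E s s₀ w AA WW i γ Ψ' := by
  obtain ⟨j, y, h1, h2, h3, h4, h5, h6⟩ := h
  refine ⟨j, y, h1, h2, h3, h4, h5, fun K₁ d ψ k1 k2 k3 => ?_⟩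
  obtain ⟨K₂, hK₂, hb⟩ := h6 K₁ d ψ k1 k2 k3
  refine ⟨K₂, hK₂, Bas.mono 0 hb ?_⟩
  intro J _ F A h7 V z z' G hG
  exact h7 V z z' G (hΨ J F A V z z' G hG)

/-- **The mixed derivative at the samples** at a record, from the row chain. -/
theorem ta_mx (D Dw : ℕ) (hD : 1 ≤ D) : ∃ C : ℕ,
    ∀ {S : PCl 4} {al : ℝ} {g₀ : ℝ → ℝ}
    {P : List (Fin 4) × Fin 4 → ℝ → ℝ → ℝ} {θ : ℝ}
    {P₂ : ℕ → List (Fin 4) × Fin 4 → ℝ → ℝ → ℝ} {θ₂ Eb e₂ : ℕ → ℝ}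
    {c : ℕ → Fin 4} {Pt : ℝ → ℝ → ℝ} {rt : ℝ → ℝ} {h K₀ g : ℝ} {L T : ℕ → ℝ → ℝ → ℝ}
    {Sl : ℕ → ℝ} {κ : ℕ → Kg} {G : Set ℝ} {S₀ N : ℕ} {A V : ℕ → ℝ} {S₂ N' : ℕ} {V' : ℕ → ℝ}
    {K ε q t : ℝ}
    (_ : RecG S al g₀ P θ P₂ θ₂ Eb e₂ c Pt rt h K₀ g L T Sl κ G S₀ N A V S₂ N' V' K ε q t)
    (_ : κ 2 = .thin) (_ : κ 3 = .sta) {b : ℝ} (_ : 3 ≤ b) (_ : Sl 3 = b) (_ : 0 ≤ ε)
    {y a β μ ρ σ : ℝ} (_ : 0 < y) (_ : y + 1 ≤ a) (_ : 0 < β) (_ : a + 2 ≤ (Sl 2 - 1) * β)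
    (_ : (b - Sl 2) * β + (b - 1) * y + 1 ≤ μ) (_ : a ≤ K) (_ : β ≤ K) (_ : 0 < ρ)
    (_ : ρ ≤ 1 / 8) (_ : 0 < σ) (_ : 8 * ε ≤ σ) (_ : (C + 1) * σ ≤ 1 / 8)
    {Dr M : ℕ} (_ : D ≤ Dr) (_ : Dw ≤ Dr) {e E wn : ℝ} {AA WW : ℕ → ℝ} {i j k : ℕ}
    (_ : j < M) (_ : k < M) (_ : AA i = t + y * q) (_ : WW i = t) (_ : AA j = t + y * q)
    (_ : WW j = t + -β * q) (_ : AA k = t + a * q) (_ : WW k = t + -β * q) {Ψ : Fml 4}
    (_ : ∀ (J : ℕ) (F : Fam 4 J) (A : F.Ω → Prop) (V : Type) (z : PtT F → V)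
      (z' : LnT F → V) (G : V → MvPolynomial (Option (Fin 4)) ℝ), Ψ J F A V z z' G →
      RwE c 2 Dw (t + a * q) (t + -β * q) (Eb 3 + ρ * q)
        (L 2 (t + -β * q) (t + -β * q) + (a * q - -β * q) + ρ * q)
        (L 3 (t + a * q) (t + a * q) - ρ * q)
        (L 2 (t + -β * q) (t + -β * q) - L 3 (t + -β * q) (t + -β * q) - μ * q + ρ * q)
        wn J F A V z' G),
    MxS S c D Dr M L e E (σ * q) (σ * q) wn AA WW i (L 3 t t + b * (y * q)) Ψ := by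
  obtain ⟨C, hmx⟩ := mxs_row D Dw hD
  refine ⟨C, ?_⟩
  intro S al g₀ P θ P₂ θ₂ Eb e₂ c Pt rt h K₀ g L T Sl κ G S₀ N A V S₂ N' V' K ε q t R κ2 κ3 b hb
    S3 hε y a β μ ρ σ hy hya hβ hαβ hμ haK hβK hρ hρ1 hσ hεσ hCσ Dr M hDr hDr' e E wn AA WW i j k
    hj hk e1 e2 e3 e4 e5 e6 Ψ hΨ
  obtain ⟨α, hα⟩ : ∃ α, α = Sl 2 := ⟨_, rfl⟩
  rw [← hα] at hαβ hμ
  have hq := R.q0
  have hC : (0 : ℝ) ≤ C := Nat.cast_nonneg C
  have hεq : 0 ≤ ε * q := mul_nonneg hε hq.le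
  have hεσq : 8 * (ε * q) ≤ σ * q := by
    have := mul_le_mul_of_nonneg_right hεσ hq.le
    linarith
  have hσq : 0 < σ * q := mul_pos hσ hq
  have hCσq : (C + 1) * (σ * q) ≤ 1 / 8 * q := by
    have := mul_le_mul_of_nonneg_right hCσ hq.le
    linarith
  have hCσ0 : 0 ≤ C * (σ * q) := by positivity
  have hρq : ρ * q ≤ 1 / 8 * q := mul_le_mul_of_nonneg_right hρ1 hq.le
  have hρ0 : 0 < ρ * q := mul_pos hρ hq
  have hyq : 0 < y * q := mul_pos hy hq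
  have hβq : 0 < β * q := mul_pos hβ hq
  have hyaq : y * q + q ≤ a * q := by
    have := mul_le_mul_of_nonneg_right hya hq.le
    linarith
  have haKq : a * q ≤ K * q := mul_le_mul_of_nonneg_right haK hq.le
  have hβKq : β * q ≤ K * q := mul_le_mul_of_nonneg_right hβK hq.le
  have hαβq : a * q + 2 * q ≤ (α - 1) * (β * q) := by
    have := mul_le_mul_of_nonneg_right hαβ hq.le
    linarith
  have hμq : (b - α) * (β * q) + (b - 1) * (y * q) + q ≤ μ * q := by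
    have := mul_le_mul_of_nonneg_right hμ hq.le
    linarith
  have hbyq : 3 * (y * q) ≤ b * (y * q) := mul_le_mul_of_nonneg_right hb hyq.le
  have hbaq : 3 * (a * q - y * q) ≤ b * (a * q - y * q) :=
    mul_le_mul_of_nonneg_right hb (by linarith)
  have ht0 := R.t0
  have ht1 := R.t1
  have hbx' : ∀ x : ℝ, t - β * q ≤ x → x ≤ t + a * q → |x - t| ≤ K * q := fun x h1 h2 => by
    rw [abs_le]
    constructor <;> linarith
  have l3 : ∀ x : ℝ, t - β * q ≤ x → x ≤ t + a * q →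
      |L 3 x x - L 3 t t - b * (x - t)| ≤ ε * q := fun x h1 h2 => by
    have := R.dL 3 (by norm_num) x (hbx' x h1 h2)
    rwa [S3] at this
  have l2 : ∀ x : ℝ, t - β * q ≤ x → x ≤ t + a * q →
      |L 2 x x - L 2 t t - α * (x - t)| ≤ ε * q := fun x h1 h2 => by
    have := R.dL 2 (by norm_num) x (hbx' x h1 h2)
    rwa [← hα] at this
  have hkd2 := R.kd 2 (by norm_num)
  rw [κ2] at hkd2
  have hkd3 := R.kd 3 (by norm_num)
  rw [κ3] at hkd3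
  have hsta := hkd3.2
  have hthin := hkd2.2
  have W3 := R.tg 3 (by norm_num) (by norm_num)
  have t3 := hsta (t + y * q) (t + -β * q) (by linarith) (by linarith) (by linarith)
  have d3 := abs_le.1 (l3 (t + y * q) (by linarith) (by linarith))
  have d3' := abs_le.1 (l3 (t + a * q) (by linarith) (by linarith))
  have de3 := abs_le.1 (l3 (t + -β * q) (by linarith) (by linarith))
  have de2 := abs_le.1 (l2 (t + -β * q) (by linarith) (by linarith))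
  have u2 := hthin (t + a * q) (t + -β * q) (by linarith) (by linarith) (by linarith)
  have dT := abs_le.1 (R.dT 2 (by norm_num) (t + -β * q) (hbx' _ (by linarith) (by linarith)))
  rw [← hα] at dT
  have hr2 := W3.room 2 (by norm_num) t (hbx' t (by linarith) (by linarith))
  have sl := (R.lawL 2 (by norm_num)).slope t t (y * q) (by linarith) le_rfl (by linarith)
    (by linarith)
  have hE := W3.Eb0
  have hyK : y * q ≤ 3 * K * q := by linarith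
  rw [min_eq_right (by linarith)] at sl
  have h30 : L 3 (t + y * q) (t + -β * q) ≤ L 3 (t + a * q) (t + -β * q) :=
    (R.lawL 3 (by norm_num)).mono_a _ _ _ (by linarith) (by linarith) (by linarith) (by linarith)
  have hlow2 := R.low_at (i := 2) (by norm_num) (a := t + a * q) (w := t + -β * q)
    (by linarith) (by linarith) (by linarith)
  have eyq : t + y * q - t = y * q := by ring
  have eaq : t + a * q - t = a * q := by ring
  have eβq : t + -β * q - t = -(β * q) := by ring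
  rw [eyq] at d3
  rw [eaq] at d3'
  rw [eβq] at de3 de2 dT
  refine mxS_anti (Ψ := BlR c 2 Dw (t + a * q) (t + -β * q) (Eb 3 + ρ * q)
      (L 2 (t + -β * q) (t + -β * q) + (a * q - -β * q) + ρ * q)
      (L 3 (t + a * q) (t + a * q) - ρ * q)
      (L 2 (t + -β * q) (t + -β * q) - L 3 (t + -β * q) (t + -β * q) - μ * q + ρ * q)
      wn (fun _ _ _ _ _ _ _ => True)) ?_ fun J F A V z z' G hG => ⟨trivial, hΨ J F A V z z' G hG⟩
  refine hmx (Dr := Dr) (i := i) (j := j) (k := k) (γ := L 3 t t + b * (y * q))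
    (y := L 2 (t + y * q) t + σ * q - (L 3 t t + b * (y * q)))
    (R.inj.mono fun x hx => by
      rw [Set.mem_Iio] at hx ⊢
      omega) hDr hDr' hσq.le hj hk e5 e6 (by rw [e3]; linarith) (by rw [e4])
    (by rw [e3, e1]) (by rw [e4, e2]; linarith) ?_ ?_ ?_ ?_ ?_ ?_ ?_ ?_
  · rw [e3, e4]
    linarith
  · rw [e1, e2]
    linarith
  · linarith
  · rw [e3, e4]
    linarith
  · linarith
  · linarith
  · linarith
  · linarith

end Pool.STV90
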