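import Pool.Agent.H90.STV.Jna

/-!
# A subclass with labels at all windows of the chain

`ta_sub`: labels of all coordinates at all windows of the chain, on all events of a subclass.
-/

set_option autoImplicit false

namespace Pool.STV90

open Finset Real MvPolynomial
open Pool.Agent.H49.Ent Pool.Agent.H32.Dense Pool.STK Pool.KA Pool.KSAT Pool.K2S Pool.PB Pool.S6C
  Pool.GEN Pool.RCD Pool.LA91 Pool.PKG Pool.ALT Pool.STB65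
open Pool.CHT Pool.CHX Pool.ISO Pool.D2R
open Pool.GRD (LbP)
open Pool.V0F (her_ext)

/-- **Labels at all windows of the chain**, on all events of a subclass. -/
theorem ta_sub (n r S₀ : ℕ) (hr : 1 ≤ r) (hS₀ : 1 ≤ S₀) : ∃ D : ℕ, 1 ≤ D ∧
    ∀ {S : PCl n} {al : ℝ} {g₀ : ℝ → ℝ} {P : List (Fin n) × Fin n → ℝ → ℝ → ℝ}
    {θ : ℝ} {P₂ : ℕ → List (Fin n) × Fin n → ℝ → ℝ → ℝ} {θ₂ Eb e₂ : ℕ → ℝ}
    {c : ℕ → Fin n} {Pt : ℝ → ℝ → ℝ} {rt : ℝ → ℝ} {h K₀ g : ℝ} {L T : ℕ → ℝ → ℝ → ℝ}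
    {Sl : ℕ → ℝ} {κ : ℕ → Kg} {G : Set ℝ} {N : ℕ} {A V : ℕ → ℝ} {S₂ N' : ℕ} {V' : ℕ → ℝ}
    {K ε q t : ℝ}, RecG S al g₀ P θ P₂ θ₂ Eb e₂ c Pt rt h K₀ g L T Sl κ G S₀ N A V S₂ N' V' K ε
      q t → r < n → 0 < K → (∀ k < N', |V' k| ≤ K) → ∀ e : ℝ, 0 < e →
      ∃ S' : PCl n, S'.Ne ∧ SubC S' S ∧ ∀ k < N', ∀ l ≤ r, Bas S' (fun J F A =>
        ∃ (V₁ : Type) (z₁ : PtT F → V₁) (z₁' : LnT F → V₁)
          (G₁ : V₁ → MvPolynomial (Option (Fin n)) ℝ) (P₁ : ℕ),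
          LbP F ((range l).image c) (c l) D J ⌊(t + V' k * q) * J⌋₊ P₁ A z₁ z₁' G₁ ∧
          (L l (t + V' k * q) (t + V' k * q) - e) * J ≤ P₁) := by
  obtain ⟨D, hD, hlbp⟩ := lbp_bal n r S₀ hr hS₀
  refine ⟨D, hD, ?_⟩
  intro S al g₀ P θ P₂ θ₂ Eb e₂ c Pt rt h K₀ g L T Sl κ G N A V S₂ N' V' K ε q t R hrn hK hV e he
  obtain ⟨Φ, hΦs⟩ : ∃ Φ : ℕ → Stat n, ∀ k, Φ k = fun J F A => k < N' → ∀ l ≤ r,
      ∃ (V₁ : Type) (z₁ : PtT F → V₁) (z₁' : LnT F → V₁)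
        (G₁ : V₁ → MvPolynomial (Option (Fin n)) ℝ) (P₁ : ℕ),
        LbP F ((range l).image c) (c l) D J ⌊(t + V' k * q) * J⌋₊ P₁ A z₁ z₁' G₁ ∧
        (L l (t + V' k * q) (t + V' k * q) - e) * J ≤ P₁ := ⟨fun k => fun J F A => k < N' →
      ∀ l ≤ r, ∃ (V₁ : Type) (z₁ : PtT F → V₁) (z₁' : LnT F → V₁)
        (G₁ : V₁ → MvPolynomial (Option (Fin n)) ℝ) (P₁ : ℕ),
        LbP F ((range l).image c) (c l) D J ⌊(t + V' k * q) * J⌋₊ P₁ A z₁ z₁' G₁ ∧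
        (L l (t + V' k * q) (t + V' k * q) - e) * J ≤ P₁, fun _ => rfl⟩
  obtain ⟨S', hne, hsub, hΦ⟩ := her_ext R.ne Φ (fun k J F A B hBA hA => by
    rw [hΦs] at hA ⊢
    intro hk l hl
    obtain ⟨V₁, z₁, z₁', G₁, P₁, h1, h2⟩ := hA hk l hl
    exact ⟨V₁, z₁, z₁', G₁, P₁, h1.sub hBA, h2⟩) (fun k => by
    rcases Nat.lt_or_ge k N' with hk | hk
    · obtain ⟨K₁, hK₁, h1⟩ := hlbp R hrn hK k hk (hV k hk) e he
      refine ⟨K₁, Bas.mono 0 h1 ?_⟩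
      rintro J - F A ⟨B, h1, h2, h3⟩
      refine ⟨B, h1, h2, ?_⟩
      rw [hΦs]
      intro _ l hl
      exact h3 l hl
    · refine ⟨1, 1, one_pos, 0, fun J _ F A _ => ⟨A, fun _ h => h, by rw [one_mul], ?_⟩⟩
      rw [hΦs]
      intro h1
      omega)
  refine ⟨S', hne, hsub, fun k hk l hl => Bas.mono 0 (hΦ k) ?_⟩
  rintro J - F A h1
  rw [hΦs] at h1
  exact h1 hk l hl

end Pool.STV90
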