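import Pool.Agent.H90.STV.Jnb

/-!
# The record at the window of the velocity

`RecG.dmv`: another centre, the same unit, pairs from the first list and diagonal pairs from the
chain.
-/

set_option autoImplicit false

namespace Pool.PKG

open Pool.Agent.H49.Ent Pool.Agent.H32.Dense Pool.STK Pool.KA Pool.KSAT Pool.K2S Pool.PB
open Pool.GEN Pool.S6C Pool.STAT Pool.CHT Pool.GRW Pool.ONE Pool.STA

variable {m : ℕ}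

/-- **Another centre**, with diagonal pairs. -/
theorem RecG.dmv {S : PCl m} {al : ℝ} {g₀ : ℝ → ℝ} {P : List (Fin m) × Fin m → ℝ → ℝ → ℝ}
    {θ : ℝ} {P₂ : ℕ → List (Fin m) × Fin m → ℝ → ℝ → ℝ} {θ₂ Eb e₂ : ℕ → ℝ}
    {c : ℕ → Fin m} {Pt : ℝ → ℝ → ℝ} {r : ℝ → ℝ} {h K₀ g : ℝ} {L T : ℕ → ℝ → ℝ → ℝ}
    {Sl : ℕ → ℝ} {κ : ℕ → Kg} {G : Set ℝ} {S₀ N N₁ N₁' : ℕ} {A V A₁ V₁ V₁' : ℕ → ℝ} {S₂ N' : ℕ}
    {V' : ℕ → ℝ} {K ε q t : ℝ} (hm : 1 ≤ m)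
    (R : RecG S al g₀ P θ P₂ θ₂ Eb e₂ c Pt r h K₀ g L T Sl κ G S₀ N A V S₂ N' V' K ε q t)
    (hS : S₀ ≤ S₂) (hV : ∀ k < N', |V' k| ≤ K) {x B K₁ : ℝ} (hx0 : 0 ≤ x) (hx1 : x ≤ 1)
    (hB : |Sl (m - 1)| ≤ B) (hK₁ : 0 ≤ K₁) (hK : K₁ + B + 2 ≤ K) (hε : ε ≤ 1)
    (hN : ∀ k < N₁, (∃ j < N, x + A₁ k = A j ∧ x + V₁ k = V j) ∨
      ∃ j < N', x + A₁ k = V' j ∧ x + V₁ k = V' j)
    (hN' : ∀ k < N₁', ∃ j < N', x + V₁' k = V' j) :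
    RecG S al g₀ P θ P₂ θ₂ Eb e₂ c Pt r h (K₀ + 1) g L T Sl κ G S₀ N₁ A₁ V₁ S₂ N₁' V₁' K₁ (2 * ε)
      q (t + x * q) := by
  have hq := R.q0
  have hB0 : 0 ≤ B := (abs_nonneg _).trans hB
  have e0 : t + x * q - t = x * q := by ring
  have e1 : |x * q| = x * q := abs_of_nonneg (mul_nonneg hx0 hq.le)
  have e2 : ∀ a b : ℝ, x + a = b → t + x * q + a * q = t + b * q := by
    rintro a b rfl
    ring
  have hxq : x * q ≤ 1 * q := mul_le_mul_of_nonneg_right hx1 hq.le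
  have hxq0 : 0 ≤ x * q := mul_nonneg hx0 hq.le
  have m1 : (K₁ + B + 2) * q ≤ K * q := mul_le_mul_of_nonneg_right hK hq.le
  have hBq : 0 ≤ B * q := mul_nonneg hB0 hq.le
  have hεq : ε * q ≤ 1 * q := mul_le_mul_of_nonneg_right hε hq.le
  have m2 : |Sl (m - 1)| * (x * q) ≤ B * (1 * q) :=
    mul_le_mul hB hxq hxq0 hB0
  have R1 := R.dgl (N₁ := N₁) (A₁ := fun k => x + A₁ k) (V₁ := fun k => x + V₁ k) hS hV hN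
  refine R1.mvl hm hq hK₁ ?_ ?_ (by linarith) ?_ (fun k hk => ⟨k, hk, e2 _ _ rfl, e2 _ _ rfl⟩)
    (fun k hk => ?_)
  · rw [e0, e1]
    linarith
  · rw [e0, e1]
    linarith
  · rw [e0, e1]
    linarith
  · obtain ⟨j, hj, k1⟩ := hN' k hk
    exact ⟨j, hj, e2 _ _ k1⟩

end Pool.PKG
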