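import Pool.Agent.H73.D2.Tvk
import Pool.Agent.H99.D2.Thn
import Pool.Agent.H6.ASM.V0a

/-!
# The first jet of a thin place 2 under a static target, full rate

`partA_lt`, `partA_nores`: `PartA 2` for the kinds `one, one, thin, sta`, for `a < b < a + 1`, and for
`b ≤ a` without resonance.
-/

set_option autoImplicit false

namespace Pool.ASM

open Finset Real
open Pool.GEN Pool.PKG Pool.SW Pool.ALT Pool.PN18 Pool.CR99
open Pool.LA91 (FaQ sumQ HerQ her_sum her_fa aePG_fa aePG_sum)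

/-- The condition of the full rate. -/
theorem zfR_admL (Sl : ℕ → ℝ) :
    ZfR 2 Sl = fun b : PosR × ℕ => FulR (AdmL 4) (Sl 3 * Real.log 2) b.1 b.2 := by
  unfold ZfR
  rw [admN_eq]

/-- **The first jet of a thin place 2 under a static target**, `a < b < a + 1`. -/
theorem partA_lt : PartA 2 (kg4 .one .one .thin .sta)
    (fun Sl => 1 < Sl 2 ∧ Sl 2 < Sl 3 ∧ Sl 3 < Sl 2 + 1) (fun _ => AdmL 4)
    (fun Sl => Sl 3 * Real.log 2) := by
  refine ⟨((AltUI ⊕ Unit) ⊕ Unit) ⊕ (ℕ × ℕ × ℚ × ℚ), inferInstance,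
    sumQ (sumQ (sumQ (AltR : PropG 4 AltUI) (CuQ : PropG 4 Unit)) (CuQ : PropG 4 Unit)) FaQ,
    aePG_sum (aePG_sum (aePG_sum (aePG_altR 4) (her_altR 4) (aePG_cu 4))
      (her_sum (her_altR 4) (her_cu 4)) (aePG_cu 4)) (her_sum (her_sum (her_altR 4) (her_cu 4))
      (her_cu 4)) (aePG_fa 4), her_sum (her_sum (her_sum (her_altR 4) (her_cu 4)) (her_cu 4))
      (her_fa 4), ?_⟩
  rintro h hh hh1 Sl ⟨ha, hab, hb⟩
  have H : F1UD 4 2 h Sl (kg4 .one .one .thin .sta) _ (ZfR 2 Sl) :=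
    f1ud_sup (r := 2) (by norm_num) hh hh1 (fun l hl => by interval_cases l <;> rfl) ha
      hab.le (nores_lt hab hb) le_rfl (blSup_uni (κ := kg4 .one .one .thin .sta) (r := 2)
      (by norm_num) (Or.inr rfl) (Or.inr rfl) ha.le hab.le hb (⟨1, one_pos⟩, 0) _)
  rw [zfR_admL] at H
  exact H.us (by norm_num) rfl ha

/-- **The first jet of a thin place 2 under a static target**, `b ≤ a` without resonance. -/
theorem partA_nores : PartA 2 (kg4 .one .one .thin .sta)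
    (fun Sl => 1 < Sl 2 ∧ 0 < Sl 3 ∧ Sl 3 ≤ Sl 2 ∧ NoRes (Sl 2) (Sl 3)) (fun _ => AdmL 4)
    (fun Sl => Sl 3 * Real.log 2) := by
  refine ⟨(AltUI ⊕ Unit) ⊕ (ℕ × ℕ × ℚ × ℚ), inferInstance,
    sumQ (sumQ (AltR : PropG 4 AltUI) (CuQ : PropG 4 Unit)) FaQ,
    aePG_sum (aePG_sum (aePG_altR 4) (her_altR 4) (aePG_cu 4)) (her_sum (her_altR 4) (her_cu 4))
      (aePG_fa 4), her_sum (her_sum (her_altR 4) (her_cu 4)) (her_fa 4), ?_⟩
  rintro h hh hh1 Sl ⟨ha, hb, hab, hres⟩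
  have H : F1UD 4 2 h Sl (kg4 .one .one .thin .sta) _ (ZfR 2 Sl) :=
    f1ud_nores (r := 2) (by norm_num) hh hh1 (fun l hl => by interval_cases l <;> rfl) ha
      hb hab hres
  rw [zfR_admL] at H
  exact H.us (by norm_num) rfl ha

end Pool.ASM
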