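import Pool.Agent.H90.STV.Fam

/-!
# The re-centred ball of a window of a record

`RcE`: on a part of an event: the ball chart of the window `w` (closed), and the re-centred chart of
the radius `a`. `rcb_win`, `rcb_rec`: in a class, at a record.
-/

set_option autoImplicit false

namespace Pool.STV90

open Finset Real MvPolynomial
open Pool.Agent.H49.Ent Pool.Agent.H32.Dense Pool.STK Pool.KA Pool.KSAT Pool.K2S Pool.PB Pool.S6C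
open Pool.GEN Pool.CHT Pool.CHX Pool.ISO Pool.D2R Pool.PKG Pool.NVX
open Pool.LBT (ThrOf)
open Pool.LEV (Law)

/-- **The ball chart of `w` and the re-centred chart of the radius `a`**, on a part of `A`. -/
def RcE {m J : ℕ} (F : Fam m J) (c : ℕ → Fin m) (r D : ℕ) (a w e σ : ℝ) (β : ℕ → ℝ) (K₁ : ℝ)
    (A : F.Ω → Prop) : Prop :=
  ∃ (B : F.Ω → Prop) (g g₀ : ℕ → ℕ) (G₀ : PtT F → ℕ → MvPolynomial (Option (Fin m)) ℝ)
    (H₀ : LnT F → ℕ → MvPolynomial (Option (Fin m)) ℝ), Sub B A ∧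
    Pe F.p A ≤ K₁ * Pe F.p B ∧ (∀ l ≤ r, (β l - σ) * J ≤ g₀ l) ∧
    (∀ l ≤ r, (β l + (a - w) - σ) * J ≤ g l ∧ (g l : ℝ) ≤ (β l + (a - w)) * J) ∧
    ChOK F c (r + 1) (fun _ => D) ⌊w * J⌋₊ ⌊w * J⌋₊ ⌊e * J⌋₊ g₀ B G₀ H₀ ∧
    Clsd F (r + 1) ⌊w * J⌋₊ B G₀ H₀ ∧
    ChOK F c (r + 1) (fun _ => D) ⌊a * J⌋₊ ⌊w * J⌋₊ ⌊e * J⌋₊ g B
      (fun y l => Gno (c l) J J (fun y => G₀ y l) y) (fun s l => Hno (c l) (fun s => H₀ s l) s)

/-- **The re-centred ball of a window.** -/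
theorem rcb_win (m r S₀ : ℕ) (hr : 1 ≤ r) (hS₀ : 1 ≤ S₀) : ∃ D : ℕ, 1 ≤ D ∧
    ∀ {S : PCl m} {P : List (Fin m) × Fin m → ℝ → ℝ → ℝ} {θ : ℝ} {c : ℕ → Fin m}
    {Pt : ℝ → ℝ → ℝ} {a w ρ Eb : ℝ} {vs e e₀ E sg : ℝ → ℝ} {Q : Set ℝ},
    ThrOf (chsys m θ) S P → 0 < θ → TmH S → Set.InjOn c (Set.Iio (r + 1)) → Law Pt → w < a →
    PtD S P θ c r Pt w w ρ S₀ vs e e₀ E sg Q → E 0 ≤ Eb →
    (∀ l ≤ r, lvN P c r Pt l w w + E 0 + (a - w) < 1) →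
    ∀ σ : ℝ, 0 < σ → ∃ K₁ : ℝ, 0 < K₁ ∧ Bas S (fun J F A =>
      RcE F c r D a w (Eb + σ) σ (fun l => lvN P c r Pt l w w) K₁ A) := by
  obtain ⟨D, hD, hball⟩ := ball_win m r S₀ hr hS₀
  refine ⟨D, hD, ?_⟩
  intro S P θ c Pt a w ρ Eb vs e e₀ E sg Q hP hθ hS hinj hPt hwa hdw hEb htop σ hσ
  have hw0 := hdw.w0
  obtain ⟨K₁, μ, b, hK₁, hμ, hb, hB⟩ := hball 0 hP hθ hS hinj hPt hwa hdw hEb htop (σ / 2) (σ / 2)
    ((a - w) / 2) 0 (by positivity) (by positivity) (by linarith)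
  refine ⟨K₁, hK₁, ?_⟩
  obtain ⟨J₁, hJ₁⟩ := exists_nat_ge (2 / ((a - w) / 2))
  obtain ⟨J₂, hJ₂⟩ := exists_nat_ge (2 / (σ / 2))
  obtain ⟨J₃, hJ₃⟩ := exists_nat_ge (1 / μ)
  obtain ⟨J₄, hJ₄⟩ := exists_nat_ge (1 / w)
  refine Bas.mono (max J₁ (max J₂ (max J₃ J₄))) (hB 1 one_pos) ?_
  rintro J hJ F A hb'
  have hJ0 : (0 : ℝ) ≤ J := Nat.cast_nonneg J
  have hJ1 : 2 ≤ (a - w) / 2 * J := by
    have h1 : (J₁ : ℝ) ≤ J := by exact_mod_cast (le_max_left _ _).trans hJ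
    have h2 := hJ₁.trans h1
    rw [div_le_iff₀ (by linarith)] at h2
    linarith
  have hJ2 : 2 ≤ σ / 2 * J := by
    have h1 : (J₂ : ℝ) ≤ J := by
      exact_mod_cast ((le_max_left _ _).trans (le_max_right _ _)).trans hJ
    have h2 := hJ₂.trans h1
    rw [div_le_iff₀ (by positivity)] at h2
    linarith
  have hJ3 : 1 ≤ μ * J := by
    have h1 : (J₃ : ℝ) ≤ J := by
      exact_mod_cast (((le_max_left _ _).trans (le_max_right _ _)).trans (le_max_right _ _)).trans hJ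
    have h2 := hJ₃.trans h1
    rw [div_le_iff₀ hμ] at h2
    linarith
  have hJ4 : 1 ≤ w * J := by
    have h1 : (J₄ : ℝ) ≤ J := by
      exact_mod_cast (((le_max_right _ _).trans (le_max_right _ _)).trans (le_max_right _ _)).trans hJ
    have h2 := hJ₄.trans h1
    rw [div_le_iff₀ hw0] at h2
    linarith
  have f1 : (⌊w * J⌋₊ : ℝ) ≤ w * J := Nat.floor_le (mul_nonneg hw0.le hJ0)
  have f1' : w * J < ⌊w * J⌋₊ + 1 := Nat.lt_floor_add_one _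
  have f2 : a * J < ⌊a * J⌋₊ + 1 := Nat.lt_floor_add_one _
  have f2' : (⌊a * J⌋₊ : ℝ) ≤ a * J := Nat.floor_le (mul_nonneg (by linarith) hJ0)
  have f3 : ⌊w * J⌋₊ ≤ ⌊a * J⌋₊ :=
    Nat.floor_le_floor (mul_le_mul_of_nonneg_right (by linarith) hJ0)
  obtain ⟨z, hz⟩ : ∃ z : ℕ, z = ⌊a * (J : ℝ)⌋₊ - ⌊w * (J : ℝ)⌋₊ := ⟨_, rfl⟩
  have hzr : (z : ℝ) = ⌊a * (J : ℝ)⌋₊ - ⌊w * (J : ℝ)⌋₊ := by rw [hz, Nat.cast_sub f3]
  have hzw : ⌊w * (J : ℝ)⌋₊ + z = ⌊a * (J : ℝ)⌋₊ := by omega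
  obtain ⟨B, g₀, G₀, H₀, hBA, hPB, hg₀, hev⟩ := hb' (fun _ => z) fun i _ => ⟨by
    rw [hzr]
    have e1 : (a - w) / 2 * (J : ℝ) = (a * J - w * J) / 2 := by ring
    rw [e1] at hJ1 ⊢
    linarith, by rw [hz]⟩
  refine ⟨B, fun l => ⌊b l * J⌋₊ + z, g₀, G₀, H₀, hBA, hPB, fun l hl => ?_, fun l hl => ?_,
    hev.ball.mono le_rfl (fun _ => le_rfl) le_rfl ?_, hev.cls, ?_⟩
  · have h1 := (hg₀ l hl).1
    refine le_trans (mul_le_mul_of_nonneg_right ?_ hJ0) h1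
    linarith
  · obtain ⟨h1, h2⟩ := hb l hl
    have h3 := Nat.lt_floor_add_one (b l * (J : ℝ))
    have h4 : (lvN P c r Pt l w w - σ / 2) * J ≤ b l * J :=
      mul_le_mul_of_nonneg_right h1.le hJ0
    have h5 : b l * J ≤ (lvN P c r Pt l w w - μ) * J := mul_le_mul_of_nonneg_right h2.le hJ0
    have h6 : 0 ≤ lvN P c r Pt l w w - σ / 2 ∨ lvN P c r Pt l w w - σ / 2 < 0 := le_or_gt _ _
    push_cast
    rw [hzr]
    refine ⟨by linarith, ?_⟩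
    have h7 : (⌊b l * (J : ℝ)⌋₊ : ℝ) ≤ max 0 (b l * J) := by
      rcases le_total 0 (b l * (J : ℝ)) with h | h
      · rw [max_eq_right h]
        exact Nat.floor_le h
      · rw [Nat.floor_of_nonpos h, Nat.cast_zero]
        exact le_max_left _ _
    have h8 : w ≤ lvN P c r Pt l w w := by
      unfold lvN
      split_ifs with h9
      · exact hP.low _ _ _ hw0.le le_rfl hdw.a1.le
      · exact (hdw.self.low)
    have h9 : 0 ≤ b l * (J : ℝ) ∨ b l * (J : ℝ) < 0 := le_or_gt _ _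
    rcases h9 with h9 | h9
    · rw [max_eq_right h9] at h7
      linarith
    · rw [max_eq_left h9.le] at h7
      have h12 : w * J ≤ lvN P c r Pt l w w * J := mul_le_mul_of_nonneg_right h8 hJ0
      linarith
  · refine le_of_eq ?_
    congr 1
    ring
  · have h1 := hev.rad 0 le_rfl
    simp only [hzw] at h1
    refine h1.mono le_rfl (fun _ => le_rfl) le_rfl (le_of_eq ?_)
    congr 1
    ring

/-- **The re-centred ball of a window of a record.** -/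
theorem rcb_rec (n i S₀ : ℕ) (hi1 : 1 ≤ i) (hS₀ : 1 ≤ S₀) : ∃ D : ℕ, 1 ≤ D ∧
    ∀ {S : PCl n} {al : ℝ} {g₀ : ℝ → ℝ} {P : List (Fin n) × Fin n → ℝ → ℝ → ℝ}
    {θ : ℝ} {P₂ : ℕ → List (Fin n) × Fin n → ℝ → ℝ → ℝ} {θ₂ Eb e₂ : ℕ → ℝ}
    {c : ℕ → Fin n} {Pt : ℝ → ℝ → ℝ} {rt : ℝ → ℝ} {h K₀ g : ℝ} {L T : ℕ → ℝ → ℝ → ℝ}
    {Sl : ℕ → ℝ} {κ : ℕ → Kg} {G : Set ℝ} {N : ℕ} {A V : ℕ → ℝ} {S₂ N' : ℕ} {V' : ℕ → ℝ}
    {K ε q t : ℝ}, RecG S al g₀ P θ P₂ θ₂ Eb e₂ c Pt rt h K₀ g L T Sl κ G S₀ N A V S₂ N' V' K ε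
      q t → i < n → ∀ k < N', |V' k| ≤ K → ∀ a : ℝ, t + V' k * q < a → a ≤ t + K * q →
      ∀ σ : ℝ, 0 < σ → ∃ K₁ : ℝ, 0 < K₁ ∧ Bas S (fun J F A =>
        RcE F c i D a (t + V' k * q) (Eb i + σ) σ
          (fun l => L l (t + V' k * q) (t + V' k * q)) K₁ A) := by
  obtain ⟨D, hD, hball⟩ := rcb_win n i S₀ hi1 hS₀
  refine ⟨D, hD, ?_⟩
  intro S al g₀ P θ P₂ θ₂ Eb e₂ c Pt rt h K₀ g L T Sl κ G N A V S₂ N' V' K ε q t R hin k hk hVK a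
    hwa haK σ hσ
  have hq := R.q0
  have W := R.tg i hi1 hin
  obtain ⟨ρ, vs, e₁, e₀, E, sg, Q, k1, k2, -⟩ := W.ptc k hk
  obtain ⟨w, hw⟩ : ∃ w, w = t + V' k * q := ⟨_, rfl⟩
  rw [← hw] at k1 hwa ⊢
  have hwx : |w - t| ≤ K * q := by
    rw [hw, add_sub_cancel_left, abs_mul, abs_of_pos hq]
    exact mul_le_mul_of_nonneg_right hVK hq.le
  have hwx' := abs_le.1 hwx
  have hlv : ∀ l ≤ i, lvN P c i (L i) l w w = L l w w := fun l hl => by rw [← R.lv_at hin hl]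
  have hKq : 0 ≤ K * q := (abs_nonneg _).trans hwx
  obtain ⟨K₁, hK₁, hB⟩ := hball (a := a) R.thr R.th0 R.tmh
    (R.inj.mono fun x hx => by
      rw [Set.mem_Iio] at hx ⊢
      omega) (R.lawL i hin) hwa k1 k2 (fun l hl => by
      have h1 := W.room l hl w hwx
      rw [hlv l hl]
      linarith [hwx'.1]) σ hσ
  refine ⟨K₁, hK₁, Bas.mono 0 hB ?_⟩
  rintro J - F A ⟨B, g, g₀, G₀, H₀, h1, h2, h3, h4, h5, h6, h7⟩
  beta_reduce at h3 h4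
  refine ⟨B, g, g₀, G₀, H₀, h1, h2, fun l hl => ?_, fun l hl => ?_, h5, h6, h7⟩
  · have := h3 l hl
    rwa [hlv l hl] at this
  · have := h4 l hl
    rwa [hlv l hl] at this

/-- Larger degrees. -/
theorem RcE.up {m J : ℕ} {F : Fam m J} {c : ℕ → Fin m} {r D D' : ℕ} {a w e σ : ℝ} {β : ℕ → ℝ}
    {K₁ : ℝ} {A : F.Ω → Prop} (h : RcE F c r D a w e σ β K₁ A) (hD : D ≤ D') :
    RcE F c r D' a w e σ β K₁ A := by
  obtain ⟨B, g, g₀, G₀, H₀, h1, h2, h3, h4, h5, h6, h7⟩ := h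
  exact ⟨B, g, g₀, G₀, H₀, h1, h2, h3, h4, h5.mono le_rfl (fun _ => hD) le_rfl le_rfl, h6,
    h7.mono le_rfl (fun _ => hD) le_rfl le_rfl⟩

end Pool.STV90
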