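import Pool.Agent.H90.STV.Mxr
import Pool.Agent.H90.STV.Fam

/-!
# The row label against the ball of a window

`lab_three`: the labels of a target over two chains are near on the natural box of a third one
without relations. `row_ball`: the closed label of a target at a window minus the closed label of a
row chain of an earlier window, in the last direction.
-/

set_option autoImplicit false

namespace Pool.STV90

open Finset Real MvPolynomial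
open Pool.Agent.H49.Ent Pool.Agent.H32.Dense Pool.STK Pool.KA Pool.KSAT Pool.K2S Pool.PB Pool.S6C
open Pool.GEN Pool.CHT Pool.NVX Pool.ISO
open Pool.SHR (dir dir_sub)
open Pool.STB77 (Tgt tgt_of last_dir)

/-- **The labels of a target over two chains** are near on the natural box of a third one. -/
theorem lab_three (D r : ℕ) (hD : 1 ≤ D) : ∃ C : ℕ, ∀ {m J : ℕ} {F : Fam m J} {c : ℕ → Fin m}
    {i a w e₁ e₂ h q₁ q₂ : ℕ} {g g₁ g₂ : ℕ → ℕ} {κ κ' : ℝ} {B₀ B' : F.Ω → Prop}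
    {G G₁ G₂ : PtT F → ℕ → MvPolynomial (Option (Fin m)) ℝ}
    {H₁ H₂ : LnT F → ℕ → MvPolynomial (Option (Fin m)) ℝ} {y : F.Ω → ℝ}
    {P₁ P₂ : PtT F → MvPolynomial (Option (Fin m)) ℝ}
    {R₁ R₂ : LnT F → MvPolynomial (Option (Fin m)) ℝ}, i < r →
    Set.InjOn c (Set.Iio i) → RelvF F c i a w g D h κ B₀ G → Sub B' B₀ →
    κ' * Pe F.p B₀ ≤ Pe F.p B' → κ * 2 ^ (2 * r) ≤ κ' → 0 ≤ κ →
    ChOK F c i (fun _ => D) a w e₁ g₁ B' G₁ H₁ → Tgt F c i D a w q₁ g₁ B' G₁ y P₁ R₁ →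
    ChOK F c i (fun _ => D) a w e₂ g₂ B' G₂ H₂ → Tgt F c i D a w q₂ g₂ B' G₂ y P₂ R₂ →
    ∃ B : F.Ω → Prop, Sub B B' ∧ Pe F.p B' / 2 ^ (2 * i + 1) ≤ Pe F.p B ∧ ∀ ω, B ω →
      ∀ b, NBx c (G (ptr F J ω)) g a (F.t ω) i b →
        |eval b (P₁ (ptr F J ω)) - eval b (P₂ (ptr F J ω))| ≤
          2 ^ (C * (h + 1)) * (1 / 2 ^ q₁ + 1 / 2 ^ q₂) := by
  obtain ⟨C, move⟩ := Pool.ISO.move_all D r hD
  obtain ⟨c₀, D₁, hD₁, hdil⟩ := nbx_dil r (fun _ => D)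
  refine ⟨c₀ + C * D₁ + 2, ?_⟩
  intro m J F c i a w e₁ e₂ h q₁ q₂ g g₁ g₂ κ κ' B₀ B' G G₁ G₂ H₁ H₂ y P₁ P₂ R₁ R₂ hi hc hR hB hP
    hκ hκ0 hL₁ hT₁ hL₂ hT₂
  have hP0 := Pe_nonneg F.isLaw B₀
  have hpw : ∀ {x z : ℕ}, x ≤ z → (2 : ℝ) ^ x ≤ 2 ^ z := fun h => pow_le_pow_right₀ (by norm_num) h
  obtain ⟨B₁, k1, k2, k3⟩ := move hi hc hR hB hP (by
    refine le_trans (mul_le_mul_of_nonneg_left (hpw (show r ≤ 2 * r by omega)) hκ0) hκ) hL₁
  obtain ⟨B₂, l1, l2, l3⟩ := move hi hc hR (fun ω hω => hB ω (k1 ω hω)) (κ' := κ' / 2 ^ i) (by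
    rw [div_mul_eq_mul_div]
    exact (div_le_div_of_nonneg_right hP (by positivity)).trans k2) (by
    rw [le_div_iff₀ (by positivity)]
    refine le_trans ?_ hκ
    rw [mul_assoc, ← pow_add]
    exact mul_le_mul_of_nonneg_left (hpw (by omega)) hκ0) (hL₂.sub k1)
  obtain ⟨n, hn⟩ : ∃ n, n = c₀ + C * (h + 1) * D₁ := ⟨_, rfl⟩
  obtain ⟨M, hM⟩ : ∃ M : ℝ, M = 2 ^ n * (1 / 2 ^ q₁ + 1 / 2 ^ q₂) := ⟨_, rfl⟩
  have h1n : (1 : ℝ) ≤ 2 ^ n := one_le_pow₀ (by norm_num)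
  have hq1 : (0 : ℝ) < 1 / 2 ^ q₁ := by positivity
  have hq2 : (0 : ℝ) < 1 / 2 ^ q₂ := by positivity
  have hM0 : 0 < M := by rw [hM]; positivity
  have hM1 : (1 : ℝ) / 2 ^ q₁ + 1 / 2 ^ q₂ ≤ M := by
    rw [hM]
    exact le_mul_of_one_le_left (by positivity) h1n
  have hPB₂ : Pe F.p B' / 2 ^ (2 * i) ≤ Pe F.p B₂ := by
    refine le_trans (le_of_eq ?_) ((div_le_div_of_nonneg_right k2 (by positivity)).trans l2)
    rw [two_mul, pow_add]
    field_simp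
  have hag : ∀ {q : ℕ} {g' : ℕ → ℕ} {G' : PtT F → ℕ → MvPolynomial (Option (Fin m)) ℝ}
      {H' : LnT F → ℕ → MvPolynomial (Option (Fin m)) ℝ}
      {P : PtT F → MvPolynomial (Option (Fin m)) ℝ} {R : LnT F → MvPolynomial (Option (Fin m)) ℝ}
      {e' : ℕ}, ChOK F c i (fun _ => D) a w e' g' B' G' H' → Tgt F c i D a w q g' B' G' y P R →
      (∀ ω, B₂ ω → ∀ b, NBx c (G (ptr F J ω)) g a (F.t ω) i b →
        ∀ j < i, |b (some (c j)) - eval b (G' (ptr F J ω) j)| ≤ 2 ^ (C * (h + 1)) / 2 ^ g' j) →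
      ∀ ω, B₂ ω → ∀ b, NBx c (G (ptr F J ω)) g a (F.t ω) i b →
        |eval b (P (ptr F J ω)) - eval b (R (slam F w ω))| ≤ 2 ^ n * (1 / 2 ^ q) := by
    intro q g' G' H' P R e' hL hT hmv ω hω b hb
    have h2 := hdil (c := c) (i := i) (G := G' (ptr F J ω))
      (Q := P (ptr F J ω) - R (slam F w ω)) (g := g') (a := a) (t := F.t ω)
      (M := 1 / 2 ^ q) (C * (h + 1)) hi hc (hL.degG _) (hL.depG _)
      (fun y y' hn hy => by
        rw [map_sub, map_sub, hT.depP _ y y' hn hy, hT.depR _ y y' hn hy])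
      ((totalDegree_sub _ _).trans (max_le (hT.degP _) (hT.degR _))) (by positivity)
      (fun b hb => by rw [map_sub]; exact hT.agr ω (k1 ω (l1 ω hω)) b hb) b hb.1
      (fun j hj => hmv ω hω b hb j hj)
    rw [map_sub, ← hn] at h2
    exact h2
  obtain ⟨B₃, m1, m2, m3⟩ := hR B₂ (fun ω hω => hB ω (k1 ω (l1 ω hω))) (by
      have h1 : κ * 2 ^ (2 * i) * Pe F.p B₀ ≤ Pe F.p B' := by
        refine le_trans (mul_le_mul_of_nonneg_right ?_ hP0) hP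
        exact le_trans (mul_le_mul_of_nonneg_left (hpw (by omega)) hκ0) hκ
      refine le_trans ?_ hPB₂
      rw [le_div_iff₀ (by positivity)]
      linarith)
    (fun y => P₁ y - P₂ y) (fun s => R₁ s - R₂ s) M
    (fun y => (totalDegree_sub _ _).trans (max_le (hT₁.degP y) (hT₂.degP y)))
    (fun s => (totalDegree_sub _ _).trans (max_le (hT₁.degR s) (hT₂.degR s)))
    (fun y b b' hn hb => by rw [map_sub, map_sub, hT₁.depP y b b' hn hb, hT₂.depP y b b' hn hb])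
    (fun s b b' hn hb => by rw [map_sub, map_sub, hT₁.depR s b b' hn hb, hT₂.depR s b b' hn hb])
    hM0 (fun ω hω => by
      have h1 := hT₁.pos ω (k1 ω (l1 ω hω))
      have h2 := hT₂.pos ω (k1 ω (l1 ω hω))
      rw [map_sub]
      have e1 : eval (bt F ω) (P₁ (ptr F J ω)) - eval (bt F ω) (P₂ (ptr F J ω)) =
        (y ω - eval (bt F ω) (P₂ (ptr F J ω))) - (y ω - eval (bt F ω) (P₁ (ptr F J ω))) := by ring
      rw [e1]
      refine (abs_sub _ _).trans ?_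
      linarith) (fun ω hω b hb => by
      have h1 := hag hL₁ hT₁ (fun ω hω => k3 ω (l1 ω hω)) ω hω b hb
      have h2 := hag hL₂ hT₂ l3 ω hω b hb
      rw [map_sub, map_sub]
      have e1 : eval b (P₁ (ptr F J ω)) - eval b (P₂ (ptr F J ω)) -
          (eval b (R₁ (slam F w ω)) - eval b (R₂ (slam F w ω))) =
          (eval b (P₁ (ptr F J ω)) - eval b (R₁ (slam F w ω))) -
          (eval b (P₂ (ptr F J ω)) - eval b (R₂ (slam F w ω))) := by ring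
      rw [e1]
      refine (abs_sub _ _).trans ?_
      rw [hM, mul_add]
      exact add_le_add h1 h2)
  refine ⟨B₃, fun ω hω => k1 ω (l1 ω (m1 ω hω)), ?_, fun ω hω b hb => ?_⟩
  · refine le_trans (le_of_eq ?_) ((div_le_div_of_nonneg_right hPB₂ (by norm_num)).trans m2)
    rw [pow_succ]
    field_simp
  · have h1 := m3 ω hω b hb
    rw [map_sub, hM, ← mul_assoc, ← pow_add] at h1
    refine h1.trans (mul_le_mul_of_nonneg_right (hpw ?_) (by positivity))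
    rw [hn]
    nlinarith

/-- Shorter windows. -/
theorem tgt_win {J m : ℕ} {F : Fam m J} {c : ℕ → Fin m} {i K a w w' q : ℕ} {g : ℕ → ℕ}
    {A : F.Ω → Prop} {G : PtT F → ℕ → MvPolynomial (Option (Fin m)) ℝ} {y : F.Ω → ℝ}
    {P : PtT F → MvPolynomial (Option (Fin m)) ℝ} {R : LnT F → MvPolynomial (Option (Fin m)) ℝ}
    (h : Tgt F c i K a w' q g A G y P R) (hw : w' ≤ w) (hwJ : w ≤ J) :
    Tgt F c i K a w q g A G y P (fun s => cwn w' w (fun s _ => R s) s 0) :=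
  ⟨h.degP, fun s => h.degR _, h.depP, fun s => h.depR _, h.pos, fun ω hω b hb => by
    have e1 := cwn_slam hw hwJ (fun (s : LnT F) (_ : ℕ) => R s) ω
    rw [e1]
    exact h.agr ω hω b hb⟩

/-- **The closed label of the target at a window minus the one of a row chain** of an earlier window,
in the last direction, at the samples. -/
theorem row_ball (D r : ℕ) (hD : 1 ≤ D) : ∃ C : ℕ, ∀ {m J : ℕ} {F : Fam m J} {c : ℕ → Fin m}
    {a w wr e₁ e₂ e' h q P : ℕ} {g g₁ gT : ℕ → ℕ} {κ κ' : ℝ} {B₀ B' : F.Ω → Prop}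
    {G G₁ T : PtT F → ℕ → MvPolynomial (Option (Fin m)) ℝ}
    {H H₁ TH : LnT F → ℕ → MvPolynomial (Option (Fin m)) ℝ}
    {Gn Gt : PtT F → MvPolynomial (Option (Fin m)) ℝ}
    {Hn Ht : LnT F → MvPolynomial (Option (Fin m)) ℝ}
    {Gl : F.Ω → MvPolynomial (Option (Fin m)) ℝ} {X : ℝ},
    Set.InjOn c (Set.Iio (r + 1)) → RelvF F c (r + 1) a w g D h κ B₀ G → Sub B' B₀ →
    κ' * Pe F.p B₀ ≤ Pe F.p B' → κ * 2 ^ (2 * (r + 2)) ≤ κ' → 0 ≤ κ → wr ≤ w → w ≤ J →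
    ChOK F c (r + 1) (fun _ => D) a w e₁ g B₀ G H →
    ChOK F c (r + 1) (fun _ => D) a w e₂ g₁ B' G₁ H₁ →
    Tgt F c (r + 1) D a w q g₁ B' G₁ (fun ω => F.x ω (c (r + 1))) Gn Hn →
    ChOK F c (r + 1) (fun _ => D) a wr e' gT B' T TH →
    Tgt F c (r + 1) D a wr P gT B' T (fun ω => F.x ω (c (r + 1))) Gt Ht →
    (∀ ω, B' ω → |eval (bt F ω) (pderiv (some (c r)) (Ht (slam F wr ω) - Gl ω))| ≤ X) →
    ∃ B : F.Ω → Prop, Sub B B' ∧ Pe F.p B' / 2 ^ (2 * r + 3) ≤ Pe F.p B ∧ ∀ ω, B ω →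
      |eval (bt F ω) (pderiv (some (c r)) (Gn (ptr F J ω) - Gl ω))| ≤
        2 ^ (C * (h + 1) + g r) * (1 / 2 ^ q + 1 / 2 ^ P) + 2 ^ (C + gT r) / 2 ^ P + X := by
  obtain ⟨C₁, hthree⟩ := lab_three D (r + 2) hD
  obtain ⟨C₂, hla⟩ := last_dir D (r + 2)
  refine ⟨C₁ + C₂, ?_⟩
  intro m J F c a w wr e₁ e₂ e' h q P g g₁ gT κ κ' B₀ B' G G₁ T H H₁ TH Gn Gt Hn Ht Gl X hc hR hB
    hP hκ hκ0 hwr hwJ hG hL₁ hT₁ hL₂ hT₂ hX
  have hpw : ∀ {x z : ℕ}, x ≤ z → (2 : ℝ) ^ x ≤ 2 ^ z := fun h => pow_le_pow_right₀ (by norm_num) h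
  obtain ⟨B, k1, k2, k3⟩ := hthree (F := F) (c := c) (i := r + 1) (a := a) (w := w) (e₁ := e₂)
    (e₂ := e') (h := h) (q₁ := q) (q₂ := P) (g := g) (g₁ := g₁) (g₂ := gT) (κ := κ) (κ' := κ')
    (by omega) hc hR hB hP hκ hκ0 hL₁ hT₁ (chOK_win hL₂ hwr hwJ) (tgt_win hT₂ hwr hwJ)
  refine ⟨B, k1, by
    refine le_trans (le_of_eq ?_) k2
    rw [show 2 * (r + 1) + 1 = 2 * r + 3 by ring], fun ω hω => ?_⟩
  have hω' := k1 ω hω
  have hbt : NBx c (G (ptr F J ω)) g a (F.t ω) (r + 1) (bt F ω) :=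
    ⟨by show |F.t ω - F.t ω| ≤ _; rw [sub_self, abs_zero]; positivity,
      fun l hl => hG.pos ω (hB ω hω') l hl⟩
  have hbT : NBx c (T (ptr F J ω)) gT a (F.t ω) (r + 1) (bt F ω) :=
    ⟨by show |F.t ω - F.t ω| ≤ _; rw [sub_self, abs_zero]; positivity,
      fun l hl => hL₂.pos ω hω' l hl⟩
  have h2 := hla (c := c) (i := r) (a := a) (g := g) (t := F.t ω)
    (M := 2 ^ (C₁ * (h + 1)) * (1 / 2 ^ q + 1 / 2 ^ P))
    (G := G (ptr F J ω)) (P := Gn (ptr F J ω) - Gt (ptr F J ω))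
    (b := bt F ω) (by omega) hc (hG.degG _) (hG.depG _)
    (fun x y hn hb => by rw [map_sub, map_sub, hT₁.depP _ x y hn hb, hT₂.depP _ x y hn hb])
    ((totalDegree_sub _ _).trans (max_le (hT₁.degP _) (hT₂.degP _)))
    (by positivity) hbt (fun b hb => by
      rw [map_sub]
      exact k3 ω hω b hb)
  have h3 := hla (c := c) (i := r) (a := a) (g := gT) (t := F.t ω) (M := 1 / 2 ^ P)
    (G := T (ptr F J ω)) (P := Gt (ptr F J ω) - Ht (slam F wr ω))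
    (b := bt F ω) (by omega) hc (hL₂.degG _) (hL₂.depG _)
    (fun x y hn hb => by rw [map_sub, map_sub, hT₂.depP _ x y hn hb, hT₂.depR _ x y hn hb])
    ((totalDegree_sub _ _).trans (max_le (hT₂.degP _) (hT₂.degR _)))
    (by positivity) hbT (fun b hb => by
      rw [map_sub]
      exact hT₂.agr ω hω' b hb)
  have h4 := hX ω hω'
  rw [dir_ek] at h2 h3
  have e1 : eval (bt F ω) (pderiv (some (c r)) (Gn (ptr F J ω) - Gl ω)) =
      eval (bt F ω) (pderiv (some (c r)) (Gn (ptr F J ω) - Gt (ptr F J ω))) +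
      eval (bt F ω) (pderiv (some (c r)) (Gt (ptr F J ω) - Ht (slam F wr ω))) +
      eval (bt F ω) (pderiv (some (c r)) (Ht (slam F wr ω) - Gl ω)) := by
    simp only [map_sub]
    ring
  have h5 : (2 : ℝ) ^ C₂ * (2 ^ (C₁ * (h + 1)) * (1 / 2 ^ q + 1 / 2 ^ P) * 2 ^ g r) ≤
      2 ^ ((C₁ + C₂) * (h + 1) + g r) * (1 / 2 ^ q + 1 / 2 ^ P) := by
    calc (2 : ℝ) ^ C₂ * (2 ^ (C₁ * (h + 1)) * (1 / 2 ^ q + 1 / 2 ^ P) * 2 ^ g r) =
          2 ^ (C₂ + C₁ * (h + 1) + g r) * (1 / 2 ^ q + 1 / 2 ^ P) := by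
          rw [pow_add, pow_add]
          ring
      _ ≤ _ := mul_le_mul_of_nonneg_right (hpw (by nlinarith [Nat.zero_le (C₂ * h)]))
          (by positivity)
  have h6 : (2 : ℝ) ^ C₂ * (1 / 2 ^ P * 2 ^ gT r) ≤ 2 ^ (C₁ + C₂ + gT r) / 2 ^ P := by
    rw [le_div_iff₀ (by positivity)]
    calc (2 : ℝ) ^ C₂ * (1 / 2 ^ P * 2 ^ gT r) * 2 ^ P = 2 ^ (C₂ + gT r) := by
          rw [pow_add]
          field_simp
      _ ≤ _ := hpw (by omega)
  rw [e1]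
  exact (abs_add_le _ _).trans (add_le_add ((abs_add_le _ _).trans
    (add_le_add (h2.trans h5) (h3.trans h6))) h4)

end Pool.STV90
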