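import Pool.Agent.H90.STV.Rwb
import Pool.Agent.H90.STV.Rwa
import Pool.Agent.H2.GEN.IsoC

/-!
# Larger boxes with hierarchical losses
-/

set_option autoImplicit false

namespace Pool.STV90

open Finset Real MvPolynomial
open Pool.Agent.H49.Ent Pool.Agent.H32.Dense Pool.STK Pool.KA Pool.KSAT Pool.K2S Pool.PB Pool.S6C
open Pool.GEN Pool.CHT Pool.CHX Pool.ISO

/-- **Larger boxes with hierarchical losses.** -/
theorem grow_rel (r D : ℕ) : ∃ C : ℕ, ∀ {m J : ℕ} {F : Fam m J} {c : ℕ → Fin m}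
    {a w e : ℕ} {g : ℕ → ℕ} {e₀ e₁ σ : ℝ} {β d : ℕ → ℝ} {A : F.Ω → Prop}
    {G : PtT F → ℕ → MvPolynomial (Option (Fin m)) ℝ}
    {H : LnT F → ℕ → MvPolynomial (Option (Fin m)) ℝ}, Set.InjOn c (Set.Iio r) →
    (∀ l < r, 0 ≤ β l - d l) → (∀ l < r, (β l - σ) * J ≤ g l ∧ (g l : ℝ) ≤ β l * J) →
    (∀ l < r, ∑ j ∈ range l, d j * ((D * dgp (fun _ => D) j l : ℕ) : ℝ) ≤ d l / 2) →
    (∀ l < r, 8 * σ ≤ d l) → 0 ≤ σ → (C : ℝ) ≤ σ * J → (e : ℝ) ≤ e₁ * J →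
    e₁ + ∑ l ∈ range r, d l + σ ≤ e₀ → ChOK F c r (fun _ => D) a w e g A G H →
    ChOK F c r (fun _ => D) a w ⌊e₀ * J⌋₊ (fun l => ⌊(β l - d l) * J⌋₊) A G H := by
  obtain ⟨c₀, hgr⟩ := chOK_grow r (fun _ => D)
  obtain ⟨W, hW⟩ : ∃ W : ℕ, W = ∑ l ∈ range r, ∑ j ∈ range l, D * dgp (fun _ => D) j l := ⟨_, rfl⟩
  refine ⟨c₀ + W + r + 1, ?_⟩
  intro m J F c a w e g e₀ e₁ σ β d A G H hc hβ hg hh hd hσ hC he hee hch
  have hJ0 : (0 : ℝ) ≤ J := Nat.cast_nonneg J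
  push_cast at hC
  have hd0 : ∀ l < r, 0 ≤ d l := fun l hl => by linarith [hd l hl]
  have fl1 : ∀ l < r, (⌊(β l - d l) * (J : ℝ)⌋₊ : ℝ) ≤ (β l - d l) * J := fun l hl =>
    Nat.floor_le (mul_nonneg (hβ l hl) hJ0)
  have fl2 : ∀ l : ℕ, (β l - d l) * (J : ℝ) < ⌊(β l - d l) * (J : ℝ)⌋₊ + 1 := fun l =>
    Nat.lt_floor_add_one _
  have hle : ∀ l < r, ⌊(β l - d l) * (J : ℝ)⌋₊ ≤ g l := fun l hl => by
    have h1 := fl1 l hl
    have h2 := (hg l hl).1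
    have h3 : (β l - d l) * (J : ℝ) ≤ (β l - σ) * J :=
      mul_le_mul_of_nonneg_right (by linarith [hd l hl]) hJ0
    exact_mod_cast h1.trans (h3.trans h2)
  have hx1 : ∀ l < r, ((g l - ⌊(β l - d l) * (J : ℝ)⌋₊ : ℕ) : ℝ) ≤ d l * J + 1 := fun l hl => by
    rw [Nat.cast_sub (hle l hl)]
    have h1 := fl2 l
    have h2 := (hg l hl).2
    linarith
  have hx2 : ∀ l < r, (d l - σ) * J ≤ ((g l - ⌊(β l - d l) * (J : ℝ)⌋₊ : ℕ) : ℝ) := fun l hl => by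
    rw [Nat.cast_sub (hle l hl)]
    have h1 := fl1 l hl
    have h2 := (hg l hl).1
    linarith
  have hgls : ∀ l < r, ((gls (fun _ => D) g (fun l => ⌊(β l - d l) * (J : ℝ)⌋₊) l : ℕ) : ℝ) ≤
      d l / 2 * J + W := by
    intro l hl
    unfold gls
    rw [Nat.cast_sum]
    have h1 : ∀ j ∈ range l, (((g j - ⌊(β j - d j) * (J : ℝ)⌋₊) * (D * dgp (fun _ => D) j l) : ℕ) : ℝ) ≤
        d j * ((D * dgp (fun _ => D) j l : ℕ) : ℝ) * J + ((D * dgp (fun _ => D) j l : ℕ) : ℝ) := by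
      intro j hj
      have hj' : j < r := (mem_range.1 hj).trans hl
      rw [Nat.cast_mul]
      have h2 := mul_le_mul_of_nonneg_right (hx1 j hj')
        (Nat.cast_nonneg (D * dgp (fun _ => D) j l))
      refine h2.trans (le_of_eq ?_)
      ring
    refine (Finset.sum_le_sum h1).trans ?_
    rw [Finset.sum_add_distrib, ← Finset.sum_mul]
    refine add_le_add (mul_le_mul_of_nonneg_right (hh l hl) hJ0) ?_
    rw [hW, ← Nat.cast_sum]
    have h3 : ∑ j ∈ range l, D * dgp (fun _ => D) j l ≤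
        ∑ l ∈ range r, ∑ j ∈ range l, D * dgp (fun _ => D) j l :=
      Finset.single_le_sum (f := fun l => ∑ j ∈ range l, D * dgp (fun _ => D) j l)
        (fun _ _ => Nat.zero_le _) (mem_range.2 hl)
    exact_mod_cast h3
  refine hgr hc hle (fun l hl _ => ?_) (fun l hl _ => ?_) hch
  · have h1 := hgls l hl
    have h2 := hx2 l hl
    have h3 : 8 * σ * J ≤ d l * J := mul_le_mul_of_nonneg_right (hd l hl) hJ0
    have h4 : (0 : ℝ) ≤ r := Nat.cast_nonneg r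
    have h5 : 0 ≤ σ * J := mul_nonneg hσ hJ0
    have e3 : (d l - σ) * (J : ℝ) = d l * J - σ * J := by ring
    rw [e3] at h2
    have h6 : ((c₀ + gls (fun _ => D) g (fun l => ⌊(β l - d l) * (J : ℝ)⌋₊) l : ℕ) : ℝ) ≤
        ((g l - ⌊(β l - d l) * (J : ℝ)⌋₊ : ℕ) : ℝ) := by
      push_cast at h1 ⊢
      linarith
    exact_mod_cast h6
  · refine Nat.le_floor ?_
    have h1 := hgls l hl
    have h2 : ((∑ j ∈ range l, (g j - ⌊(β j - d j) * (J : ℝ)⌋₊) : ℕ) : ℝ) ≤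
        (∑ j ∈ range l, d j) * J + l := by
      rw [Nat.cast_sum]
      refine (Finset.sum_le_sum fun j hj => hx1 j ((mem_range.1 hj).trans hl)).trans ?_
      rw [Finset.sum_add_distrib, ← Finset.sum_mul, Finset.sum_const, card_range, nsmul_eq_mul,
        mul_one]
    have h3 : ∑ j ∈ range l, d j + d l ≤ ∑ j ∈ range r, d j := by
      rw [← Finset.sum_range_succ]
      exact Finset.sum_le_sum_of_subset_of_nonneg (Finset.range_subset_range.2 hl)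
        fun j hj _ => hd0 j (mem_range.1 hj)
    have h4 : (l : ℝ) ≤ r := by exact_mod_cast hl.le
    have h5 : (e₁ + ∑ l ∈ range r, d l + σ) * J ≤ e₀ * J := mul_le_mul_of_nonneg_right hee hJ0
    have h6 : (∑ j ∈ range l, d j + d l) * J ≤ (∑ j ∈ range r, d j) * J :=
      mul_le_mul_of_nonneg_right h3 hJ0
    have h7 : 0 ≤ d l * J := mul_nonneg (hd0 l hl) hJ0
    push_cast at h1 h2 ⊢
    linarith

end Pool.STV90
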