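import Pool.Agent.H90.STV.Rwd

/-!
# Blindness at a window from a row chain

`rw_blB`: in a class, without relations at the pair of the radius of the row chain and the window, all
labels of the target at the window are near the labels of a family with row chains.
-/

set_option autoImplicit false

namespace Pool.STV90

open Finset Real MvPolynomial
open Pool.Agent.H49.Ent Pool.Agent.H32.Dense Pool.STK Pool.KA Pool.KSAT Pool.K2S Pool.PB Pool.S6C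
open Pool.GEN Pool.CHT Pool.CHX Pool.ISO Pool.D2R Pool.NVX Pool.CR99
open Pool.GRD (LbP)
open Pool.ALT (Fml BlB)
open Pool.BFL (Pb)
open Pool.STB77 (Tgt tgt_of)

/-- The labels of closed charts, with their values on the lines. -/
theorem lbp_clsH {m J : ℕ} {F : Fam m J} {c : ℕ → Fin m} {n D a w e : ℕ} {g : ℕ → ℕ}
    {B : F.Ω → Prop} {G : PtT F → ℕ → MvPolynomial (Option (Fin m)) ℝ}
    {H : LnT F → ℕ → MvPolynomial (Option (Fin m)) ℝ}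
    (hch : ChOK F c n (fun _ => D) a w e g B G H) (hcl : Clsd F n w B G H) {l : ℕ} (hl : l < n) :
    ∃ (V₁ : Type) (z₁ : PtT F → V₁) (z₁' : LnT F → V₁)
      (G₁ : V₁ → MvPolynomial (Option (Fin m)) ℝ),
      LbP F ((range l).image c) (c l) D J w (g l) B z₁ z₁' G₁ ∧ ∀ s, G₁ (z₁' s) = H s l := by
  refine ⟨{v : MvPolynomial (Option (Fin m)) ℝ // v.totalDegree ≤ D ∧ DepC c l v},
    fun y => ⟨G y l, hch.degG y _, hch.depG y _⟩,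
    fun s => ⟨H s l, hch.degH s _, hch.depH s _⟩, Subtype.val,
    ⟨fun v => v.2.1, fun v b b' hn hb => v.2.2 b b' hn fun j hj =>
      hb _ (Finset.mem_image_of_mem _ (Finset.mem_range.2 hj)),
      fun ω hω => Subtype.ext (hcl ω hω _ hl), fun ω hω => ?_⟩, fun s => rfl⟩
  have h1 := hch.pos ω hω l hl
  rw [hcl ω hω l hl] at h1
  exact h1

/-- **Blindness at a window from a row chain**, in a class. -/
theorem rw_blB (r D : ℕ) (hD : 1 ≤ D) : ∃ C : ℕ, ∀ {m : ℕ} {S : PCl m} {C₀ : ℝ}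
    {c : ℕ → Fin m} {a v wr wn e₀ e₁ e₂ σ η K₁ K₂ u p p₂ x ew gu pw xw : ℝ} {β d : ℕ → ℝ}
    {Dw Kn Ku : ℕ} {Ψ : Fml m},
    0 ≤ C₀ → TmC S C₀ → Set.InjOn c (Set.Iio (r + 2)) → wr ≤ v → 0 ≤ v → v ≤ a → a ≤ 1 →
    0 < σ → 0 < η → 0 < K₁ → 0 < K₂ → Dw ≤ D →
    Bas S (RelvS c (r + 1) (fun _ => D) (fun l => β l + (a - v)) d a v e₀ D η (1 / 2)) →
    Bas S (fun J F A => RcE F c r D a v e₁ σ β K₁ A) →
    Bas S (fun J F A => RcE F c (r + 1) D a v e₂ σ β K₂ A) →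
    (∀ l < r + 1, ∑ j ∈ range l, d j * ((D * dgp (fun _ => D) j l : ℕ) : ℝ) ≤ d l / 2) →
    (∀ l < r + 1, 8 * σ ≤ d l) → (∀ l < r + 1, d l ≤ β l + (a - v)) → 0 ≤ e₁ →
    e₁ + ∑ l ∈ range (r + 1), d l + σ ≤ e₀ →
    Pool.TOP.Ful S ((range (r + 1)).image c) v u → v ≤ u → 0 ≤ u → u < 1 → 0 ≤ p →
    u - (β (r + 1) - σ) < x → u - p < x → β r - β (r + 1) + σ + C * η < x →
    β r + (a - v) + C * η - pw < x → gu - pw < x → xw < x →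
    (∀ (J : ℕ) (F : Fam m J) (A : F.Ω → Prop) (V : Type) (z : PtT F → V) (z' : LnT F → V)
      (G : V → MvPolynomial (Option (Fin m)) ℝ), Ψ J F A V z z' G →
      RwE c r Dw a wr ew gu pw xw wn J F A V z' G) →
    BlB S c r (c (r + 1)) wn v Kn Ku p p₂ x Ψ := by
  classical
  obtain ⟨C, hrow⟩ := row_ball D r hD
  obtain ⟨C₂, hgrow⟩ := grow_rel (r + 1) D
  refine ⟨C, ?_⟩
  intro m S C₀ c a v wr wn e₀ e₁ e₂ σ η K₁ K₂ u p p₂ x ew gu pw xw β d Dw Kn Ku Ψ hC₀ htm hc hwr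
    hv0 hva ha1 hσ hη hK₁ hK₂ hDw hrel hb1 hb2 hh hd hdβ he₁ hee hful hvu hu0 hu hp hx1 hx2 hx3 hx4
    hx5 hx6 hΨ η' χ hη' hχ
  obtain ⟨p', hp'⟩ : ∃ p' : ℝ, p' = min (β (r + 1) - σ) p := ⟨_, rfl⟩
  have hp'1 : p' ≤ β (r + 1) - σ := by rw [hp']; exact min_le_left _ _
  have hp'2 : p' ≤ p := by rw [hp']; exact min_le_right _ _
  have hup' : u - p' < x := by
    rw [hp']
    rcases le_total (β (r + 1) - σ) p with h | h
    · rwa [min_eq_left h]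
    · rwa [min_eq_right h]
  obtain ⟨x₁, hx₁⟩ : ∃ x₁ : ℝ, x₁ = (u - p' + x) / 2 := ⟨_, rfl⟩
  have hx₁1 : u - p' < x₁ := by rw [hx₁]; linarith
  have hx₁x : x₁ < x := by rw [hx₁]; linarith
  obtain ⟨x', hx'⟩ : ∃ x' : ℝ, x' = max x₁ (max (max (β r - β (r + 1) + σ + C * η)
      (β r + (a - v) + C * η - pw)) (max (gu - pw) xw)) := ⟨_, rfl⟩
  have hx'x : x' < x := by
    rw [hx']
    exact max_lt hx₁x (max_lt (max_lt hx3 hx4) (max_lt hx5 hx6))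
  have y1 : x₁ ≤ x' := by rw [hx']; exact le_max_left _ _
  have y2 : β r - β (r + 1) + σ + C * η ≤ x' := by
    rw [hx']
    exact ((le_max_left _ _).trans (le_max_left _ _)).trans (le_max_right _ _)
  have y3 : β r + (a - v) + C * η - pw ≤ x' := by
    rw [hx']
    exact ((le_max_right _ _).trans (le_max_left _ _)).trans (le_max_right _ _)
  have y4 : gu - pw ≤ x' := by
    rw [hx']
    exact ((le_max_left _ _).trans (le_max_right _ _)).trans (le_max_right _ _)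
  have y5 : xw ≤ x' := by
    rw [hx']
    exact ((le_max_right _ _).trans (le_max_right _ _)).trans (le_max_right _ _)
  obtain ⟨M, hM⟩ : ∃ M : ℝ, M = 2 ^ (2 * r + 3) := ⟨_, rfl⟩
  have hM0 : 0 < M := by rw [hM]; positivity
  have hc1 : Set.InjOn c (Set.Iio (r + 1)) := hc.mono fun y hy => by
    rw [Set.mem_Iio] at hy ⊢
    omega
  obtain ⟨J₁, hJ₁⟩ := exists_nat_ge (((C : ℝ) + 3) / (x - x'))
  obtain ⟨J₂, hJ₂⟩ := exists_nat_ge ((C₂ : ℝ) / σ)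
  have hκ1 : 0 < η' / K₁ := by positivity
  have hκ2 : 0 < η' / K₁ / K₂ := by positivity
  have hκ3 : 0 < η' / K₁ / K₂ / M := by positivity
  have hκr : (0 : ℝ) < 1 / 2 ^ (2 * (r + 2)) := by positivity
  refine Bas.mono (max J₁ J₂) (((((bas_ev hb1 hη').and (bas_ev hb2 hκ1)).and
    (relvF_of hrel hκr hκ2)).and (bas_ev (two_lab hC₀ htm (κ := c (r + 1)) (some (c r)) hvu hu0 hu
      hful (max D Kn) (η := 1 / 2) (p := p') (x := x₁) (by norm_num) hx₁1) hκ3)).and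
    (Pool.GRW.tmc_bas htm one_pos)) ?_
  rintro J hJ F A ⟨⟨⟨⟨hb1', hb2'⟩, hrl⟩, htw⟩, hA, -⟩ V z z' G hG P₁ V₁ z₁ z₁' G₁ hG₁ hP₁ P₂ V₂ z₂
    z₂' H₂ hH hP₂
  have hJ0 : (0 : ℝ) ≤ J := Nat.cast_nonneg J
  have hJ1 : ((C : ℝ) + 3) ≤ (x - x') * J := by
    have e1 : (J₁ : ℝ) ≤ J := by exact_mod_cast (le_max_left _ _).trans hJ
    have e2 := hJ₁.trans e1
    rw [div_le_iff₀ (by linarith)] at e2
    linarith
  have hJ2 : (C₂ : ℝ) ≤ σ * J := by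
    have e1 : (J₂ : ℝ) ≤ J := by exact_mod_cast (le_max_right _ _).trans hJ
    have e2 := hJ₂.trans e1
    rw [div_le_iff₀ hσ] at e2
    linarith
  have hvJ : ⌊v * (J : ℝ)⌋₊ ≤ J := Nat.floor_le_of_le (by
    have := mul_le_mul_of_nonneg_right (hva.trans ha1) hJ0
    linarith)
  have hwrJ : ⌊wr * (J : ℝ)⌋₊ ≤ ⌊v * (J : ℝ)⌋₊ :=
    Nat.floor_le_floor (mul_le_mul_of_nonneg_right hwr hJ0)
  obtain ⟨q', hq'⟩ : ∃ q' : F.Ω → ℝ, q' = Pool.Agent.H49.Ent.cond F.p A True := ⟨_, rfl⟩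
  by_contra hcon
  rw [not_le] at hcon
  obtain ⟨bd, hbd⟩ : ∃ bd : F.Ω → Prop, bd = fun ω => (2 : ℝ) ^ (x * J) <
        |eval (bt F ω) (pderiv (some (c r)) (G₁ (z₁' (slam F ⌊v * J⌋₊ ω)) -
          G (z' (slam F ⌊wn * J⌋₊ ω))))| := ⟨_, rfl⟩
  rw [← hbd, show Pb (Pool.Agent.H49.Ent.cond F.p A True) bd =
      Pe (Pool.Agent.H49.Ent.cond F.p A True) bd by rw [Pe_eq]; rfl, Pe_cond,
      lt_div_iff₀ hA] at hcon
  obtain ⟨A', hA'⟩ : ∃ A' : F.Ω → Prop, A' = fun ω => A ω ∧ bd ω := ⟨_, rfl⟩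
  rw [← hA'] at hcon
  have hA'A : Sub A' A := fun ω hω => by rw [hA'] at hω; exact hω.1
  -- the balls
  obtain ⟨B₁, g₁, g₁₀, G₁₀, H₁₀, a1, a2, a3, a4, a5, a6, a7⟩ := hb1' A' hA'A hcon.le
  have hPB₁ : η' / K₁ * Pe F.p A ≤ Pe F.p B₁ := by
    rw [div_mul_eq_mul_div, div_le_iff₀ hK₁]
    linarith
  obtain ⟨B₂, g₂, g₂₀, G₂₀, H₂₀, b1, b2, b3, b4, b5, b6, b7⟩ := hb2' B₁
    (fun ω hω => hA'A ω (a1 ω hω)) hPB₁
  have hPB₂ : η' / K₁ / K₂ * Pe F.p A ≤ Pe F.p B₂ := by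
    rw [div_mul_eq_mul_div, div_le_iff₀ hK₂]
    linarith
  have hB₂A : Sub B₂ A := fun ω hω => hA'A ω (a1 ω (b1 ω hω))
  have hB₂0 : 0 < Pe F.p B₂ := lt_of_lt_of_le (mul_pos hκ2 hA) hPB₂
  -- the chain without relations
  have he1 : (⌊e₁ * (J : ℝ)⌋₊ : ℝ) ≤ e₁ * J := Nat.floor_le (mul_nonneg he₁ hJ0)
  have hgr := hgrow (F := F) (β := fun l => β l + (a - v)) (d := d) (e₀ := e₀) (e₁ := e₁) (σ := σ)
    hc1 (fun l hl => by linarith [hdβ l hl]) (fun l hl => a4 l (by omega)) hh hd hσ.le hJ2 he1 hee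
    (a7.sub b1)
  have hR := hrl B₂ _ _ _ hB₂A hPB₂ le_rfl hgr
  -- the row chain
  obtain ⟨gT, T, TH, Gt, Ht, Pr, r1, r2, r3, r4, r5⟩ := (hΨ J F A V z z' G hG).sub hB₂A
  obtain ⟨B₃, k1, k2, k3⟩ := hrow (F := F) (c := c) (a := ⌊a * (J : ℝ)⌋₊) (w := ⌊v * (J : ℝ)⌋₊)
    (wr := ⌊wr * (J : ℝ)⌋₊) (e₁ := ⌊e₀ * (J : ℝ)⌋₊) (e₂ := ⌊e₂ * (J : ℝ)⌋₊)
    (e' := ⌊ew * (J : ℝ)⌋₊) (h := ⌊η * (J : ℝ)⌋₊) (q := g₂ (r + 1)) (P := Pr)
    (g := fun l => ⌊(β l + (a - v) - d l) * (J : ℝ)⌋₊) (g₁ := g₂) (gT := gT)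
    (κ := 1 / 2 ^ (2 * (r + 2))) (κ' := 1) (B₀ := B₂) (B' := B₂)
    (Gl := fun ω => G (z' (slam F ⌊wn * J⌋₊ ω))) (X := 2 ^ (xw * J)) hc1 hR (fun _ h => h)
    (by rw [one_mul]) (by rw [one_div, inv_mul_cancel₀ (by positivity)]) hκr.le hwrJ hvJ hgr
    (b7.mono (by omega) (fun _ => le_rfl) le_rfl le_rfl) (tgt_of b7)
    (r1.mono le_rfl (fun _ => hDw) le_rfl le_rfl) (tgt_up r2 hDw) r5
  have hPB₃ : η' / K₁ / K₂ / M * Pe F.p A ≤ Pe F.p B₃ := by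
    refine le_trans ?_ k2
    rw [div_mul_eq_mul_div, hM]
    exact div_le_div_of_nonneg_right hPB₂ (by positivity)
  have hB₃0 : 0 < Pe F.p B₃ := lt_of_lt_of_le (mul_pos hκ3 hA) hPB₃
  -- two labels
  obtain ⟨V₃, z₃, z₃', G₃, hL₃, hG₃⟩ := lbp_clsH b5 b6 (show r + 1 < r + 1 + 1 by omega)
  obtain ⟨B₄, l1, l2, l3⟩ := htw B₃ (fun ω hω => hB₂A ω (k1 ω hω)) hPB₃ P₁ (g₂₀ (r + 1)) V₁ V₃ z₁
    z₁' G₁ z₃ z₃' G₃
    ((hG₁.mono (Finset.Subset.refl _) (le_max_right _ _) le_rfl).sub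
      fun ω hω => hB₂A ω (k1 ω hω))
    ((hL₃.mono (Finset.Subset.refl _) (le_max_left _ _) le_rfl).sub k1) (by
      have e1 : p' * J ≤ p * J := mul_le_mul_of_nonneg_right hp'2 hJ0
      have e2 : (p + χ) * J = p * J + χ * J := by ring
      have e3 : 0 ≤ χ * J := by positivity
      linarith) (le_trans (mul_le_mul_of_nonneg_right hp'1 hJ0) (b3 (r + 1) le_rfl))
  have hB₄0 : 0 < Pe F.p B₄ := by linarith
  obtain ⟨ω, hω⟩ : ∃ ω, B₄ ω := by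
    by_contra h
    push Not at h
    have h1 : Pe F.p B₄ = 0 := by
      rw [Pe_eq]
      exact Finset.sum_eq_zero fun ω _ => if_neg (h ω)
    linarith
  have hω3 := l1 ω hω
  have hω2 := k1 ω hω3
  have hωA' : A' ω := a1 ω (b1 ω hω2)
  have hbdω : bd ω := by
    rw [hA'] at hωA'
    exact hωA'.2
  rw [hbd] at hbdω
  have hl := l3 ω hω
  rw [hG₃] at hl
  have hk := k3 ω hω3
  -- the derivative of the closed label
  have hcl2 : G₂₀ (ptr F J ω) (r + 1) = H₂₀ (slam F ⌊v * J⌋₊ ω) (r + 1) :=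
    b6 ω hω2 (r + 1) (by omega)
  have e1 : eval (bt F ω) (pderiv (some (c r)) (G₁ (z₁' (slam F ⌊v * J⌋₊ ω)) -
      G (z' (slam F ⌊wn * J⌋₊ ω)))) =
      eval (bt F ω) (pderiv (some (c r)) (G₁ (z₁' (slam F ⌊v * J⌋₊ ω)) -
        H₂₀ (slam F ⌊v * J⌋₊ ω) (r + 1))) +
      eval (bt F ω) (pderiv (some (c r)) (Gno (c (r + 1)) J J (fun y => G₂₀ y (r + 1))
        (ptr F J ω) - G (z' (slam F ⌊wn * J⌋₊ ω)))) := by
    rw [map_sub, map_sub, map_sub, map_sub, map_sub, map_sub, Pool.CR99.pd_Gno, hcl2]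
    ring
  rw [e1] at hbdω
  -- the numbers
  have h2 : (0 : ℝ) < 2 := by norm_num
  have fη : (⌊η * (J : ℝ)⌋₊ : ℝ) ≤ η * J := Nat.floor_le (mul_nonneg hη.le hJ0)
  have fg : (⌊(β r + (a - v) - d r) * (J : ℝ)⌋₊ : ℝ) ≤ (β r + (a - v)) * J := by
    have h1 := hdβ r (by omega)
    have h3 := hd r (by omega)
    refine (Nat.floor_le (mul_nonneg (by linarith) hJ0)).trans
      (mul_le_mul_of_nonneg_right (by linarith) hJ0)
  have hC0 : (0 : ℝ) ≤ C := Nat.cast_nonneg C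
  have hCη : (C : ℝ) * ⌊η * (J : ℝ)⌋₊ ≤ C * (η * J) := mul_le_mul_of_nonneg_left fη hC0
  obtain ⟨Y, hY⟩ : ∃ Y : ℝ, Y = (2 : ℝ) ^ (x' * J + C) := ⟨_, rfl⟩
  have hY0 : 0 < Y := by rw [hY]; positivity
  have hyJ : ∀ {s : ℝ}, s ≤ x' → s * J ≤ x' * J := fun h => mul_le_mul_of_nonneg_right h hJ0
  have q1 : (2 : ℝ) ^ (C * (⌊η * (J : ℝ)⌋₊ + 1) + ⌊(β r + (a - v) - d r) * (J : ℝ)⌋₊) *
      (1 / 2 ^ g₂ (r + 1)) ≤ Y := by
    rw [hY]
    refine rp_of ?_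
    have h3 := (b4 (r + 1) le_rfl).1
    have h4 := hyJ y2
    push_cast
    linarith
  have q2 : (2 : ℝ) ^ (C * (⌊η * (J : ℝ)⌋₊ + 1) + ⌊(β r + (a - v) - d r) * (J : ℝ)⌋₊) *
      (1 / 2 ^ Pr) ≤ Y := by
    rw [hY]
    refine rp_of ?_
    have h4 := hyJ y3
    push_cast
    linarith
  have q3 : (2 : ℝ) ^ (C + gT r) / 2 ^ Pr ≤ Y := by
    rw [div_eq_mul_one_div, hY]
    refine rp_of ?_
    have h4 := hyJ y4
    push_cast
    linarith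
  have q4 : (2 : ℝ) ^ (xw * J) ≤ Y := by
    rw [hY]
    refine Real.rpow_le_rpow_of_exponent_le (by norm_num) ?_
    linarith [hyJ y5]
  have q5 : (2 : ℝ) ^ (x₁ * J) ≤ Y := by
    rw [hY]
    refine Real.rpow_le_rpow_of_exponent_le (by norm_num) ?_
    linarith [hyJ y1]
  have q6 : 5 * Y ≤ (2 : ℝ) ^ (x * J) := by
    have e2 : (2 : ℝ) ^ (x' * J + C + 3) = Y * 8 := by
      rw [Real.rpow_add h2, hY]
      norm_num
    have e3 : (2 : ℝ) ^ (x' * J + C + 3) ≤ 2 ^ (x * J) :=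
      Real.rpow_le_rpow_of_exponent_le (by norm_num) (by linarith)
    rw [e2] at e3
    linarith
  have h3 := abs_add_le (eval (bt F ω) (pderiv (some (c r)) (G₁ (z₁' (slam F ⌊v * J⌋₊ ω)) -
        H₂₀ (slam F ⌊v * J⌋₊ ω) (r + 1))))
      (eval (bt F ω) (pderiv (some (c r)) (Gno (c (r + 1)) J J (fun y => G₂₀ y (r + 1))
        (ptr F J ω) - G (z' (slam F ⌊wn * J⌋₊ ω)))))
  rw [mul_add] at hk
  linarith

end Pool.STV90
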