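import Pool.Agent.H90.STV.Rwe
import Pool.Agent.H73.D2.Tvh

/-!
# Blindness at a fine window of a record, from a row chain

`RelvUS`: no relation in a class, uniform form (statement). `rwe_rec`: at a record, all labels of the
target at a window of the second list are near the labels of a family with row chains of an earlier
window.
-/

set_option autoImplicit false

namespace Pool.STV90

open Finset Real MvPolynomial
open Pool.Agent.H49.Ent Pool.Agent.H32.Dense Pool.STK Pool.KA Pool.KSAT Pool.K2S Pool.PB Pool.S6C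
open Pool.GEN Pool.CHT Pool.CHX Pool.ISO Pool.D2R Pool.NVX Pool.CR99 Pool.PKG Pool.LA91
open Pool.GRD (LbP)
open Pool.ALT (Fml BlB)
open Pool.LBT (ThrOf)

/-- **No relation in a class, from approximate thresholds**, with uniform losses. -/
def RelvUS : Prop := ∀ (r D : ℕ) (K : ℕ → ℕ) {V₀ τ η : ℝ} (_ : 0 ≤ V₀) (_ : 0 < τ) (_ : 0 < η),
    ∃ (φ : ℕ → ℝ) (s₀ : ℝ), (∀ l, 0 < φ l ∧ φ l ≤ τ) ∧
    (∀ l < r, ∑ j ∈ range l, φ j * ((K l * dgp K j l : ℕ) : ℝ) ≤ φ l / 2) ∧ 0 < s₀ ∧ s₀ ≤ τ ∧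
    ∀ {m : ℕ} {S : PCl m} {P : List (Fin m) × Fin m → ℝ → ℝ → ℝ} {θ : ℝ} {c : ℕ → Fin m}
      {a w vs e₀ q : ℝ} {β : ℕ → ℝ}, ThrOf (chsys m θ) S P → 0 < θ → TmH S →
      Set.InjOn c (Set.Iio r) → 0 < q → τ * q ≤ w → w ≤ a → a + τ * q ≤ 1 →
      (∀ l < r, a ≤ β l) →
      (∀ l < r, ∀ o : ℝ, s₀ * q ≤ o → o ≤ τ * q →
        bet P c l (a + o) (w + o) ≤ β l + V₀ * o + s₀ * q) →
      (∀ l < r, β l + θ * w + τ * q ≤ 1) → 0 ≤ vs → (∀ i < r, ∀ l < i, β l ≤ β i + vs) →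
      0 ≤ e₀ → e₀ + 2 * vs + τ * q ≤ θ * w → ∀ η' : ℝ, 0 < η' →
      Bas S (RelvS c r K β (fun l => φ l * q) a w e₀ D (η * q) η')

/-- **Blindness at a fine window of a record, from a row chain.** -/
theorem rwe_rec (hU : RelvUS) (r S₀ : ℕ) (hr : 1 ≤ r) (hS₀ : 1 ≤ S₀) (Dw : ℕ) {α τ : ℝ}
    (hα : 1 ≤ α) (hτ : 0 < τ) (hτ1 : τ ≤ 1 / 4) : ∃ ε₀ : ℝ, 0 < ε₀ ∧
    ∀ {S : PCl (r + 2)} {al : ℝ} {g₀ : ℝ → ℝ}
    {P : List (Fin (r + 2)) × Fin (r + 2) → ℝ → ℝ → ℝ} {θ : ℝ}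
    {P₂ : ℕ → List (Fin (r + 2)) × Fin (r + 2) → ℝ → ℝ → ℝ} {θ₂ Eb e₂ : ℕ → ℝ}
    {c : ℕ → Fin (r + 2)} {Pt : ℝ → ℝ → ℝ} {rt : ℝ → ℝ} {h K₀ g : ℝ} {L T : ℕ → ℝ → ℝ → ℝ}
    {Sl : ℕ → ℝ} {κ : ℕ → Kg} {G : Set ℝ} {N : ℕ} {A V : ℕ → ℝ} {S₂ N' : ℕ} {V' : ℕ → ℝ}
    {K ε q t : ℝ}
    (_ : RecG S al g₀ P θ P₂ θ₂ Eb e₂ c Pt rt h K₀ g L T Sl κ G S₀ N A V S₂ N' V' K ε q t)
    (_ : ∀ l ≤ r, (κ l = .one ∨ κ l = .thin) ∧ Sl l ≤ α) (_ : 0 ≤ ε) (_ : ε ≤ ε₀)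
    {k j : ℕ} (_ : k < N') (_ : j < N') (_ : |V' k| + 1 ≤ K) (_ : |V' j| ≤ K) {Ar : ℝ}
    (_ : V' k < Ar) (_ : Ar + 1 ≤ K) (_ : Ar + τ ≤ V' j)
    (_ : ∀ i ≤ r, ∀ l < i, L l (t + V' k * q) (t + V' k * q) ≤
      L i (t + V' k * q) (t + V' k * q) + τ * q)
    (_ : Pool.TOP.Ful S ((range (r + 1)).image c) (t + V' k * q)
      (L r (t + V' k * q) (t + V' k * q)))
    {wn wr p p₂ x ew gu pw xw : ℝ} {Kn Ku : ℕ} {Ψ : Fml (r + 2)} (_ : wr ≤ t + V' k * q)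
    (_ : 0 ≤ p) (_ : L r (t + V' k * q) (t + V' k * q) - p < x)
    (_ : L r (t + V' k * q) (t + V' k * q) - L (r + 1) (t + V' k * q) (t + V' k * q) + τ * q < x)
    (_ : L r (t + V' k * q) (t + V' k * q) + (Ar - V' k) * q + τ * q - pw < x)
    (_ : gu - pw < x) (_ : xw < x)
    (_ : ∀ (J : ℕ) (F : Fam (r + 2) J) (A : F.Ω → Prop) (V : Type) (z : PtT F → V)
      (z' : LnT F → V) (G : V → MvPolynomial (Option (Fin (r + 2))) ℝ), Ψ J F A V z z' G →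
      RwE c r Dw (t + Ar * q) wr ew gu pw xw wn J F A V z' G),
    BlB S c r (c (r + 1)) wn (t + V' k * q) Kn Ku p p₂ x Ψ := by
  obtain ⟨D₁, hD₁, hb1⟩ := rcb_rec (r + 2) r S₀ hr hS₀
  obtain ⟨D₂, hD₂, hb2⟩ := rcb_rec (r + 2) (r + 1) S₀ (by omega) hS₀
  obtain ⟨D, hD⟩ : ∃ D, D = max Dw (max D₁ D₂) := ⟨_, rfl⟩
  have hDw : Dw ≤ D := by rw [hD]; exact le_max_left _ _
  have hDD1 : D₁ ≤ D := by rw [hD]; exact (le_max_left _ _).trans (le_max_right _ _)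
  have hDD2 : D₂ ≤ D := by rw [hD]; exact (le_max_right _ _).trans (le_max_right _ _)
  obtain ⟨C, hcls⟩ := rw_blB r D (hD₁.trans hDD1)
  have hC0 : (0 : ℝ) ≤ C := Nat.cast_nonneg C
  have hr0 : (0 : ℝ) ≤ r := Nat.cast_nonneg r
  obtain ⟨τ₁, hτ₁⟩ : ∃ τ₁ : ℝ, τ₁ = τ / (8 * (r + 2)) := ⟨_, rfl⟩
  have hτ₁0 : 0 < τ₁ := by rw [hτ₁]; positivity
  have hτ₁r : 8 * ((r : ℝ) + 2) * τ₁ = τ := by rw [hτ₁]; field_simp
  have hτ₁s : 16 * τ₁ ≤ τ := by nlinarith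
  have hτ₁r' : ((r : ℝ) + 1) * τ₁ ≤ τ / 8 := by nlinarith
  obtain ⟨η, hη⟩ : ∃ η : ℝ, η = τ / (4 * (C + 1)) := ⟨_, rfl⟩
  have hη0 : 0 < η := by rw [hη]; positivity
  have hCη : C * η ≤ τ / 4 := by
    rw [hη, mul_div_assoc', div_le_div_iff₀ (by positivity) (by norm_num)]
    nlinarith
  obtain ⟨φ, s₀, hφ, hφh, hs₀, hs₀τ, hrel⟩ := hU (r + 1) D (fun _ => D) (V₀ := α) (τ := τ₁)
    (η := η) (by linarith) hτ₁0 hη0
  obtain ⟨φm, hφm, hφml⟩ := fin_pos (r + 1) (f := φ) fun l _ => (hφ l).1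
  obtain ⟨s, hs⟩ : ∃ s : ℝ, s = φm / 8 := ⟨_, rfl⟩
  have hs0 : 0 < s := by rw [hs]; positivity
  have hsφ : ∀ l < r + 1, 8 * s ≤ φ l := fun l hl => by
    rw [hs]
    linarith [hφml l hl]
  have hsτ : 8 * s ≤ τ₁ := (hsφ 0 (by omega)).trans (hφ 0).2
  refine ⟨s₀ / 4, by positivity, ?_⟩
  intro S al g₀ P θ P₂ θ₂ Eb e₂ c Pt rt h K₀ g L T Sl κ G N A V S₂ N' V' K ε q t R hκ hε hεs k j hk
    hj hVk hVj Ar hVA hAK hAj hsrt hful wn wr p p₂ x ew gu pw xw Kn Ku Ψ hwr hp hx2 hx3 hx4 hx5 hx6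
    hΨ
  have hq := R.q0
  have W := R.tg r hr (by omega)
  obtain ⟨v, hv⟩ : ∃ v, v = t + V' k * q := ⟨_, rfl⟩
  obtain ⟨a, ha⟩ : ∃ a, a = t + Ar * q := ⟨_, rfl⟩
  obtain ⟨w₂, hw₂⟩ : ∃ w₂, w₂ = t + V' j * q := ⟨_, rfl⟩
  have hVk' := abs_le.1 (show |V' k| ≤ K - 1 by linarith)
  have hK1 : 1 ≤ K := by
    have := abs_nonneg (V' k)
    linarith
  have hKq : q ≤ K * q := le_mul_of_one_le_left hq.le hK1
  have m1 : V' k * q ≤ (K - 1) * q := mul_le_mul_of_nonneg_right hVk'.2 hq.le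
  have m2 : -(K - 1) * q ≤ V' k * q := mul_le_mul_of_nonneg_right hVk'.1 hq.le
  have m3 : Ar * q ≤ (K - 1) * q := mul_le_mul_of_nonneg_right (by linarith) hq.le
  have m4 : V' k * q < Ar * q := mul_lt_mul_of_pos_right hVA hq
  have m5 : (Ar + τ) * q ≤ V' j * q := mul_le_mul_of_nonneg_right hAj hq.le
  have hvx : |v - t| ≤ K * q := by
    rw [hv, add_sub_cancel_left, abs_le]
    constructor <;> linarith
  have hw₂x : |w₂ - t| ≤ K * q := by
    rw [hw₂, add_sub_cancel_left, abs_mul, abs_of_pos hq]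
    exact mul_le_mul_of_nonneg_right hVj hq.le
  have hw₂x' := abs_le.1 hw₂x
  have hτq : 0 < τ * q := mul_pos hτ hq
  have hτ₁q : 0 < τ₁ * q := mul_pos hτ₁0 hq
  have hτ₁q' : 16 * (τ₁ * q) ≤ τ * q := by
    have := mul_le_mul_of_nonneg_right hτ₁s hq.le
    linarith
  have hτq4 : τ * q ≤ q / 4 := by
    have := mul_le_mul_of_nonneg_right hτ1 hq.le
    linarith
  have hsq : 0 < s * q := mul_pos hs0 hq
  have hsq' : 8 * (s * q) ≤ τ₁ * q := by
    have := mul_le_mul_of_nonneg_right hsτ hq.le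
    linarith
  have hεq : 0 ≤ ε * q := mul_nonneg hε hq.le
  have hεq' : 4 * (ε * q) ≤ s₀ * q := by
    have := mul_le_mul_of_nonneg_right hεs hq.le
    linarith
  have hs₀q : s₀ * q ≤ τ₁ * q := mul_le_mul_of_nonneg_right hs₀τ hq.le
  have hv0 : q < v := by
    rw [hv]
    have := R.t0
    linarith
  have hva : v < a := by rw [hv, ha]; linarith
  have haq : a + τ * q ≤ w₂ := by rw [ha, hw₂]; linarith
  have ha1 : a + q ≤ t + K * q := by rw [ha]; linarith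
  have hw₂1 : w₂ ≤ t + K * q := by linarith
  have ht1 := R.t1
  rw [← hv] at hsrt hful hwr hx2 hx3 hx4 ⊢
  rw [← ha] at hΨ
  have hAv : (Ar - V' k) * q = a - v := by rw [ha, hv]; ring
  rw [hAv] at hx4
  -- the levels
  have hdL : ∀ l ≤ r, ∀ y : ℝ, |y - t| ≤ K * q →
      |L l y y - L l t t - Sl l * (y - t)| ≤ ε * q := fun l hl y hy => R.dL l (by omega) y hy
  have hlow : ∀ l ≤ r, v ≤ L l v v := fun l hl => by
    rw [R.lv_lt (by omega)]
    exact R.thr.low _ _ _ (by linarith) le_rfl (by linarith)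
  have hSl1 : ∀ l ≤ r, 1 ≤ Sl l := fun l hl => by
    have h1 := R.kd l (by omega)
    rcases (hκ l hl).1 with h2 | h2
    · rw [h2] at h1
      exact le_of_eq (show (1 : ℝ) = Sl l from (show Sl l = 1 from h1).symm)
    · rw [h2] at h1
      exact h1.1.le
  have hgrow : ∀ l < r + 1, ∀ o : ℝ, s₀ * q ≤ o → o ≤ τ₁ * q →
      bet P c l (a + o) (v + o) ≤ L l v v + (a - v) + α * o + s₀ * q := by
    intro l hl o ho1 ho2
    have hlr : l ≤ r := by omega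
    rw [← R.lv_lt (l := l) (by omega)]
    have ho0 : 0 < o := lt_of_lt_of_le (mul_pos hs₀ hq) ho1
    have hqo : o ≤ q := by linarith
    have h1 := R.kd l (by omega)
    have h3 := abs_le.1 (hdL l hlr v hvx)
    have h4 : Sl l * o ≤ α * o := mul_le_mul_of_nonneg_right (hκ l hlr).2 ho0.le
    rcases (hκ l hlr).1 with h2 | h2
    · rw [h2] at h1
      have h5 : Sl l = 1 := h1
      have h6 := (R.lawL l (by omega)).mono_w (a + o) (v + o) (a + o) (by linarith) (by linarith)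
        le_rfl (by linarith)
      have hax : |a + o - t| ≤ K * q := by
        rw [abs_le]
        have := R.t0
        rw [hv] at hva
        constructor <;> linarith
      have h7 := abs_le.1 (hdL l hlr (a + o) hax)
      rw [h5] at h3 h7 h4
      linarith
    · rw [h2] at h1
      have hvx' := abs_le.1 hvx
      have h6 := h1.2 (a + o) (v + o) (by linarith) (by linarith) (by linarith)
      have hvo : |v + o - t| ≤ K * q := by
        rw [abs_le]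
        constructor <;> linarith
      have h7 := abs_le.1 (R.dT l (by omega) (v + o) hvo)
      have e1 : Sl l * (v + o - t) = Sl l * (v - t) + Sl l * o := by ring
      rw [e1] at h7
      linarith
  -- the visibility
  have hvis : ∀ l < r + 1, L l v v + (a - v) + θ * v + τ₁ * q ≤ 1 := by
    intro l hl
    have hlr : l ≤ r := by omega
    obtain ⟨ρ, vs, e₁, e₀, E, sg, Q, k1, -, -⟩ := (R.tg (r + 1) (by omega) (by omega)).ptc j hj
    have h1 := k1.self.pts.vis 0 one_pos l hl l le_rfl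
    rw [tau_self] at h1
    rw [← R.lv_lt (l := l) (by omega), ← hw₂] at h1
    have h2 := abs_le.1 (hdL l hlr v hvx)
    have h3 := abs_le.1 (hdL l hlr w₂ hw₂x)
    have h4 : θ * v ≤ θ * w₂ := mul_le_mul_of_nonneg_left (by linarith) R.th0.le
    have h5 : 1 * (w₂ - v) ≤ Sl l * (w₂ - v) :=
      mul_le_mul_of_nonneg_right (hSl1 l hlr) (by linarith)
    have e1 : Sl l * (w₂ - t) = Sl l * (v - t) + Sl l * (w₂ - v) := by ring
    rw [e1] at h3
    linarith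
  -- the sum of the losses
  have hsum : ∑ l ∈ range (r + 1), φ l * q ≤ τ / 8 * q := by
    rw [← Finset.sum_mul]
    refine mul_le_mul_of_nonneg_right ?_ hq.le
    refine (Finset.sum_le_card_nsmul _ _ τ₁ fun l _ => (hφ l).2).trans ?_
    rw [card_range, nsmul_eq_mul]
    push_cast
    exact hτ₁r'
  have hsum0 : 0 ≤ ∑ l ∈ range (r + 1), φ l * q :=
    Finset.sum_nonneg fun l _ => mul_nonneg (hφ l).1.le hq.le
  -- the exponents
  obtain ⟨e₀, he₀⟩ : ∃ e₀ : ℝ, e₀ = Eb r + s * q + ∑ l ∈ range (r + 1), φ l * q + s * q :=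
    ⟨_, rfl⟩
  have hEb0 := W.Eb0
  have hθv : e₀ + 2 * (τ * q) + τ₁ * q ≤ θ * v := by
    have h1 := W.Ebe
    have h2 := W.eθ v hvx
    rw [(R.tgl r hr (by omega)).2] at h2
    rw [he₀]
    linarith
  -- no relation
  have hR := hrel (S := S) (P := P) (θ := θ) (c := c) (a := a) (w := v) (vs := τ * q) (e₀ := e₀)
    (q := q) (β := fun l => L l v v + (a - v)) R.thr R.th0 R.tmh (R.inj.mono fun y hy => by
      rw [Set.mem_Iio] at hy ⊢
      omega) hq (by linarith) hva.le (by linarith) (fun l hl => by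
      have := hlow l (by omega)
      linarith) hgrow hvis hτq.le (fun i hi l hl => by
      have := hsrt i (by omega) l hl
      linarith) (by
      rw [he₀]
      linarith) hθv (1 / 2) (by norm_num)
  -- the balls
  obtain ⟨K₁, hK₁, hB1⟩ := hb1 R (by omega) k hk (by linarith) a (by rw [← hv]; exact hva)
    (by linarith) (s * q) hsq
  obtain ⟨K₂, hK₂, hB2⟩ := hb2 R (by omega) k hk (by linarith) a (by rw [← hv]; exact hva)
    (by linarith) (s * q) hsq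
  rw [← hv] at hB1 hB2
  have hroom := W.room r le_rfl v hvx
  refine hcls (Dw := Dw) (Kn := Kn) (Ku := Ku) (e₀ := e₀) (e₁ := Eb r + s * q)
    (e₂ := Eb (r + 1) + s * q) (σ := s * q) (η := η * q) (K₁ := K₁) (K₂ := K₂) (u := L r v v)
    (β := fun l => L l v v) (d := fun l => φ l * q) (gu := gu) (pw := pw) (xw := xw) (ew := ew)
    (by norm_num) R.tmc R.inj hwr (by linarith) hva.le (by linarith) hsq (mul_pos hη0 hq) hK₁ hK₂
    hDw hR (Bas.mono 0 hB1 fun J _ F A h => h.up hDD1) (Bas.mono 0 hB2 fun J _ F A h => h.up hDD2)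
    (fun l hl => ?_) (fun l hl => ?_) (fun l hl => ?_) (by linarith) (by rw [he₀]) hful
    (hlow r le_rfl) (by
      have := hlow r le_rfl
      linarith) (by
      have : 0 ≤ K * q := by linarith
      linarith) hp ?_ hx2 ?_ ?_ hx5 hx6 hΨ
  · have h1 := mul_le_mul_of_nonneg_right (hφh l hl) hq.le
    rw [Finset.sum_mul] at h1
    refine le_trans (le_of_eq ?_) (h1.trans (le_of_eq (by ring)))
    refine Finset.sum_congr rfl fun j _ => by ring
  · have h1 := mul_le_mul_of_nonneg_right (hsφ l hl) hq.le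
    linarith
  · have h1 := mul_le_mul_of_nonneg_right (hφ l).2 hq.le
    have h2 := hlow l (by omega)
    linarith
  · linarith
  · have h1 := mul_le_mul_of_nonneg_right hCη hq.le
    linarith
  · have h1 := mul_le_mul_of_nonneg_right hCη hq.le
    linarith

end Pool.STV90
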