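import Pool.Agent.H90.STV.Rwf

/-!
# One more window for the closed slope

`blxr_add`: a closed slope with a row chain, blind at the window `v`, is near a label of `v` on a part
of every event.
-/

set_option autoImplicit false

namespace Pool.STV90

open Finset Real MvPolynomial
open Pool.Agent.H49.Ent Pool.Agent.H32.Dense Pool.STK Pool.KA Pool.KSAT Pool.K2S Pool.PB Pool.S6C
open Pool.GEN Pool.CHT Pool.CHX Pool.ISO Pool.D2R Pool.NVX Pool.CR99 Pool.PKG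
open Pool.GRD (LbP)
open Pool.ALT (Fml BlB)
open Pool.BFL (Pb)

variable {m : ℕ}

/-- **One more window** for a closed slope with a row chain. -/
theorem blxr_add {S : PCl m} {C₀ : ℝ} (htm : TmC S C₀) {c : ℕ → Fin m} {r K K₁ : ℕ} {w P : ℝ}
    {n : ℕ} {v' p₁ x₀ : ℕ → ℝ} {D : ℕ} {a vr e gu pw xw κ v p p₂ x χ K₀ : ℝ} (hκ : 0 < κ)
    (hK₀ : 0 < K₀) (hχ : 0 < χ) (h : BlXr S c r K K₁ w P n v' p₁ x₀ D a vr e gu pw xw κ)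
    {K₂ : ℕ} (hB : BlB S c r (c (r + 1)) w v K₂ K₂ p p₂ x
      (fun J F A _ _ z' G => RwE c r D a vr e gu pw xw w J F A _ z' G))
    (hl : Bas S (fun J F A => ∃ B : F.Ω → Prop, Sub B A ∧ Pe F.p A ≤ K₀ * Pe F.p B ∧
      (∃ (V₁ : Type) (z₁ : PtT F → V₁) (z₁' : LnT F → V₁)
        (G₁ : V₁ → MvPolynomial (Option (Fin m)) ℝ) (P₁ : ℕ),
        LbP F ((range (r + 1)).image c) (c (r + 1)) K₂ J ⌊v * J⌋₊ P₁ B z₁ z₁' G₁ ∧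
        (p + χ) * J ≤ P₁) ∧
      ∃ (V₁ : Type) (z₁ : PtT F → V₁) (z₁' : LnT F → V₁)
        (G₁ : V₁ → MvPolynomial (Option (Fin m)) ℝ) (P₁ : ℕ),
        LbP F ((range r).image c) (c r) K₂ J ⌊v * J⌋₊ P₁ B z₁ z₁' G₁ ∧
        (p₂ + χ) * J ≤ P₁)) :
    BlXr S c r K K₂ w P 1 (fun _ => v) (fun _ => p) (fun _ => x) D a vr e gu pw xw
      (2 * (κ * K₀)) := by
  classical
  refine Bas.mono 0 (((h.and (bas_ev hl (κ := 1 / κ) (by positivity))).and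
    (bas_ev (hB (1 / 2) χ (by norm_num) hχ) (κ := 1 / (κ * K₀)) (by positivity))).and
    (Pool.GRW.tmc_bas htm one_pos)) ?_
  rintro J - F A ⟨⟨⟨⟨B, b1, b2, V, z, z', G, P', l1, l2, -, l4⟩, hl'⟩, hB'⟩, hA, -⟩
  have hPB : 1 / κ * Pe F.p A ≤ Pe F.p B := by
    rw [one_div, inv_mul_le_iff₀ hκ]
    exact b2
  obtain ⟨B₁, c1, c2, ⟨V₁, z₁, z₁', G₁, P₁, d1, d2⟩, V₂, z₂, z₂', G₂, P₂, d3, d4⟩ := hl' B b1 hPB
  have hPB₁ : 1 / (κ * K₀) * Pe F.p A ≤ Pe F.p B₁ := by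
    rw [one_div, inv_mul_le_iff₀ (by positivity)]
    calc Pe F.p A ≤ κ * Pe F.p B := b2
      _ ≤ κ * (K₀ * Pe F.p B₁) := mul_le_mul_of_nonneg_left c2 hκ.le
      _ = _ := by ring
  have hB₁A : Sub B₁ A := fun ω hω => b1 ω (c1 ω hω)
  have hB₁0 : 0 < Pe F.p B₁ := lt_of_lt_of_le (by positivity) hPB₁
  have hR := l4.sub c1
  have h1 := hB' B₁ hB₁A hPB₁ V z z' G hR P₁ V₁ z₁ z₁' G₁ d1 d2 P₂ V₂ z₂ z₂' G₂ d3 d4
  obtain ⟨bd, hbd⟩ : ∃ bd : F.Ω → Prop, bd = fun ω => (2 : ℝ) ^ (x * J) <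
        |eval (bt F ω) (pderiv (some (c r)) (G₁ (z₁' (slam F ⌊v * J⌋₊ ω)) -
          G (z' (slam F ⌊w * J⌋₊ ω))))| := ⟨_, rfl⟩
  rw [← hbd, show Pb (Pool.Agent.H49.Ent.cond F.p B₁ True) bd =
      Pe (Pool.Agent.H49.Ent.cond F.p B₁ True) bd by rw [Pe_eq]; rfl, Pe_cond,
      div_le_iff₀ hB₁0] at h1
  obtain ⟨B₂, hB₂⟩ : ∃ B₂ : F.Ω → Prop, B₂ = fun ω => B₁ ω ∧ ¬ bd ω := ⟨_, rfl⟩
  have hB₂1 : Sub B₂ B₁ := fun ω hω => by rw [hB₂] at hω; exact hω.1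
  have hsp := pe_split F.p (A := B₁) (B := fun ω => B₁ ω ∧ bd ω) fun ω hω => hω.1
  have h2 : Pe F.p (fun ω => B₁ ω ∧ ¬ (B₁ ω ∧ bd ω)) = Pe F.p B₂ := by
    rw [hB₂]
    congr 1
    funext ω
    exact propext ⟨fun h => ⟨h.1, fun h' => h.2 ⟨h.1, h'⟩⟩, fun h => ⟨h.1, fun h' => h.2 h'.2⟩⟩
  rw [h2] at hsp
  have h3 : Pe F.p B₁ ≤ 2 * Pe F.p B₂ := by linarith
  refine ⟨B₂, fun ω hω => hB₁A ω (hB₂1 ω hω), ?_, V, z, z', G, P',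
    l1.sub fun ω hω => c1 ω (hB₂1 ω hω), l2, fun k _ => ⟨V₁, z₁, z₁', G₁, P₁, d1.sub hB₂1, ?_,
      fun ω hω => ?_⟩, hR.sub hB₂1⟩
  · calc Pe F.p A ≤ κ * Pe F.p B := b2
      _ ≤ κ * (K₀ * Pe F.p B₁) := mul_le_mul_of_nonneg_left c2 hκ.le
      _ = κ * K₀ * Pe F.p B₁ := by ring
      _ ≤ κ * K₀ * (2 * Pe F.p B₂) := mul_le_mul_of_nonneg_left h3 (by positivity)
      _ = _ := by ring
  · refine le_trans (mul_le_mul_of_nonneg_right ?_ (Nat.cast_nonneg J)) d2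
    linarith
  · rw [hB₂] at hω
    have h4 := hω.2
    rw [hbd] at h4
    exact not_lt.1 h4

end Pool.STV90
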