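import Pool.Agent.H90.STV.Rwg
import Pool.Agent.H43.STV.Rlu

/-!
# `RelvUS` is a theorem

From helper43's `relvU`.
-/

set_option autoImplicit false

namespace Pool.STV90

theorem relvUS : RelvUS := fun r D K _ _ _ hV hτ hη => relvU r D K hV hτ hη

end Pool.STV90
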