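import Pool.Agent.H90.STV.Tnp

/-!
# The thin parts of full rate of the first sheet, from the two parts still to be typed

`TAint`: the slope of the target is an integer less than `a + 1`. `TAfar`: the slope of the target is
at least `a + 1`. `tA_of`: the fields `tA1`, `tA2`, `tA3` of `ShA`.
-/

set_option autoImplicit false

namespace Pool.ASM

open Pool.GEN Pool.PKG Pool.ALT Pool.LA91

/-- **The target has an integer slope less than `a + 1`**, full rate. -/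
def TAint (Adm : (ℕ → ℝ) → AltJ → PropW 4) (β : (ℕ → ℝ) → ℝ) : Prop :=
  PartV (kg4 .one .one .thin .sta)
    (fun Sl => NAt Sl ∧ (∃ b : ℕ, Sl 3 = b) ∧ Sl 3 < Sl 2 + 1) Adm β

/-- **The target has a slope of at least `a + 1`**, full rate. -/
def TAfar (Adm : (ℕ → ℝ) → AltJ → PropW 4) (β : (ℕ → ℝ) → ℝ) : Prop :=
  PartV (kg4 .one .one .thin .sta) (fun Sl => NAt Sl ∧ Sl 2 + 1 ≤ Sl 3) Adm β

variable {Adm : (ℕ → ℝ) → AltJ → PropW 4} {β : (ℕ → ℝ) → ℝ}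

theorem PartV.mono' {κ : ℕ → Kg} {Φ Ψ : (ℕ → ℝ) → Prop} (H : PartV κ Φ Adm β)
    (h : ∀ Sl, Ψ Sl → Φ Sl) : PartV κ Ψ Adm β := by
  obtain ⟨ι, hc, Q, hQ, hh, H⟩ := H
  exact ⟨ι, hc, Q, hQ, hh, fun h₁ h0 h1 Sl hS => H h₁ h0 h1 Sl (h Sl hS)⟩

/-- **All slopes less than `a + 1`**, from the integer ones. -/
theorem tA_near (HI : TAint Adm β) :
    PartV (kg4 .one .one .thin .sta) (fun Sl => NAt Sl ∧ Sl 3 < Sl 2 + 1) Adm β := by
  refine HI.num (tni_V (Adm := Adm) (β := β)) fun Sl hS => ?_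
  by_cases hb : ∃ b : ℕ, Sl 3 = b
  · exact Or.inl ⟨hS.1, hb, hS.2⟩
  · exact Or.inr ⟨hS.1.2.1, fun b e => hb ⟨b, e⟩, hS.2⟩

/-- **The fields `tA1`, `tA2`, `tA3` of `ShA`**, from the integer slopes and the far slopes. -/
theorem tA_of (HI : TAint Adm β) (HF : TAfar Adm β) :
    PartV (kg4 .one .one .thin .sta) (fun Sl => NAt Sl ∧ Sl 2 < Sl 3) Adm β ∧
    PartV (kg4 .one .one .thin .sta) (fun Sl => NAt Sl ∧ Sl 2 = Sl 3) Adm β ∧
    PartV (kg4 .one .one .thin .sta) (fun Sl => NAt Sl ∧ Sl 3 < Sl 2) Adm β := by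
  refine ⟨(tA_near HI).num HF fun Sl hS => ?_, (tA_near HI).mono' fun Sl hS => ⟨hS.1, ?_⟩,
    (tA_near HI).mono' fun Sl hS => ⟨hS.1, ?_⟩⟩
  · rcases lt_or_ge (Sl 3) (Sl 2 + 1) with h | h
    · exact Or.inl ⟨hS.1, h⟩
    · exact Or.inr ⟨hS.1, h⟩
  · rw [hS.2]; linarith
  · linarith [hS.2]

end Pool.ASM
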