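import Pool.Agent.H90.STV.Jnc
import Pool.Agent.H73.D2.Tvj

/-!
# The family of a virtual static target at all records, from a near dead third place

`vst_of`: `F1US → VsT`.
-/

set_option autoImplicit false

namespace Pool.STV90

open Finset Real MvPolynomial
open Pool.Agent.H49.Ent Pool.Agent.H32.Dense Pool.STK Pool.KA Pool.KSAT Pool.K2S Pool.PB Pool.S6C
  Pool.GEN Pool.RCD Pool.LA91 Pool.OWN68 Pool.PKG Pool.ALT
open Pool.CHT Pool.CHX Pool.ISO Pool.D2R Pool.D2G30 Pool.V1E Pool.CR99 Pool.GRW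
open Pool.GRD (LbP)
open Pool.AJW (jfV jfV_mem)
open Pool.V0F (LbU ChUQ AttUQ)

/-- A closed slope with a row chain for some of the windows, with larger degrees. -/
theorem blXr_mono {m : ℕ} {S : PCl m} {c : ℕ → Fin m} {r K K₁ K' K₁' : ℕ} {w P κ : ℝ} {n n' : ℕ}
    {v p₁ x₀ v' p₁' x₀' : ℕ → ℝ} {D : ℕ} {a vr e gu pw xw : ℝ}
    (h : BlXr S c r K K₁ w P n v p₁ x₀ D a vr e gu pw xw κ) (hK : K ≤ K')
    (hK₁ : K₁ ≤ K₁')
    (hw : ∀ k < n', ∃ j < n, v j = v' k ∧ p₁' k ≤ p₁ j ∧ x₀ j ≤ x₀' k) :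
    BlXr S c r K' K₁' w P n' v' p₁' x₀' D a vr e gu pw xw κ := by
  refine Bas.mono 0 h ?_
  rintro J - F A ⟨B, b1, b2, V, z, z', G, P', l1, l2, l3, l4⟩
  have hJ0 : (0 : ℝ) ≤ J := Nat.cast_nonneg J
  refine ⟨B, b1, b2, V, z, z', G, P', l1.mono (Finset.Subset.refl _) hK le_rfl, l2,
    fun k hk => ?_, l4⟩
  obtain ⟨j, hj, e1, e2, e3⟩ := hw k hk
  obtain ⟨V₁, z₁, z₁', G₁, P₁, h1, h2, h3⟩ := l3 j hj
  rw [e1] at h1 h3
  exact ⟨V₁, z₁, z₁', G₁, P₁, h1.mono (Finset.Subset.refl _) hK₁ le_rfl,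
    (mul_le_mul_of_nonneg_right e2 hJ0).trans h2, fun ω hω => (h3 ω hω).trans
      (Real.rpow_le_rpow_of_exponent_le (by norm_num) (mul_le_mul_of_nonneg_right e3 hJ0))⟩

/-- **The family of a virtual static target at all records**, from a near dead third place. -/
theorem vst_of {h : ℝ} (hh0 : 0 < h) (hh1 : h ≤ 1) {Sl : ℕ → ℝ} {κ : ℕ → Kg} (κ0 : κ 0 = .one)
    (κ1 : κ 1 = .one) (κ2 : κ 2 = .thin) (κ3 : κ 3 = .sta) (hα : 1 < Sl 2) (hs : 3 ≤ Sl 3)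
    (hlt : Sl 3 < Sl 2 + 1) {ι Λ : Type} {Q : PropG 4 ι} {Z : PropZ 4 Λ}
    (hF : F1US 4 2 h Sl κ Q Z) :
    VsT h Sl κ (sumQ Q (sumQ (ChUQ : PropG 4 Unit) (sumQ (AttUQ : PropG 4 Unit)
      (SrQ : PropG 4 Unit)))) Z := by
  classical
  intro al hal K₀ hK₀ S₀ hS₀ y hy
  obtain ⟨s, hsd⟩ : ∃ s, s = Sl 3 := ⟨_, rfl⟩
  obtain ⟨α, hαd⟩ : ∃ α, α = Sl 2 := ⟨_, rfl⟩
  rw [← hsd] at hs hlt ⊢
  rw [← hαd] at hα hlt ⊢
  -- the numbers
  obtain ⟨a, had⟩ : ∃ a, a = y + 2 := ⟨_, rfl⟩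
  have hα1 : 0 < α - 1 := by linarith
  have hΔ : 0 < 1 + α - s := by linarith
  have hΘ := abs_nonneg (s - α)
  have hΘy : 0 ≤ |s - α| * y := mul_nonneg hΘ (by linarith)
  have hsy : 0 ≤ (s - 1) * y := mul_nonneg (by linarith) (by linarith)
  obtain ⟨β, hβd⟩ : ∃ β : ℝ, β = s + 1 + (a + 2) / (α - 1) +
    (s + 3 + (s - 1) * y + |s - α| * y) / (1 + α - s) := ⟨_, rfl⟩
  have hβ1 : 0 ≤ (a + 2) / (α - 1) := div_nonneg (by linarith) hα1.le
  have hβ2 : 0 ≤ (s + 3 + (s - 1) * y + |s - α| * y) / (1 + α - s) :=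
    div_nonneg (by linarith) hΔ.le
  have hβs : s + 1 ≤ β := by linarith
  have hβα : a + 2 ≤ (α - 1) * β := by
    have h1 : (α - 1) * ((a + 2) / (α - 1)) = a + 2 := by field_simp
    have h2 : (α - 1) * ((a + 2) / (α - 1)) ≤ (α - 1) * β :=
      mul_le_mul_of_nonneg_left (by linarith) hα1.le
    linarith
  have hβΔ' : s + 3 + (s - 1) * y + |s - α| * y ≤ (1 + α - s) * (β - s) := by
    have h1 : (1 + α - s) * ((s + 3 + (s - 1) * y + |s - α| * y) / (1 + α - s)) =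
      s + 3 + (s - 1) * y + |s - α| * y := by field_simp
    have h2 : (1 + α - s) * ((s + 3 + (s - 1) * y + |s - α| * y) / (1 + α - s)) ≤
      (1 + α - s) * (β - s) := mul_le_mul_of_nonneg_left (by linarith) hΔ.le
    linarith
  have hβΔ : s + 3 + (s - 1) * y + |s - α| * y ≤ (1 + α - s) * β := by
    have h1 : (1 + α - s) * (β - s) ≤ (1 + α - s) * β :=
      mul_le_mul_of_nonneg_left (by linarith) hΔ.le
    linarith
  have hβe : (s - α) * β = β - (1 + α - s) * β := by ring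
  have hβe' : (s - α) * (β - s) = β - s - (1 + α - s) * (β - s) := by ring
  obtain ⟨μ, hμd⟩ : ∃ μ : ℝ, μ = β - s - 1 / 4 := ⟨_, rfl⟩
  obtain ⟨C₁, hC₁⟩ : ∃ C₁ : ℝ, C₁ = α * (s + 1) / (α - 1) + 1 := ⟨_, rfl⟩
  have hC1 : 1 ≤ C₁ := by
    rw [hC₁]
    have : 0 ≤ α * (s + 1) / (α - 1) := div_nonneg (by positivity) hα1.le
    linarith
  have hC0 : 0 < C₁ := by linarith
  have hαC : α * (s + 1) + (α - 1) ≤ (α - 1) * C₁ := by
    have e1 : (α - 1) * C₁ = α * (s + 1) + (α - 1) := by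
      rw [hC₁]
      field_simp [hα1.ne']
    rw [e1]
  have hmu : ∀ v : ℝ, 0 ≤ v → v ≤ y → (s - α) * (v + β) + 1 ≤ μ := by
    intro v hv0 hvy
    have h1 : (s - α) * v ≤ |s - α| * y :=
      (mul_le_mul_of_nonneg_right (le_abs_self _) hv0).trans (mul_le_mul_of_nonneg_left hvy hΘ)
    have e1 : (s - α) * (v + β) = (s - α) * v + (s - α) * β := by ring
    linarith
  obtain ⟨KrF, NrF, ArF, VrF, hKrF, hAVF, hF⟩ := hF al hal (K₀ + s) (by linarith) S₀ hS₀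
  refine ⟨s, a, β, μ, by linarith, by linarith, by linarith, hβα, by linarith, hmu,
    KrF * C₁ + s + a + β, NrF + 2, cmb NrF (fun k => ArF k * C₁ + -s) (fun _ => a),
    cmb NrF (fun k => VrF k * C₁ + -s) (fun k => if k = 0 then -β else -s), ?_, fun k hk => ?_,
    ⟨NrF + 0, by omega, cmb_r 0, by rw [cmb_r, if_pos rfl]⟩, fun S₂ hS₂ => ?_⟩
  · have : 0 ≤ KrF * C₁ := mul_nonneg (by linarith) hC0.le
    linarith
  · have h0 : 0 ≤ KrF * C₁ := mul_nonneg (by linarith) hC0.le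
    rcases Nat.lt_or_ge k NrF with h1 | h1
    · rw [cmb_l h1, cmb_l h1]
      obtain ⟨h2, h3, h4⟩ := hAVF k h1
      have m1 := mul_le_mul_of_nonneg_right h2 hC0.le
      have m2 := mul_le_mul_of_nonneg_right h3 hC0.le
      have m3 := mul_le_mul_of_nonneg_right h4 hC0.le
      exact ⟨by linarith, by linarith, by linarith⟩
    · obtain ⟨j, rfl⟩ : ∃ j, k = NrF + j := ⟨k - NrF, by omega⟩
      rw [cmb_r, cmb_r]
      split_ifs
      · exact ⟨by linarith, by linarith, by linarith⟩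
      · exact ⟨by linarith, by linarith, by linarith⟩
  -- the degrees
  obtain ⟨Dw, hDw, hblx⟩ := blx_sta 4 2 S₂ (hS₀.trans hS₂)
  obtain ⟨D₀, hD₀, ht5⟩ := t5_rec 2 S₀ (by norm_num) hS₀
  obtain ⟨D₄, hD₄, hlbp⟩ := lbp_bal 4 3 S₀ (by norm_num) hS₀
  obtain ⟨Kb, hKb⟩ : ∃ Kb : ℕ, Kb = max (bmd Dw) D₀ := ⟨_, rfl⟩
  have hKb1 : bmd Dw ≤ Kb := by rw [hKb]; exact le_max_left _ _
  have hKb2 : D₀ ≤ Kb := by rw [hKb]; exact le_max_right _ _
  refine ⟨Dw, Kb, hDw, hD₀.trans hKb2, fun kr δ hkr0 hkr1 hδ => ?_⟩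
  obtain ⟨y₁, hy₁⟩ : ∃ y₁ : ℝ, y₁ = s + kr := ⟨_, rfl⟩
  have hy1 : s ≤ y₁ := by linarith
  have hy0 : 0 < y₁ := by linarith
  have hα0 : 0 < α := by linarith
  have hαy : α * y₁ ≤ α * (s + 1) := mul_le_mul_of_nonneg_left (by linarith) hα0.le
  obtain ⟨lamN, hlamN⟩ : ∃ lamN : ℝ, lamN = s * y₁ - (y₁ - s + 1) / 2 := ⟨_, rfl⟩
  have hlp : 0 < lamN := by
    rw [hlamN]
    have h1 : 3 * y₁ ≤ s * y₁ := mul_le_mul_of_nonneg_right hs hy0.le
    linarith
  obtain ⟨δN, dd, hδN, hdd, ht5⟩ := ht5 Kb hKb2 (h := h) (y₁ := y₁) (α := α) (C₁ := C₁) (δ := δ)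
    (lam := lamN) hh0 hh1 hδ hlp hy0 hα0 hC0
  obtain ⟨lamF, kf₁, φ₁, hkf₁, hφ₁, K₁F, NvF, VvF, hVvF, hF⟩ := hF S₂ hS₂ dd hdd
  obtain ⟨φ, Xc, kf₀, X₁, hφ, hφ1, hXc, hXm, hX₁, hvd⟩ := vdK_ex' 2 (s := s) (y₁ := y₁) (α := α)
    (δN := δN) (C' := 1) (δ := δ) (lam := lamN) (φ₀ := 1 / 16) (by linarith) hy1 hα0.le hδN le_rfl
    hδ hlamN (by norm_num) (kf₁ * C₁)
  obtain ⟨kf, hkf⟩ : ∃ kf : ℝ, kf = max kf₀ (α * y₁ + 1 + 2 * ((2 : ℕ) + 1) * φ) := ⟨_, rfl⟩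
  have kf1 : kf₀ ≤ kf := by rw [hkf]; exact le_max_left _ _
  have kf3 : α * y₁ + 1 + 2 * ((2 : ℕ) + 1) * φ ≤ kf := by rw [hkf]; exact le_max_right _ _
  have hαy0 : 0 < α * y₁ := mul_pos hα0 hy0
  have hkf0 : 0 ≤ kf := by
    push_cast at kf3
    linarith
  obtain ⟨h₁, hh₁, hvd⟩ := hvd kf X₁ 1 kf1 hX₁ le_rfl le_rfl
  obtain ⟨hh, hhd⟩ : ∃ hh : ℝ, hh = min h₁ (X₁ / 16) := ⟨_, rfl⟩
  have hhp : 0 < hh := by rw [hhd]; positivity
  have hhl1 : hh ≤ h₁ := by rw [hhd]; exact min_le_left _ _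
  have hhl2 : hh ≤ X₁ / 16 := by rw [hhd]; exact min_le_right _ _
  obtain ⟨ε₁, hε₁, hvd⟩ := hvd hh (kf + 8) 0 hhp hhl1 le_rfl (by linarith)
  obtain ⟨ρ, hρ⟩ : ∃ ρ : ℝ, ρ = min (min (δN * lamN / 16) (φ / 16)) (min (1 / 8) (X₁ / 8)) :=
    ⟨_, rfl⟩
  have hρ0 : 0 < ρ := by rw [hρ]; positivity
  have hρφ : 16 * ρ ≤ φ := by
    have : ρ ≤ φ / 16 := by rw [hρ]; exact (min_le_left _ _).trans (min_le_right _ _)
    linarith
  have hρa : 16 * ρ ≤ δN * lamN := by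
    have : ρ ≤ δN * lamN / 16 := by rw [hρ]; exact (min_le_left _ _).trans (min_le_left _ _)
    linarith
  have hρb : ρ ≤ 1 / 8 := by rw [hρ]; exact (min_le_right _ _).trans (min_le_left _ _)
  have hρc : ρ ≤ X₁ / 8 := by rw [hρ]; exact (min_le_right _ _).trans (min_le_right _ _)
  obtain ⟨εx, hεx, hblx⟩ := hblx (α := α) (b := s) (ρ := ρ) (a := a) (Ve := -β) (V₀ := -s)
    (Vm := -s) (μ := μ) hρ0 (by linarith) (by linarith) le_rfl (by linarith) (by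
      have e : -s - -β = β - s := by ring
      rw [e]
      linarith) (by linarith) (by linarith)
  obtain ⟨εb, hεb, hblb⟩ := ta_blb S₀ Dw hS₀ (α := α) (σ := ρ / 2) hα.le (by positivity)
    (by linarith)
  -- the windows
  obtain ⟨Va, hVa⟩ : ∃ Va : ℕ → ℝ, Va = fun k => if k = 0 then -y₁ else if k = 1 then 0 else
    jfV 2 (-y₁) Xc (k - 2) := ⟨_, rfl⟩
  have va0 : Va 0 = -y₁ := by rw [hVa]; simp only [if_true]
  have va1 : Va 1 = 0 := by rw [hVa]; simp only [if_neg one_ne_zero, if_true]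
  have va2 : ∀ k, Va (k + 2) = jfV 2 (-y₁) Xc k := fun k => by
    rw [hVa]
    simp only [if_neg (show ¬ k + 2 = 0 by omega), if_neg (show ¬ k + 2 = 1 by omega),
      Nat.add_sub_cancel]
  have hVaB : ∀ k < 5, |Va k| ≤ y₁ + 9 * Xc := fun k hk => by
    rcases Nat.lt_or_ge k 2 with h1 | h1
    · interval_cases k
      · rw [va0, abs_neg, abs_of_pos hy0]
        linarith
      · rw [va1, abs_zero]
        linarith
    · obtain ⟨i, rfl⟩ : ∃ i, k = i + 2 := ⟨k - 2, by omega⟩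
      rw [va2]
      have h2 := jfV_mem (r := 2) (vv := -y₁) (X := Xc) (by linarith) hXc.le (k := i) (by omega)
      rw [abs_le]
      constructor <;> linarith [h2.1, h2.2]
  obtain ⟨Vv, hVv⟩ : ∃ Vv : ℕ → ℝ, Vv = cmb NvF (fun k => VvF k * C₁ + -s)
    (cmb 5 (fun k => kr + Va k) (fun _ => a + 1)) := ⟨_, rfl⟩
  have vv1 : ∀ k < NvF, Vv k = VvF k * C₁ + -s := fun k hk => by rw [hVv, cmb_l hk]
  have vv2 : ∀ k < 5, Vv (NvF + k) = kr + Va k := fun k hk => by rw [hVv, cmb_r, cmb_l hk]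
  have vv3 : Vv (NvF + (5 + 0)) = a + 1 := by rw [hVv, cmb_r, cmb_r]
  obtain ⟨KF, hKF⟩ : ∃ KF : ℝ, KF = max K₁F 0 := ⟨_, rfl⟩
  have hKF0 : 0 ≤ KF := by rw [hKF]; exact le_max_right _ _
  have hKF1 : K₁F ≤ KF := by rw [hKF]; exact le_max_left _ _
  have hKFC : 0 ≤ KF * C₁ := mul_nonneg hKF0 hC0.le
  obtain ⟨Kt, hKt⟩ : ∃ Kt : ℝ, Kt = (kf + 8) + 1 + 3 ^ 2 * Xc + kf + (α + 1) * y₁ + lamN + 4 :=
    ⟨_, rfl⟩
  have hKt0 : 0 < Kt := by
    have : 0 < (α + 1) * y₁ := by positivity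
    linarith
  obtain ⟨K₁, hK₁⟩ : ∃ K₁ : ℝ, K₁ = KF * C₁ + s + s * s + 1 + (a + β + 2) + (Kt + s + 2) :=
    ⟨_, rfl⟩
  have hss : 0 ≤ s * s := by positivity
  refine ⟨lamF, kf, φ, hφ, hkf0, K₁, NvF + 6, Vv, fun j hj => ?_, fun K' hK' => ?_⟩
  · rcases Nat.lt_or_ge j NvF with h1 | h1
    · rw [vv1 j h1]
      have h2 := hVvF j h1
      have m1 := mul_le_mul_of_nonneg_right (show -KF ≤ VvF j by linarith) hC0.le
      have m2 := mul_le_mul_of_nonneg_right (show VvF j ≤ KF by linarith) hC0.le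
      constructor <;> linarith
    · obtain ⟨i, rfl⟩ : ∃ i, j = NvF + i := ⟨j - NvF, by omega⟩
      rcases Nat.lt_or_ge i 5 with h2 | h2
      · rw [vv2 i h2]
        have h3 := abs_le.1 (hVaB i h2)
        have : 0 < α * y₁ := hαy0
        constructor <;> linarith
      · have h3 : i = 5 + 0 := by omega
        rw [h3, vv3]
        constructor <;> linarith
  obtain ⟨εF, hεF, hF⟩ := hF KF hKF1
  refine ⟨min (min (ε₁ / 2) (εF / 2)) (min (min εx εb) (1 / 16)), by positivity,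
    fun ε hε hεε => ?_⟩
  have ε1 := hεε.trans ((min_le_left _ _).trans (min_le_left _ _))
  have ε2 := hεε.trans ((min_le_left _ _).trans (min_le_right _ _))
  have ε3 := (hεε.trans ((min_le_right _ _).trans (min_le_left _ _))).trans (min_le_left _ _)
  have ε4 := (hεε.trans ((min_le_right _ _).trans (min_le_left _ _))).trans (min_le_right _ _)
  have ε5 := hεε.trans ((min_le_right _ _).trans (min_le_right _ _))
  have Kn := hvd (2 * ε) (by linarith) (by linarith)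
  intro S g₀ P θ P₂ θ₂ Eb e₂ c Pt rt L T G g hG hg hder hZ
  obtain ⟨pF, MF, BF₀, BF₁, hBF, hF⟩ := hF (2 * ε) (by linarith) (by linarith) S g₀ P θ P₂ θ₂ Eb e₂
    c Pt rt L T G g hG hg hder hZ
  refine ⟨cmT MF (fun j => Sum.inl (pF j)) (fun j => Sum.inr (if j = 0 then Sum.inl () else
      Sum.inr (if j = 1 then Sum.inl () else Sum.inr ()))), MF + 3,
    cmb MF (fun j => BF₀ j * C₁ + -s) (fun _ => 0),
    cmb MF (fun j => BF₁ j * C₁ + -s) (fun _ => 1), fun j hj => ?_, fun k₀ hQ => ?_⟩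
  · rcases Nat.lt_or_ge j MF with h1 | h1
    · rw [cmb_l h1, cmb_l h1]
      have := mul_lt_mul_of_pos_right (hBF j h1) hC0
      linarith
    · obtain ⟨i, rfl⟩ : ∃ i, j = MF + i := ⟨j - MF, by omega⟩
      rw [cmb_r, cmb_r]
      exact one_pos
  have hQF : ∀ j < MF, Q (pF j) (k₀ j) S P θ c Pt rt L T κ G g := fun j hj => by
    have h1 := hQ j (by omega)
    rw [cmT_l hj] at h1
    exact h1
  have hQ0 : ChUQ () (k₀ (MF + 0)) S P θ c Pt rt L T κ G g := by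
    have h1 := hQ (MF + 0) (by omega)
    rw [cmT_r, if_pos rfl] at h1
    exact h1
  have hQ1 : AttUQ () (k₀ (MF + 1)) S P θ c Pt rt L T κ G g := by
    have h1 := hQ (MF + 1) (by omega)
    rw [cmT_r, if_neg one_ne_zero, if_pos rfl] at h1
    exact h1
  have hQ2 : SrQ () (k₀ (MF + 2)) S P θ c Pt rt L T κ G g := by
    have h1 := hQ (MF + 2) (by omega)
    rw [cmT_r, if_neg (by norm_num), if_neg (by norm_num)] at h1
    exact h1
  obtain ⟨qF, hqF, hF⟩ := hF k₀ hQF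
  have hK'0 : 0 < K' := by linarith
  obtain ⟨km, hkm⟩ : ∃ km : ℕ, km = k₀ (MF + 1) := ⟨_, rfl⟩
  rw [← hkm] at hQ1
  refine ⟨min (qF / C₁) ((1 / 2) ^ km / (3 * K' + K₀)), by positivity, ?_⟩
  intro q t x hq hx N A V N' V' R hpr hwn
  have q1 := hq.trans_le (min_le_left _ _)
  have q3 := hq.trans_le (min_le_right _ _)
  rw [lt_div_iff₀ hC0] at q1
  rw [lt_div_iff₀ (by positivity)] at q3
  have hq0 := R.q0
  have h9 : 0 < K' * q := mul_pos hK'0 hq0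
  have h10 : 0 < K₀ * q := mul_pos hK₀ hq0
  -- the record with the windows `Vv`
  have Ra := R.mono (K₁ := K') (ε₁ := ε) (N₁ := N) (A₁ := A) (V₁ := V) (N₁' := NvF + 6)
    (V₁' := Vv) le_rfl le_rfl (fun k hk => ⟨k, hk, rfl, rfl⟩) (fun k hk => by
      obtain ⟨j, hj, e⟩ := hwn k hk
      exact ⟨j, hj, e.symm⟩)
  have hs0 : 0 < s := by linarith
  -- the first jet of the third place at the window `t - s q`
  have Rs := R.scs (K₀' := K₀ + s) (K₁ := KF) (ε₁ := 2 * ε) (C := C₁) (V₀ := -s) (B := s)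
    (N₁ := NrF) (A₁ := ArF) (V₁ := VrF) (N₁' := NvF) (V₁' := VvF) (by norm_num) hC1 (by
      show |Sl 3| ≤ s
      rw [← hsd, abs_of_pos hs0]) hε.le (by linarith)
    hKF0 (by
      rw [abs_neg, abs_of_pos hs0]
      linarith) (by
      have := mul_le_mul_of_nonneg_left hC1 hε.le
      linarith) (by
      rw [abs_neg, abs_of_pos hs0]
      have h1 : 0 < K₀ + s := by linarith
      have := mul_le_mul_of_nonneg_left hC1 h1.le
      linarith) (fun k hk => by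
      obtain ⟨j, hj, h4, h5⟩ := hpr k (by omega)
      rw [cmb_l hk] at h4 h5
      exact ⟨j, hj, h4.symm, h5.symm⟩) (fun k hk => by
      obtain ⟨j, hj, h4⟩ := hwn k (by omega)
      rw [vv1 k hk] at h4
      exact ⟨j, hj, h4.symm⟩)
  have hqC : 0 < C₁ * q := mul_pos hC0 hq0
  obtain ⟨S₁, hne₁, hs₁, e₁, he₁, hF1⟩ := hF (C₁ * q) (t + -s * q) x (by linarith) (fun j hj => by
      obtain ⟨h4, h5, h6, h7⟩ := hx j (by omega)
      rw [cmb_l hj] at h5 h6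
      rw [cmT_l hj] at h7
      exact ⟨h4, by linarith, by linarith, h7⟩) NrF ArF VrF NvF VvF Rs
    (fun k hk => ⟨k, hk, rfl, rfl⟩) (fun k hk => ⟨k, hk, rfl⟩)
    (fun l => L l (t + -s * q) (t + -s * q)) (L 2 (t + -s * q) (t + -s * q))
    (fun l j => L l (t + -s * q) (t + -s * q) + kf₁ * (C₁ * q) - (j : ℕ) * (t + -s * q))
    (fun l hl => ⟨by
      have := mul_pos hφ₁ hqC
      linarith, le_rfl⟩) (by
      have := mul_pos hφ₁ hqC
      linarith) le_rfl (fun l _ j _ => rfl)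
  rw [← hαd] at hF1
  have R₁ := Ra.sub hne₁ hs₁
  have hρq : 0 < ρ * q := mul_pos hρ0 hq0
  have hεq : 0 < ε * q := mul_pos hε hq0
  -- the closed slope
  obtain ⟨κ₁, hκ₁, hbx⟩ := hblx R₁ (by norm_num) hε.le ε3 hαd.symm hsd.symm (Or.inr κ2) κ3
    (by linarith) (by linarith) (by linarith) (W := fun _ => -s) (n := 0) rfl
    (fun k hk => ⟨by linarith, le_rfl⟩) (fun k hk => by
      obtain ⟨j, hj, h4, h5⟩ := hpr (NrF + 1) (by omega)
      rw [cmb_r] at h4 h5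
      rw [if_neg one_ne_zero] at h5
      exact ⟨j, hj, h4, h5⟩) (by
      obtain ⟨j, hj, h4, h5⟩ := hpr (NrF + 0) (by omega)
      rw [cmb_r] at h4 h5
      rw [if_pos rfl] at h5
      exact ⟨j, hj, h4, h5⟩)
  -- the window of the velocity
  have hv1 : Vv (NvF + 1) = kr := by rw [vv2 1 (by norm_num), va1, add_zero]
  have hkrK : |kr| ≤ K' := by
    rw [abs_of_pos hkr0]
    linarith
  have hwG : t + kr * q ∈ G := by
    have h1 := R₁.memG.2 (NvF + 1) (by omega)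
    rwa [hv1] at h1
  have hbb := hblb R₁ κ0 κ1 κ2 hαd.symm hs hsd.symm hε.le ε4 (k := NvF + 1) (j := NvF + (5 + 0))
    (by omega) (by omega) (y := y) (a := a) (β := β) (μ := μ) (ρ := ρ) (by rw [hv1]; exact hkr0.le)
    (by rw [hv1]; linarith) vv3 (by linarith) (by linarith)
    (by rw [hv1]; exact hmu _ hkr0.le (by linarith)) (by linarith) (by linarith) hρ0 hρb
    (fun i hi l hl => by
      rw [hv1]
      exact hQ2 _ hwG i (by omega) l hl) (by
      rw [hv1]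
      obtain ⟨rd, h6, h7⟩ := hQ0 _ hwG
      have h8 := h7.pre 3 (by norm_num) le_rfl
      intro e he
      exact (h8 e he).sub hs₁) (wn := t + -s * q)
    (p₂ := L 2 (t + kr * q) (t + kr * q) - ρ / 2 * q) (Kn := D₄) (Ku := D₄)
    (Ψ := fun J F A _ _ z' G => RwE c 2 Dw (t + a * q) (t + -β * q) (Eb 3 + ρ * q)
        (L 2 (t + -β * q) (t + -β * q) + (a * q - -β * q) + ρ * q)
        (L 3 (t + a * q) (t + a * q) - ρ * q)
        (L 2 (t + -β * q) (t + -β * q) - L 3 (t + -β * q) (t + -β * q) - μ * q + ρ * q)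
        (t + -s * q) J F A _ z' G) (fun J F A V z z' G hG => hG)
  rw [hv1] at hbb
  obtain ⟨K₄, hK₄, hlb⟩ := hlbp R₁ (by norm_num) hK'0 (NvF + 1) (by omega) (by
    rw [hv1]
    exact hkrK) (ρ / 4 * q) (by positivity)
  rw [hv1] at hlb
  have hbx2 := blxr_add R₁.tmc hκ₁ hK₄ (χ := ρ / 4 * q) (by positivity) hbx hbb
    (Bas.mono 0 hlb (by
      rintro J - F A ⟨B, b1, b2, b3⟩
      obtain ⟨V₁, z₁, z₁', G₁, P₁, h5, h6⟩ := b3 3 le_rfl
      obtain ⟨V₂, z₂, z₂', G₂, P₂', h7, h8⟩ := b3 2 (by norm_num)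
      refine ⟨B, b1, b2, ⟨V₁, z₁, z₁', G₁, P₁, h5, ?_⟩, V₂, z₂, z₂', G₂, P₂', h7, ?_⟩
      · rw [show L 3 (t + kr * q) (t + kr * q) - ρ / 2 * q + ρ / 4 * q =
          L 3 (t + kr * q) (t + kr * q) - ρ / 4 * q by ring]
        exact h6
      · rw [show L 2 (t + kr * q) (t + kr * q) - ρ / 2 * q + ρ / 4 * q =
          L 2 (t + kr * q) (t + kr * q) - ρ / 4 * q by ring]
        exact h8))
  -- the record at the window of the velocity
  obtain ⟨tv, htv⟩ : ∃ tv, tv = t + kr * q := ⟨_, rfl⟩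
  have Rt := R₁.dmv (x := kr) (B := s) (K₁ := Kt) (N₁ := 0) (A₁ := fun _ => 0) (V₁ := fun _ => 0)
    (N₁' := 5) (V₁' := Va) (by norm_num) hS₂ (fun k hk => by
      rw [abs_le]
      rcases Nat.lt_or_ge k NvF with h1 | h1
      · rw [vv1 k h1]
        have h2 := hVvF k h1
        have m1 := mul_le_mul_of_nonneg_right (show -KF ≤ VvF k by linarith) hC0.le
        have m2 := mul_le_mul_of_nonneg_right (show VvF k ≤ KF by linarith) hC0.le
        constructor <;> linarith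
      · obtain ⟨i, rfl⟩ : ∃ i, k = NvF + i := ⟨k - NvF, by omega⟩
        rcases Nat.lt_or_ge i 5 with h2 | h2
        · rw [vv2 i h2]
          have h3 := abs_le.1 (hVaB i h2)
          have : 0 < α * y₁ := hαy0
          constructor <;> linarith
        · have h3 : i = 5 + 0 := by omega
          rw [h3, vv3]
          constructor <;> linarith) hkr0.le hkr1 (by
      show |Sl 3| ≤ s
      rw [← hsd, abs_of_pos hs0]) hKt0.le (by linarith) (by linarith)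
    (fun k hk => absurd hk (Nat.not_lt_zero k)) (fun k hk => ⟨NvF + k, by omega, (vv2 k hk).symm⟩)
  rw [← htv] at Rt hbx2
  have ewn : tv + -y₁ * q = t + -s * q := by
    rw [htv, hy₁]
    ring
  have hbx3 : BlXr S₁ c 2 Kb D₄ (tv + -y₁ * q) (L 3 (tv + -y₁ * q) (tv + -y₁ * q) - ρ * q) 1
      (fun k => tv + (fun _ : ℕ => (0 : ℝ)) k * q)
      (fun k => L 3 (tv + (fun _ : ℕ => (0 : ℝ)) k * q) (tv + (fun _ : ℕ => (0 : ℝ)) k * q) - ρ * q)
      (fun k => L 2 (tv + (fun _ : ℕ => (0 : ℝ)) k * q) (tv + (fun _ : ℕ => (0 : ℝ)) k * q) -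
        L 3 (tv + (fun _ : ℕ => (0 : ℝ)) k * q) (tv + (fun _ : ℕ => (0 : ℝ)) k * q) + ρ * q)
      Dw (t + a * q) (t + -β * q) (Eb 3 + ρ * q)
      (L 2 (t + -β * q) (t + -β * q) + (a * q - -β * q) + ρ * q)
      (L 3 (t + a * q) (t + a * q) - ρ * q)
      (L 2 (t + -β * q) (t + -β * q) - L 3 (t + -β * q) (t + -β * q) - μ * q + ρ * q)
      (2 * (κ₁ * K₄)) := by
    rw [ewn]
    refine blXr_mono hbx2 hKb1 le_rfl fun k hk => ⟨0, one_pos, ?_, ?_, ?_⟩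
    · show tv = tv + 0 * q
      ring
    · show L 3 (tv + 0 * q) (tv + 0 * q) - ρ * q ≤ L 3 tv tv - ρ / 2 * q
      rw [zero_mul, add_zero]
      linarith
    · show L 2 tv tv - L 3 tv tv + 2 * (ρ / 2) * q ≤
        L 2 (tv + 0 * q) (tv + 0 * q) - L 3 (tv + 0 * q) (tv + 0 * q) + ρ * q
      rw [zero_mul, add_zero]
      linarith
  have hKtK : Kt * q ≤ K' * q := mul_le_mul_of_nonneg_right (by linarith) hq0.le
  obtain ⟨S', Ψ, u1, u2, u3, u4, u5, -, e1, he1, u7⟩ := ht5 Rt (fun l hl => by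
      interval_cases l
      · exact κ0
      · exact κ1) (s := s) (C := 1) (C' := 1) (φ := φ) (Xc := Xc) (X := X₁) (kf := kf) (hh := hh)
    (hp := φ) (k₁ := kf + 8) (a := 0) (ρ := ρ) (kf₁ := kf₁) (e₁ := e₁) (κx := 2 * (κ₁ * K₄))
    (nn := s - 1) hsd.symm hαd.symm Kn (by rw [hKt]) (fun k hk => by
      have := hVaB k hk
      have h2 : 0 < α * y₁ := hαy0
      linarith) (fun w hw => by
      obtain ⟨rd, h1, h2⟩ := hQ0 w hw
      exact ⟨rd, h1, h2.sub hs₁⟩) (fun k hk => by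
      have hw := Rt.memG.2 k hk
      obtain ⟨rk, E, h1, h2, h3, h4, h5⟩ := hQ1 _ hw (by
        have h6 := R.near
        have h7 : |(Va k + kr) * q| ≤ K' * q := by
          rw [abs_mul, abs_of_pos hq0]
          refine mul_le_mul_of_nonneg_right ?_ hq0.le
          have h8 := abs_le.1 (hVaB k hk)
          have h2 : 0 < α * y₁ := hαy0
          rw [abs_le]
          constructor <;> linarith
        have h8 : |tv + Va k * q - g| ≤ |(Va k + kr) * q| + |t - g| := by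
          have e1 : tv + Va k * q - g = (Va k + kr) * q + (t - g) := by
            rw [htv]
            ring
          rw [e1]
          exact abs_add_le _ _
        linarith only [h6, h7, h8, h9, q3])
      refine ⟨rk, E, h3, ?_, fun e he => ?_⟩
      · have h4' : E + L 3 (tv + Va k * q) (tv + Va k * q) ≤ 1 - (1 / 2) ^ km := h4
        show E + L 3 (tv + Va k * q) (tv + Va k * q) + 3 * Kt * q ≤ 1
        linarith only [h4', h10, q3, hKtK]
      · obtain ⟨K, hK⟩ := h5 e he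
        exact ⟨K, hK.sub hs₁⟩) ⟨0, by norm_num, va0⟩ (nb := 1) (bw := fun _ => 0)
    (fun k hk => ⟨1, by norm_num, va1⟩) ⟨0, one_pos, rfl⟩
    (fun k hk => ⟨k + 2, by omega, va2 k⟩) hρ0 hρa hρφ (by linarith) (by linarith) (by linarith) hφ
    le_rfl (by push_cast; linarith) (by linarith) (K₁x := D₄) (by positivity) hbx3 hXm
    (by linarith) kf3 he₁ (by
      rw [ewn]
      exact hF1) (Db := 0)
  subst htv
  refine ⟨S', Ψ, ρ, hρ0, hρb, u1, fun τ J F A hA => hs₁ τ J F A (u2 τ J F A hA), u3,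
    fun J F A V z z' G hG => ?_, u5, e1, he1, u7⟩
  have h1 := u4 J F A V z z' G hG
  rw [ewn] at h1
  exact h1

end Pool.STV90
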