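import Pool.Agent.H90.STV.Tav
import Pool.Agent.H90.STV.Vso
import Pool.Agent.H90.STV.Pat
import Pool.Agent.H90.STV.Tac
import Pool.Agent.H6.S1.Fla

/-!
# The thin parts of full rate whose target has an integer slope at least three, less than `a + 1`

`partV_int3`: the void part from the part of the first jet of the place 2. `tA1_int3`: `a < b < a + 1`.
`tA3_int3`: `b < a`. `tAint_of`: `TAint` from the first jet for `a = b` and the slope two.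
-/

set_option autoImplicit false

namespace Pool.ASM

open Pool.GEN Pool.PKG Pool.ALT Pool.LA91 Pool.CR99
open Pool.STV90 (SrQ aePG_sr her_sr)

variable {Adm : (ℕ → ℝ) → AltJ → PropW 4} {β : (ℕ → ℝ) → ℝ} {Φ : (ℕ → ℝ) → Prop}

/-- **The void part from the first jet of the place 2**, the target has an integer slope at least three
and less than `a + 1`. -/
theorem partV_int3 (H : PartA 2 (kg4 .one .one .thin .sta) Φ Adm β) :
    PartV (kg4 .one .one .thin .sta)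
      (fun Sl => Φ Sl ∧ 1 < Sl 2 ∧ (∃ b : ℕ, 3 ≤ b ∧ Sl 3 = b) ∧ Sl 3 < Sl 2 + 1) Adm β := by
  obtain ⟨ι, hc, Q, hQ, hh, H⟩ := H
  refine ⟨_, inferInstance, sumQ (sumQ Q (sumQ Pool.V0F.ChUQ (sumQ Pool.V0F.AttUQ SrQ)))
    (sumQ FaQ (sumQ Pool.V0F.ChUQ SrQ)), aePG_sum (aePG_sum hQ hh (aePG_sum (Pool.V0F.aePG_chU 4)
    (Pool.V0F.her_chU 4) (aePG_sum (Pool.V0F.aePG_attU 4) (Pool.V0F.her_attU 4) (aePG_sr 4))))
    (her_sum hh (her_sum (Pool.V0F.her_chU 4) (her_sum (Pool.V0F.her_attU 4) (her_sr 4))))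
    (aePG_sum (aePG_fa 4) (her_fa 4) (aePG_sum (Pool.V0F.aePG_chU 4) (Pool.V0F.her_chU 4)
    (aePG_sr 4))), her_sum (her_sum hh (her_sum (Pool.V0F.her_chU 4)
    (her_sum (Pool.V0F.her_attU 4) (her_sr 4)))) (her_sum (her_fa 4)
    (her_sum (Pool.V0F.her_chU 4) (her_sr 4))), ?_⟩
  rintro h h0 h1 Sl ⟨hΦ, ha, ⟨b, hb, s3⟩, hba⟩
  have hb' : (3 : ℝ) ≤ b := by exact_mod_cast hb
  exact Pool.STV90.ta_void hb rfl rfl rfl rfl s3 ha
    (Pool.STV90.vst_of h0 h1 rfl rfl rfl rfl ha (by rw [s3]; exact hb') hba (H h h0 h1 Sl hΦ))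

/-- **`a < b < a + 1`**, `b` an integer at least three, full rate. -/
theorem tA1_int3 : PartV (kg4 .one .one .thin .sta)
    (fun Sl => 1 < Sl 2 ∧ Sl 2 < Sl 3 ∧ (∃ b : ℕ, 3 ≤ b ∧ Sl 3 = b) ∧ Sl 3 < Sl 2 + 1)
    (fun _ => AdmL 4) (fun Sl => Sl 3 * Real.log 2) :=
  (partV_int3 partA_lt).mono' fun _ h => ⟨⟨h.1, h.2.1, h.2.2.2⟩, h.1, h.2.2.1, h.2.2.2⟩

/-- **`b < a`**, `b` an integer at least three, full rate. -/
theorem tA3_int3 : PartV (kg4 .one .one .thin .sta)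
    (fun Sl => 1 < Sl 2 ∧ (∃ b : ℕ, 3 ≤ b ∧ Sl 3 = b) ∧ Sl 3 < Sl 2)
    (fun _ => AdmL 4) (fun Sl => Sl 3 * Real.log 2) :=
  (partV_int3 (Pool.S16.partA_ba (κ := kg4 .one .one .thin .sta)
    (fun l hl => by interval_cases l <;> rfl))).mono' fun Sl h => by
    obtain ⟨h1, ⟨b, hb, h4⟩, h2⟩ := h
    have hb' : (3 : ℝ) ≤ b := by exact_mod_cast hb
    exact ⟨⟨h1, by rw [h4]; linarith, h2⟩, h1, ⟨b, hb, h4⟩, by linarith⟩

/-- **`TAint`** from the first jet for `a = b`, at least three, and the void part of the slope two. -/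
theorem tAint_of
    (hT : PartA 2 (kg4 .one .one .thin .sta) (fun Sl => NAt Sl ∧ 3 ≤ Sl 2 ∧ Sl 2 = Sl 3)
      (fun _ => AdmL 4) (fun Sl => Sl 3 * Real.log 2))
    (h2 : PartV (kg4 .one .one .thin .sta) (fun Sl => NAt Sl ∧ Sl 3 = 2)
      (fun _ => AdmL 4) (fun Sl => Sl 3 * Real.log 2)) :
    TAint (fun _ => AdmL 4) (fun Sl => Sl 3 * Real.log 2) := by
  refine ((tA1_int3.num tA3_int3 fun _ h => h).num (partV_int3 hT) fun _ h => h).num h2
    fun Sl h => ?_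
  obtain ⟨hN, ⟨b, hb⟩, hba⟩ := h
  have ha : 1 < Sl 2 := hN.2.2.1
  have h2b : 2 ≤ b := by
    have := hN.2.2.2
    rw [hb] at this
    exact_mod_cast this
  rcases Nat.lt_or_ge 2 b with h3 | h3
  · refine Or.inl ?_
    have h3' : (3 : ℝ) ≤ b := by exact_mod_cast h3
    rcases lt_trichotomy (Sl 2) (Sl 3) with h | h | h
    · exact Or.inl (Or.inl ⟨ha, h, ⟨b, h3, hb⟩, hba⟩)
    · exact Or.inr ⟨⟨hN, by rw [h, hb]; exact h3', h⟩, ha, ⟨b, h3, hb⟩, hba⟩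
    · exact Or.inl (Or.inr ⟨ha, ⟨b, h3, hb⟩, h⟩)
  · refine Or.inr ⟨hN, ?_⟩
    rw [hb, show b = 2 by omega]
    norm_num

end Pool.ASM
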