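import Pool.Agent.H90.STV.Jnc
import Pool.Agent.H77.VJ.Evc
import Pool.Agent.H77.VJ.Vjp
import Pool.Agent.H73.D2.Tvj
import Pool.Agent.H37.STA.Rdf

/-!
# No static fourth place with an integer slope at least three over a thin third place

`ta_void`: the class theorem, from the family of the virtual static target at all records (`VsT`).
-/

set_option autoImplicit false

namespace Pool.STV90

open Finset Real MvPolynomial
open Pool.Agent.H49.Ent Pool.Agent.H32.Dense Pool.STK Pool.KA Pool.KSAT Pool.K2S Pool.PB Pool.S6C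
open Pool.GEN Pool.CHT Pool.NVX Pool.CHX Pool.ISO Pool.D2R
open Pool.STB65 (NsQ MxS)
open Pool.STB82 (nodF_rec nodF_pair)
open Pool.STB77 (NodF)
open Pool.STB (N1L InpL LsN GrN nAA nWW nι nσ n_cases nAA_ball nWW_ball nAA_pair nWW_pair nAA_ext
  nWW_ext nι_le)
open Pool.VJ77
open Pool.PKG
open Pool.LA91 (FaQ sumQ FulC)
open Pool.V0F (ChUQ)
open Pool.RCD (vg)
open Pool.GRD (LbP)
open Pool.ALT (Fml BlB cmT cmT_l cmT_r)

/-- **No static fourth place with an integer slope at least three over a thin third place**, from the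
family of the virtual static target at all records. -/
theorem ta_void {h : ℝ} {Sl : ℕ → ℝ} {κ : ℕ → Kg} {b : ℕ} (hb : 3 ≤ b) (κ0 : κ 0 = .one)
    (κ1 : κ 1 = .one) (κ2 : κ 2 = .thin) (κ3 : κ 3 = .sta) (s3 : Sl 3 = b) (hα : 1 < Sl 2)
    {ι Λ : Type} {Q : PropG 4 ι} {Z : PropZ 4 Λ} (hF : VsT h Sl κ Q Z) :
    VoidZ 4 h Sl κ (sumQ Q (sumQ (FaQ : PropG 4 (ℕ × ℕ × ℚ × ℚ))
      (sumQ (ChUQ : PropG 4 Unit) (SrQ : PropG 4 Unit)))) Z := by
  classical
  intro al hal K₀ hK₀ S₀ hS₀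
  obtain ⟨Y, a, β, μ, hY1, hYβ, hya, hαβ, hμ1, hμ2, Kr, Nr, Ar, Vr, hKr, hAV,
    ⟨jr, hjr, hjA, hjV⟩, hF⟩ := hF al hal K₀ hK₀ S₀ hS₀ 3 (by norm_num)
  have hb3 : (3 : ℝ) ≤ b := by exact_mod_cast hb
  rw [s3] at hμ1 hμ2
  refine ⟨Kr + β + 3, Nr + 2, cmb Nr Ar (fun _ => 3),
    cmb Nr Vr (fun k => if k = 0 then 0 else -β), by linarith, fun k hk => ?_, fun S₂ hS₂ => ?_⟩
  · rcases Nat.lt_or_ge k Nr with h1 | h1
    · rw [cmb_l h1, cmb_l h1]
      obtain ⟨h2, h3, h4⟩ := hAV k h1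
      exact ⟨by linarith, h3, by linarith⟩
    · obtain ⟨j, rfl⟩ : ∃ j, k = Nr + j := ⟨k - Nr, by omega⟩
      rw [cmb_r, cmb_r]
      split_ifs
      · exact ⟨by linarith, by norm_num, by linarith⟩
      · exact ⟨by linarith, by linarith, by linarith⟩
  -- the degrees
  obtain ⟨Dw, Kb, hDw, hKb, hF⟩ := hF S₂ hS₂
  obtain ⟨D₂, hD₂, nodB⟩ := nodF_pair 3 S₂ (by norm_num) (hS₀.trans hS₂)
  obtain ⟨D₃, hD₃, nodA⟩ := nodF_rec 3 S₀ (by norm_num) hS₀
  obtain ⟨D₄, hD₄, hlab⟩ := ta_sub 4 3 S₀ (by norm_num) hS₀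
  obtain ⟨D, hD⟩ : ∃ D, D = Dw + Kb + D₂ + D₃ + D₄ := ⟨_, rfl⟩
  have hD1 : 1 ≤ D := by omega
  obtain ⟨C₀, D', K₂, hC₀, hDD', hDK, hev⟩ := ev_far D b hD1 hb
  obtain ⟨Cm, hmx⟩ := ta_mx D Dw hD1
  obtain ⟨Ke, hKe⟩ : ∃ Ke, Ke = max K₂ b := ⟨_, rfl⟩
  have hKe1 : K₂ ≤ Ke := by rw [hKe]; exact le_max_left _ _
  have hKe2 : b ≤ Ke := by rw [hKe]; exact le_max_right _ _
  obtain ⟨n, Ac, τ, δ, Cg, ne, hn, hAc, hτ, hτ1, hδ, hvoid⟩ :=
    vj_voidS 4 Ke b hb (by omega) (by omega)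
  have hn0 : (0 : ℝ) < n := by exact_mod_cast hn
  have hn1 : (1 : ℝ) ≤ n := by exact_mod_cast hn
  have hCg0 : (0 : ℝ) ≤ Cg := Nat.cast_nonneg Cg
  have hCm0 : (0 : ℝ) ≤ Cm := Nat.cast_nonneg Cm
  have hne0 : (0 : ℝ) ≤ ne := Nat.cast_nonneg ne
  obtain ⟨kr, hkr⟩ : ∃ kr : ℝ, kr = 1 / n := ⟨_, rfl⟩
  have hkr0 : 0 < kr := by rw [hkr]; positivity
  have hnkr : n * kr = 1 := by rw [hkr]; field_simp
  have hkr1 : kr ≤ 1 := by
    have : 1 * kr ≤ n * kr := mul_le_mul_of_nonneg_right hn1 hkr0.le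
    linarith
  obtain ⟨lam, kf, φ, hφ, hkf, K₁, Nv, Vv, hVv, hF⟩ := hF kr (δ * kr) hkr0 hkr1 (by positivity)
  obtain ⟨u₀, hu0, hu1, hev⟩ := hev Ke hKe1 (n := n) (Cg := Cg) (ne := ne) hn hAc hτ hkr0
  -- the unit of the velocity
  obtain ⟨v, hv⟩ : ∃ v : ℝ, v = min (min u₀ (φ / 16)) (min (1 / 400)
    (1 / (16 * ((Cg : ℝ) + 2)))) := ⟨_, rfl⟩
  have hv0 : 0 < v := by rw [hv]; positivity
  have hv1 : v ≤ u₀ := by rw [hv]; exact (min_le_left _ _).trans (min_le_left _ _)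
  have hv2 : 16 * v ≤ φ := by
    have : v ≤ φ / 16 := by rw [hv]; exact (min_le_left _ _).trans (min_le_right _ _)
    linarith
  have hv3 : 400 * v ≤ 1 := by
    have : v ≤ 1 / 400 := by rw [hv]; exact (min_le_right _ _).trans (min_le_left _ _)
    linarith
  have hv4 : (4 * Cg + 8) * v ≤ 1 / 4 := by
    have h1 : v ≤ 1 / (16 * ((Cg : ℝ) + 2)) := by
      rw [hv]
      exact (min_le_right _ _).trans (min_le_right _ _)
    rw [le_div_iff₀ (by positivity)] at h1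
    linarith
  obtain ⟨s₁, hs1, hs1v, hev⟩ := hev v hv0 hv1
  -- the grid
  obtain ⟨R₁, hR₁⟩ := exists_nat_ge (kr / s₁ + 1)
  have hR0 : (1 : ℝ) ≤ R₁ := by
    have : 0 ≤ kr / s₁ := by positivity
    linarith
  have hR1 : 1 ≤ R₁ := by exact_mod_cast hR0
  obtain ⟨ρ, hρ⟩ : ∃ ρ : ℝ, ρ = kr / R₁ := ⟨_, rfl⟩
  have hρ0 : 0 < ρ := by rw [hρ]; positivity
  have hRρ : kr = R₁ * ρ := by rw [hρ]; field_simp
  have hρs : ρ ≤ s₁ := by
    have h1 : kr / s₁ ≤ R₁ := by linarith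
    rw [div_le_iff₀ hs1] at h1
    rw [hρ, div_le_iff₀ (by linarith)]
    linarith
  have hρ1 : ρ ≤ 1 := by linarith [hρs.trans (hs1v.trans (hv1.trans hu1))]
  obtain ⟨NN, hNN⟩ : ∃ NN : ℕ, NN = 3 * (n * R₁) := ⟨_, rfl⟩
  have hnR : (n : ℝ) * R₁ * ρ = 1 := by
    rw [mul_assoc, ← hRρ, hnkr]
  have hNρ : (NN : ℝ) * ρ = 3 := by
    rw [hNN]
    push_cast
    linarith
  have hnR1 : 1 ≤ n * R₁ := Nat.mul_pos hn hR1
  obtain ⟨s₂, hs2, hs2ρ, hev⟩ := hev ρ hρ0 hρs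
  -- the losses
  obtain ⟨σ, hσ⟩ : ∃ σ : ℝ, σ = min (s₂ / 4) (1 / (8 * ((Cm : ℝ) + 1))) := ⟨_, rfl⟩
  have hσ0 : 0 < σ := by rw [hσ]; positivity
  have hσs : 4 * σ ≤ s₂ := by
    have : σ ≤ s₂ / 4 := by rw [hσ]; exact min_le_left _ _
    linarith
  have hσC : (Cm + 1) * σ ≤ 1 / 8 := by
    have h1 : σ ≤ 1 / (8 * ((Cm : ℝ) + 1)) := by rw [hσ]; exact min_le_right _ _
    rw [le_div_iff₀ (by positivity)] at h1
    linarith
  have hσ1 : σ ≤ 1 / 8 := by
    have : 1 * σ ≤ (Cm + 1) * σ := mul_le_mul_of_nonneg_right (by linarith) hσ0.le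
    linarith
  obtain ⟨εb, hεb, hblb⟩ := ta_blb S₀ Dw hS₀ (α := Sl 2) (σ := σ / 4) hα.le (by positivity)
    (by linarith)
  -- the far windows
  obtain ⟨kg, hkg⟩ : ∃ kg : ℝ, kg = kf + b + 5 := ⟨_, rfl⟩
  obtain ⟨ν, hν⟩ : ∃ ν : ℝ, ν = kg + 1 := ⟨_, rfl⟩
  have hν0 : 0 ≤ ν := by linarith
  obtain ⟨CF, hCF⟩ := exists_nat_ge (2 * ν + 40)
  have hCF0 : (0 : ℝ) ≤ CF := Nat.cast_nonneg CF
  obtain ⟨Nf, hNf⟩ : ∃ Nf : ℕ, Nf = ⌈((CF : ℝ) + 27 - kr) / ρ⌉₊ := ⟨_, rfl⟩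
  have hNf1 : (CF : ℝ) + 27 - kr ≤ Nf * ρ := by
    have h1 : ((CF : ℝ) + 27 - kr) / ρ ≤ Nf := by rw [hNf]; exact Nat.le_ceil _
    rwa [div_le_iff₀ hρ0] at h1
  have hNf2 : (Nf : ℝ) * ρ ≤ CF + 28 - kr := by
    have h1 : (Nf : ℝ) < ((CF : ℝ) + 27 - kr) / ρ + 1 := by
      rw [hNf]
      exact Nat.ceil_lt_add_one (div_nonneg (by linarith) hρ0.le)
    have h2 : (Nf : ℝ) * ρ ≤ (((CF : ℝ) + 27 - kr) / ρ + 1) * ρ :=
      mul_le_mul_of_nonneg_right h1.le hρ0.le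
    have h3 : (((CF : ℝ) + 27 - kr) / ρ + 1) * ρ = CF + 27 - kr + ρ := by
      field_simp
    linarith
  obtain ⟨κF, hκF0, hκF1⟩ := exists_rat_btwn (show (0 : ℝ) < δ * kr by positivity)
  -- the radius
  obtain ⟨xq, hxq⟩ : ∃ xq : ℝ, xq = b * Y + 1 := ⟨_, rfl⟩
  have hbY : 0 ≤ b * Y := mul_nonneg (by linarith) (by linarith)
  obtain ⟨Kv, hKv⟩ : ∃ Kv : ℝ, Kv = max K₁ 0 + Kr + β + a + (ne + b * (n + 2) + n + 10) + xq +
    CF + 60 + kg := ⟨_, rfl⟩
  have hbn : 0 ≤ b * ((n : ℝ) + 2) := by positivity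
  have hm1 := le_max_left K₁ 0
  have hm2 := le_max_right K₁ 0
  obtain ⟨K', hK'⟩ : ∃ K' : ℝ, K' = Kv + b + 2 := ⟨_, rfl⟩
  have hK₁K : K₁ ≤ K' := by linarith
  -- the windows of the chain
  obtain ⟨N', hN'⟩ : ∃ N' : ℕ, N' = Nv + (Nf + NN + 3) := ⟨_, rfl⟩
  obtain ⟨V', hV'⟩ : ∃ V' : ℕ → ℝ, V' = cmb Nv Vv (fun k => if k < Nf + NN + 1 then
    ((k : ℝ) - Nf) * ρ else if k = Nf + NN + 1 then kr + kg else a + 1) := ⟨_, rfl⟩
  have va1 : ∀ k < Nv, V' k = Vv k := fun k hk => by rw [hV', cmb_l hk]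
  have va2 : ∀ k < Nf + NN + 1, V' (Nv + k) = ((k : ℝ) - Nf) * ρ := fun k hk => by
    rw [hV', cmb_r, if_pos hk]
  have va3 : V' (Nv + (Nf + NN + 1)) = kr + kg := by
    rw [hV', cmb_r, if_neg (by omega), if_pos rfl]
  have va4 : V' (Nv + (Nf + NN + 2)) = a + 1 := by
    rw [hV', cmb_r, if_neg (by omega), if_neg (by omega)]
  have hVK : ∀ k < N', |V' k| ≤ K' := fun k hk => by
    rw [abs_le]
    rcases Nat.lt_or_ge k Nv with h1 | h1
    · rw [va1 k h1]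
      have := hVv k h1
      constructor <;> linarith
    · obtain ⟨j, rfl⟩ : ∃ j, k = Nv + j := ⟨k - Nv, by omega⟩
      rcases Nat.lt_or_ge j (Nf + NN + 1) with h2 | h2
      · rw [va2 j h2]
        have h3 : (0 : ℝ) ≤ j * ρ := by positivity
        have h4 : (j : ℝ) * ρ ≤ (Nf + NN) * ρ :=
          mul_le_mul_of_nonneg_right (by exact_mod_cast (by omega : j ≤ Nf + NN)) hρ0.le
        constructor <;> linarith
      · rcases Nat.eq_or_lt_of_le h2 with h3 | h3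
        · rw [← h3, va3]
          constructor <;> linarith
        · have h4 : j = Nf + NN + 2 := by omega
          rw [h4, va4]
          constructor <;> linarith
  obtain ⟨εF, hεF, hF⟩ := hF K' hK₁K
  refine ⟨lam, K', N', V', by linarith, fun k hk => ?_, min (min εF εb) (min (σ / 16) (1 / 600)),
    by positivity, ?_⟩
  · have := abs_le.1 (hVK k hk)
    exact ⟨this.1, this.2⟩
  obtain ⟨ε, hε⟩ : ∃ ε, ε = min (min εF εb) (min (σ / 16) (1 / 600)) := ⟨_, rfl⟩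
  have hε0 : 0 < ε := by rw [hε]; positivity
  have ε1 : ε ≤ εF := by rw [hε]; exact (min_le_left _ _).trans (min_le_left _ _)
  have ε2 : ε ≤ εb := by rw [hε]; exact (min_le_left _ _).trans (min_le_right _ _)
  have ε3 : 16 * ε ≤ σ := by
    have : ε ≤ σ / 16 := by rw [hε]; exact (min_le_right _ _).trans (min_le_left _ _)
    linarith
  have ε4 : 600 * ε ≤ 1 := by
    have : ε ≤ 1 / 600 := by rw [hε]; exact (min_le_right _ _).trans (min_le_right _ _)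
    linarith
  rw [← hε]
  intro S g₀ P θ P₂ θ₂ Eb e₂ c Pt r L T G g hG hg hder hZ
  obtain ⟨p₀, M₀, B₀, B₁, hB, hF⟩ := hF ε hε0 ε1 S g₀ P θ P₂ θ₂ Eb e₂ c Pt r L T G g hG hg hder hZ
  refine ⟨cmT M₀ (fun j => Sum.inl (p₀ j)) (fun j => Sum.inr (if j = 0 then
      Sum.inl (2, CF, 1, κF) else Sum.inr (if j = 1 then Sum.inl () else Sum.inr ()))), M₀ + 3,
    cmb M₀ B₀ (fun _ => kr - (CF + 13 - ν)), cmb M₀ B₁ (fun _ => kr - (CF / 2 + 28)),
    fun j hj => ?_, fun k₀ hQ => ?_⟩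
  · rcases Nat.lt_or_ge j M₀ with h1 | h1
    · rw [cmb_l h1, cmb_l h1]
      exact hB j h1
    · obtain ⟨i, rfl⟩ : ∃ i, j = M₀ + i := ⟨j - M₀, by omega⟩
      rw [cmb_r, cmb_r]
      linarith
  obtain ⟨qF, hqF, hF⟩ := hF k₀ (fun j hj => by
    have h1 := hQ j (by omega)
    rw [cmT_l hj] at h1
    exact h1)
  have hCh : ChUQ () (k₀ (M₀ + 1)) S P θ c Pt r L T κ G g := by
    have h1 := hQ (M₀ + 1) (by omega)
    rw [cmT_r, if_neg one_ne_zero, if_pos rfl] at h1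
    exact h1
  have hSr : SrQ () (k₀ (M₀ + 2)) S P θ c Pt r L T κ G g := by
    have h1 := hQ (M₀ + 2) (by omega)
    rw [cmT_r, if_neg (by norm_num), if_neg (by norm_num)] at h1
    exact h1
  refine ⟨min qF ((1 / 2) ^ k₀ M₀), lt_min hqF (by positivity), ?_⟩
  intro q t x hqq hx R
  have hq := R.q0
  obtain ⟨hG0, hx1, hx2, hfa⟩ := hx (M₀ + 0) (by omega)
  rw [cmb_r] at hx1 hx2
  have hx1 : t + (kr - (CF + 13 - ν)) * q ≤ x M₀ := hx1
  have hx2 : x M₀ ≤ t + (kr - (CF / 2 + 28)) * q := hx2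
  have hfa : FaQ (2, CF, 1, κF) (k₀ M₀) S P θ c Pt r L T κ G (x M₀) := by
    rw [cmT_r] at hfa
    exact hfa
  -- the family
  obtain ⟨S₁, Ψ, ρw, hρw, hρw1, hne₁, hsub₁, hΨs, hΨp, hΨe, e1, he1, hrow⟩ := hF q t x
    (lt_of_lt_of_le hqq (min_le_left _ _)) (fun j hj => by
      obtain ⟨h4, h5, h6, h7⟩ := hx j (by omega)
      rw [cmb_l hj] at h5 h6
      rw [cmT_l hj] at h7
      exact ⟨h4, h5, h6, h7⟩) _ _ _ _ _ R (fun k hk => ⟨k, by omega, cmb_l hk, cmb_l hk⟩)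
    (fun k hk => ⟨k, by omega, va1 k hk⟩)
  have R₁' := R.sub hne₁ hsub₁
  have hK'0 : 0 < K' := by linarith
  obtain ⟨S', hne₂, hsub₂, hlb⟩ := hlab R₁' (by norm_num) hK'0 hVK (σ / 8 * q) (by positivity)
  have hsub : Pool.ALT.SubC S' S := fun τ J F A h => hsub₁ τ J F A (hsub₂ τ J F A h)
  have R' := R₁'.sub hne₂ hsub₂
  have s1 : Sl 1 = 1 := by
    have h1 := R.kd 1 (by norm_num)
    rw [κ1] at h1
    exact h1
  -- the record at the window of the velocity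
  obtain ⟨tv, htv⟩ : ∃ tv, tv = t + kr * q := ⟨_, rfl⟩
  obtain ⟨Av, hAv⟩ : ∃ Av : ℕ → ℝ, Av = fun k => if k = 0 then 3 - kr else
    if k ≤ Nf then -(kr + Nf * ρ) + ((k - 1 : ℕ) : ℝ) * ρ else if k = Nf + 1 then 3 - kr else
      a - kr := ⟨_, rfl⟩
  obtain ⟨Wv, hWv⟩ : ∃ Wv : ℕ → ℝ, Wv = fun k => if k = 0 then -kr else
    if k ≤ Nf then -(kr + Nf * ρ) + ((k - 1 : ℕ) : ℝ) * ρ else -β - kr := ⟨_, rfl⟩
  have av0 : Av 0 = 3 - kr := by rw [hAv]; simp only [if_true]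
  have wv0 : Wv 0 = -kr := by rw [hWv]; simp only [if_true]
  have av1 : ∀ k < Nf, Av (k + 1) = -(kr + Nf * ρ) + k * ρ := fun k hk => by
    rw [hAv]
    simp only [if_neg (Nat.succ_ne_zero k), if_pos (show k + 1 ≤ Nf by omega),
      Nat.add_sub_cancel]
  have wv1 : ∀ k < Nf, Wv (k + 1) = -(kr + Nf * ρ) + k * ρ := fun k hk => by
    rw [hWv]
    simp only [if_neg (Nat.succ_ne_zero k), if_pos (show k + 1 ≤ Nf by omega),
      Nat.add_sub_cancel]
  have av2 : Av (Nf + 1) = 3 - kr := by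
    rw [hAv]
    simp only [if_neg (Nat.succ_ne_zero Nf), if_neg (show ¬ Nf + 1 ≤ Nf by omega), if_true]
  have wv2 : Wv (Nf + 1) = -β - kr := by
    rw [hWv]
    simp only [if_neg (Nat.succ_ne_zero Nf), if_neg (show ¬ Nf + 1 ≤ Nf by omega)]
  have av3 : Av (Nf + 1 + 1) = a - kr := by
    rw [hAv]
    simp only [if_neg (Nat.succ_ne_zero (Nf + 1)), if_neg (show ¬ Nf + 1 + 1 ≤ Nf by omega),
      if_neg (show ¬ Nf + 1 + 1 = Nf + 1 by omega)]
  have wv3 : Wv (Nf + 1 + 1) = -β - kr := by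
    rw [hWv]
    simp only [if_neg (Nat.succ_ne_zero (Nf + 1)), if_neg (show ¬ Nf + 1 + 1 ≤ Nf by omega)]
  have Rv := R'.dmv (x := kr) (B := b) (K₁ := Kv) (N₁ := Nf + 3) (A₁ := Av) (V₁ := Wv)
    (N₁' := N') (V₁' := fun k => V' k - kr) (by norm_num) hS₂ hVK hkr0.le hkr1 (by
      show |Sl 3| ≤ b
      rw [s3, abs_of_nonneg (by linarith)]) (by linarith) (by linarith) (by linarith)
    (fun k hk => by
      rcases Nat.eq_zero_or_pos k with rfl | h1
      · refine Or.inl ⟨Nr, by omega, ?_, ?_⟩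
        · have e : cmb Nr Ar (fun _ => (3 : ℝ)) (Nr + 0) = 3 := cmb_r 0
          rw [av0]
          exact (by ring : kr + (3 - kr) = 3).trans e.symm
        · have e : cmb Nr Vr (fun k => if k = 0 then 0 else -β) (Nr + 0) = 0 := by
            rw [cmb_r, if_pos rfl]
          rw [wv0]
          exact (by ring : kr + -kr = 0).trans e.symm
      · obtain ⟨j, rfl⟩ : ∃ j, k = j + 1 := ⟨k - 1, by omega⟩
        rcases Nat.lt_or_ge j Nf with h2 | h2
        · refine Or.inr ⟨Nv + j, by omega, ?_, ?_⟩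
          · rw [av1 j h2, va2 j (by omega)]
            ring
          · rw [wv1 j h2, va2 j (by omega)]
            ring
        · rcases Nat.eq_or_lt_of_le h2 with h3 | h3
          · subst h3
            refine Or.inl ⟨Nr + 1, by omega, ?_, ?_⟩
            · rw [cmb_r, av2]
              ring
            · rw [cmb_r, if_neg one_ne_zero, wv2]
              ring
          · have h4 : j = Nf + 1 := by omega
            subst h4
            refine Or.inl ⟨jr, by omega, ?_, ?_⟩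
            · rw [cmb_l hjr, hjA, av3]
              ring
            · rw [cmb_l hjr, hjV, wv3]
              ring) (fun k hk => ⟨k, hk, by ring⟩)
  rw [← htv] at Rv hrow
  -- the lists
  obtain ⟨Ax, hAx⟩ : ∃ Ax : ℕ → ℝ, Ax = fun k => Av (k + 1) := ⟨_, rfl⟩
  obtain ⟨Vx, hVx⟩ : ∃ Vx : ℕ → ℝ, Vx = fun k => Wv (k + 1) := ⟨_, rfl⟩
  have ax : ∀ k, Ax k = Av (k + 1) := fun k => by rw [hAx]
  have vx : ∀ k, Vx k = Wv (k + 1) := fun k => by rw [hVx]
  have hNfρ : 0 ≤ (Nf : ℝ) * ρ := by positivity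
  have hkρ : ∀ k < Nf, 0 ≤ (k : ℝ) * ρ ∧ (k : ℝ) * ρ ≤ Nf * ρ := fun k hk =>
    ⟨by positivity, mul_le_mul_of_nonneg_right (by exact_mod_cast hk.le) hρ0.le⟩
  have gr : GrN 3 ρ NN 0 0 NN NN :=
    { M1 := by rw [hNN]; omega
      pP := le_rfl
      hN := by ring
      hg := by ring
      yr := hNρ.symm
      r0 := hρ0 }
  have H : LsN (-kr) 3 ρ NN 0 (Nf + 2) Ax Vx (Nf + 3) Av Wv N' (fun k => V' k - kr) Kv :=
    { grid := fun j hj => ⟨Nv + (Nf + j), by omega, by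
        show V' (Nv + (Nf + j)) - kr = -kr + j * ρ
        rw [va2 (Nf + j) (by omega)]
        push_cast
        ring⟩
      pair := fun j h1 h2 => by
        have h3 : j = 1 := by omega
        subst h3
        refine ⟨0, by omega, ?_, wv0⟩
        rw [av0]
        push_cast
        ring
      ext := fun j hj => ⟨j + 1, by omega, (ax j).symm, (vx j).symm⟩
      x0 := fun j hj => by
        rw [ax, vx]
        rcases Nat.lt_or_ge j Nf with h2 | h2
        · rw [av1 j h2, wv1 j h2]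
          have := hkρ j h2
          exact ⟨by linarith [this.1], le_rfl, by linarith [this.2]⟩
        · rcases Nat.eq_or_lt_of_le h2 with h3 | h3
          · subst h3
            rw [av2, wv2]
            exact ⟨by linarith, by linarith, by linarith⟩
          · have h4 : j = Nf + 1 := by omega
            subst h4
            rw [av3, wv3]
            exact ⟨by linarith, by linarith, by linarith⟩
      o0 := by linarith
      o1 := by
        push_cast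
        linarith }
  have HL : VLs n R₁ (R₁ * (n + 1)) NN Nf (Nf + 2) kr ρ kg Kv Ax Vx :=
    { N1 := by
        rw [hNN]
        have : R₁ ≤ n * R₁ := Nat.le_mul_of_pos_left _ hn
        have e : R₁ * (n + 1) = n * R₁ + R₁ := by ring
        omega
      NR := le_rfl
      fx := by omega
      ax := fun j hj => by rw [ax, av1 j hj]
      vx := fun j hj => by rw [vx, wv1 j hj]
      k0 := by linarith
      k2 := by linarith
      k3 := by linarith }
  have hnod : ∀ k < NN + 0 + 2 + (Nf + 2), NodF S' c 3 D L (Eb 3) (Eb 3)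
      (nAA tv q (-kr) 3 ρ NN 0 Ax k) (nWW tv q (-kr) ρ NN 0 Vx k) := fun k hk => by
    rcases n_cases (Ng := NN) (P := 0) (Nx := Nf + 2) hk with h1 | ⟨j, h1, h2, rfl⟩ | ⟨j, h1, rfl⟩
    · obtain ⟨i, hi, e⟩ := H.grid k h1
      rw [nAA_ball h1, nWW_ball h1]
      have h3 := (nodA Rv (by norm_num) i hi).up (show D₃ ≤ D by omega)
      beta_reduce at h3 e
      rwa [e] at h3
    · obtain ⟨i, hi, e3, e4⟩ := H.pair j h1 h2
      rw [nAA_pair h1 h2, nWW_pair h1 h2]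
      have h3 := (nodB Rv (by norm_num) i hi).1.up (show D₂ ≤ D by omega)
      rwa [e3, e4] at h3
    · obtain ⟨i, hi, e3, e4⟩ := H.ext j h1
      rw [nAA_ext, nWW_ext]
      have h3 := (nodB Rv (by norm_num) i hi).1.up (show D₂ ≤ D by omega)
      rwa [e3, e4] at h3
  -- the numbers of the windows
  have hKvq : 0 ≤ Kv * q := mul_nonneg (by linarith) hq.le
  have hεq : 0 < ε * q := mul_pos hε0 hq
  have hσq : 0 < σ * q := mul_pos hσ0 hq
  have hεσq : 16 * (ε * q) ≤ σ * q := by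
    have := mul_le_mul_of_nonneg_right ε3 hq.le
    linarith
  have hσ1q : σ * q ≤ 1 / 8 * q := mul_le_mul_of_nonneg_right hσ1 hq.le
  have hbx : ∀ x : ℝ, |x| ≤ K' → |t + x * q - t| ≤ K' * q := fun x h1 => by
    rw [add_sub_cancel_left, abs_mul, abs_of_pos hq]
    exact mul_le_mul_of_nonneg_right h1 hq.le
  have hwk : ∀ k ≤ NN, Nv + (Nf + k) < N' ∧ V' (Nv + (Nf + k)) = k * ρ ∧ 0 ≤ (k : ℝ) * ρ ∧
      (k : ℝ) * ρ ≤ 3 := fun k hk => by
    refine ⟨by omega, ?_, by positivity, ?_⟩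
    · rw [va2 _ (by omega)]
      push_cast
      ring
    · rw [← hNρ]
      exact mul_le_mul_of_nonneg_right (by exact_mod_cast hk) hρ0.le
  have hAk : ∀ k ≤ NN, nAA tv q (-kr) 3 ρ NN 0 Ax (nι NN NN k) = t + k * ρ * q := fun k hk => by
    rw [nι_le hk, nAA_ball hk, htv]
    ring
  have hL3k : ∀ k ≤ NN, |L 3 (t + k * ρ * q) (t + k * ρ * q) - L 3 t t - b * (k * ρ * q)| ≤
      ε * q := fun k hk => by
    obtain ⟨-, -, h1, h2⟩ := hwk k hk
    have h3 := R.dL 3 (by norm_num) _ (hbx (k * ρ) (abs_le.2 ⟨by linarith, by linarith⟩))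
    rw [s3, add_sub_cancel_left] at h3
    exact h3
  have ewn : tv + -(Y + kr) * q = t + -Y * q := by
    rw [htv]
    ring
  have eow : tv + -kr * q = t := by
    rw [htv]
    ring
  have hGk : ∀ k < N', t + V' k * q ∈ G := R.memG.2
  -- the blind labels
  have hbl : ∀ k ≤ NN + (0 - 0), BlB S' c 2 (c 3) (tv + -(Y + kr) * q)
      (nAA tv q (-kr) 3 ρ NN 0 Ax (nι NN NN k)) D D
      ((fun k : ℕ => L 3 (t + k * ρ * q) (t + k * ρ * q) - σ / 4 * q) k)
      ((fun k : ℕ => L 2 (t + k * ρ * q) (t + k * ρ * q) - σ / 4 * q) k)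
      ((fun k : ℕ => L 2 (t + k * ρ * q) (t + k * ρ * q) - L 3 (t + k * ρ * q) (t + k * ρ * q) +
        2 * (σ / 4) * q) k) Ψ := fun k hk => by
    obtain ⟨h1, h2, h3, h4⟩ := hwk k (by omega)
    rw [hAk k (by omega), ewn]
    have h5 := hblb R' κ0 κ1 κ2 rfl hb3 s3 hε0.le ε2 (k := Nv + (Nf + k))
      (j := Nv + (Nf + NN + 2)) h1 (by omega) (y := 3) (a := a) (β := β) (μ := μ) (ρ := ρw)
      (by rw [h2]; exact h3) (by rw [h2]; exact h4) va4 hya (by linarith)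
      (by rw [h2]; exact hμ2 _ h3 h4) (by linarith) (by linarith) hρw hρw1
      (fun i hi l hl => hSr _ (hGk _ h1) i (by omega) l hl) (by
        obtain ⟨rd, h6, h7⟩ := hCh _ (hGk _ h1)
        have h8 := h7.pre 3 (by norm_num) le_rfl
        intro e he
        exact (h8 e he).sub hsub) (wn := t + -Y * q)
      (p₂ := L 2 (t + k * ρ * q) (t + k * ρ * q) - σ / 4 * q) (Kn := D) (Ku := D) (Ψ := Ψ)
      (fun J F A V z z' G hG => (hΨp J F A V z z' G hG).2)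
    rw [h2] at h5
    exact h5
  -- the labels
  have hl3 : ∀ k ≤ NN + (0 - 0), ∃ χ : ℝ, 0 < χ ∧ Bas S' (fun J F A => ∃ (P₁ : ℕ) (V₁ : Type)
      (z₁ : PtT F → V₁) (z₁' : LnT F → V₁) (G₁ : V₁ → MvPolynomial (Option (Fin 4)) ℝ),
      LbP F ((range 3).image c) (c 3) D J ⌊nAA tv q (-kr) 3 ρ NN 0 Ax (nι NN NN k) * J⌋₊ P₁ A z₁ z₁'
        G₁ ∧ ((fun k : ℕ => L 3 (t + k * ρ * q) (t + k * ρ * q) - σ / 4 * q) k + χ) * J ≤ P₁) :=
      fun k hk => by
    obtain ⟨h1, h2, h3, h4⟩ := hwk k (by omega)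
    refine ⟨σ / 8 * q, by positivity, Bas.mono 0 (hlb _ h1 3 le_rfl) ?_⟩
    rintro J - F A ⟨V₁, z₁, z₁', G₁, P₁, h5, h6⟩
    rw [h2] at h5 h6
    rw [hAk k (by omega)]
    refine ⟨P₁, V₁, z₁, z₁', G₁, h5.mono (Finset.Subset.refl _) (by omega) le_rfl, ?_⟩
    rw [show L 3 (t + k * ρ * q) (t + k * ρ * q) - σ / 4 * q + σ / 8 * q =
      L 3 (t + k * ρ * q) (t + k * ρ * q) - σ / 8 * q by ring]
    exact h6
  have hl2 : ∀ k ≤ NN + (0 - 0), ∃ χ : ℝ, 0 < χ ∧ Bas S' (fun J F A => ∃ (P₁ : ℕ) (V₁ : Type)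
      (z₁ : PtT F → V₁) (z₁' : LnT F → V₁) (G₁ : V₁ → MvPolynomial (Option (Fin 4)) ℝ),
      LbP F ((range 2).image c) (c 2) D J ⌊nAA tv q (-kr) 3 ρ NN 0 Ax (nι NN NN k) * J⌋₊ P₁ A z₁ z₁'
        G₁ ∧ ((fun k : ℕ => L 2 (t + k * ρ * q) (t + k * ρ * q) - σ / 4 * q) k + χ) * J ≤ P₁) :=
      fun k hk => by
    obtain ⟨h1, h2, h3, h4⟩ := hwk k (by omega)
    refine ⟨σ / 8 * q, by positivity, Bas.mono 0 (hlb _ h1 2 (by norm_num)) ?_⟩
    rintro J - F A ⟨V₁, z₁, z₁', G₁, P₁, h5, h6⟩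
    rw [h2] at h5 h6
    rw [hAk k (by omega)]
    refine ⟨P₁, V₁, z₁, z₁', G₁, h5.mono (Finset.Subset.refl _) (by omega) le_rfl, ?_⟩
    rw [show L 2 (t + k * ρ * q) (t + k * ρ * q) - σ / 4 * q + σ / 8 * q =
      L 2 (t + k * ρ * q) (t + k * ρ * q) - σ / 8 * q by ring]
    exact h6
  -- the mixed derivative
  have hmx' : MxS S' c D D' (NN + 0 + 2 + (Nf + 2)) L (Eb 3) (Eb 3) (σ * q) (σ * q)
      (tv + -(Y + kr) * q) (nAA tv q (-kr) 3 ρ NN 0 Ax) (nWW tv q (-kr) ρ NN 0 Vx)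
      (nσ NN 0 NN NN) (L 3 (nAA tv q (-kr) 3 ρ NN 0 Ax (nι NN NN 0))
        (nWW tv q (-kr) ρ NN 0 Vx (nι NN NN 0)) +
        b * (nAA tv q (-kr) 3 ρ NN 0 Ax (nι NN NN NN) - nAA tv q (-kr) 3 ρ NN 0 Ax (nι NN NN 0)) -
        0) Ψ := by
    have g1 : nAA tv q (-kr) 3 ρ NN 0 Ax (nι NN NN 0) = t := by
      rw [hAk 0 (Nat.zero_le _)]
      push_cast
      ring
    have g2 : nWW tv q (-kr) ρ NN 0 Vx (nι NN NN 0) = t := by
      rw [nι_le (Nat.zero_le _), nWW_ball (Nat.zero_le _), htv]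
      push_cast
      ring
    have g3 : nAA tv q (-kr) 3 ρ NN 0 Ax (nι NN NN NN) = t + 3 * q := by
      rw [hAk NN le_rfl, hNρ]
    have g4 : nσ NN 0 NN NN = NN + 1 := by
      unfold nσ
      omega
    rw [g1, g2, g3, g4, ewn, sub_zero, add_sub_cancel_left]
    refine hmx R' κ2 κ3 hb3 s3 hε0.le (y := 3) (a := a) (β := β) (μ := μ) (ρ := ρw) (by norm_num)
      hya (by linarith) hαβ hμ1 (by linarith) (by linarith) hρw hρw1 hσ0 (by linarith) hσC hDD'
      (by omega) (i := NN + 1) (j := NN + 0 + 2 + Nf) (k := NN + 0 + 2 + (Nf + 1)) (by omega)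
      (by omega) ?_ ?_ ?_ ?_ ?_ ?_ (fun J F A V z z' G hG => (hΨp J F A V z z' G hG).2)
    · rw [nAA_pair le_rfl (by omega), htv]
      push_cast
      ring
    · rw [nWW_pair le_rfl (by omega), htv]
      ring
    · rw [nAA_ext, ax, av2, htv]
      ring
    · rw [nWW_ext, vx, wv2, htv]
      ring
    · rw [nAA_ext, ax, av3, htv]
      ring
    · rw [nWW_ext, vx, wv3, htv]
      ring
  -- the free velocities
  obtain ⟨bb, hbb⟩ : ∃ bb, bb = tv + -(kr + Nf * ρ) * q := ⟨_, rfl⟩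
  have hbbG : bb ∈ G := by
    have h1 := hGk (Nv + 0) (by omega)
    rw [va2 0 (by omega)] at h1
    have e : bb = t + ((0 : ℕ) - (Nf : ℝ)) * ρ * q := by
      rw [hbb, htv]
      push_cast
      ring
    rw [e]
    exact h1
  have hfa' := hfa.sub hsub
  have hNfq1 : (CF + 27) * q ≤ (kr + Nf * ρ) * q := mul_le_mul_of_nonneg_right (by linarith) hq.le
  have hNfq2 : (kr + Nf * ρ) * q ≤ (CF + 28) * q := mul_le_mul_of_nonneg_right (by linarith) hq.le
  obtain ⟨hFq, Pq, eF, hH1, hH2, heF, hPq, hP0, hP1, k₂, hk₂, hfree⟩ := u_frm Rv (by norm_num) κ1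
    (by linarith) (by linarith) (CF := CF) (k₀ := k₀ M₀) (ν := ν) (ν₁ := kg) (κF := κF)
    (x₀ := x M₀) (bb := bb) (fun k hk => by
      have h1 := hfa'.free (by norm_num) (fun l hl => by
        have hl' : l < 2 := hl
        have : l = 0 ∨ l = 1 := by omega
        rcases this with rfl | rfl
        · exact κ0
        · exact κ1) (by norm_num) (by norm_num) (by exact_mod_cast hκF0) k hk
      push_cast at h1
      exact h1) hbbG hν0 (by linarith) (by linarith) (by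
      rw [htv]
      linarith) (by
      rw [htv]
      linarith) (by rw [hbb]; linarith) (by rw [hbb]; linarith) hCF (by linarith)
    (lt_of_lt_of_le hqq (min_le_right _ _))
  -- the numbers of the far windows
  have hRbx : ∀ x : ℝ, |x| ≤ Kv → |tv + x * q - tv| ≤ Kv * q := fun x h1 => by
    rw [add_sub_cancel_left, abs_mul, abs_of_pos hq]
    exact mul_le_mul_of_nonneg_right h1 hq.le
  have hbbK : |bb - tv| ≤ Kv * q := by
    rw [hbb]
    exact hRbx _ (abs_le.2 ⟨by linarith, by linarith⟩)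
  have hL1b := abs_le.1 (Rv.dL 1 (by norm_num) bb hbbK)
  rw [s1] at hL1b
  have hvq : 0 < v * q := mul_pos hv0 hq
  have hv2q : 16 * (v * q) ≤ φ * q := by
    have := mul_le_mul_of_nonneg_right hv2 hq.le
    linarith
  have hv3q : 400 * (v * q) ≤ q := by
    have := mul_le_mul_of_nonneg_right hv3 hq.le
    linarith
  have hv4q : (4 * Cg + 8) * (v * q) ≤ 1 / 4 * q := by
    have := mul_le_mul_of_nonneg_right hv4 hq.le
    linarith
  have hVF : VFd L b n Cg Nf tv q kr ρ v kg bb e1 eF (fun l => L l tv tv - φ * q)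
      (L 3 tv tv - q / 4) (fun l j => L l tv tv + kf * q - (j : ℕ) * tv)
      (L 3 tv tv - tv + (b - 1) * q) Pq (fun i x => L i x x - (1 : ℝ) / 20 * hFq)
      (fun l => L l (tv + kg * q) (tv + kg * q)) :=
    { k1 := by
        rw [hnkr]
        linarith
      hb := hbb
      he := he1
      hF := heF
      nq := fun l hl j hj => by
        have h1 : kf * q + 8 * (v * q) ≤ kg * q := by
          have : (kf + 1) * q ≤ kg * q := mul_le_mul_of_nonneg_right (by linarith) hq.le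
          linarith
        show L l tv tv + kf * q - j * tv + 8 * v * q ≤ L l tv tv + kg * q - j * tv
        linarith
      n2 := by
        rw [hnkr]
        linarith
      p0 := by
        have : (kg + 8 * v) * q ≤ (ν + 2 * ε) * q :=
          mul_le_mul_of_nonneg_right (by linarith) hq.le
        linarith
      p1 := by
        have : (kg + 8 * v) * q ≤ ν * q :=
          mul_le_mul_of_nonneg_right (by linarith) hq.le
        linarith
      hw := fun l hl => le_rfl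
      hpf := fun l hl => by
        show L l tv tv - φ * q + 8 * v * q ≤ L l tv tv
        linarith
      hpr := by linarith
      hsn := fun l hl => by
        show L l bb bb - (1 : ℝ) / 20 * hFq + 8 * v * q ≤ L l bb bb + eF
        linarith }
  -- the event
  have hgap : (0 : ℝ) < ((NN : ℝ) - (R₁ * (n + 1) : ℕ)) * ρ * q := by
    have e : ((NN : ℝ) - (R₁ * (n + 1) : ℕ)) * ρ = 3 - (n * R₁ * ρ + kr) := by
      rw [sub_mul, hNρ]
      push_cast
      rw [hRρ]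
      ring
    rw [e, hnR]
    exact mul_pos (by linarith) hq
  have ht0 := R.t0
  have hYq : 0 ≤ Y * q := mul_nonneg (by linarith) hq.le
  have hYK : |t + -Y * q - t| ≤ K' * q := hbx _ (abs_le.2 ⟨by linarith, by linarith⟩)
  have hLY := abs_le.1 (R.dL 3 (by norm_num) _ hYK)
  rw [s3, add_sub_cancel_left] at hLY
  have hρwq : ρw * q ≤ 1 / 8 * q := mul_le_mul_of_nonneg_right hρw1 hq.le
  have hεq1 : 600 * (ε * q) ≤ q := by
    have := mul_le_mul_of_nonneg_right ε4 hq.le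
    linarith
  obtain ⟨wi, hwi, hfi, c₀, hc₀, hev⟩ := hev Rv s1 s3 κ3 (by linarith) H gr hnod (Db := D)
    (oV := -(Y + kr)) (Ψ := Ψ) (pN := L 3 (t + -Y * q) (t + -Y * q) - 2 * ρw * q)
    (p := fun k : ℕ => L 3 (t + k * ρ * q) (t + k * ρ * q) - σ / 4 * q)
    (p₂ := fun k : ℕ => L 2 (t + k * ρ * q) (t + k * ρ * q) - σ / 4 * q)
    (z := fun k : ℕ => L 2 (t + k * ρ * q) (t + k * ρ * q) -
      L 3 (t + k * ρ * q) (t + k * ρ * q) + 2 * (σ / 4) * q) le_rfl (by linarith) hΨs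
    (fun J F A V z z' G hG => by
      rw [ewn]
      exact (hΨp J F A V z z' G hG).1.mono (Finset.Subset.refl _) (by omega) le_rfl) hbl hl3 hl2
    (xq := xq) (xx := xq * q) (s₀ := σ * q) (s := σ * q) (by linarith)
    (mul_nonneg (by linarith) hq.le) le_rfl (by
      rw [eow, hxq]
      linarith) (fun k hk => by
      rw [eow, hAk k hk, add_sub_cancel_left]
      have h1 := abs_le.1 (hL3k k hk)
      linarith) (fun k hk => by
      rw [eow, hAk k hk, add_sub_cancel_left]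
      have h1 := abs_le.1 (hL3k k hk)
      linarith) (by linarith) hσq (by
      have := mul_le_mul_of_nonneg_right hσs hq.le
      linarith) (Dr := D') le_rfl (Lm := 0) le_rfl (by
      have := Rv.t0
      linarith) (Or.inr hmx') (N₁ := R₁ * (n + 1)) (R₁ := R₁) (Nf := Nf) (kf := kg) rfl hR1 hRρ
    hgap (by
      have h1 : (ne + b * ((n : ℝ) + 2) + n + 10) * kr ≤ (ne + b * ((n : ℝ) + 2) + n + 10) * 1 :=
        mul_le_mul_of_nonneg_left hkr1 (by positivity)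
      linarith) HL hVF (sf := fun i l => L l (tv + (((i : ℝ) + 1) * kr + ρ) * q)
        (tv + (((i : ℝ) + 1) * kr + ρ) * q)) (fun i _ l _ => le_rfl) (hΨe.sub hsub₂)
  -- the bounds at the windows
  have RT := Rv.tg 3 (by norm_num) (by norm_num)
  have htt : |tv - tv| ≤ Kv * q := by rw [sub_self, abs_zero]; exact hKvq
  have hroom : ∀ l ≤ 3, ∀ y : ℝ, |y - tv| ≤ Kv * q → L l y y + Eb 3 + 3 * Kv * q < 1 :=
    fun l hl y hy => RT.room l hl y hy
  have hEb := RT.Eb0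
  have ht0v : 0 < tv := by
    have := Rv.t0
    linarith
  have hkgq : (kg + b) * q ≤ 3 * Kv * q := mul_le_mul_of_nonneg_right (by linarith) hq.le
  have hbq : 0 ≤ b * q := mul_nonneg (by linarith) hq.le
  have hkgq0 : 0 ≤ kg * q := mul_nonneg (by linarith) hq.le
  have hkfq : kf * q ≤ kg * q := mul_le_mul_of_nonneg_right (by linarith) hq.le
  have hFulx : ∀ y ∈ G, FulC S' c 0 2 y (fun i => L i y y) := by
    intro y hy
    obtain ⟨u₁, rd, -, hch⟩ := (hfa'.ch 2 (by norm_num)).ch y hy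
    exact hch.ful
  have hkgG : tv + kg * q ∈ G := by
    have h1 := hGk (Nv + (Nf + NN + 1)) (by omega)
    rw [va3] at h1
    have e : tv + kg * q = t + (kr + kg) * q := by
      rw [htv]
      ring
    rw [e]
    exact h1
  have hfG : ∀ i < n, tv + (((i : ℝ) + 1) * kr + ρ) * q ∈ G := by
    intro i hi
    have h0 : R₁ * (i + 2) + 1 ≤ NN := by
      have h1 : R₁ * (i + 2) ≤ R₁ * (n + 1) := Nat.mul_le_mul_left _ (by omega)
      have h2 : R₁ * (n + 1) = n * R₁ + R₁ := by ring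
      have h3 : R₁ ≤ n * R₁ := Nat.le_mul_of_pos_left _ hn
      omega
    obtain ⟨h1, h2, -, -⟩ := hwk (R₁ * (i + 2) + 1) h0
    have h3 := hGk _ h1
    rw [h2] at h3
    have e : tv + (((i : ℝ) + 1) * kr + ρ) * q =
        t + ((R₁ * (i + 2) + 1 : ℕ) : ℝ) * ρ * q := by
      rw [htv, hRρ]
      push_cast
      ring
    rw [e]
    exact h3
  have hkgb : |tv + kg * q - tv| ≤ Kv * q := hRbx _ (abs_le.2 ⟨by linarith, by linarith⟩)
  refine hvoid (R₁ * (n + 1)) (kr * q) (v * q) (by positivity) hvq (S := S') (S' := S')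
    (fun _ _ _ _ h => h) RT.thr₂ Rv.tmh Rv.ne c (Rv.inj.mono (Set.Iio_subset_Iio (by norm_num)))
    (η := (σ * q + 3 * (σ * q)) / 7) (e0 := e₂ 3) (eg := e₂ 3) (wn := tv + -(Y + kr) * q)
    (wi := wi) (ai := fun i => wi (i + 1)) (fi := fun i => tv + (((i : ℝ) + 1) * kr + ρ) * q)
    (sf := fun i l => L l (tv + (((i : ℝ) + 1) * kr + ρ) * q) (tv + (((i : ℝ) + 1) * kr + ρ) * q))
    (Ψ := Ψ) hΨs RT.th₂0 (by positivity) (fun i hi => ?_) (fun i hi => ?_) hfi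
    (fun i hi => hFulx _ (hfG i hi)) (tt := tv) (aw := tv + kg * q) (bb := bb) (e1 := e1)
    (eF := eF) (pf := fun l => L l tv tv - φ * q) (pr := L 3 tv tv - q / 4)
    (Nf := fun l j => L l tv tv + kf * q - (j : ℕ) * tv) (N₂ := L 3 tv tv - tv + (b - 1) * q)
    (Pq := Pq) (sn := fun i x => L i x x - (1 : ℝ) / 20 * hFq)
    (sw := fun l => L l (tv + kg * q) (tv + kg * q)) ?_ (hFulx _ hkgG) (fun l hl j hj => ?_) ?_
    hPq (ρF := δ * (kr * q)) (κf := κF * hFq) (by positivity) le_rfl ?_ ?_ ⟨k₂, hk₂, hfree⟩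
    (fun Kf cF hcF => ?_) hc₀ hev
  · obtain ⟨h1, h2, h3, h4⟩ := hwi i hi.le
    exact ⟨h1.le, h2, h3, h4 3 le_rfl⟩
  · obtain ⟨h1, h2, h3, h4⟩ := hwi (i + 1) hi
    exact ⟨h1, h2, h3, h4 0 (by norm_num), h4 1 (by norm_num)⟩
  · have h1 := (abs_le.1 hkgb).2
    have h2 := Rv.t1
    linarith
  · have h1 := hroom l (by omega) tv htt
    have h2 : 0 ≤ (j : ℝ) * tv := mul_nonneg (Nat.cast_nonneg _) ht0v.le
    show L l tv tv + kf * q - j * tv ≤ 1
    linarith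
  · have h1 := hroom 3 le_rfl tv htt
    linarith
  · exact mul_nonneg (by exact_mod_cast hκF0.le) (by linarith)
  · calc (κF : ℝ) * hFq ≤ δ * kr * hFq := mul_le_mul_of_nonneg_right hκF1.le (by linarith)
      _ ≤ δ * kr * q := mul_le_mul_of_nonneg_left hH2 (by positivity)
      _ = δ * (kr * q) := by ring
  · have h1 := hrow (pr := L 3 tv tv - q / 4) (N₂ := L 3 tv tv - tv + (b - 1) * q) le_rfl (by
      have h1 := hroom 3 le_rfl tv htt
      linarith) (by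
      rw [s3]
      linarith) Kf cF hcF
    refine Bas.mono 0 (h1.sub hsub₂) ?_
    rintro J - F A ⟨V, z, hz, h2⟩
    refine ⟨V, z, hz, ?_⟩
    intro B hB hPB V₁ z₁ z₁' G₁ hG V₂ z₂ z₂' Q₁ q1 q2 q3 q4 q5 u hu
    refine (h2 B hB hPB V₁ z₁ z₁' G₁ hG V₂ z₂ z₂' Q₁ q1 q2 q3 q4 q5 u hu).trans (le_of_eq ?_)
    ring

end Pool.STV90
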