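import Pool.Agent.H77.STB.Nn12
import Pool.Agent.H90.STV.Fam

/-!
# No static fourth place with a slope which is no integer over a thin third place

`tni_void`: the class theorem: the second coordinate has slope one, the third one is thin, the fourth one
is static with a slope which is no integer and less than the slope of the third one plus one.
-/

set_option autoImplicit false

namespace Pool.STV90

open Finset Real MvPolynomial
open Pool.Agent.H49.Ent Pool.Agent.H32.Dense Pool.STK Pool.KA Pool.KSAT Pool.K2S Pool.PB Pool.S6C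
open Pool.GEN Pool.CHT Pool.NVX Pool.CHX
open Pool.STB65
open Pool.STB82 (nodF_rec nodF_pair)
open Pool.STB77 (NodF nni3_rec' recG_low)
open Pool.PKG (Kg RecG KgQ VoidG)
open Pool.GRD (LbP)
open Pool.ALT (Fml BlB)
open Pool.CR99 Pool.V1E
open Pool.V0F (her_ext)

/-- The coarse window below a fine one. -/
theorem coarse_ex {nc : ℕ} {δ y : ℝ} (hδ : 0 < δ) (hnc : (nc : ℝ) * δ = 2) (h0 : 0 ≤ y)
    (h2 : y ≤ 2) : ∃ i ≤ nc, (i : ℝ) * δ ≤ y ∧ y ≤ i * δ + δ := by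
  have h3 : 0 ≤ y / δ := div_nonneg h0 hδ.le
  have h4 := Nat.floor_le h3
  have h5 := Nat.lt_floor_add_one (y / δ)
  rw [le_div_iff₀ hδ] at h4
  rw [div_lt_iff₀ hδ] at h5
  refine ⟨⌊y / δ⌋₊, ?_, h4, by linarith⟩
  have h6 : (⌊y / δ⌋₊ : ℝ) * δ ≤ nc * δ := by rw [hnc]; linarith
  exact_mod_cast le_of_mul_le_mul_right h6 hδ

/-- **No static fourth place with a slope which is no integer over a thin third place**, if the slope
is less than the one of the third place plus one. -/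
theorem tni_void {n : ℕ} (hn : 3 < n) {h : ℝ} {Sl : ℕ → ℝ} {κ : ℕ → Kg} (s1 : Sl 1 = 1)
    (k2 : κ 2 = .thin) (k3 : κ 3 = .sta) (hni : ∀ b : ℕ, Sl 3 ≠ b) (hlt : Sl 3 < Sl 2 + 1) :
    VoidG n h Sl κ := by
  classical
  intro al _ K₀ _ S₀ hS₀
  obtain ⟨σ, hσ⟩ : ∃ σ, σ = Sl 3 := ⟨_, rfl⟩
  obtain ⟨α, hα⟩ : ∃ α, α = Sl 2 := ⟨_, rfl⟩
  rw [← hσ, ← hα] at hlt
  by_cases hok : 2 ≤ σ ∧ 1 < α
  swap
  · refine ⟨1, 0, fun _ => 0, fun _ => 0, le_rfl, fun k hk => absurd hk (Nat.not_lt_zero k),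
      fun S₂ _ => ⟨1, 0, fun _ => 0, le_rfl, fun k hk => absurd hk (Nat.not_lt_zero k), 1, one_pos,
      ?_⟩⟩
    intro S g₀ P θ P₂ θ₂ Eb e₂ c Pt r L T G g
    refine ⟨1, one_pos, fun q t _ R => hok ⟨?_, ?_⟩⟩
    · have h3 := R.kd 3 hn
      rw [k3] at h3
      rw [hσ]
      exact h3.1
    · have h2 := R.kd 2 (by omega)
      rw [k2] at h2
      rw [hα]
      exact h2.1
  obtain ⟨hσ2, hα1⟩ := hok
  obtain ⟨b, hb⟩ : ∃ b, b = ⌊σ⌋₊ := ⟨_, rfl⟩
  have hb1 : (b : ℝ) ≤ σ := by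
    rw [hb]
    exact Nat.floor_le (by linarith)
  have hb2 : σ < b + 1 := by
    rw [hb]
    exact Nat.lt_floor_add_one σ
  have hbne : (b : ℝ) < σ := lt_of_le_of_ne hb1 fun h => hni b (by rw [← hσ, h])
  have hb2' : 2 ≤ b := by
    rw [hb]
    exact Nat.le_floor (by exact_mod_cast hσ2)
  obtain ⟨lam, hlam⟩ : ∃ lam : ℝ, lam = min (σ - b) (b + 1 - σ) / 8 := ⟨_, rfl⟩
  have hlam0 : 0 < lam := by
    rw [hlam]
    exact div_pos (lt_min (by linarith) (by linarith)) (by norm_num)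
  have hlam1 : 8 * lam ≤ σ - b := by
    rw [hlam]
    linarith [min_le_left (σ - b) (b + 1 - σ)]
  have hlam2 : 8 * lam ≤ b + 1 - σ := by
    rw [hlam]
    linarith [min_le_right (σ - b) (b + 1 - σ)]
  -- the coarse windows
  obtain ⟨nc, hnc⟩ := exists_nat_ge (8 * σ / lam + 1)
  have hnc0 : (1 : ℝ) ≤ nc := by
    have : 0 ≤ 8 * σ / lam := by positivity
    linarith
  obtain ⟨δ, hδ⟩ : ∃ δ : ℝ, δ = 2 / nc := ⟨_, rfl⟩
  have hδ0 : 0 < δ := by rw [hδ]; positivity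
  have hncδ : (nc : ℝ) * δ = 2 := by rw [hδ]; field_simp
  have hσδ : σ * δ ≤ lam / 4 := by
    have h1 : 8 * σ / lam ≤ nc := by linarith
    rw [div_le_iff₀ hlam0] at h1
    rw [hδ, mul_div_assoc', div_le_iff₀ (by linarith)]
    linarith
  obtain ⟨β, hβ⟩ : ∃ β : ℝ, β = 1 + 2 / (α - 1) + 2 * σ / (1 + α - σ) := ⟨_, rfl⟩
  have hp1 : 0 < α - 1 := by linarith
  have hp2 : 0 < 1 + α - σ := by linarith
  have hq1 : 0 < 2 / (α - 1) := by positivity
  have hq2 : 0 < 2 * σ / (1 + α - σ) := by positivity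
  have hβ1 : 1 ≤ β := by rw [hβ]; linarith
  have hβ2 : 2 ≤ (α - 1) * β := by
    have h1 : (α - 1) * (2 / (α - 1)) = 2 := by field_simp
    have h2 : (α - 1) * (2 / (α - 1)) ≤ (α - 1) * β :=
      mul_le_mul_of_nonneg_left (by rw [hβ]; linarith) hp1.le
    linarith
  have hβ3 : 2 * σ ≤ (1 + α - σ) * β := by
    have h1 : (1 + α - σ) * (2 * σ / (1 + α - σ)) = 2 * σ := by field_simp
    have h2 : (1 + α - σ) * (2 * σ / (1 + α - σ)) ≤ (1 + α - σ) * β :=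
      mul_le_mul_of_nonneg_left (by rw [hβ]; linarith) hp2.le
    linarith
  have hβe : (σ - α) * β = β - (1 + α - σ) * β := by ring
  -- the first list
  obtain ⟨AL, hAL⟩ : ∃ AL : ℕ → ℝ, AL = fun k => if k ≤ nc + 1 then 3 else 2 := ⟨_, rfl⟩
  obtain ⟨VL, hVL⟩ : ∃ VL : ℕ → ℝ, VL = fun k => if k ≤ nc then (k : ℝ) * δ else
    if k ≤ nc + 2 then -β else 0 := ⟨_, rfl⟩
  have AL1 : ∀ k ≤ nc + 1, AL k = 3 := fun k hk => by rw [hAL]; exact if_pos hk
  have AL2 : ∀ k, nc + 1 < k → AL k = 2 := fun k hk => by rw [hAL]; exact if_neg (by omega)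
  have VL1 : ∀ k ≤ nc, VL k = k * δ := fun k hk => by rw [hVL]; exact if_pos hk
  have VL2 : ∀ k, nc < k → k ≤ nc + 2 → VL k = -β := fun k hk hk' => by
    rw [hVL]
    simp only [if_neg (show ¬ k ≤ nc by omega), if_pos hk']
  have VL3 : ∀ k, nc + 2 < k → VL k = 0 := fun k hk => by
    rw [hVL]
    simp only [if_neg (show ¬ k ≤ nc by omega), if_neg (show ¬ k ≤ nc + 2 by omega)]
  have hkδ : ∀ k ≤ nc, 0 ≤ (k : ℝ) * δ ∧ (k : ℝ) * δ ≤ 2 := fun k hk => by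
    refine ⟨by positivity, ?_⟩
    rw [← hncδ]
    exact mul_le_mul_of_nonneg_right (by exact_mod_cast hk) hδ0.le
  refine ⟨β + 3, nc + 4, AL, VL, by linarith, fun k hk => ?_, fun S₂ hS₂ => ?_⟩
  · rcases Nat.lt_or_ge nc k with h1 | h1
    · rcases Nat.lt_or_ge (nc + 2) k with h2 | h2
      · rw [VL3 k h2, AL2 k (by omega)]
        refine ⟨by linarith, by norm_num, by linarith⟩
      · rw [VL2 k h1 h2]
        rcases Nat.lt_or_ge (nc + 1) k with h3 | h3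
        · rw [AL2 k h3]
          refine ⟨by linarith, by linarith, by linarith⟩
        · rw [AL1 k h3]
          refine ⟨by linarith, by linarith, by linarith⟩
    · rw [VL1 k h1, AL1 k (by omega)]
      have := hkδ k h1
      exact ⟨by linarith [this.1], by linarith [this.2], by linarith⟩
  -- the degrees
  obtain ⟨D₁, hD₁, hblx⟩ := blx_sta n 2 S₂ (hS₀.trans hS₂)
  obtain ⟨D₂, hD₂, nodB⟩ := nodF_pair 3 S₂ (by norm_num) (hS₀.trans hS₂)
  obtain ⟨D₃, hD₃, nodA⟩ := nodF_rec 3 S₀ (by norm_num) hS₀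
  obtain ⟨D₄, hD₄, hlbp⟩ := lbp_bal n 3 S₀ (by norm_num) hS₀
  obtain ⟨D, hD⟩ : ∃ D, D = D₁ + bmd D₁ + D₂ + D₃ + D₄ := ⟨_, rfl⟩
  have hD1 : 1 ≤ D := by omega
  obtain ⟨C₀, D', ϰ, hDD', hϰ0, hϰ1, hnn⟩ := nni3_rec' n D b hD1 hb2' hbne hb2
  obtain ⟨C, hmx⟩ := mxs_row D D₁ hD1
  have hC₀ : (0 : ℝ) ≤ C₀ := Nat.cast_nonneg _
  have hC : (0 : ℝ) ≤ C := Nat.cast_nonneg _
  obtain ⟨ρ, hρ⟩ : ∃ ρ : ℝ, ρ = lam / 16 := ⟨_, rfl⟩
  have hρ0 : 0 < ρ := by rw [hρ]; positivity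
  have hρ1 : ρ ≤ 1 / 16 := by linarith
  obtain ⟨ς, hς⟩ : ∃ ς : ℝ, ς = min ϰ (1 / (16 * ((C₀ : ℝ) + C + 1))) := ⟨_, rfl⟩
  have hς0 : 0 < ς := by
    rw [hς]
    exact lt_min hϰ0 (by positivity)
  have hςϰ : ς ≤ ϰ := by rw [hς]; exact min_le_left _ _
  have hςC : 16 * ((C₀ : ℝ) + C + 1) * ς ≤ 1 := by
    have h1 : ς ≤ 1 / (16 * ((C₀ : ℝ) + C + 1)) := by rw [hς]; exact min_le_right _ _
    rw [le_div_iff₀ (by positivity)] at h1
    linarith
  have hς1 : ς ≤ 1 / 16 := by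
    have : 1 * ς ≤ ((C₀ : ℝ) + C + 1) * ς := mul_le_mul_of_nonneg_right (by linarith) hς0.le
    linarith
  have hςC0 : 16 * (C₀ * ς) ≤ 1 := by
    have : (C₀ : ℝ) * ς ≤ ((C₀ : ℝ) + C + 1) * ς :=
      mul_le_mul_of_nonneg_right (by linarith) hς0.le
    linarith
  have hςC1 : 16 * ((C + 1) * ς) ≤ 1 := by
    have : ((C : ℝ) + 1) * ς ≤ ((C₀ : ℝ) + C + 1) * ς :=
      mul_le_mul_of_nonneg_right (by linarith) hς0.le
    linarith
  obtain ⟨ε₀, hε₀, hblx⟩ := hblx (α := α) (b := σ) (ρ := ρ) (a := 3) (Ve := -β) (V₀ := 0) (Vm := 2)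
    (μ := β - 1 / 2) hρ0 (by linarith) (by linarith) (by norm_num) (by norm_num) (by linarith)
    (by linarith) (by linarith)
  obtain ⟨ε, hε⟩ : ∃ ε : ℝ, ε = min ε₀ (min (ς / 8) (ρ / 8)) := ⟨_, rfl⟩
  have hε0 : 0 < ε := by
    rw [hε]
    exact lt_min hε₀ (lt_min (by positivity) (by positivity))
  have hε1 : ε ≤ ε₀ := by rw [hε]; exact min_le_left _ _
  have hε2 : ε ≤ ς / 8 := by rw [hε]; exact (min_le_right _ _).trans (min_le_left _ _)
  have hε3 : ε ≤ ρ / 8 := by rw [hε]; exact (min_le_right _ _).trans (min_le_right _ _)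
  -- the balls
  obtain ⟨k₁, hk₁⟩ := exists_nat_ge (1 / ϰ + 1)
  have hk₁0 : (1 : ℝ) ≤ k₁ := by
    have : 0 ≤ 1 / ϰ := by positivity
    linarith
  have hk₁1 : 1 ≤ k₁ := by exact_mod_cast hk₁0
  obtain ⟨ν, hν⟩ : ∃ ν : ℝ, ν = 1 / k₁ := ⟨_, rfl⟩
  have hν0 : 0 < ν := by rw [hν]; positivity
  have hkν : (k₁ : ℝ) * ν = 1 := by rw [hν]; field_simp
  have hνϰ : ν ≤ ϰ := by
    have h1 : 1 / ϰ ≤ k₁ := by linarith
    rw [div_le_iff₀ hϰ0] at h1
    rw [hν, div_le_iff₀ (by linarith)]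
    linarith
  have hxk : ∀ k ≤ 2 * k₁, 0 ≤ (k : ℝ) * ν ∧ (k : ℝ) * ν ≤ 2 := fun k hk => by
    refine ⟨by positivity, ?_⟩
    have h1 : (k : ℝ) ≤ 2 * k₁ := by exact_mod_cast hk
    calc (k : ℝ) * ν ≤ 2 * k₁ * ν := mul_le_mul_of_nonneg_right h1 hν0.le
      _ = 2 := by rw [mul_assoc, hkν, mul_one]
  obtain ⟨K, hK⟩ : ∃ K : ℝ, K = β + σ + 10 := ⟨_, rfl⟩
  refine ⟨K, 2 * k₁ + 1, fun k => k * ν, by linarith, fun k hk => ?_, ε, hε0, ?_⟩
  · have := hxk k (by omega)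
    exact ⟨by linarith [this.1], by linarith [this.2]⟩
  intro S g₀ P θ P₂ θ₂ Eb e₂ c Pt r L T G g
  refine ⟨1, one_pos, fun q t _ R => ?_⟩
  have hq := R.q0
  -- the family
  obtain ⟨κ', hκ', hbx⟩ := hblx R (by omega) hε0.le hε1 hα.symm hσ.symm (Or.inr k2) k3
    (by linarith) (by linarith) (by linarith) (W := fun k => k * δ) (n := nc)
    (by push_cast; ring) (fun k hk => by
      have := hkδ k hk
      exact ⟨by linarith [this.1], this.2⟩)
    (fun k hk => ⟨k, by omega, AL1 k (by omega), VL1 k hk⟩)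
    ⟨nc + 1, by omega, AL1 _ le_rfl, VL2 _ (by omega) (by omega)⟩
  simp only [zero_mul, add_zero] at hbx
  obtain ⟨Ψ, hΨ⟩ : ∃ Ψ : Fml n, Ψ = BlR c 2 D₁ (t + 3 * q) (t + -β * q) (Eb 3 + ρ * q)
      (L 2 (t + -β * q) (t + -β * q) + (3 * q - -β * q) + ρ * q)
      (L 3 (t + 3 * q) (t + 3 * q) - ρ * q)
      (L 2 (t + -β * q) (t + -β * q) - L 3 (t + -β * q) (t + -β * q) - (β - 1 / 2) * q + ρ * q) t
      (BlP c 2 (bmd D₁) D₁ t (L 3 t t - ρ * q) (nc + 1) (fun k => t + k * δ * q)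
        (fun k => L 3 (t + k * δ * q) (t + k * δ * q) - ρ * q)
        (fun k => L 2 (t + k * δ * q) (t + k * δ * q) - L 3 (t + k * δ * q) (t + k * δ * q) +
          ρ * q)) := ⟨_, rfl⟩
  have hψb : Bas S (fun J F A => ∃ B : F.Ω → Prop, Sub B A ∧ Pe F.p A ≤ κ' * Pe F.p B ∧
      ∃ (V : Type) (z : PtT F → V) (z' : LnT F → V) (G : V → MvPolynomial (Option (Fin n)) ℝ),
        Ψ J F B V z z' G) := by
    rw [hΨ]
    exact blR_of hbx
  obtain ⟨e, he⟩ : ∃ e : ℝ, e = ρ * q / 4 := ⟨_, rfl⟩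
  have hρq : 0 < ρ * q := mul_pos hρ0 hq
  have he0 : 0 < e := by rw [he]; linarith
  -- the subclass
  obtain ⟨Φ, hΦ0, hΦs⟩ : ∃ Φ : ℕ → Stat n, (Φ 0 = fun J F A => ∃ (V : Type) (z : PtT F → V)
      (z' : LnT F → V) (G : V → MvPolynomial (Option (Fin n)) ℝ), Ψ J F A V z z' G) ∧
      ∀ k, Φ (k + 1) = fun J F A => k < 2 * k₁ + 1 → ∀ l ≤ 3, ∃ (V₁ : Type) (z₁ : PtT F → V₁)
        (z₁' : LnT F → V₁) (G₁ : V₁ → MvPolynomial (Option (Fin n)) ℝ) (P₁ : ℕ),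
        LbP F ((range l).image c) (c l) D J ⌊(t + k * ν * q) * J⌋₊ P₁ A z₁ z₁' G₁ ∧
        (L l (t + k * ν * q) (t + k * ν * q) - e) * J ≤ P₁ :=
    ⟨fun i => Nat.casesOn i (fun J F A => ∃ (V : Type) (z : PtT F → V)
      (z' : LnT F → V) (G : V → MvPolynomial (Option (Fin n)) ℝ), Ψ J F A V z z' G)
      (fun k J F A => k < 2 * k₁ + 1 → ∀ l ≤ 3, ∃ (V₁ : Type) (z₁ : PtT F → V₁)
        (z₁' : LnT F → V₁) (G₁ : V₁ → MvPolynomial (Option (Fin n)) ℝ) (P₁ : ℕ),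
        LbP F ((range l).image c) (c l) D J ⌊(t + k * ν * q) * J⌋₊ P₁ A z₁ z₁' G₁ ∧
        (L l (t + k * ν * q) (t + k * ν * q) - e) * J ≤ P₁), rfl, fun _ => rfl⟩
  have hKp : 0 < K := by linarith
  obtain ⟨S', hne, hsub, hΦ⟩ := her_ext R.ne Φ (fun i J F A B hBA hA => by
    rcases i with _ | k
    · rw [hΦ0] at hA ⊢
      obtain ⟨V, z, z', G', h1⟩ := hA
      rw [hΨ] at h1 ⊢
      exact ⟨V, z, z', G', h1.hs hBA⟩
    · rw [hΦs] at hA ⊢
      intro hk l hl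
      obtain ⟨V₁, z₁, z₁', G₁, P₁, h1, h2⟩ := hA hk l hl
      exact ⟨V₁, z₁, z₁', G₁, P₁, h1.sub hBA, h2⟩) (fun i => by
    rcases i with _ | k
    · refine ⟨κ', Bas.mono 0 hψb ?_⟩
      rintro J - F A ⟨B, h1, h2, h3⟩
      refine ⟨B, h1, h2, ?_⟩
      rw [hΦ0]
      exact h3
    · rcases Nat.lt_or_ge k (2 * k₁ + 1) with hk | hk
      · obtain ⟨K₁, hK₁, h1⟩ := hlbp R hn hKp k hk (by
          have := hxk k (by omega)
          rw [abs_of_nonneg this.1]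
          linarith [this.2]) e he0
        refine ⟨K₁, Bas.mono 0 h1 ?_⟩
        rintro J - F A ⟨B, h1, h2, h3⟩
        refine ⟨B, h1, h2, ?_⟩
        rw [hΦs]
        intro _ l hl
        obtain ⟨V₁, z₁, z₁', G₁, P₁, h4, h5⟩ := h3 l hl
        exact ⟨V₁, z₁, z₁', G₁, P₁, h4.mono (Finset.Subset.refl _) (by omega) le_rfl, h5⟩
      · refine ⟨1, 1, one_pos, 0, fun J _ F A _ => ⟨A, fun _ h => h, by rw [one_mul], ?_⟩⟩
        rw [hΦs]
        intro h1
        omega)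
  have R' := R.sub hne hsub
  have hex := hΦ 0
  rw [hΦ0] at hex
  -- the numbers of the record
  have hqK : ∀ x : ℝ, x ≤ K → x * q ≤ K * q := fun x hx => mul_le_mul_of_nonneg_right hx hq.le
  have hKq : β * q + 10 * q + σ * q = K * q := by rw [hK]; ring
  have hβq : q ≤ β * q := le_mul_of_one_le_left hq.le hβ1
  have hσq : 2 * q ≤ σ * q := mul_le_mul_of_nonneg_right hσ2 hq.le
  have ht0 := R.t0
  have ht1 := R.t1
  have hbx' : ∀ x : ℝ, t - β * q ≤ x → x ≤ t + 3 * q → |x - t| ≤ K * q := fun x h1 h2 => by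
    rw [abs_le]
    constructor <;> linarith
  have hεq : 0 < ε * q := mul_pos hε0 hq
  have W3 := R.tg 3 (by norm_num) hn
  have l3 : ∀ x : ℝ, t - β * q ≤ x → x ≤ t + 3 * q →
      |L 3 x x - L 3 t t - σ * (x - t)| ≤ ε * q := fun x h1 h2 => by
    have := R.dL 3 hn x (hbx' x h1 h2)
    rwa [← hσ] at this
  have l2 : ∀ x : ℝ, t - β * q ≤ x → x ≤ t + 3 * q →
      |L 2 x x - L 2 t t - α * (x - t)| ≤ ε * q := fun x h1 h2 => by
    have := R.dL 2 (by omega) x (hbx' x h1 h2)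
    rwa [← hα] at this
  have hkd2 := R.kd 2 (by omega)
  rw [k2] at hkd2
  have hkd3 := R.kd 3 hn
  rw [k3] at hkd3
  have hsta := hkd3.2
  have hthin := hkd2.2
  have hmon : ∀ l < n, ∀ x y : ℝ, t - β * q ≤ x → x ≤ y → y ≤ t + 3 * q → L l x x ≤ L l y y :=
    fun l hl x y h1 h2 h3 => (R.lawL l hl).mono (by linarith) le_rfl h2 h2 le_rfl (by linarith)
  -- the nodes
  obtain ⟨AA, hAA⟩ : ∃ AA : ℕ → ℝ, AA = fun k => if k ≤ 2 * k₁ then t + (k : ℝ) * ν * q else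
    if k ≤ 2 * k₁ + 2 then t + 2 * q else t + 3 * q := ⟨_, rfl⟩
  obtain ⟨WW, hWW⟩ : ∃ WW : ℕ → ℝ, WW = fun k => if k ≤ 2 * k₁ then t + (k : ℝ) * ν * q else
    if k ≤ 2 * k₁ + 1 then t else t + -β * q := ⟨_, rfl⟩
  have AAk : ∀ k ≤ 2 * k₁, AA k = t + k * ν * q := fun k hk => by rw [hAA]; simp only [if_pos hk]
  have WWk : ∀ k ≤ 2 * k₁, WW k = t + k * ν * q := fun k hk => by rw [hWW]; simp only [if_pos hk]
  have AAa : AA (2 * k₁ + 1) = t + 2 * q := by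
    rw [hAA]
    simp only [if_neg (show ¬ (2 * k₁ + 1 ≤ 2 * k₁) by omega),
      if_pos (show 2 * k₁ + 1 ≤ 2 * k₁ + 2 by omega)]
  have AAb : AA (2 * k₁ + 2) = t + 2 * q := by
    rw [hAA]
    simp only [if_neg (show ¬ (2 * k₁ + 2 ≤ 2 * k₁) by omega), if_pos le_rfl]
  have AAc : AA (2 * k₁ + 3) = t + 3 * q := by
    rw [hAA]
    simp only [if_neg (show ¬ (2 * k₁ + 3 ≤ 2 * k₁) by omega),
      if_neg (show ¬ (2 * k₁ + 3 ≤ 2 * k₁ + 2) by omega)]
  have WWa : WW (2 * k₁ + 1) = t := by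
    rw [hWW]
    simp only [if_neg (show ¬ (2 * k₁ + 1 ≤ 2 * k₁) by omega), if_pos le_rfl]
  have WWb : WW (2 * k₁ + 2) = t + -β * q := by
    rw [hWW]
    simp only [if_neg (show ¬ (2 * k₁ + 2 ≤ 2 * k₁) by omega),
      if_neg (show ¬ (2 * k₁ + 2 ≤ 2 * k₁ + 1) by omega)]
  have WWc : WW (2 * k₁ + 3) = t + -β * q := by
    rw [hWW]
    simp only [if_neg (show ¬ (2 * k₁ + 3 ≤ 2 * k₁) by omega),
      if_neg (show ¬ (2 * k₁ + 3 ≤ 2 * k₁ + 1) by omega)]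
  have AA0 : AA 0 = t := by rw [AAk 0 (Nat.zero_le _)]; push_cast; ring
  have AA1 : AA k₁ = t + q := by rw [AAk k₁ (by omega), hkν, one_mul]
  have AAN : AA (2 * k₁) = t + 2 * q := by
    rw [AAk _ le_rfl]
    push_cast
    rw [mul_assoc (2 : ℝ), hkν]
    ring
  have WA : ∀ k ≤ 2 * k₁, WW k = AA k := fun k hk => by rw [WWk k hk, AAk k hk]
  have hkk : ∀ k < 2 * k₁ + 4, k ≤ 2 * k₁ ∨ k = 2 * k₁ + 1 ∨ k = 2 * k₁ + 2 ∨ k = 2 * k₁ + 3 :=
    fun k hk => by omega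
  have kq : ∀ k ≤ 2 * k₁, 0 ≤ (k : ℝ) * ν * q ∧ (k : ℝ) * ν * q ≤ 2 * q := fun k hk =>
    ⟨mul_nonneg (hxk k hk).1 hq.le, mul_le_mul_of_nonneg_right (hxk k hk).2 hq.le⟩
  have hWlo : ∀ k < 2 * k₁ + 4, t - K * q ≤ WW k := fun k hk => by
    rcases hkk k hk with h1 | h1 | h1 | h1
    · rw [WWk k h1]
      linarith [(kq k h1).1]
    · rw [h1, WWa]
      linarith
    · rw [h1, WWb]
      linarith
    · rw [h1, WWc]
      linarith
  have hWA : ∀ k < 2 * k₁ + 4, WW k ≤ AA k := fun k hk => by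
    rcases hkk k hk with h1 | h1 | h1 | h1
    · rw [WWk k h1, AAk k h1]
    · rw [h1, WWa, AAa]
      linarith
    · rw [h1, WWb, AAb]
      linarith
    · rw [h1, WWc, AAc]
      linarith
  have hAhi : ∀ k < 2 * k₁ + 4, AA k ≤ t + K * q := fun k hk => by
    rcases hkk k hk with h1 | h1 | h1 | h1
    · rw [AAk k h1]
      linarith [(kq k h1).2]
    · rw [h1, AAa]
      linarith
    · rw [h1, AAb]
      linarith
    · rw [h1, AAc]
      linarith
  have hlq : 0 ≤ lam * q := mul_nonneg hlam0.le hq.le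
  have hballs : ∀ k ≤ 2 * k₁, NodF S' c 3 D L (Eb 3) (Eb 3) (AA k) (AA k) := fun k hk => by
    rw [AAk k hk]
    exact (nodA R' hn k (by omega)).up (by omega)
  have hnod : ∀ k < 2 * k₁ + 4, NodF S' c 3 D (L3m L (lam * q)) (Eb 3) (Eb 3) (AA k) (WW k) :=
      fun k hk => by
    refine nodF_low ?_ hlq
    rcases hkk k hk with h1 | h1 | h1 | h1
    · rw [WA k h1]
      exact hballs k h1
    · have h2 := (nodB R' hn (nc + 3) (by omega)).1.up (show D₂ ≤ D by omega)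
      rw [AL2 _ (by omega), VL3 _ (by omega), zero_mul, add_zero] at h2
      rw [h1, WWa, AAa]
      exact h2
    · have h2 := (nodB R' hn (nc + 2) (by omega)).1.up (show D₂ ≤ D by omega)
      rw [AL2 _ (by omega), VL2 _ (by omega) le_rfl] at h2
      rw [h1, WWb, AAb]
      exact h2
    · have h2 := (nodB R' hn (nc + 1) (by omega)).1.up (show D₂ ≤ D by omega)
      rw [AL1 _ le_rfl, VL2 _ (by omega) (by omega)] at h2
      rw [h1, WWc, AAc]
      exact h2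
  -- the coarse windows
  have hco : ∀ k : ℕ, ∃ i ≤ nc, k ≤ 2 * k₁ → (i : ℝ) * δ ≤ k * ν ∧ (k : ℝ) * ν ≤ i * δ + δ :=
      fun k => by
    rcases Nat.lt_or_ge (2 * k₁) k with h1 | h1
    · exact ⟨0, Nat.zero_le _, fun h2 => absurd h2 (by omega)⟩
    · obtain ⟨i, h2, h3, h4⟩ := coarse_ex hδ0 hncδ (hxk k h1).1 (hxk k h1).2
      exact ⟨i, h2, fun _ => ⟨h3, h4⟩⟩
  choose iK hiK hiK' using hco
  have hcow : ∀ k ≤ 2 * k₁, t ≤ t + iK k * δ * q ∧ t + iK k * δ * q ≤ AA k ∧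
      AA k ≤ t + iK k * δ * q + δ * q := fun k hk => by
    obtain ⟨h1, h2⟩ := hiK' k hk
    rw [AAk k hk]
    have h3 := mul_le_mul_of_nonneg_right h1 hq.le
    have h4 := mul_le_mul_of_nonneg_right h2 hq.le
    have h5 : 0 ≤ (iK k : ℝ) * δ * q := by positivity
    refine ⟨by linarith, by linarith, by linarith⟩
  have htA : ∀ k ≤ 2 * k₁, t ≤ AA k ∧ AA k ≤ t + 2 * q := fun k hk => by
    rw [AAk k hk]
    have := kq k hk
    constructor <;> linarith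
  have hσδq : (b : ℝ) * (δ * q) ≤ lam / 4 * q := by
    have h1 : (b : ℝ) * (δ * q) ≤ σ * (δ * q) :=
      mul_le_mul_of_nonneg_right hb1 (by positivity)
    have h2 := mul_le_mul_of_nonneg_right hσδ hq.le
    linarith
  have hρlam : 16 * (ρ * q) = lam * q := by rw [hρ]; ring
  have hερ : 8 * (ε * q) ≤ ρ * q := by
    have := mul_le_mul_of_nonneg_right hε3 hq.le
    linarith
  have hες : 8 * (ε * q) ≤ ς * q := by
    have := mul_le_mul_of_nonneg_right hε2 hq.le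
    linarith
  have hςq : 0 < ς * q := mul_pos hς0 hq
  have hςCq0 : 16 * (C₀ * (ς * q)) ≤ q := by
    have := mul_le_mul_of_nonneg_right hςC0 hq.le
    linarith
  have hςCq1 : 16 * ((C + 1) * (ς * q)) ≤ q := by
    have := mul_le_mul_of_nonneg_right hςC1 hq.le
    linarith
  have hς1q : 16 * (ς * q) ≤ q := by
    have := mul_le_mul_of_nonneg_right hς1 hq.le
    linarith
  have hlam16 : 16 * (lam * q) ≤ q := by
    have := mul_le_mul_of_nonneg_right (show 16 * lam ≤ 1 by linarith) hq.le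
    linarith
  refine hnn (Db := D) R' hn s1 hσ.symm k3 hε0.le hlam0.le hlam1 hlam2 (2 * k₁ + 4) AA WW
    hWlo hWA hAhi hnod (2 * k₁) (2 * k₁) k₁ le_rfl (by omega) (fun k => k) (fun _ => 2 * k₁ + 1)
    (fun k hk => ⟨by omega, WA k hk⟩) (fun k hk => ?_)
    (fun k h1 h2 => ⟨by omega, ?_, by rw [WWa, AA0]⟩) AA0 AA1 AAN (ν * q) (ς * q) (ς * q)
    (fun k hk => ?_) (by positivity) (mul_le_mul_of_nonneg_right hνϰ hq.le)
    (mul_le_mul_of_nonneg_right hςϰ hq.le) (by linarith) hςq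
    (mul_le_mul_of_nonneg_right hςϰ hq.le) (by linarith) (w := t) (pN := L 3 t t - ρ * q)
    (x := ρ * q) (p := fun k => L 3 (AA k) (AA k) - 2 * e)
    (p₂ := fun k => L 2 (AA k) (AA k) - 2 * e)
    (y := fun k => L 2 (AA k) (AA k) - L 3 (t + iK k * δ * q) (t + iK k * δ * q) + 2 * (ρ * q))
    (Ψ := Ψ) le_rfl hρq.le (by linarith) (by linarith) (by linarith) (fun k hk => ?_)
    (fun k hk => ?_) (fun J F A V z z' G' hG => ?_) le_rfl (fun k hk => ?_) (fun k hk => ?_)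
    (fun k hk => ?_) D' le_rfl (Or.inr ?_) (k₂ := k₁) (by omega) hkν hex
  · -- the balls are ordered
    show AA k ≤ AA (k + 1)
    rw [AAk k hk.le, AAk (k + 1) (by omega)]
    push_cast
    have : 0 < ν * q := mul_pos hν0 hq
    linarith
  · -- the static node
    have h3 : k = 2 * k₁ := le_antisymm h2 h1
    show AA (2 * k₁ + 1) = AA k
    rw [h3, AAa, AAN]
  · show AA (k + 1) ≤ AA k + ν * q
    rw [AAk k hk.le, AAk (k + 1) (by omega)]
    push_cast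
    linarith
  · -- lq
    show L 3 t t + b * (AA k - t) ≤ L 3 (AA k) (AA k) - 2 * e + ς * q + lam * q
    obtain ⟨h1, h2⟩ := htA k hk
    have h3 := (abs_le.1 (l3 (AA k) (by linarith) (by linarith))).1
    have h4 : (b : ℝ) * (AA k - t) ≤ σ * (AA k - t) :=
      mul_le_mul_of_nonneg_right hb1 (by linarith)
    rw [he]
    linarith
  · -- bl
    show L 2 (AA k) (AA k) - L 3 (t + iK k * δ * q) (t + iK k * δ * q) + 2 * (ρ * q) +
      (L 3 t t + b * (AA k - t)) ≤ L 2 (AA k) (AA k) + ς * q + lam * q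
    obtain ⟨h1, h2, h3⟩ := hcow k hk
    obtain ⟨h4, h5⟩ := htA k hk
    obtain ⟨w₁, hw₁⟩ : ∃ w₁, w₁ = t + iK k * δ * q := ⟨_, rfl⟩
    rw [← hw₁] at h1 h2 h3 ⊢
    have h6 := (abs_le.1 (l3 w₁ (by linarith) (by linarith))).1
    have h7 : (b : ℝ) * (w₁ - t) ≤ σ * (w₁ - t) :=
      mul_le_mul_of_nonneg_right hb1 (by linarith)
    have h8 : (b : ℝ) * (AA k - t) ≤ b * (w₁ + δ * q - t) :=
      mul_le_mul_of_nonneg_left (by linarith) (Nat.cast_nonneg b)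
    have h9 : (b : ℝ) * (w₁ + δ * q - t) = b * (w₁ - t) + b * (δ * q) := by ring
    linarith
  · -- the labels of the family
    rw [hΨ] at hG
    exact hG.1.1.mono (Finset.Subset.refl _) (by omega) le_rfl
  · -- the blind labels
    obtain ⟨h1, h2, h3⟩ := hcow k hk
    obtain ⟨h4, h5⟩ := htA k hk
    obtain ⟨w₁, hw₁⟩ : ∃ w₁, w₁ = t + iK k * δ * q := ⟨_, rfl⟩
    show BlB S' c 2 (c 3) t (AA k) D D (L 3 (AA k) (AA k) - 2 * e) (L 2 (AA k) (AA k) - 2 * e)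
      (L 2 (AA k) (AA k) - L 3 (t + iK k * δ * q) (t + iK k * δ * q) + 2 * (ρ * q)) Ψ
    have m2 := hmon 2 (by omega) (t + iK k * δ * q) (AA k) (by linarith) h2 (by linarith)
    have m3 := hmon 3 hn (t + iK k * δ * q) (AA k) (by linarith) h2 (by linarith)
    have h6 : 0 ≤ L 2 (AA k) (AA k) := by
      have := recG_low R (i := 2) (by omega) (a := AA k) (w := AA k) (by linarith) le_rfl
        (by linarith)
      linarith
    refine blB_nod R'.tmh hD1 (R.inj.mono fun x hx => by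
      rw [Set.mem_Iio] at hx ⊢
      omega) (K₁ := D₁) (v₁ := t + iK k * δ * q)
      (p₁ := L 3 (t + iK k * δ * q) (t + iK k * δ * q) - ρ * q)
      (x₀ := L 2 (t + iK k * δ * q) (t + iK k * δ * q) -
        L 3 (t + iK k * δ * q) (t + iK k * δ * q) + ρ * q) (hballs k hk) (by omega) le_rfl h2
      (by linarith) (fun J F A V z z' G' hG => ?_) h6 (by linarith) (by linarith) ?_
    · rw [hΨ] at hG
      exact hG.1.2 (iK k) (by have := hiK k; omega)
    · rw [he]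
      linarith
  · -- the labels of the target
    refine ⟨e, he0, Bas.mono 0 (hΦ (k + 1)) ?_⟩
    rintro J - F A h1
    rw [hΦs] at h1
    obtain ⟨V₁, z₁, z₁', G₁, P₁, h2, h3⟩ := h1 (by omega) 3 le_rfl
    show ∃ (P₁ : ℕ) (V₁ : Type) (z₁ : PtT F → V₁) (z₁' : LnT F → V₁)
      (G₁ : V₁ → MvPolynomial (Option (Fin n)) ℝ),
      LbP F ((range 3).image c) (c 3) D J ⌊AA k * J⌋₊ P₁ A z₁ z₁' G₁ ∧
        (L 3 (AA k) (AA k) - 2 * e + e) * J ≤ P₁
    rw [AAk k hk]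
    refine ⟨P₁, V₁, z₁, z₁', G₁, h2, ?_⟩
    rw [show L 3 (t + k * ν * q) (t + k * ν * q) - 2 * e + e =
      L 3 (t + k * ν * q) (t + k * ν * q) - e by ring]
    exact h3
  · -- the labels of the third coordinate
    refine ⟨e, he0, Bas.mono 0 (hΦ (k + 1)) ?_⟩
    rintro J - F A h1
    rw [hΦs] at h1
    obtain ⟨V₁, z₁, z₁', G₁, P₁, h2, h3⟩ := h1 (by omega) 2 (by norm_num)
    show ∃ (P₁ : ℕ) (V₁ : Type) (z₁ : PtT F → V₁) (z₁' : LnT F → V₁)
      (G₁ : V₁ → MvPolynomial (Option (Fin n)) ℝ),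
      LbP F ((range 2).image c) (c 2) D J ⌊AA k * J⌋₊ P₁ A z₁ z₁' G₁ ∧
        (L 2 (AA k) (AA k) - 2 * e + e) * J ≤ P₁
    rw [AAk k hk]
    refine ⟨P₁, V₁, z₁, z₁', G₁, h2, ?_⟩
    rw [show L 2 (t + k * ν * q) (t + k * ν * q) - 2 * e + e =
      L 2 (t + k * ν * q) (t + k * ν * q) - e by ring]
    exact h3
  · -- the mixed derivative
    show MxS S' c D D' (2 * k₁ + 4) (L3m L (lam * q)) (Eb 3) (Eb 3) (ς * q) (ς * q) t AA WW
      (2 * k₁ + 1) (L 3 t t + 2 * σ * q - lam * q) Ψ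
    have t3 := hsta (t + 2 * q) (t + -β * q) (by linarith) (by linarith) (by linarith)
    have d3 := abs_le.1 (l3 (t + 2 * q) (by linarith) (by linarith))
    have d3' := abs_le.1 (l3 (t + 3 * q) (by linarith) (by linarith))
    have de3 := abs_le.1 (l3 (t + -β * q) (by linarith) (by linarith))
    have de2 := abs_le.1 (l2 (t + -β * q) (by linarith) (by linarith))
    have u2 := hthin (t + 3 * q) (t + -β * q) (by linarith) (by linarith) (by linarith)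
    have dT := abs_le.1 (R.dT 2 (by omega) (t + -β * q) (hbx' _ (by linarith) (by linarith)))
    rw [← hα] at dT
    have hr2 := W3.room 2 (by norm_num) t (hbx' t (by linarith) (by linarith))
    have sl := (R.lawL 2 (by omega)).slope t t (2 * q) (by linarith) le_rfl (by linarith)
      (by linarith)
    have hE := W3.Eb0
    rw [min_eq_right (by linarith)] at sl
    have h30 : L 3 (t + 2 * q) (t + -β * q) ≤ L 3 (t + 3 * q) (t + -β * q) :=
      (R.lawL 3 hn).mono_a _ _ _ (by linarith) (by linarith) (by linarith) (by linarith)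
    have hlow2 := recG_low R (i := 2) (by omega) (a := t + 3 * q) (w := t + -β * q)
      (by linarith) (by linarith) (by linarith)
    have hαβ : 2 * q ≤ α * (β * q) - β * q := by
      have := mul_le_mul_of_nonneg_right hβ2 hq.le
      linarith
    have hσβ : 2 * (σ * q) ≤ β * q + α * (β * q) - σ * (β * q) := by
      have := mul_le_mul_of_nonneg_right hβ3 hq.le
      linarith
    have e2q : t + 2 * q - t = 2 * q := by ring
    have e3q : t + 3 * q - t = 3 * q := by ring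
    have eβq : t + -β * q - t = -(β * q) := by ring
    rw [e2q] at d3
    rw [e3q] at d3'
    rw [eβq] at de3 de2 dT
    rw [hΨ]
    refine hmx (Dr := D') (i := 2 * k₁ + 1) (j := 2 * k₁ + 2) (k := 2 * k₁ + 3)
      (γ := L 3 t t + 2 * σ * q - lam * q) (y := L 2 t t + 2 * q -
        (L 3 t t + 2 * σ * q - lam * q)) (R.inj.mono fun x hx => by
      rw [Set.mem_Iio] at hx ⊢
      omega) hDD' (by omega) hςq.le (by omega) (by omega) AAc WWc (by rw [AAb]; linarith)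
      (by rw [WWb]) (by rw [AAb, AAa]) (by rw [WWb, WWa]; linarith) ?_ ?_ ?_ ?_ ?_ ?_ ?_ ?_
    · rw [l3m_three, AAb, WWb]
      linarith
    · rw [l3m_ne _ _ (by norm_num), AAa, WWa]
      linarith
    · rw [l3m_ne _ _ (by norm_num)]
      linarith
    · rw [l3m_ne _ _ (by norm_num), l3m_three, AAb, WWb]
      linarith
    · rw [l3m_ne _ _ (by norm_num), l3m_three]
      linarith
    · rw [l3m_ne _ _ (by norm_num)]
      linarith
    · linarith
    · linarith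

end Pool.STV90
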