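import Pool.Agent.H90.STV.Rwh
import Pool.Agent.H90.STV.T5r
import Pool.Agent.H19.FLN.F1s

/-!
# The family of a virtual static target at all records

`VsT`: at all records of four coordinates, in a subclass, a family of labels of the static target
closed at the window `t - Y q`, with a row chain at the pair of windows `(t + a q, t - β q)`, and the
velocity at the window `t + kr q` is few bits.
-/

set_option autoImplicit false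

namespace Pool.STV90

open Finset Real MvPolynomial
open Pool.Agent.H49.Ent Pool.Agent.H32.Dense Pool.STK Pool.KA Pool.KSAT Pool.K2S Pool.PB Pool.S6C
  Pool.GEN Pool.RCD Pool.LA91 Pool.PKG Pool.ALT
open Pool.CHT Pool.CHX Pool.ISO Pool.D2R
open Pool.GRD (LbP)

/-- **The family of a virtual static target at all records**, under the hypothesis `Z lam` on the
class. -/
def VsT (h : ℝ) (Sl : ℕ → ℝ) (κ : ℕ → Kg) {ι Λ : Type} (Q : PropG 4 ι) (Z : PropZ 4 Λ) : Prop :=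
  ∀ al : ℝ, 0 < al → ∀ K₀ : ℝ, 0 < K₀ → ∀ S₀ : ℕ, 1 ≤ S₀ → ∀ y : ℝ, 1 ≤ y →
  ∃ Y a β μ : ℝ, 1 ≤ Y ∧ Y ≤ β ∧ y + 1 ≤ a ∧ a + 2 ≤ (Sl 2 - 1) * β ∧
    (Sl 3 - Sl 2) * β + (Sl 3 - 1) * y + 1 ≤ μ ∧
    (∀ v : ℝ, 0 ≤ v → v ≤ y → (Sl 3 - Sl 2) * (v + β) + 1 ≤ μ) ∧
  ∃ (Kr : ℝ) (Nr : ℕ) (Ar Vr : ℕ → ℝ), 1 ≤ Kr ∧ (∀ k < Nr, -Kr ≤ Vr k ∧ Vr k ≤ Ar k ∧ Ar k ≤ Kr) ∧
    (∃ k < Nr, Ar k = a ∧ Vr k = -β) ∧
  ∀ S₂ : ℕ, S₀ ≤ S₂ → ∃ Dw Kb : ℕ, 1 ≤ Dw ∧ 1 ≤ Kb ∧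
  ∀ kr δ : ℝ, 0 < kr → kr ≤ 1 → 0 < δ →
  ∃ (lam : Λ) (kf φ : ℝ), 0 < φ ∧ 0 ≤ kf ∧
  ∃ (K₁ : ℝ) (Nv : ℕ) (Vv : ℕ → ℝ), (∀ j < Nv, -K₁ ≤ Vv j ∧ Vv j ≤ K₁) ∧
  ∀ K' : ℝ, K₁ ≤ K' → ∃ ε₀ : ℝ, 0 < ε₀ ∧ ∀ ε : ℝ, 0 < ε → ε ≤ ε₀ →
  ∀ (S : PCl 4) (g₀ : ℝ → ℝ) (P : List (Fin 4) × Fin 4 → ℝ → ℝ → ℝ)
    (θ : ℝ) (P₂ : ℕ → List (Fin 4) × Fin 4 → ℝ → ℝ → ℝ) (θ₂ Eb e₂ : ℕ → ℝ) (c : ℕ → Fin 4)
    (Pt : ℝ → ℝ → ℝ) (rt : ℝ → ℝ) (L T : ℕ → ℝ → ℝ → ℝ) (G : Set ℝ) (g : ℝ),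
    IsClosed G → g ∈ G → (∀ l < 4, HasDerivAt (fun x => L l x x) (Sl l) g) →
    Z lam S P θ c Pt rt L T κ G g →
    ∃ (p : ℕ → ι) (M : ℕ) (B₀ B₁ : ℕ → ℝ),
    (∀ j < M, B₀ j < B₁ j) ∧ ∀ k₀ : ℕ → ℕ, (∀ j < M, Q (p j) (k₀ j) S P θ c Pt rt L T κ G g) →
    ∃ q₁ : ℝ, 0 < q₁ ∧ ∀ (q t : ℝ) (x : ℕ → ℝ),
      q < q₁ → (∀ j < M, x j ∈ G ∧ t + B₀ j * q ≤ x j ∧ x j ≤ t + B₁ j * q ∧
        Q (p j) (k₀ j) S P θ c Pt rt L T κ G (x j)) →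
      ∀ (N : ℕ) (A V : ℕ → ℝ) (N' : ℕ) (V' : ℕ → ℝ),
      RecG S al g₀ P θ P₂ θ₂ Eb e₂ c Pt rt h K₀ g L T Sl κ G S₀ N A V S₂ N' V' K' ε q t →
      (∀ k < Nr, ∃ j < N, A j = Ar k ∧ V j = Vr k) → (∀ k < Nv, ∃ j < N', V' j = Vv k) →
      ∃ (S' : PCl 4) (Ψ : Fml 4) (ρ : ℝ), 0 < ρ ∧ ρ ≤ 1 / 8 ∧ S'.Ne ∧ SubC S' S ∧
        (∀ (J : ℕ) (F : Fam 4 J) (A B : F.Ω → Prop) (V : Type) (z : PtT F → V)
          (z' : LnT F → V) (G : V → MvPolynomial (Option (Fin 4)) ℝ), Sub B A →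
          Ψ J F A V z z' G → Ψ J F B V z z' G) ∧
        (∀ (J : ℕ) (F : Fam 4 J) (A : F.Ω → Prop) (V : Type) (z : PtT F → V)
          (z' : LnT F → V) (G : V → MvPolynomial (Option (Fin 4)) ℝ), Ψ J F A V z z' G →
          LbP F ((range 3).image c) (c 3) Kb J ⌊(t + -Y * q) * J⌋₊
            ⌊(L 3 (t + -Y * q) (t + -Y * q) - 2 * ρ * q) * J⌋₊ A z z' G ∧
          RwE c 2 Dw (t + a * q) (t + -β * q) (Eb 3 + ρ * q)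
            (L 2 (t + -β * q) (t + -β * q) + (a * q - -β * q) + ρ * q)
            (L 3 (t + a * q) (t + a * q) - ρ * q)
            (L 2 (t + -β * q) (t + -β * q) - L 3 (t + -β * q) (t + -β * q) - μ * q + ρ * q)
            (t + -Y * q) J F A V z' G) ∧
        Bas S' (fun J F A => ∃ (V : Type) (z : PtT F → V) (z' : LnT F → V)
          (G : V → MvPolynomial (Option (Fin 4)) ℝ), Ψ J F A V z z' G) ∧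
        ∃ e1 : ℝ, 0 < e1 ∧ ∀ {pr N₂ : ℝ},
          L 3 (t + kr * q) (t + kr * q) - q / 4 ≤ pr → N₂ ≤ 1 →
          N₂ + (t + kr * q) ≤ L 3 (t + kr * q) (t + kr * q) + (Sl 3 - 1) * q →
          ∀ (Kf : ℕ) (cF : ℝ), 0 < cF →
          Bas S' (fun J F A => ∃ (V : Type) (z : F.Ω → V),
            Cl2 (fun ω => ptr F J ω) (slam F ⌊(t + kr * q) * J⌋₊) A z ∧
            ∀ B : F.Ω → Prop, Sub B A → cF * Pe F.p A ≤ Pe F.p B →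
            ∀ (V₁ : Type) (z₁ : PtT F → V₁) (z₁' : LnT F → V₁)
              (G₁ : V₁ → MvPolynomial (Option (Fin 4)) ℝ), Ψ J F B V₁ z₁ z₁' G₁ →
            ∀ (V₂ : Type) (z₂ : PtT F → V₂) (z₂' : LnT F → V₂)
              (Q : V₂ → MvPolynomial (Option (Fin 4)) ℝ), (∀ y, (Q y).totalDegree ≤ Kf) →
            (∀ y, DepC c 2 (Q y)) →
            (∀ ω, B ω → z₂ (ptr F J ω) = z₂' (slam F ⌊(t + kr * q) * J⌋₊ ω)) →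
            (∀ ω, B ω → |F.x ω (c 3) -
              eval (bt F ω) (G₁ (z₁ (ptr F J ω)) + Q (z₂ (ptr F J ω)))| *
                2 ^ ⌊(pr - e1) * J⌋₊ ≤ 1) →
            (∀ ω, B ω → |ojet F (c 3) 1 (G₁ (z₁ (ptr F J ω)) + Q (z₂ (ptr F J ω))) ω| *
              2 ^ ⌊(pr - e1) * J⌋₊ ≤ 2 ^ ⌊(t + kr * q) * J⌋₊) →
            ∀ u, (qJets 4 c 0 2 1 (fun _ _ => t + kr * q)
                (fun l _ => L l (t + kr * q) (t + kr * q) - φ * q)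
                (fun l j => L l (t + kr * q) (t + kr * q) + kf * q -
                  (j : ℕ) * (t + kr * q))).P Kf e1 J F B u →
            CH (Pool.Agent.H49.Ent.cond F.p B True) (fun ω => ⌊(2 : ℝ) ^ (N₂ * J) *
                ojet F (c 3) 1 (G₁ (z₁ (ptr F J ω)) + Q (z₂ (ptr F J ω))) ω⌋)
              (fun ω => (u ω, (z ω, F.T ω))) ≤ δ * q * J)

end Pool.STV90
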